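import Mathlib

/-!
# A ball-algebra function in `ℂ²` whose zero set contains no nontangential path (MP_922b93_an)

`ff η = ∑ₖ ηᵏ · PP (mₖ)`, where `PP m` is a sum of twenty homogeneous polynomials of degrees
`m², 2m², …, 20m²`, each bounded on the sphere by an absolute constant, and such that at every
point of the sphere at least one of them is bounded below by an absolute constant.
-/

set_option autoImplicit false

namespace Pool.Agent.Helper140.NT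


lemma pow_le_aux (m j : ℕ) (hm : 0 < m) (x : ℝ) (hx0 : 0 ≤ x) :
    x ^ j ≤ ((j : ℝ) / m) ^ j * Real.exp (2 * m * (Real.sqrt x * Real.sqrt ((j : ℝ) / m) - (j : ℝ) / m)) := by
  rcases Nat.eq_zero_or_pos j with h | h
  · subst h; simp
  · have hm' : (0 : ℝ) < m := by exact_mod_cast hm
    have hj' : (0 : ℝ) < j := by exact_mod_cast h
    set t : ℝ := (j : ℝ) / m with ht
    have ht0 : 0 < t := div_pos hj' hm'
    set a := Real.sqrt x with ha
    set b := Real.sqrt t with hb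
    have hb0 : 0 < b := Real.sqrt_pos.mpr ht0
    have ha0 : 0 ≤ a := Real.sqrt_nonneg x
    have hxa : x = a ^ 2 := (Real.sq_sqrt hx0).symm
    have htb : t = b ^ 2 := (Real.sq_sqrt ht0.le).symm
    have h1 : a / b ≤ Real.exp (a / b - 1) := by
      have := Real.add_one_le_exp (a / b - 1)
      linarith
    have h2 : x / t ≤ Real.exp (2 * (a / b - 1)) := by
      have : x / t = (a / b) ^ 2 := by rw [hxa, htb]; field_simp
      rw [this]
      calc (a / b) ^ 2 ≤ (Real.exp (a / b - 1)) ^ 2 := by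
            apply pow_le_pow_left₀ (by positivity) h1
        _ = Real.exp (2 * (a / b - 1)) := by
            rw [← Real.exp_nat_mul]; norm_num
    have h3 : (x / t) ^ j ≤ Real.exp (2 * m * (a * b - t)) := by
      calc (x / t) ^ j ≤ (Real.exp (2 * (a / b - 1))) ^ j := by
            apply pow_le_pow_left₀ (by positivity) h2
        _ = Real.exp (2 * m * (a * b - t)) := by
            rw [← Real.exp_nat_mul]
            congr 1
            have hj2 : (j : ℝ) = m * b ^ 2 := by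
              rw [← htb, ht]; field_simp
            rw [hj2, htb]
            field_simp
    have h4 : x ^ j = t ^ j * (x / t) ^ j := by
      rw [← mul_pow]; congr 1; field_simp
    rw [h4]
    apply mul_le_mul_of_nonneg_left h3 (by positivity)

lemma sq_aux (a b : ℝ) (ha0 : 0 ≤ a) (ha1 : a ≤ 1) (hb0 : 0 ≤ b) (hb1 : b ≤ 1) :
    (a ^ 2 - b ^ 2) ^ 2 ≤ 4 * (a - b) ^ 2 := by
  have h1 : (a ^ 2 - b ^ 2) ^ 2 = (a + b) ^ 2 * (a - b) ^ 2 := by ring
  rw [h1]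
  apply mul_le_mul_of_nonneg_right _ (sq_nonneg _)
  have h2 : a + b ≤ 2 := by linarith
  have h3 : 0 ≤ a + b := by linarith
  calc (a + b) ^ 2 ≤ 2 ^ 2 := pow_le_pow_left₀ h3 h2 2
    _ = 4 := by norm_num

lemma mono_upper (m j : ℕ) (hm : 0 < m) (hj : j ≤ m) (x : ℝ) (hx0 : 0 ≤ x) (hx1 : x ≤ 1) :
    x ^ j * (1 - x) ^ (m - j) ≤
      ((j : ℝ) / m) ^ j * (1 - (j : ℝ) / m) ^ (m - j) * Real.exp (-(m * ((j : ℝ) / m - x) ^ 2 / 2)) := by
  have hm' : (0 : ℝ) < m := by exact_mod_cast hm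
  have hj' : (0 : ℝ) ≤ j := by positivity
  have hjm : (j : ℝ) ≤ m := by exact_mod_cast hj
  have h1 := pow_le_aux m j hm x hx0
  have h2 := pow_le_aux m (m - j) hm (1 - x) (by linarith)
  have hc : (((m - j : ℕ) : ℝ)) / m = 1 - (j : ℝ) / m := by
    rw [Nat.cast_sub hj]; field_simp
  rw [hc] at h2
  set t : ℝ := (j : ℝ) / m with ht
  have ht0 : 0 ≤ t := div_nonneg hj' hm'.le
  have ht1 : t ≤ 1 := by rw [ht, div_le_one hm']; exact hjm
  set a := Real.sqrt x with ha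
  set b := Real.sqrt t with hb
  set a' := Real.sqrt (1 - x) with ha'
  set b' := Real.sqrt (1 - t) with hb'
  have ha2 : a ^ 2 = x := Real.sq_sqrt hx0
  have hb2 : b ^ 2 = t := Real.sq_sqrt ht0
  have ha'2 : a' ^ 2 = 1 - x := Real.sq_sqrt (by linarith)
  have hb'2 : b' ^ 2 = 1 - t := Real.sq_sqrt (by linarith)
  have ha0 : 0 ≤ a := Real.sqrt_nonneg _
  have hb0 : 0 ≤ b := Real.sqrt_nonneg _
  have ha'0 : 0 ≤ a' := Real.sqrt_nonneg _
  have hb'0 : 0 ≤ b' := Real.sqrt_nonneg _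
  have ha1 : a ≤ 1 := by
    rw [ha]; exact Real.sqrt_le_one.mpr hx1
  have hb1 : b ≤ 1 := by
    rw [hb]; exact Real.sqrt_le_one.mpr ht1
  have ha'1 : a' ≤ 1 := by
    rw [ha']; exact Real.sqrt_le_one.mpr (by linarith)
  have hb'1 : b' ≤ 1 := by
    rw [hb']; exact Real.sqrt_le_one.mpr (by linarith)
  have key1 : (t - x) ^ 2 ≤ 4 * (a - b) ^ 2 := by
    have h5 := sq_aux a b ha0 ha1 hb0 hb1
    rw [ha2, hb2] at h5
    have : (t - x) ^ 2 = (x - t) ^ 2 := by ring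
    rw [this]; exact h5
  have key2 : (t - x) ^ 2 ≤ 4 * (a' - b') ^ 2 := by
    have h5 := sq_aux a' b' ha'0 ha'1 hb'0 hb'1
    rw [ha'2, hb'2] at h5
    have : (t - x) ^ 2 = (1 - x - (1 - t)) ^ 2 := by ring
    rw [this]; exact h5
  have key : 2 * (m : ℝ) * (a * b - t) + 2 * m * (a' * b' - (1 - t)) ≤ -(m * (t - x) ^ 2 / 2) := by
    have e : (a - b) ^ 2 + (a' - b') ^ 2 = 2 - 2 * (a * b) - 2 * (a' * b') := by
      linear_combination ha2 + hb2 + ha'2 + hb'2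
    have h6 : 2 * (a * b - t) + 2 * (a' * b' - (1 - t)) ≤ -((t - x) ^ 2 / 2) := by linarith
    have h7 := mul_le_mul_of_nonneg_left h6 hm'.le
    calc 2 * (m : ℝ) * (a * b - t) + 2 * m * (a' * b' - (1 - t))
        = m * (2 * (a * b - t) + 2 * (a' * b' - (1 - t))) := by ring
      _ ≤ m * (-((t - x) ^ 2 / 2)) := h7
      _ = -(m * (t - x) ^ 2 / 2) := by ring
  calc x ^ j * (1 - x) ^ (m - j)
      ≤ (t ^ j * Real.exp (2 * m * (a * b - t))) *
        ((1 - t) ^ (m - j) * Real.exp (2 * m * (a' * b' - (1 - t)))) := by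
          apply mul_le_mul h1 h2 (pow_nonneg (by linarith) _) (by positivity)
    _ = t ^ j * (1 - t) ^ (m - j) *
        Real.exp (2 * m * (a * b - t) + 2 * m * (a' * b' - (1 - t))) := by
          rw [Real.exp_add]; ring
    _ ≤ t ^ j * (1 - t) ^ (m - j) * Real.exp (-(m * (t - x) ^ 2 / 2)) := by
          apply mul_le_mul_of_nonneg_left _ (mul_nonneg (pow_nonneg ht0 _) (pow_nonneg (by linarith) _))
          exact Real.exp_le_exp.mpr key

lemma pow_ge_aux (m j : ℕ) (hm : 0 < m) (x : ℝ) (hx0 : 0 < x) :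
    ((j : ℝ) / m) ^ j * Real.exp (m * ((j : ℝ) / m - ((j : ℝ) / m) ^ 2 / x)) ≤ x ^ j := by
  rcases Nat.eq_zero_or_pos j with h | h
  · subst h; simp
  · have hm' : (0 : ℝ) < m := by exact_mod_cast hm
    have hj' : (0 : ℝ) < j := by exact_mod_cast h
    set t : ℝ := (j : ℝ) / m with ht
    have ht0 : 0 < t := div_pos hj' hm'
    have h1 : t / x ≤ Real.exp (t / x - 1) := by
      have := Real.add_one_le_exp (t / x - 1)
      linarith
    have h2 : (t / x) ^ j ≤ Real.exp (m * (t ^ 2 / x - t)) := by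
      calc (t / x) ^ j ≤ (Real.exp (t / x - 1)) ^ j := by
            apply pow_le_pow_left₀ (by positivity) h1
        _ = Real.exp (m * (t ^ 2 / x - t)) := by
            rw [← Real.exp_nat_mul]
            congr 1
            have hj2 : (j : ℝ) = m * t := by
              rw [ht]; field_simp
            rw [hj2]
            field_simp
    have h4 : t ^ j = x ^ j * (t / x) ^ j := by
      rw [← mul_pow]; congr 1; field_simp
    rw [h4]
    have h5 : Real.exp (m * (t ^ 2 / x - t)) * Real.exp (m * (t - t ^ 2 / x)) = 1 := by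
      rw [← Real.exp_add]; simp; ring_nf
    calc x ^ j * (t / x) ^ j * Real.exp (m * (t - t ^ 2 / x))
        ≤ x ^ j * Real.exp (m * (t ^ 2 / x - t)) * Real.exp (m * (t - t ^ 2 / x)) := by
          apply mul_le_mul_of_nonneg_right _ (Real.exp_pos _).le
          apply mul_le_mul_of_nonneg_left h2 (by positivity)
      _ = x ^ j := by rw [mul_assoc, h5, mul_one]

lemma mono_lower (m j : ℕ) (hm : 0 < m) (hj : j ≤ m) (x : ℝ) (hx0 : 0 < x) (hx1 : x < 1) :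
      ((j : ℝ) / m) ^ j * (1 - (j : ℝ) / m) ^ (m - j) *
        Real.exp (-(m * ((j : ℝ) / m - x) ^ 2 / (x * (1 - x)))) ≤ x ^ j * (1 - x) ^ (m - j) := by
  have hm' : (0 : ℝ) < m := by exact_mod_cast hm
  have hj' : (0 : ℝ) ≤ j := by positivity
  have hjm : (j : ℝ) ≤ m := by exact_mod_cast hj
  have h1 := pow_ge_aux m j hm x hx0
  have h2 := pow_ge_aux m (m - j) hm (1 - x) (by linarith)
  have hc : (((m - j : ℕ) : ℝ)) / m = 1 - (j : ℝ) / m := by
    rw [Nat.cast_sub hj]; field_simp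
  rw [hc] at h2
  set t : ℝ := (j : ℝ) / m with ht
  have ht0 : 0 ≤ t := div_nonneg hj' hm'.le
  have ht1 : t ≤ 1 := by rw [ht, div_le_one hm']; exact hjm
  have h1x : 0 < 1 - x := by linarith
  have key : (m : ℝ) * (t - t ^ 2 / x) + m * ((1 - t) - (1 - t) ^ 2 / (1 - x))
      = -(m * (t - x) ^ 2 / (x * (1 - x))) := by
    field_simp
    ring
  calc t ^ j * (1 - t) ^ (m - j) * Real.exp (-(m * (t - x) ^ 2 / (x * (1 - x))))
      = (t ^ j * Real.exp (m * (t - t ^ 2 / x))) *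
        ((1 - t) ^ (m - j) * Real.exp (m * ((1 - t) - (1 - t) ^ 2 / (1 - x)))) := by
          rw [← key, Real.exp_add]; ring
    _ ≤ x ^ j * (1 - x) ^ (m - j) := by
          apply mul_le_mul h1 h2 (mul_nonneg (pow_nonneg (by linarith) _) (Real.exp_pos _).le)
            (by positivity)


lemma sum_half_inj (T : Finset ℕ) (g : ℕ → ℕ) (hg : Set.InjOn g T) :
    ∑ j ∈ T, (1 / 2 : ℝ) ^ (g j) ≤ 2 := by
  rw [← Finset.sum_image (f := fun i => (1 / 2 : ℝ) ^ i) hg]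
  calc ∑ x ∈ Finset.image g T, (1 / 2 : ℝ) ^ x ≤ ∑' (n : ℕ), (1 / 2 : ℝ) ^ n := by
        apply Summable.sum_le_tsum
        · intro i _; positivity
        · exact summable_geometric_two
    _ = 2 := tsum_geometric_two

lemma sum_half_pow (T : Finset ℕ) (j0 : ℕ) :
    ∑ j ∈ T, (1 / 2 : ℝ) ^ (((j : ℤ) - j0).natAbs) ≤ 4 := by
  rw [← Finset.sum_filter_add_sum_filter_not T (fun j => j ≤ j0)]
  have h1 := sum_half_inj (T.filter (fun j => j ≤ j0)) (fun j => ((j : ℤ) - j0).natAbs) (by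
    intro a ha b hb hab
    simp only [Finset.coe_filter, Set.mem_ofPred_eq] at ha hb
    simp only at hab
    omega)
  have h2 := sum_half_inj (T.filter (fun j => ¬ j ≤ j0)) (fun j => ((j : ℤ) - j0).natAbs) (by
    intro a ha b hb hab
    simp only [Finset.coe_filter, Set.mem_ofPred_eq] at ha hb
    simp only at hab
    omega)
  linarith

/-- nearest integer -/
lemma exists_near (m : ℕ) (y : ℝ) (hy0 : 0 ≤ y) (hym : y ≤ m) :
    ∃ j0 : ℕ, j0 ≤ m ∧ |(j0 : ℝ) - y| ≤ 1 / 2 := by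
  refine ⟨⌊y + 1 / 2⌋₊, ?_, ?_⟩
  · have : ⌊y + 1 / 2⌋₊ < m + 1 := by
      rw [Nat.floor_lt (by linarith)]
      push_cast; linarith
    omega
  · have h1 := Nat.floor_le (show 0 ≤ y + 1 / 2 by linarith)
    have h2 := Nat.lt_floor_add_one (y + 1 / 2)
    rw [abs_le]
    constructor <;> linarith

lemma exp_neg_nat_le (d : ℕ) : Real.exp (-(d : ℝ)) ≤ (1 / 2 : ℝ) ^ d := by
  have h1 : Real.exp (-1) ≤ 1 / 2 := by
    rw [Real.exp_neg]
    have := Real.add_one_le_exp (1 : ℝ)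
    rw [inv_le_comm₀ (Real.exp_pos _) (by norm_num)]
    linarith
  calc Real.exp (-(d : ℝ)) = (Real.exp (-1)) ^ d := by
        rw [← Real.exp_nat_mul]; ring_nf
    _ ≤ (1 / 2 : ℝ) ^ d := pow_le_pow_left₀ (Real.exp_pos _).le h1 d

noncomputable def kap (m j : ℕ) : ℝ :=
  (Real.sqrt (((j : ℝ) / m) ^ j * (1 - (j : ℝ) / m) ^ (m - j)))⁻¹

lemma den_pos (m j : ℕ) (hm : 0 < m) (hj : j ≤ m) :
    0 < ((j : ℝ) / m) ^ j * (1 - (j : ℝ) / m) ^ (m - j) := by
  have hm' : (0 : ℝ) < m := by exact_mod_cast hm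
  apply mul_pos
  · rcases Nat.eq_zero_or_pos j with h | h
    · subst h; simp
    · have hj' : (0 : ℝ) < j := by exact_mod_cast h
      positivity
  · rcases Nat.lt_or_ge j m with h | h
    · have hj' : (j : ℝ) < m := by exact_mod_cast h
      have : (j : ℝ) / m < 1 := by rw [div_lt_one hm']; exact hj'
      apply pow_pos; linarith
    · have : j = m := le_antisymm hj h
      subst this
      simp

noncomputable def bm (m j : ℕ) (a b : ℂ) : ℂ := (kap m j : ℂ) * (a ^ j * b ^ (m - j))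

lemma bm_sq (m j : ℕ) (hm : 0 < m) (hj : j ≤ m) (a b : ℂ) :
    ‖bm m j a b‖ ^ 2 = ((‖a‖ ^ 2) ^ j * (‖b‖ ^ 2) ^ (m - j)) /
      (((j : ℝ) / m) ^ j * (1 - (j : ℝ) / m) ^ (m - j)) := by
  have hd := den_pos m j hm hj
  unfold bm kap
  rw [norm_mul, norm_mul, norm_pow, norm_pow, Complex.norm_real, Real.norm_eq_abs,
    abs_of_nonneg (inv_nonneg.mpr (Real.sqrt_nonneg _)), mul_pow, inv_pow, Real.sq_sqrt hd.le]
  rw [mul_pow, ← pow_mul, ← pow_mul, ← pow_mul, ← pow_mul, mul_comm j 2, mul_comm (m - j) 2]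
  field_simp

lemma bm_upper (m j : ℕ) (hm : 0 < m) (hj : j ≤ m) (a b : ℂ) (hab : ‖a‖ ^ 2 + ‖b‖ ^ 2 = 1) :
    ‖bm m j a b‖ ^ 2 ≤ Real.exp (-(m * ((j : ℝ) / m - ‖a‖ ^ 2) ^ 2 / 2)) := by
  have hd := den_pos m j hm hj
  rw [bm_sq m j hm hj, div_le_iff₀ hd, mul_comm (Real.exp _)]
  have hb : ‖b‖ ^ 2 = 1 - ‖a‖ ^ 2 := by linarith
  rw [hb]
  apply mono_upper m j hm hj _ (sq_nonneg _)
  nlinarith [sq_nonneg ‖b‖]

lemma bm_lower (m j : ℕ) (hm : 0 < m) (hj : j ≤ m) (a b : ℂ) (hab : ‖a‖ ^ 2 + ‖b‖ ^ 2 = 1)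
    (h0 : 0 < ‖a‖ ^ 2) (h1 : ‖a‖ ^ 2 < 1) :
    Real.exp (-(m * ((j : ℝ) / m - ‖a‖ ^ 2) ^ 2 / (‖a‖ ^ 2 * (1 - ‖a‖ ^ 2)))) ≤ ‖bm m j a b‖ ^ 2 := by
  have hd := den_pos m j hm hj
  rw [bm_sq m j hm hj, le_div_iff₀ hd, mul_comm (Real.exp _)]
  have hb : ‖b‖ ^ 2 = 1 - ‖a‖ ^ 2 := by linarith
  rw [hb]
  exact mono_lower m j hm hj _ h0 h1

lemma bmpow_upper (m j l : ℕ) (hm : 0 < m) (hj : j ≤ m) (a b : ℂ) (hab : ‖a‖ ^ 2 + ‖b‖ ^ 2 = 1) :
    ‖(bm m j a b) ^ ((l + 1) * m)‖ ≤ Real.exp (-((l + 1) * ((j : ℝ) - m * ‖a‖ ^ 2) ^ 2 / 4)) := by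
  have hm' : (0 : ℝ) < m := by exact_mod_cast hm
  have h1 := bm_upper m j hm hj a b hab
  rw [norm_pow]
  apply (pow_le_pow_iff_left₀ (by positivity) (Real.exp_pos _).le two_ne_zero).mp
  calc (‖bm m j a b‖ ^ ((l + 1) * m)) ^ 2 = (‖bm m j a b‖ ^ 2) ^ ((l + 1) * m) := by
        rw [← pow_mul, ← pow_mul, mul_comm]
    _ ≤ (Real.exp (-(m * ((j : ℝ) / m - ‖a‖ ^ 2) ^ 2 / 2))) ^ ((l + 1) * m) := by
        apply pow_le_pow_left₀ (by positivity) h1
    _ = (Real.exp (-((l + 1) * ((j : ℝ) - m * ‖a‖ ^ 2) ^ 2 / 4))) ^ 2 := by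
        rw [← Real.exp_nat_mul, ← Real.exp_nat_mul]
        congr 1
        push_cast
        field_simp
        ring

lemma bmpow_lower (m j l : ℕ) (hm : 0 < m) (hj : j ≤ m) (a b : ℂ) (hab : ‖a‖ ^ 2 + ‖b‖ ^ 2 = 1)
    (h0 : 0 < ‖a‖ ^ 2) (h1 : ‖a‖ ^ 2 < 1) :
    Real.exp (-((l + 1) * ((j : ℝ) - m * ‖a‖ ^ 2) ^ 2 / (2 * (‖a‖ ^ 2 * (1 - ‖a‖ ^ 2)))))
      ≤ ‖(bm m j a b) ^ ((l + 1) * m)‖ := by
  have hm' : (0 : ℝ) < m := by exact_mod_cast hm
  have h2 := bm_lower m j hm hj a b hab h0 h1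
  have h3 : 0 < 1 - ‖a‖ ^ 2 := by linarith
  rw [norm_pow]
  apply (pow_le_pow_iff_left₀ (Real.exp_pos _).le (by positivity) two_ne_zero).mp
  calc (Real.exp (-((l + 1) * ((j : ℝ) - m * ‖a‖ ^ 2) ^ 2 / (2 * (‖a‖ ^ 2 * (1 - ‖a‖ ^ 2)))))) ^ 2
      = (Real.exp (-(m * ((j : ℝ) / m - ‖a‖ ^ 2) ^ 2 / (‖a‖ ^ 2 * (1 - ‖a‖ ^ 2))))) ^ ((l + 1) * m) := by
        rw [← Real.exp_nat_mul, ← Real.exp_nat_mul]
        congr 1
        push_cast
        generalize ‖a‖ ^ 2 = x at *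
        have hx : x ≠ 0 := h0.ne'
        have hx1 : 1 - x ≠ 0 := h3.ne'
        field_simp
    _ ≤ (‖bm m j a b‖ ^ 2) ^ ((l + 1) * m) := by
        apply pow_le_pow_left₀ (Real.exp_pos _).le h2
    _ = (‖bm m j a b‖ ^ ((l + 1) * m)) ^ 2 := by
        rw [← pow_mul, ← pow_mul, mul_comm]


noncomputable def pm (m l r : ℕ) (a b : ℂ) : ℂ :=
  ∑ j ∈ (Finset.range (m + 1)).filter (fun j => j % 10 = r), (bm m j a b) ^ ((l + 1) * m)

lemma pm_homog (m l r : ℕ) (lam a b : ℂ) :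
    pm m l r (lam * a) (lam * b) = lam ^ ((l + 1) * m ^ 2) * pm m l r a b := by
  unfold pm
  rw [Finset.mul_sum]
  apply Finset.sum_congr rfl
  intro j hj
  simp only [Finset.mem_filter, Finset.mem_range] at hj
  have hjm : j ≤ m := by omega
  have h1 : bm m j (lam * a) (lam * b) = lam ^ m * bm m j a b := by
    unfold bm
    rw [mul_pow, mul_pow]
    have : lam ^ m = lam ^ j * lam ^ (m - j) := by
      rw [← pow_add]; congr 1; omega
    rw [this]; ring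
  rw [h1, mul_pow, ← pow_mul]
  congr 2
  ring

lemma pm_upper (m l r : ℕ) (hm : 0 < m) (a b : ℂ) (hab : ‖a‖ ^ 2 + ‖b‖ ^ 2 = 1) :
    ‖pm m l r a b‖ ≤ 4 * Real.exp 2 := by
  have hm' : (0 : ℝ) < m := by exact_mod_cast hm
  have hx0 : 0 ≤ ‖a‖ ^ 2 := by positivity
  have hx1 : ‖a‖ ^ 2 ≤ 1 := by nlinarith [sq_nonneg ‖b‖]
  obtain ⟨j0, hj0, hn⟩ := exists_near m (m * ‖a‖ ^ 2) (by positivity) (by nlinarith)
  unfold pm
  calc ‖∑ j ∈ (Finset.range (m + 1)).filter (fun j => j % 10 = r), (bm m j a b) ^ ((l + 1) * m)‖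
      ≤ ∑ j ∈ (Finset.range (m + 1)).filter (fun j => j % 10 = r), ‖(bm m j a b) ^ ((l + 1) * m)‖ :=
        norm_sum_le _ _
    _ ≤ ∑ j ∈ (Finset.range (m + 1)).filter (fun j => j % 10 = r),
          Real.exp 2 * (1 / 2 : ℝ) ^ (((j : ℤ) - j0).natAbs) := by
        apply Finset.sum_le_sum
        intro j hj
        simp only [Finset.mem_filter, Finset.mem_range] at hj
        have hjm : j ≤ m := by omega
        refine (bmpow_upper m j l hm hjm a b hab).trans ?_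
        have h1 : ((((j : ℤ) - j0).natAbs : ℕ) : ℝ) = |(j : ℝ) - j0| := by
          rw [Nat.cast_natAbs]; push_cast; rfl
        have h2 : |(j : ℝ) - j0| ≤ |(j : ℝ) - m * ‖a‖ ^ 2| + 1 / 2 := by
          have := abs_sub_le (j : ℝ) (m * ‖a‖ ^ 2) j0
          rw [abs_sub_comm (m * ‖a‖ ^ 2) (j0 : ℝ)] at this
          linarith
        have h3 := exp_neg_nat_le (((j : ℤ) - j0).natAbs)
        have h4 : Real.exp (-((l + 1) * ((j : ℝ) - m * ‖a‖ ^ 2) ^ 2 / 4)) ≤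
            Real.exp (2 + -((((j : ℤ) - j0).natAbs : ℕ) : ℝ)) := by
          apply Real.exp_le_exp.mpr
          rw [h1]
          set s := |(j : ℝ) - m * ‖a‖ ^ 2| with hs
          have hs2 : ((j : ℝ) - m * ‖a‖ ^ 2) ^ 2 = s ^ 2 := (sq_abs _).symm
          rw [hs2]
          have hl : (0 : ℝ) ≤ l := by positivity
          nlinarith [sq_nonneg (s - 2), mul_nonneg hl (sq_nonneg s)]
        refine h4.trans ?_
        rw [Real.exp_add]
        apply mul_le_mul_of_nonneg_left h3 (Real.exp_pos _).le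
    _ ≤ 4 * Real.exp 2 := by
        rw [← Finset.mul_sum, mul_comm]
        apply mul_le_mul_of_nonneg_right (sum_half_pow _ j0) (Real.exp_pos _).le

lemma pm_lower (m : ℕ) (hm : 0 < m) (a b : ℂ) (hab : ‖a‖ ^ 2 + ‖b‖ ^ 2 = 1)
    (h0 : 1 / 16 ≤ ‖a‖ ^ 2) (h1 : ‖a‖ ^ 2 ≤ 15 / 16) :
    ∃ r < 10, ∀ l : ℕ, 3 / 4 * Real.exp (-(3 * ((l : ℝ) + 1))) ≤ ‖pm m l r a b‖ := by
  have hm' : (0 : ℝ) < m := by exact_mod_cast hm
  obtain ⟨j0, hj0, hn⟩ := exists_near m (m * ‖a‖ ^ 2) (by positivity) (by nlinarith)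
  refine ⟨j0 % 10, Nat.mod_lt _ (by norm_num), fun l => ?_⟩
  have hl : (0 : ℝ) ≤ l := by positivity
  have hmem : j0 ∈ (Finset.range (m + 1)).filter (fun j => j % 10 = j0 % 10) := by
    simp only [Finset.mem_filter, Finset.mem_range]
    exact ⟨by omega, trivial⟩
  have hsplit : pm m l (j0 % 10) a b = (bm m j0 a b) ^ ((l + 1) * m) +
      ∑ j ∈ ((Finset.range (m + 1)).filter (fun j => j % 10 = j0 % 10)).erase j0,
        (bm m j a b) ^ ((l + 1) * m) := by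
    unfold pm
    exact (Finset.add_sum_erase _ (fun j => (bm m j a b) ^ ((l + 1) * m)) hmem).symm
  have hmain : Real.exp (-(3 * ((l : ℝ) + 1))) ≤ ‖(bm m j0 a b) ^ ((l + 1) * m)‖ := by
    refine le_trans ?_ (bmpow_lower m j0 l hm hj0 a b hab (by linarith) (by linarith))
    apply Real.exp_le_exp.mpr
    have h2 : ((j0 : ℝ) - m * ‖a‖ ^ 2) ^ 2 ≤ 1 / 4 := by
      rw [← sq_abs]
      calc |(j0 : ℝ) - m * ‖a‖ ^ 2| ^ 2 ≤ (1 / 2) ^ 2 := pow_le_pow_left₀ (abs_nonneg _) hn 2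
        _ = 1 / 4 := by norm_num
    have h3 : 15 / 256 ≤ ‖a‖ ^ 2 * (1 - ‖a‖ ^ 2) := by nlinarith
    have h4 : ((l : ℝ) + 1) * ((j0 : ℝ) - m * ‖a‖ ^ 2) ^ 2 / (2 * (‖a‖ ^ 2 * (1 - ‖a‖ ^ 2)))
        ≤ 3 * ((l : ℝ) + 1) := by
      rw [div_le_iff₀ (by linarith)]
      have h5 : ((l : ℝ) + 1) * ((j0 : ℝ) - m * ‖a‖ ^ 2) ^ 2 ≤ ((l : ℝ) + 1) * (1 / 4) :=
        mul_le_mul_of_nonneg_left h2 (by linarith)
      have h6 : ((l : ℝ) + 1) * (15 / 256) ≤ ((l : ℝ) + 1) * (‖a‖ ^ 2 * (1 - ‖a‖ ^ 2)) :=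
        mul_le_mul_of_nonneg_left h3 (by linarith)
      nlinarith
    linarith
  have hrest : ‖∑ j ∈ ((Finset.range (m + 1)).filter (fun j => j % 10 = j0 % 10)).erase j0,
        (bm m j a b) ^ ((l + 1) * m)‖ ≤ 1 / 4 * Real.exp (-(3 * ((l : ℝ) + 1))) := by
    calc ‖∑ j ∈ ((Finset.range (m + 1)).filter (fun j => j % 10 = j0 % 10)).erase j0,
        (bm m j a b) ^ ((l + 1) * m)‖
        ≤ ∑ j ∈ ((Finset.range (m + 1)).filter (fun j => j % 10 = j0 % 10)).erase j0,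
          ‖(bm m j a b) ^ ((l + 1) * m)‖ := norm_sum_le _ _
      _ ≤ ∑ j ∈ ((Finset.range (m + 1)).filter (fun j => j % 10 = j0 % 10)).erase j0,
          (Real.exp (-(3 * ((l : ℝ) + 1))) * (1 / 16)) * (1 / 2 : ℝ) ^ (((j : ℤ) - j0).natAbs) := by
          apply Finset.sum_le_sum
          intro j hj
          simp only [Finset.mem_erase, Finset.mem_filter, Finset.mem_range] at hj
          obtain ⟨hne, hjr, hmod⟩ := hj
          have hjm : j ≤ m := by omega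
          refine (bmpow_upper m j l hm hjm a b hab).trans ?_
          have hd10 : 10 ≤ ((j : ℤ) - j0).natAbs := by omega
          have h1 : ((((j : ℤ) - j0).natAbs : ℕ) : ℝ) = |(j : ℝ) - j0| := by
            rw [Nat.cast_natAbs]; push_cast; rfl
          have h2 : |(j : ℝ) - j0| ≤ |(j : ℝ) - m * ‖a‖ ^ 2| + 1 / 2 := by
            have := abs_sub_le (j : ℝ) (m * ‖a‖ ^ 2) j0
            rw [abs_sub_comm (m * ‖a‖ ^ 2) (j0 : ℝ)] at this
            linarith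
          have h3 := exp_neg_nat_le (((j : ℤ) - j0).natAbs + 4)
          have h3' : Real.exp (-(((((j : ℤ) - j0).natAbs + 4 : ℕ) : ℝ))) ≤
              (1 / 16) * (1 / 2 : ℝ) ^ (((j : ℤ) - j0).natAbs) := by
            refine h3.trans (le_of_eq ?_)
            rw [pow_add]; ring
          have hd10' : (10 : ℝ) ≤ |(j : ℝ) - j0| := by
            rw [← h1]; exact_mod_cast hd10
          have h4 : Real.exp (-((l + 1) * ((j : ℝ) - m * ‖a‖ ^ 2) ^ 2 / 4)) ≤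
              Real.exp (-(3 * ((l : ℝ) + 1)) + -(((((j : ℤ) - j0).natAbs + 4 : ℕ) : ℝ))) := by
            apply Real.exp_le_exp.mpr
            push_cast
            have h1' : ((|(j : ℤ) - j0| : ℤ) : ℝ) = |(j : ℝ) - j0| := by push_cast; rfl
            set s := |(j : ℝ) - m * ‖a‖ ^ 2| with hs
            have hs2 : ((j : ℝ) - m * ‖a‖ ^ 2) ^ 2 = s ^ 2 := (sq_abs _).symm
            rw [hs2]
            have hs3 : 19 / 2 ≤ s := by linarith
            have h6 : s + 9 / 2 ≤ s ^ 2 / 4 - 3 := by nlinarith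
            have h7 : s ^ 2 / 4 - 3 ≤ ((l : ℝ) + 1) * (s ^ 2 / 4 - 3) := by
              have : 0 ≤ s ^ 2 / 4 - 3 := by linarith
              nlinarith [mul_nonneg hl this]
            have h8 : |(j : ℝ) - j0| ≤ s + 1 / 2 := h2
            have h9 : ((l : ℝ) + 1) * (s ^ 2 / 4 - 3) = (l + 1) * s ^ 2 / 4 - 3 * (l + 1) := by ring
            linarith
          refine h4.trans ?_
          rw [Real.exp_add, mul_assoc]
          apply mul_le_mul_of_nonneg_left h3' (Real.exp_pos _).le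
      _ ≤ 1 / 4 * Real.exp (-(3 * ((l : ℝ) + 1))) := by
          rw [← Finset.mul_sum]
          have h5 := sum_half_pow (((Finset.range (m + 1)).filter (fun j => j % 10 = j0 % 10)).erase j0) j0
          have h6 : 0 ≤ Real.exp (-(3 * ((l : ℝ) + 1))) * (1 / 16) := by positivity
          have h7 := mul_le_mul_of_nonneg_left h5 h6
          linarith
  rw [hsplit]
  have h8 := norm_sub_le_norm_add ((bm m j0 a b) ^ ((l + 1) * m))
    (∑ j ∈ ((Finset.range (m + 1)).filter (fun j => j % 10 = j0 % 10)).erase j0,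
        (bm m j a b) ^ ((l + 1) * m))
  linarith


abbrev E2 := EuclideanSpace ℂ (Fin 2)

noncomputable def cr : ℂ := (((Real.sqrt 2)⁻¹ : ℝ) : ℂ)

noncomputable def qf (m l : ℕ) (z : E2) : ℂ :=
  if l < 10 then pm m l l (z 0) (z 1) else pm m l (l - 10) (cr * (z 0 + z 1)) (cr * (z 0 - z 1))

lemma qf_homog (m l : ℕ) (lam : ℂ) (z : E2) :
    qf m l (lam • z) = lam ^ ((l + 1) * m ^ 2) * qf m l z := by
  unfold qf
  split_ifs with h
  · simp only [PiLp.smul_apply, smul_eq_mul]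
    rw [pm_homog]
  · simp only [PiLp.smul_apply, smul_eq_mul]
    rw [← pm_homog]
    congr 1 <;> ring

lemma norm_sq_E2 (z : E2) : ‖z‖ ^ 2 = ‖z 0‖ ^ 2 + ‖z 1‖ ^ 2 := by
  rw [EuclideanSpace.norm_sq_eq, Fin.sum_univ_two]

lemma cr_sq : ‖cr‖ ^ 2 = 1 / 2 := by
  unfold cr
  rw [Complex.norm_real, Real.norm_eq_abs, abs_of_nonneg (by positivity), inv_pow,
    Real.sq_sqrt (by norm_num)]
  norm_num

lemma rot_sum (a b : ℂ) : ‖cr * (a + b)‖ ^ 2 + ‖cr * (a - b)‖ ^ 2 = ‖a‖ ^ 2 + ‖b‖ ^ 2 := by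
  rw [norm_mul, norm_mul, mul_pow, mul_pow, cr_sq]
  have := parallelogram_law_with_norm ℝ a b
  nlinarith

lemma qf_upper (m l : ℕ) (hm : 0 < m) (z : E2) (hz : ‖z‖ = 1) : ‖qf m l z‖ ≤ 4 * Real.exp 2 := by
  have h1 : ‖z 0‖ ^ 2 + ‖z 1‖ ^ 2 = 1 := by rw [← norm_sq_E2, hz]; norm_num
  unfold qf
  split_ifs with h
  · exact pm_upper m l l hm _ _ h1
  · exact pm_upper m l _ hm _ _ (by rw [rot_sum, h1])

lemma qf_lower (m : ℕ) (hm : 0 < m) (z : E2) (hz : ‖z‖ = 1) :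
    ∃ l < 20, 3 / 4 * Real.exp (-60) ≤ ‖qf m l z‖ := by
  have h1 : ‖z 0‖ ^ 2 + ‖z 1‖ ^ 2 = 1 := by rw [← norm_sq_E2, hz]; norm_num
  have hexp : ∀ l : ℕ, l < 20 → 3 / 4 * Real.exp (-60) ≤ 3 / 4 * Real.exp (-(3 * ((l : ℝ) + 1))) := by
    intro l hl
    apply mul_le_mul_of_nonneg_left _ (by norm_num)
    apply Real.exp_le_exp.mpr
    have : (l : ℝ) + 1 ≤ 20 := by exact_mod_cast hl
    linarith
  by_cases hx : 1 / 16 ≤ ‖z 0‖ ^ 2 ∧ ‖z 0‖ ^ 2 ≤ 15 / 16
  · obtain ⟨r, hr, hlow⟩ := pm_lower m hm (z 0) (z 1) h1 hx.1 hx.2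
    refine ⟨r, by omega, (hexp r (by omega)).trans ?_⟩
    unfold qf
    rw [if_pos hr]
    exact hlow r
  · have hab : ‖z 0‖ * ‖z 1‖ ≤ 1 / 4 := by
      have h2 : (‖z 0‖ * ‖z 1‖) ^ 2 ≤ (1 / 4) ^ 2 := by
        rw [mul_pow]
        have h3 : ‖z 1‖ ^ 2 = 1 - ‖z 0‖ ^ 2 := by linarith
        rw [h3]
        by_cases h4 : 1 / 16 ≤ ‖z 0‖ ^ 2
        · have h5 : 15 / 16 < ‖z 0‖ ^ 2 := by
            by_contra h6
            exact hx ⟨h4, not_lt.mp h6⟩
          nlinarith [sq_nonneg ‖z 1‖]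
        · push Not at h4
          nlinarith [sq_nonneg ‖z 1‖, sq_nonneg ‖z 0‖]
      exact (pow_le_pow_iff_left₀ (by positivity) (by norm_num) two_ne_zero).mp h2
    have hup : ‖z 0 + z 1‖ ^ 2 ≤ 3 / 2 := by
      have h2 := norm_add_le (z 0) (z 1)
      have h3 : ‖z 0 + z 1‖ ^ 2 ≤ (‖z 0‖ + ‖z 1‖) ^ 2 := pow_le_pow_left₀ (norm_nonneg _) h2 2
      nlinarith
    have hlo : 1 / 2 ≤ ‖z 0 + z 1‖ ^ 2 := by
      have h2 := abs_norm_sub_norm_le (z 0) (-z 1)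
      rw [norm_neg, sub_neg_eq_add] at h2
      have h3 : |‖z 0‖ - ‖z 1‖| ^ 2 ≤ ‖z 0 + z 1‖ ^ 2 := pow_le_pow_left₀ (abs_nonneg _) h2 2
      rw [sq_abs] at h3
      nlinarith
    have hrot : ‖cr * (z 0 + z 1)‖ ^ 2 = ‖z 0 + z 1‖ ^ 2 / 2 := by
      rw [norm_mul, mul_pow, cr_sq]; ring
    obtain ⟨r, hr, hlow⟩ := pm_lower m hm (cr * (z 0 + z 1)) (cr * (z 0 - z 1))
      (by rw [rot_sum, h1]) (by rw [hrot]; linarith) (by rw [hrot]; linarith)
    refine ⟨r + 10, by omega, (hexp (r + 10) (by omega)).trans ?_⟩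
    unfold qf
    rw [if_neg (by omega)]
    have h10 : r + 10 - 10 = r := by omega
    rw [h10]
    exact hlow (r + 10)

lemma qf_contDiff (m l : ℕ) : ContDiff ℂ 1 (qf m l) := by
  have h0 : ContDiff ℂ 1 (fun z : E2 => z 0) := by fun_prop
  have h1 : ContDiff ℂ 1 (fun z : E2 => z 1) := by fun_prop
  unfold qf
  split_ifs with h
  · unfold pm bm
    fun_prop
  · unfold pm bm
    fun_prop

lemma qf_bound (m l : ℕ) (hm : 0 < m) (z : E2) :
    ‖qf m l z‖ ≤ 4 * Real.exp 2 * ‖z‖ ^ ((l + 1) * m ^ 2) := by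
  by_cases hz : z = 0
  · subst hz
    have h1 := qf_homog m l 0 0
    have h2 : (l + 1) * m ^ 2 ≠ 0 := by positivity
    rw [zero_smul, zero_pow h2, zero_mul] at h1
    rw [h1]
    simp
    positivity
  · have hz' : 0 < ‖z‖ := norm_pos_iff.mpr hz
    have h1 : z = ((‖z‖ : ℝ) : ℂ) • (((‖z‖⁻¹ : ℝ) : ℂ) • z) := by
      rw [smul_smul, ← Complex.ofReal_mul, mul_inv_cancel₀ hz'.ne']; simp
    have h2 : ‖((‖z‖⁻¹ : ℝ) : ℂ) • z‖ = 1 := by
      rw [norm_smul, Complex.norm_real, Real.norm_eq_abs, abs_of_nonneg (by positivity),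
        inv_mul_cancel₀ hz'.ne']
    have h3 := qf_upper m l hm _ h2
    have h4 : ‖qf m l z‖ = ‖z‖ ^ ((l + 1) * m ^ 2) * ‖qf m l (((‖z‖⁻¹ : ℝ) : ℂ) • z)‖ := by
      conv_lhs => rw [h1]
      rw [qf_homog, norm_mul, norm_pow, Complex.norm_real, Real.norm_eq_abs, abs_of_nonneg hz'.le]
    rw [h4, mul_comm (4 * Real.exp 2)]
    apply mul_le_mul_of_nonneg_left h3 (by positivity)

lemma qf_zero (m l : ℕ) (hm : 0 < m) : qf m l 0 = 0 := by
  have h1 := qf_bound m l hm 0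
  have h2 : (l + 1) * m ^ 2 ≠ 0 := by positivity
  rw [norm_zero, zero_pow h2, mul_zero] at h1
  exact norm_le_zero_iff.mp h1


lemma interp_lemma (d : ℕ) (r : Fin (d + 1) → ℝ) (hr : Function.Injective r) (hr0 : ∀ i, 0 < r i) :
    ∃ δ > 0, ∀ a : Fin (d + 1) → ℂ, ∀ u : Fin (d + 1) → ℂ, (∀ i, ‖u i‖ = r i) →
      ∃ i, δ * ‖a‖ ≤ ‖∑ l : Fin (d + 1), u i ^ (l : ℕ) * a l‖ := by
  classical
  set K : Set ((Fin (d + 1) → ℂ) × (Fin (d + 1) → ℂ)) :=
    (Metric.sphere 0 1) ×ˢ (Set.pi Set.univ (fun i => Metric.sphere (0 : ℂ) (r i))) with hK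
  have hKc : IsCompact K := by
    apply IsCompact.prod
    · exact isCompact_sphere _ _
    · exact isCompact_univ_pi (fun i => isCompact_sphere _ _)
  set F : ((Fin (d + 1) → ℂ) × (Fin (d + 1) → ℂ)) → ℝ :=
    fun p => ‖(fun i => ∑ l : Fin (d + 1), p.2 i ^ (l : ℕ) * p.1 l : Fin (d + 1) → ℂ)‖ with hF
  have hFc : Continuous F := by
    rw [hF]
    fun_prop
  have hKne : K.Nonempty := by
    refine ⟨(fun _ => 1, fun i => ((r i : ℝ) : ℂ)), ?_⟩
    rw [hK]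
    constructor
    · simp only [mem_sphere_iff_norm, sub_zero]
      rw [pi_norm_const]; simp
    · intro i _
      simp only [mem_sphere_iff_norm, sub_zero]
      rw [Complex.norm_real, Real.norm_eq_abs, abs_of_pos (hr0 i)]
  obtain ⟨p0, hp0, hmin⟩ := hKc.exists_isMinOn hKne hFc.continuousOn
  have hpos : 0 < F p0 := by
    rw [hF]
    simp only
    rw [norm_pos_iff]
    intro h0
    obtain ⟨h1, h2⟩ := hp0
    have hinj : Function.Injective p0.2 := by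
      intro i j hij
      apply hr
      have hi : ‖p0.2 i‖ = r i := by
        have := h2 i (Set.mem_univ i)
        simpa using this
      have hj : ‖p0.2 j‖ = r j := by
        have := h2 j (Set.mem_univ j)
        simpa using this
      rw [← hi, ← hj, hij]
    have hdet := (Matrix.det_vandermonde_ne_zero_iff (v := p0.2)).mpr hinj
    have hmul : (Matrix.vandermonde p0.2).mulVec p0.1 = 0 := by
      rw [← h0]
      ext i
      simp [Matrix.mulVec, dotProduct, Matrix.vandermonde_apply]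
    have hz := Matrix.eq_zero_of_mulVec_eq_zero hdet hmul
    simp [hz] at h1
  refine ⟨F p0, hpos, fun a u hu => ?_⟩
  by_cases ha : a = 0
  · subst ha
    refine ⟨0, ?_⟩
    simp
  · have ha' : 0 < ‖a‖ := norm_pos_iff.mpr ha
    have hmem : ((((‖a‖⁻¹ : ℝ) : ℂ) • a, u) : (Fin (d + 1) → ℂ) × (Fin (d + 1) → ℂ)) ∈ K := by
      rw [hK]
      constructor
      · simp only [mem_sphere_iff_norm, sub_zero]
        rw [norm_smul, Complex.norm_real, Real.norm_eq_abs, abs_of_nonneg (by positivity),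
          inv_mul_cancel₀ ha'.ne']
      · intro i _
        simp only [mem_sphere_iff_norm, sub_zero]
        exact hu i
    have h3 := hmin hmem
    simp only [hF, Set.mem_ofPred_eq] at h3
    have h4 : (fun i => ∑ l : Fin (d + 1), u i ^ (l : ℕ) * ((((‖a‖⁻¹ : ℝ) : ℂ) • a) l) : Fin (d + 1) → ℂ)
        = ((‖a‖⁻¹ : ℝ) : ℂ) • (fun i => ∑ l : Fin (d + 1), u i ^ (l : ℕ) * a l) := by
      ext i
      simp only [Pi.smul_apply, smul_eq_mul, Finset.mul_sum]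
      apply Finset.sum_congr rfl
      intro l _
      ring
    rw [h4, norm_smul, Complex.norm_real, Real.norm_eq_abs, abs_of_nonneg (by positivity)] at h3
    have h5 : F p0 * ‖a‖ ≤ ‖(fun i => ∑ l : Fin (d + 1), u i ^ (l : ℕ) * a l : Fin (d + 1) → ℂ)‖ := by
      have h6 : F p0 ≤ ‖a‖⁻¹ * ‖(fun i => ∑ l : Fin (d + 1), u i ^ (l : ℕ) * a l : Fin (d + 1) → ℂ)‖ := h3
      rw [inv_mul_eq_div, le_div_iff₀ ha'] at h6
      exact h6
    by_contra hcon
    push Not at hcon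
    have h7 := (pi_norm_lt_iff (x := (fun i => ∑ l : Fin (d + 1), u i ^ (l : ℕ) * a l : Fin (d + 1) → ℂ))
      (mul_pos hpos ha')).mpr hcon
    exact absurd h5 (not_le.mpr h7)

lemma tang (m l : ℕ) (hl : l < 20) (ζ w : E2) (lam : ℂ) (hζ : ‖ζ‖ = 1) (hlam : ‖lam‖ ≤ 1)
    (hort : inner ℂ ζ w = 0) (K : ℝ) (hK : 0 < K) (hw : ‖w‖ ≤ K / m ^ 2) (hmK : K < m) :
    ‖qf m l (lam • ζ + w) - (lam ^ (m ^ 2)) ^ (l + 1) * qf m l ζ‖ ≤
      3 * (4 * Real.exp 2 * Real.exp 20) * K / m := by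
  have hm' : (0 : ℝ) < m := hK.trans hmK
  have hm : 0 < m := by exact_mod_cast hm'
  set M : ℝ := 4 * Real.exp 2 * Real.exp 20 with hM
  have hM0 : 0 < M := by positivity
  set φ : ℂ → ℂ := fun s => qf m l (lam • ζ + s • w) with hφ
  have hφd : Differentiable ℂ φ := by
    have h1 := (qf_contDiff m l).differentiable (by norm_num)
    have h2 : Differentiable ℂ (fun s : ℂ => lam • ζ + s • w) := by fun_prop
    exact h1.comp h2
  have hbound : ∀ s : ℂ, ‖s‖ < m / K → ‖φ s‖ ≤ M := by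
    intro s hs
    have h1 := qf_bound m l hm (lam • ζ + s • w)
    refine h1.trans ?_
    rw [hM]
    apply mul_le_mul_of_nonneg_left _ (by positivity)
    have h2 : ‖lam • ζ + s • w‖ ^ 2 ≤ 1 + (1 / m) ^ 2 := by
      have h3 : inner ℂ (lam • ζ) (s • w) = (0 : ℂ) := by
        rw [inner_smul_left, inner_smul_right, hort]; simp
      have h4 := norm_add_sq_eq_norm_sq_add_norm_sq_of_inner_eq_zero (𝕜 := ℂ) (lam • ζ) (s • w) h3
      have h5 : ‖lam • ζ‖ ≤ 1 := by rw [norm_smul, hζ, mul_one]; exact hlam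
      have h6 : ‖s • w‖ ≤ 1 / m := by
        rw [norm_smul]
        calc ‖s‖ * ‖w‖ ≤ (m / K) * (K / m ^ 2) := by
              apply mul_le_mul hs.le hw (norm_nonneg _) (by positivity)
          _ = 1 / m := by field_simp
      have h7 : ‖lam • ζ‖ ^ 2 ≤ 1 := by
        calc ‖lam • ζ‖ ^ 2 ≤ 1 ^ 2 := pow_le_pow_left₀ (norm_nonneg _) h5 2
          _ = 1 := by norm_num
      have h8 : ‖s • w‖ ^ 2 ≤ (1 / m) ^ 2 := pow_le_pow_left₀ (norm_nonneg _) h6 2
      nlinarith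
    have h3 : ‖lam • ζ + s • w‖ ≤ Real.exp ((1 / m) ^ 2) := by
      apply (pow_le_pow_iff_left₀ (norm_nonneg _) (Real.exp_pos _).le two_ne_zero).mp
      refine h2.trans ?_
      have h4 := Real.add_one_le_exp ((1 / (m : ℝ)) ^ 2)
      have h5 : 1 ≤ Real.exp ((1 / (m : ℝ)) ^ 2) := Real.one_le_exp (by positivity)
      nlinarith
    calc ‖lam • ζ + s • w‖ ^ ((l + 1) * m ^ 2) ≤ (Real.exp ((1 / m) ^ 2)) ^ ((l + 1) * m ^ 2) :=
          pow_le_pow_left₀ (norm_nonneg _) h3 _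
      _ = Real.exp (l + 1) := by
          rw [← Real.exp_nat_mul]
          congr 1
          push_cast
          field_simp
      _ ≤ Real.exp 20 := by
          apply Real.exp_le_exp.mpr
          have : (l : ℝ) + 1 ≤ 20 := by exact_mod_cast hl
          exact this
  have hR : 1 < m / K := by rw [lt_div_iff₀ hK]; linarith
  have hmaps : Set.MapsTo φ (Metric.ball 0 (m / K)) (Metric.closedBall (φ 0) (2 * M)) := by
    intro s hs
    rw [mem_ball_zero_iff] at hs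
    rw [mem_closedBall_iff_norm]
    have h1 := hbound s hs
    have h2 := hbound 0 (by rw [norm_zero]; positivity)
    have h3 := norm_sub_le (φ s) (φ 0)
    linarith
  have hS := Complex.dist_le_div_mul_dist_of_mapsTo_ball (f := φ) (c := 0) (z := 1)
    hφd.differentiableOn hmaps (by rw [mem_ball_zero_iff]; simpa using hR)
  rw [dist_eq_norm, dist_eq_norm] at hS
  have h1 : φ 1 = qf m l (lam • ζ + w) := by simp [hφ]
  have h0 : φ 0 = (lam ^ (m ^ 2)) ^ (l + 1) * qf m l ζ := by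
    simp only [hφ, zero_smul, add_zero]
    rw [qf_homog, ← pow_mul]
    congr 2
    ring
  rw [h1, h0] at hS
  simp only [sub_zero, norm_one, mul_one] at hS
  refine hS.trans ?_
  rw [div_div_eq_mul_div]
  apply div_le_div_of_nonneg_right _ hm'.le
  nlinarith

lemma norm_fderiv_le (g : E2 → ℂ) (M : ℝ) (hd : DifferentiableOn ℂ g (Metric.ball 0 1))
    (hM : ∀ z, ‖z‖ < 1 → ‖g z‖ ≤ M) (z : E2) (hz : ‖z‖ < 1) :
    ‖fderiv ℂ g z‖ ≤ 2 * M / (1 - ‖z‖) := by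
  have hsub : Metric.ball z (1 - ‖z‖) ⊆ Metric.ball 0 1 := by
    intro y hy
    rw [mem_ball_iff_norm] at hy
    rw [mem_ball_zero_iff]
    have := norm_le_norm_add_norm_sub' y z
    linarith
  apply Complex.norm_fderiv_le_div_of_mapsTo_ball (hd.mono hsub) _ (by linarith)
  intro y hy
  have hy' := hsub hy
  rw [mem_ball_zero_iff] at hy'
  rw [mem_closedBall_iff_norm]
  have h3 := norm_sub_le (g y) (g z)
  have := hM y hy'
  have := hM z hz
  linarith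


/-- the block of twenty homogeneous polynomials -/
noncomputable def PP (m : ℕ) (z : E2) : ℂ := ∑ l ∈ Finset.range 20, qf m l z

noncomputable def M1 : ℝ := 20 * (4 * Real.exp 2)

lemma M1_pos : 0 < M1 := by unfold M1; positivity

lemma PP_contDiff (m : ℕ) : ContDiff ℂ 1 (PP m) := by
  unfold PP
  exact ContDiff.sum (fun l _ => qf_contDiff m l)

lemma PP_bound (m : ℕ) (hm : 0 < m) (z : E2) (hz : ‖z‖ ≤ 1) : ‖PP m z‖ ≤ M1 := by
  unfold PP M1
  calc ‖∑ l ∈ Finset.range 20, qf m l z‖ ≤ ∑ l ∈ Finset.range 20, ‖qf m l z‖ := norm_sum_le _ _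
    _ ≤ ∑ l ∈ Finset.range 20, 4 * Real.exp 2 := by
        apply Finset.sum_le_sum
        intro l _
        refine (qf_bound m l hm z).trans ?_
        have h1 : ‖z‖ ^ ((l + 1) * m ^ 2) ≤ 1 := pow_le_one₀ (norm_nonneg _) hz
        have h2 : 0 ≤ 4 * Real.exp 2 := by positivity
        calc 4 * Real.exp 2 * ‖z‖ ^ ((l + 1) * m ^ 2) ≤ 4 * Real.exp 2 * 1 :=
              mul_le_mul_of_nonneg_left h1 h2
          _ = 4 * Real.exp 2 := mul_one _
    _ = 20 * (4 * Real.exp 2) := by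
        rw [Finset.sum_const, Finset.card_range]; simp

lemma PP_lip (m : ℕ) : ∃ Λ : ℝ, 0 ≤ Λ ∧ ∀ z z' : E2, ‖z‖ ≤ 1 → ‖z'‖ ≤ 1 →
    ‖PP m z - PP m z'‖ ≤ Λ * ‖z - z'‖ := by
  have h1 : Continuous (fderiv ℂ (PP m)) := (PP_contDiff m).continuous_fderiv (by norm_num)
  obtain ⟨C, hC⟩ := (isCompact_closedBall (0 : E2) 1).exists_bound_of_continuousOn h1.continuousOn
  refine ⟨max C 0, le_max_right _ _, fun z z' hz hz' => ?_⟩
  apply Convex.norm_image_sub_le_of_norm_fderiv_le (𝕜 := ℂ) (s := Metric.closedBall (0 : E2) 1)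
  · intro x _
    exact (PP_contDiff m).differentiable (by norm_num) x
  · intro x hx
    exact (hC x hx).trans (le_max_left _ _)
  · exact convex_closedBall _ _
  · simpa using hz'
  · simpa using hz

noncomputable def Lam (m : ℕ) : ℝ := Classical.choose (PP_lip m)

lemma Lam_nonneg (m : ℕ) : 0 ≤ Lam m := (Classical.choose_spec (PP_lip m)).1

lemma Lam_spec (m : ℕ) (z z' : E2) (hz : ‖z‖ ≤ 1) (hz' : ‖z'‖ ≤ 1) :
    ‖PP m z - PP m z'‖ ≤ Lam m * ‖z - z'‖ :=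
  (Classical.choose_spec (PP_lip m)).2 z z' hz hz'

noncomputable def mm (η : ℝ) (k : ℕ) (s : ℝ) : ℕ := max (k + 1) ⌈s / η ^ k⌉₊

noncomputable def sseq (η : ℝ) : ℕ → ℝ
  | 0 => 0
  | k + 1 => sseq η k + η ^ k * Lam (mm η k (sseq η k))

noncomputable def mseq (η : ℝ) (k : ℕ) : ℕ := mm η k (sseq η k)

lemma mseq_ge (η : ℝ) (k : ℕ) : k + 1 ≤ mseq η k := le_max_left _ _

lemma mseq_pos (η : ℝ) (k : ℕ) : 0 < mseq η k := by
  have := mseq_ge η k
  omega

lemma sseq_le (η : ℝ) (hη : 0 < η) (k : ℕ) : sseq η k ≤ η ^ k * mseq η k := by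
  have h1 : sseq η k / η ^ k ≤ (⌈sseq η k / η ^ k⌉₊ : ℝ) := Nat.le_ceil _
  have h2 : (⌈sseq η k / η ^ k⌉₊ : ℝ) ≤ (mseq η k : ℝ) := by
    exact_mod_cast le_max_right _ _
  have h3 : sseq η k / η ^ k ≤ (mseq η k : ℝ) := h1.trans h2
  rw [div_le_iff₀ (by positivity)] at h3
  linarith

noncomputable def gk (η : ℝ) (k : ℕ) (z : E2) : ℂ := ((η ^ k : ℝ) : ℂ) * PP (mseq η k) z

lemma gk_bound (η : ℝ) (hη : 0 < η) (k : ℕ) (z : E2) (hz : ‖z‖ ≤ 1) :
    ‖gk η k z‖ ≤ η ^ k * M1 := by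
  unfold gk
  rw [norm_mul, Complex.norm_real, Real.norm_eq_abs, abs_of_nonneg (by positivity)]
  exact mul_le_mul_of_nonneg_left (PP_bound _ (mseq_pos η k) z hz) (by positivity)

lemma gk_contDiff (η : ℝ) (k : ℕ) : ContDiff ℂ 1 (gk η k) := by
  unfold gk
  exact contDiff_const.mul (PP_contDiff _)

noncomputable def ff (η : ℝ) (z : E2) : ℂ := ∑' k, gk η k z

noncomputable def SS (η : ℝ) (k : ℕ) (z : E2) : ℂ := ∑ j ∈ Finset.range k, gk η j z

lemma SS_lip (η : ℝ) (hη : 0 < η) (k : ℕ) (z z' : E2) (hz : ‖z‖ ≤ 1) (hz' : ‖z'‖ ≤ 1) :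
    ‖SS η k z - SS η k z'‖ ≤ sseq η k * ‖z - z'‖ := by
  induction k with
  | zero => simp [SS, sseq]
  | succ k ih =>
    have h1 : SS η (k + 1) z - SS η (k + 1) z' = (SS η k z - SS η k z') +
        ((η ^ k : ℝ) : ℂ) * (PP (mseq η k) z - PP (mseq η k) z') := by
      unfold SS
      rw [Finset.sum_range_succ, Finset.sum_range_succ]
      unfold gk
      ring
    have h2 : sseq η (k + 1) = sseq η k + η ^ k * Lam (mseq η k) := rfl
    rw [h1, h2]
    refine (norm_add_le _ _).trans ?_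
    rw [norm_mul, Complex.norm_real, Real.norm_eq_abs, abs_of_nonneg (by positivity)]
    have h3 := mul_le_mul_of_nonneg_left (Lam_spec (mseq η k) z z' hz hz') (show 0 ≤ η ^ k by positivity)
    nlinarith

lemma summ (η : ℝ) (hη : 0 < η) (hη1 : η < 1) : Summable (fun k : ℕ => η ^ k * M1) :=
  (summable_geometric_of_lt_one hη.le hη1).mul_right _

lemma ff_cont (η : ℝ) (hη : 0 < η) (hη1 : η < 1) : ContinuousOn (ff η) (Metric.closedBall 0 1) := by
  unfold ff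
  apply continuousOn_tsum (u := fun k : ℕ => η ^ k * M1)
  · intro k
    exact (gk_contDiff η k).continuous.continuousOn
  · exact summ η hη hη1
  · intro k z hz
    rw [mem_closedBall_zero_iff] at hz
    exact gk_bound η hη k z hz

lemma ff_diff (η : ℝ) (hη : 0 < η) (hη1 : η < 1) : DifferentiableOn ℂ (ff η) (Metric.ball 0 1) := by
  intro z hz
  rw [mem_ball_zero_iff] at hz
  obtain ⟨ρ, hρ1, hρ2⟩ := exists_between hz
  have hz' : z ∈ Metric.ball (0 : E2) ρ := by rw [mem_ball_zero_iff]; exact hρ1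
  apply DifferentiableAt.differentiableWithinAt
  have hsum : Summable (fun k : ℕ => 2 * (η ^ k * M1) / (1 - ρ)) := by
    exact ((summ η hη hη1).mul_left 2).div_const _
  have := hasFDerivAt_tsum_of_isPreconnected (𝕜 := ℂ) (f := fun k => gk η k)
    (f' := fun k x => fderiv ℂ (gk η k) x) (s := Metric.ball (0 : E2) ρ)
    (u := fun k : ℕ => 2 * (η ^ k * M1) / (1 - ρ)) (x₀ := z) (x := z) hsum Metric.isOpen_ball
    (convex_ball _ _).isPreconnected
    (fun k x _ => ((gk_contDiff η k).differentiable (by norm_num) x).hasFDerivAt)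
    (by
      intro k x hx
      rw [mem_ball_zero_iff] at hx
      have h1 := norm_fderiv_le (gk η k) (η ^ k * M1)
        ((gk_contDiff η k).differentiable (by norm_num)).differentiableOn
        (fun y hy => gk_bound η hη k y hy.le) x (hx.trans hρ2)
      refine h1.trans ?_
      apply div_le_div_of_nonneg_left
      · have := M1_pos; positivity
      · linarith
      · linarith)
    hz'
    (Summable.of_norm_bounded (summ η hη hη1) (fun k => gk_bound η hη k z hz.le))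
    hz'
  exact this.differentiableAt

lemma ff_zero (η : ℝ) : ff η 0 = 0 := by
  unfold ff gk PP
  simp [qf_zero _ _ (mseq_pos η _)]

lemma ff_split (η : ℝ) (hη : 0 < η) (hη1 : η < 1) (k : ℕ) (z : E2) (hz : ‖z‖ ≤ 1) :
    ‖ff η z - (SS η k z + gk η k z)‖ ≤ η ^ (k + 1) * M1 / (1 - η) := by
  have hs : Summable (fun k => gk η k z) :=
    Summable.of_norm_bounded (summ η hη hη1) (fun k => gk_bound η hη k z hz)
  have h1 : SS η k z + gk η k z = ∑ j ∈ Finset.range (k + 1), gk η j z := by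
    unfold SS; rw [Finset.sum_range_succ]
  have h2 := hs.sum_add_tsum_nat_add (k + 1)
  have h3 : ff η z - (SS η k z + gk η k z) = ∑' j, gk η (j + (k + 1)) z := by
    unfold ff
    rw [h1, ← h2]; ring
  rw [h3]
  have hgeo := (hasSum_geometric_of_lt_one hη.le hη1).mul_left (η ^ (k + 1) * M1)
  have h4 := tsum_of_norm_bounded (f := fun j => gk η (j + (k + 1)) z) hgeo (by
    intro j
    refine (gk_bound η hη (j + (k + 1)) z hz).trans (le_of_eq ?_)
    rw [pow_add]; ring)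
  exact h4


/-- geometric estimate at a crossing point -/
lemma geom (ζ z : E2) (C : ℝ) (hζ : ‖ζ‖ = 1) (hz : ‖z‖ ≤ 1) (hC : 0 ≤ C)
    (hnt : ‖ζ - z‖ ≤ C * (1 - ‖z‖)) (m : ℕ) (hm : 0 < m) (r : ℝ) (hr : 1 / 22 ≤ r)
    (hcr : ‖inner ℂ ζ z‖ ^ (m ^ 2) = r) :
    ‖ζ - z‖ ≤ (22 * C) / m ^ 2 ∧ ‖z - (inner ℂ ζ z) • ζ‖ ≤ (22 * C) / m ^ 2 := by
  have hm' : (0 : ℝ) < m := by exact_mod_cast hm
  have h1 : ‖inner ℂ ζ z‖ ≤ ‖z‖ := by
    have := norm_inner_le_norm (𝕜 := ℂ) ζ z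
    rwa [hζ, one_mul] at this
  have h2 : r ≤ ‖z‖ ^ (m ^ 2) := by
    rw [← hcr]; exact pow_le_pow_left₀ (norm_nonneg _) h1 _
  have h3 : ‖z‖ ≤ Real.exp (-(1 - ‖z‖)) := by
    have := Real.add_one_le_exp (-(1 - ‖z‖))
    linarith
  have h4 : ‖z‖ ^ (m ^ 2) ≤ Real.exp (-((m : ℝ) ^ 2 * (1 - ‖z‖))) := by
    calc ‖z‖ ^ (m ^ 2) ≤ (Real.exp (-(1 - ‖z‖))) ^ (m ^ 2) := pow_le_pow_left₀ (norm_nonneg _) h3 _
      _ = Real.exp (-((m : ℝ) ^ 2 * (1 - ‖z‖))) := by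
          rw [← Real.exp_nat_mul]; congr 1; push_cast; ring
  set x := (m : ℝ) ^ 2 * (1 - ‖z‖) with hx
  have hx0 : 0 ≤ x := mul_nonneg (by positivity) (by linarith)
  have h5 : Real.exp (-x) * (1 + x) ≤ 1 := by
    have h6 := Real.add_one_le_exp x
    calc Real.exp (-x) * (1 + x) ≤ Real.exp (-x) * Real.exp x :=
          mul_le_mul_of_nonneg_left (by linarith) (Real.exp_pos _).le
      _ = 1 := by rw [← Real.exp_add]; simp
  have h6 : 1 / 22 * (1 + x) ≤ 1 := by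
    calc 1 / 22 * (1 + x) ≤ Real.exp (-x) * (1 + x) :=
          mul_le_mul_of_nonneg_right (by linarith) (by linarith)
      _ ≤ 1 := h5
  have h7 : 1 - ‖z‖ ≤ 22 / (m : ℝ) ^ 2 := by
    rw [le_div_iff₀ (by positivity)]
    have : (1 - ‖z‖) * (m : ℝ) ^ 2 = x := by rw [hx]; ring
    rw [this]; linarith
  have h8 : ‖ζ - z‖ ≤ (22 * C) / m ^ 2 := by
    calc ‖ζ - z‖ ≤ C * (1 - ‖z‖) := hnt
      _ ≤ C * (22 / (m : ℝ) ^ 2) := mul_le_mul_of_nonneg_left h7 hC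
      _ = (22 * C) / m ^ 2 := by ring
  refine ⟨h8, le_trans ?_ h8⟩
  -- orthogonality
  have hζζ : inner ℂ ζ ζ = (1 : ℂ) := by
    rw [inner_self_eq_norm_sq_to_K, hζ]; norm_num
  have hort : inner ℂ ((inner ℂ ζ z - 1 : ℂ) • ζ) (z - (inner ℂ ζ z) • ζ) = (0 : ℂ) := by
    rw [inner_smul_left, inner_sub_right, inner_smul_right, hζζ]; simp
  have h9 := norm_add_sq_eq_norm_sq_add_norm_sq_of_inner_eq_zero (𝕜 := ℂ) _ _ hort
  have h10 : (inner ℂ ζ z - 1 : ℂ) • ζ + (z - (inner ℂ ζ z) • ζ) = z - ζ := by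
    rw [sub_smul, one_smul]; abel
  rw [h10] at h9
  apply (pow_le_pow_iff_left₀ (norm_nonneg _) (norm_nonneg _) two_ne_zero).mp
  rw [norm_sub_rev ζ z]
  nlinarith [sq_nonneg ‖(inner ℂ ζ z - 1 : ℂ) • ζ‖]

lemma crossing (γ : ℝ → E2) (ζ : E2) (hζ : ‖ζ‖ = 1) (hc : ContinuousOn γ (Set.Ico 0 1))
    (ht : Filter.Tendsto γ (nhdsWithin 1 (Set.Iio 1)) (nhds ζ)) (N : ℕ) (r : ℝ) (hr1 : r < 1)
    (h0 : ‖inner ℂ ζ (γ 0)‖ ^ N < r) : ∃ t ∈ Set.Ico (0 : ℝ) 1, ‖inner ℂ ζ (γ t)‖ ^ N = r := by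
  have hG : Filter.Tendsto (fun t => ‖inner ℂ ζ (γ t)‖ ^ N) (nhdsWithin 1 (Set.Iio 1)) (nhds 1) := by
    have h1 : Filter.Tendsto (fun t => (inner ℂ ζ (γ t) : ℂ)) (nhdsWithin 1 (Set.Iio 1))
        (nhds (inner ℂ ζ ζ)) := Filter.Tendsto.inner tendsto_const_nhds ht
    have h2 := (h1.norm).pow N
    have h3 : ‖inner ℂ ζ ζ‖ ^ N = (1 : ℝ) := by
      rw [inner_self_eq_norm_sq_to_K, hζ]; simp
    rw [h3] at h2
    exact h2
  have h1 : ∀ᶠ t in nhdsWithin (1 : ℝ) (Set.Iio 1), r < ‖inner ℂ ζ (γ t)‖ ^ N :=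
    hG.eventually (eventually_gt_nhds hr1)
  have h2 : ∀ᶠ t in nhdsWithin (1 : ℝ) (Set.Iio 1), t ∈ Set.Ioo (0 : ℝ) 1 :=
    Ioo_mem_nhdsLT (by norm_num)
  obtain ⟨t', ht'1, ht'2⟩ := (h1.and h2).exists
  have hcont : ContinuousOn (fun t => ‖inner ℂ ζ (γ t)‖ ^ N) (Set.Icc 0 t') := by
    have h3 : ContinuousOn γ (Set.Icc 0 t') := hc.mono (fun t ht => ⟨ht.1, lt_of_le_of_lt ht.2 ht'2.2⟩)
    have h4 : ContinuousOn (fun t => (inner ℂ ζ (γ t) : ℂ)) (Set.Icc 0 t') :=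
      ContinuousOn.inner (𝕜 := ℂ) continuousOn_const h3
    exact (h4.norm).pow N
  obtain ⟨t, ht, hval⟩ := intermediate_value_Icc ht'2.1.le hcont ⟨h0.le, ht'1.le⟩
  exact ⟨t, ⟨ht.1, lt_of_le_of_lt ht.2 ht'2.2⟩, hval⟩

lemma main_estimate (η : ℝ) (hη : 0 < η) (hη1 : η < 1) (k : ℕ) (ζ z : E2) (C : ℝ) (hζ : ‖ζ‖ = 1)
    (hz : ‖z‖ ≤ 1) (hC : 0 < C)
    (hnt : ‖ζ - z‖ ≤ C * (1 - ‖z‖)) (r : ℝ) (hr : 1 / 22 ≤ r)
    (hcr : ‖inner ℂ ζ z‖ ^ ((mseq η k) ^ 2) = r) (hf : ff η z = 0) (hmK : 22 * C < mseq η k) :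
    ‖SS η k ζ / ((η ^ k : ℝ) : ℂ) + ∑ l ∈ Finset.range 20,
      ((inner ℂ ζ z : ℂ) ^ ((mseq η k) ^ 2)) ^ (l + 1) * qf (mseq η k) l ζ‖ ≤
      η * M1 / (1 - η) + (22 * C) / mseq η k +
        20 * (3 * (4 * Real.exp 2 * Real.exp 20) * (22 * C)) / mseq η k := by
  set m := mseq η k with hmdef
  have hm : 0 < m := mseq_pos η k
  have hm' : (0 : ℝ) < m := by exact_mod_cast hm
  obtain ⟨hg1, hg2⟩ := geom ζ z C hζ hz hC.le hnt m hm r hr hcr
  set lam : ℂ := inner ℂ ζ z with hlam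
  set w : E2 := z - lam • ζ with hw
  have hζζ : inner ℂ ζ ζ = (1 : ℂ) := by
    rw [inner_self_eq_norm_sq_to_K, hζ]; norm_num
  have hort : inner ℂ ζ w = (0 : ℂ) := by
    rw [hw, inner_sub_right, inner_smul_right, hζζ, ← hlam]; ring
  have hlam1 : ‖lam‖ ≤ 1 := by
    have := norm_inner_le_norm (𝕜 := ℂ) ζ z
    rw [hζ, one_mul] at this
    exact this.trans hz
  have hzw : z = lam • ζ + w := by rw [hw]; abel
  have hη0 : 0 < η ^ k := by positivity
  have hηc : ((η ^ k : ℝ) : ℂ) ≠ 0 := by exact_mod_cast hη0.ne'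
  -- polynomial part
  have hP : ‖PP m z - ∑ l ∈ Finset.range 20, (lam ^ (m ^ 2)) ^ (l + 1) * qf m l ζ‖ ≤
      20 * (3 * (4 * Real.exp 2 * Real.exp 20) * (22 * C)) / m := by
    unfold PP
    rw [← Finset.sum_sub_distrib]
    refine (norm_sum_le _ _).trans ?_
    calc ∑ l ∈ Finset.range 20, ‖qf m l z - (lam ^ (m ^ 2)) ^ (l + 1) * qf m l ζ‖
        ≤ ∑ l ∈ Finset.range 20, 3 * (4 * Real.exp 2 * Real.exp 20) * (22 * C) / m := by
          apply Finset.sum_le_sum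
          intro l hl
          rw [Finset.mem_range] at hl
          have := tang m l hl ζ w lam hζ hlam1 hort (22 * C) (by positivity) hg2 hmK
          rw [← hzw] at this
          exact this
      _ = 20 * (3 * (4 * Real.exp 2 * Real.exp 20) * (22 * C)) / m := by
          rw [Finset.sum_const, Finset.card_range]; simp; ring
  -- partial sum part
  have hS : ‖SS η k ζ - SS η k z‖ ≤ η ^ k * ((22 * C) / m) := by
    refine (SS_lip η hη k ζ z hζ.le hz).trans ?_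
    have h1 := sseq_le η hη k
    rw [← hmdef] at h1
    calc sseq η k * ‖ζ - z‖ ≤ (η ^ k * m) * ‖ζ - z‖ := mul_le_mul_of_nonneg_right h1 (norm_nonneg _)
      _ ≤ (η ^ k * m) * ((22 * C) / m ^ 2) := mul_le_mul_of_nonneg_left hg1 (by positivity)
      _ = η ^ k * ((22 * C) / m) := by field_simp
  -- tail part
  have hT := ff_split η hη hη1 k z hz
  rw [hf, zero_sub, norm_neg] at hT
  have hgk : gk η k z = ((η ^ k : ℝ) : ℂ) * PP m z := rfl
  rw [hgk] at hT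
  have hdecomp : SS η k ζ / ((η ^ k : ℝ) : ℂ) + ∑ l ∈ Finset.range 20, (lam ^ (m ^ 2)) ^ (l + 1) * qf m l ζ
      = (SS η k z + ((η ^ k : ℝ) : ℂ) * PP m z) / ((η ^ k : ℝ) : ℂ)
        + (SS η k ζ - SS η k z) / ((η ^ k : ℝ) : ℂ)
        - (PP m z - ∑ l ∈ Finset.range 20, (lam ^ (m ^ 2)) ^ (l + 1) * qf m l ζ) := by
    field_simp
    ring
  rw [hdecomp]
  refine (norm_sub_le _ _).trans ?_
  refine add_le_add ((norm_add_le _ _).trans (add_le_add ?_ ?_)) hP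
  · rw [norm_div, Complex.norm_real, Real.norm_eq_abs, abs_of_pos hη0, div_le_iff₀ hη0]
    refine hT.trans (le_of_eq ?_)
    rw [pow_succ]; ring
  · rw [norm_div, Complex.norm_real, Real.norm_eq_abs, abs_of_pos hη0, div_le_iff₀ hη0]
    linarith

theorem no_path : ∃ η : ℝ, 0 < η ∧ η < 1 ∧ ∀ (γ : ℝ → E2) (ζ : E2) (C : ℝ), ‖ζ‖ = 1 →
    ContinuousOn γ (Set.Ico 0 1) → (∀ t ∈ Set.Ico (0 : ℝ) 1, γ t ∈ Metric.ball (0 : E2) 1 ∧ ff η (γ t) = 0) →
    Filter.Tendsto γ (nhdsWithin 1 (Set.Iio 1)) (nhds ζ) →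
    (∀ t ∈ Set.Ico (0 : ℝ) 1, ‖ζ - γ t‖ ≤ C * (1 - ‖γ t‖)) → False := by
  set r : Fin 21 → ℝ := fun i => ((i : ℕ) + 1 : ℝ) / 22 with hr
  have hrinj : Function.Injective r := by
    intro i j hij
    simp only [hr] at hij
    have : ((i : ℕ) : ℝ) = ((j : ℕ) : ℝ) := by linarith
    exact Fin.ext (by exact_mod_cast this)
  have hr0 : ∀ i, 0 < r i := by intro i; simp only [hr]; positivity
  have hr22 : ∀ i, 1 / 22 ≤ r i := by
    intro i; simp only [hr]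
    have : (0 : ℝ) ≤ (i : ℕ) := by positivity
    linarith
  have hr1 : ∀ i, r i < 1 := by
    intro i; simp only [hr]
    have : ((i : ℕ) : ℝ) ≤ 20 := by exact_mod_cast (by omega : (i : ℕ) ≤ 20)
    linarith
  obtain ⟨δ0, hδ0, hδ⟩ := interp_lemma 20 r hrinj hr0
  set c0 : ℝ := 3 / 4 * Real.exp (-60) with hc0
  have hc0pos : 0 < c0 := by positivity
  set δ : ℝ := δ0 * c0 with hδdef
  have hδpos : 0 < δ := by positivity
  have hM1 := M1_pos
  -- choose η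
  obtain ⟨η, hη, hη1, hη2⟩ : ∃ η : ℝ, 0 < η ∧ η < 1 ∧ η * M1 / (1 - η) ≤ δ / 4 := by
    refine ⟨δ / (4 * M1 + δ), by positivity, ?_, ?_⟩
    · rw [div_lt_one (by positivity)]; linarith
    · have h1 : 1 - δ / (4 * M1 + δ) = 4 * M1 / (4 * M1 + δ) := by field_simp; ring
      rw [h1]
      apply le_of_eq
      field_simp
  refine ⟨η, hη, hη1, ?_⟩
  intro γ ζ C hζ hcont hzero htend hnt
  -- WLOG constant
  set C' : ℝ := max C 1 with hC'
  have hC'pos : 0 < C' := lt_of_lt_of_le one_pos (le_max_right _ _)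
  have hnt' : ∀ t ∈ Set.Ico (0 : ℝ) 1, ‖ζ - γ t‖ ≤ C' * (1 - ‖γ t‖) := by
    intro t ht
    have h1 := (hzero t ht).1
    rw [mem_ball_zero_iff] at h1
    refine (hnt t ht).trans ?_
    exact mul_le_mul_of_nonneg_right (le_max_left _ _) (by linarith)
  have h00 : (0 : ℝ) ∈ Set.Ico (0 : ℝ) 1 := ⟨le_refl _, one_pos⟩
  set g0 : ℝ := ‖(inner ℂ ζ (γ 0) : ℂ)‖ with hg0
  have hg0lt : g0 < 1 := by
    have h1 := (hzero 0 h00).1
    rw [mem_ball_zero_iff] at h1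
    have h2 := norm_inner_le_norm (𝕜 := ℂ) ζ (γ 0)
    rw [hζ, one_mul] at h2
    linarith
  have hg0nn : 0 ≤ g0 := norm_nonneg _
  set K : ℝ := (22 * C') + 20 * (3 * (4 * Real.exp 2 * Real.exp 20) * (22 * C')) with hK
  have hKpos : 0 < K := by positivity
  -- choose k
  have hpow : Filter.Tendsto (fun n : ℕ => g0 ^ n) Filter.atTop (nhds 0) :=
    tendsto_pow_atTop_nhds_zero_of_lt_one hg0nn hg0lt
  have hev : ∀ᶠ n : ℕ in Filter.atTop, g0 ^ n < 1 / 22 :=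
    hpow.eventually (eventually_lt_nhds (by norm_num))
  obtain ⟨n0, hn0⟩ := Filter.eventually_atTop.mp hev
  obtain ⟨n1, hn1⟩ := exists_nat_gt (K / (δ / 4))
  obtain ⟨n2, hn2⟩ := exists_nat_gt (22 * C')
  set k : ℕ := n0 + n1 + n2 with hk
  have hmk : k + 1 ≤ mseq η k := mseq_ge η k
  set m := mseq η k with hmdef
  have hm' : (0 : ℝ) < m := by
    have : 0 < m := by omega
    exact_mod_cast this
  have hmn0 : n0 ≤ m ^ 2 := by nlinarith
  have hmn1 : (n1 : ℝ) ≤ m := by exact_mod_cast (by omega : n1 ≤ m)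
  have hmn2 : (n2 : ℝ) ≤ m := by exact_mod_cast (by omega : n2 ≤ m)
  have hKm : K / m ≤ δ / 4 := by
    rw [div_le_iff₀ hm']
    have h1 : K < n1 * (δ / 4) := by
      rwa [div_lt_iff₀ (by positivity)] at hn1
    nlinarith
  -- crossing points
  have hcross : ∀ i, ∃ t ∈ Set.Ico (0 : ℝ) 1, ‖(inner ℂ ζ (γ t) : ℂ)‖ ^ (m ^ 2) = r i := by
    intro i
    apply crossing γ ζ hζ hcont htend (m ^ 2) (r i) (hr1 i)
    exact lt_of_lt_of_le (hn0 _ hmn0) (hr22 i)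
  choose t ht hval using hcross
  -- coefficient vector
  set a : Fin 21 → ℂ := Fin.cons (SS η k ζ / ((η ^ k : ℝ) : ℂ)) (fun l : Fin 20 => qf m l ζ) with ha
  set u : Fin 21 → ℂ := fun i => (inner ℂ ζ (γ (t i)) : ℂ) ^ (m ^ 2) with hu
  have hunorm : ∀ i, ‖u i‖ = r i := by
    intro i
    simp only [hu]
    rw [norm_pow]
    exact hval i
  obtain ⟨i, hi⟩ := hδ a u hunorm
  have hanorm : c0 ≤ ‖a‖ := by
    obtain ⟨l, hl, hlow⟩ := qf_lower m (mseq_pos η k) ζ hζ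
    refine hlow.trans ?_
    have h1 := norm_le_pi_norm a (Fin.succ ⟨l, hl⟩)
    simp only [ha, Fin.cons_succ] at h1
    exact h1
  have hti := ht i
  have hzi := hzero (t i) hti
  have hzn : ‖γ (t i)‖ ≤ 1 := by
    have := hzi.1
    rw [mem_ball_zero_iff] at this
    exact this.le
  have hest := main_estimate η hη hη1 k ζ (γ (t i)) C' hζ hzn hC'pos (hnt' _ hti) (r i) (hr22 i)
    (hval i) hzi.2 (lt_of_lt_of_le hn2 hmn2)
  have hsum : ∑ l : Fin 21, u i ^ (l : ℕ) * a l = SS η k ζ / ((η ^ k : ℝ) : ℂ) + ∑ l ∈ Finset.range 20,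
      ((inner ℂ ζ (γ (t i)) : ℂ) ^ ((mseq η k) ^ 2)) ^ (l + 1) * qf (mseq η k) l ζ := by
    rw [Fin.sum_univ_succ, Finset.sum_range]
    simp only [ha, hu, Fin.cons_zero, Fin.cons_succ, Fin.val_zero, pow_zero, one_mul, Fin.val_succ]
    rfl
  rw [hsum] at hi
  have h1 : δ ≤ δ0 * ‖a‖ := mul_le_mul_of_nonneg_left hanorm hδ0.le
  have h2 : (22 * C') / m + 20 * (3 * (4 * Real.exp 2 * Real.exp 20) * (22 * C')) / m = K / m := by
    rw [hK]; ring
  have h3 := hi.trans hest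
  rw [← hmdef] at h3
  linarith

end Pool.Agent.Helper140.NT
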