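import Mathlib
import Pool.Agent.Helper140.NontangentialZeros

/-!
# A bounded holomorphic function without radial limits on a set of positive Henkin measure
(MP_f36430_an)

Outline. `TP g` says that `g * PP m` is asymptotically holomorphic on the sphere (uniformly along
radii); by translation `p (z + b / N)` of homogeneous polynomials and the Stone-Weierstrass theorem
it holds for every continuous `g`. The function is `ffin = sum of Fs k` with `Fs k` close to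
`chi (fs k) * PP (m k)`. The measure is a weak limit of laws of discretised holomorphic motions which
follow the level sets of `Fs k` (lemma `push`).
-/

set_option autoImplicit false

open MeasureTheory Filter Topology

namespace Pool.Agent.Helper140.NT


lemma norm_pow_sub_pow_le' (x y : ℂ) (M : ℝ) (hx : ‖x‖ ≤ M) (hy : ‖y‖ ≤ M) (n : ℕ) :
    ‖x ^ (n + 1) - y ^ (n + 1)‖ ≤ (n + 1) * ‖x - y‖ * M ^ n := by
  have hM : 0 ≤ M := (norm_nonneg x).trans hx
  induction n with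
  | zero => simp
  | succ n ih =>
    have h1 : x ^ (n + 1 + 1) - y ^ (n + 1 + 1) = x * (x ^ (n + 1) - y ^ (n + 1)) + (x - y) * y ^ (n + 1) := by
      ring
    rw [h1]
    refine (norm_add_le _ _).trans ?_
    rw [norm_mul, norm_mul, norm_pow]
    have h2 : ‖x‖ * ‖x ^ (n + 1) - y ^ (n + 1)‖ ≤ M * ((n + 1) * ‖x - y‖ * M ^ n) := by
      apply mul_le_mul hx ih (norm_nonneg _) hM
    have h3 : ‖x - y‖ * ‖y‖ ^ (n + 1) ≤ ‖x - y‖ * M ^ (n + 1) := by
      apply mul_le_mul_of_nonneg_left _ (norm_nonneg _)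
      exact pow_le_pow_left₀ (norm_nonneg _) hy _
    push_cast
    calc _ ≤ M * ((n + 1) * ‖x - y‖ * M ^ n) + ‖x - y‖ * M ^ (n + 1) := add_le_add h2 h3
      _ = ((n : ℝ) + 1 + 1) * ‖x - y‖ * M ^ (n + 1) := by ring

/-- comparison of `(r + β / N) ^ N` with `r ^ N * exp β` -/
lemma pow_compare (B : ℝ) (hB : 0 ≤ B) (n : ℕ) (hn : B ≤ n + 1) (hn1 : 1 ≤ n) (r : ℝ) (hr0 : 0 ≤ r) (hr1 : r ≤ 1)
    (β : ℂ) (hβ : ‖β‖ ≤ B) :
    ‖((r : ℂ) + β / (n + 1 : ℕ)) ^ (n + 1) - (r : ℂ) ^ (n + 1) * Complex.exp β‖ ≤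
      (B + B ^ 2) * Real.exp (2 * B) / n := by
  set N : ℝ := n + 1 with hN
  have hN0 : 0 < N := by positivity
  have hn0 : (0 : ℝ) < n := by exact_mod_cast hn1
  set s : ℂ := β / (n + 1 : ℕ) with hs
  have hsn : ‖s‖ = ‖β‖ / N := by
    rw [hs, norm_div]; congr 1
    rw [Complex.norm_natCast]; push_cast; rfl
  have hsB : ‖s‖ ≤ B / N := by rw [hsn]; exact div_le_div_of_nonneg_right hβ hN0.le
  have hBN : B / N ≤ 1 := by rw [div_le_one hN0]; exact hn
  have hs1 : ‖s‖ ≤ 1 := hsB.trans hBN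
  have hexp : (Complex.exp s) ^ (n + 1) = Complex.exp β := by
    rw [← Complex.exp_nat_mul]
    congr 1
    rw [hs]
    have : ((n + 1 : ℕ) : ℂ) ≠ 0 := by exact_mod_cast (Nat.succ_ne_zero n)
    field_simp
  have hy : (r : ℂ) ^ (n + 1) * Complex.exp β = ((r : ℂ) * Complex.exp s) ^ (n + 1) := by
    rw [mul_pow, hexp]
  rw [hy]
  -- norms
  have hexpn : ‖Complex.exp s‖ ≤ 1 + 2 * (B / N) := by
    have h1 := Complex.norm_exp_sub_one_sub_id_le hs1
    have h2 : Complex.exp s = (Complex.exp s - 1 - s) + (1 + s) := by ring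
    rw [h2]
    refine (norm_add_le _ _).trans ?_
    have h3 : ‖(1 : ℂ) + s‖ ≤ 1 + ‖s‖ := by
      refine (norm_add_le _ _).trans ?_
      simp
    have h4 : ‖s‖ ^ 2 ≤ ‖s‖ := by nlinarith [norm_nonneg s]
    linarith
  set M : ℝ := r + 2 * (B / N) with hM
  have hBN0 : 0 ≤ B / N := by positivity
  have hxM : ‖(r : ℂ) + s‖ ≤ M := by
    refine (norm_add_le _ _).trans ?_
    rw [Complex.norm_real, Real.norm_eq_abs, abs_of_nonneg hr0]
    linarith
  have hyM : ‖(r : ℂ) * Complex.exp s‖ ≤ M := by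
    rw [norm_mul, Complex.norm_real, Real.norm_eq_abs, abs_of_nonneg hr0]
    calc r * ‖Complex.exp s‖ ≤ r * (1 + 2 * (B / N)) := mul_le_mul_of_nonneg_left hexpn hr0
      _ ≤ M := by rw [hM]; nlinarith
  have hdiff : ‖((r : ℂ) + s) - (r : ℂ) * Complex.exp s‖ ≤ B / N * (1 - r) + (B / N) ^ 2 := by
    have h1 := Complex.norm_exp_sub_one_sub_id_le hs1
    have h2 : ((r : ℂ) + s) - (r : ℂ) * Complex.exp s = s * (((1 - r : ℝ) : ℂ)) - (r : ℂ) * (Complex.exp s - 1 - s) := by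
      push_cast; ring
    rw [h2]
    refine (norm_sub_le _ _).trans ?_
    rw [norm_mul, norm_mul, Complex.norm_real, Complex.norm_real, Real.norm_eq_abs, Real.norm_eq_abs,
      abs_of_nonneg hr0, abs_of_nonneg (by linarith : (0 : ℝ) ≤ 1 - r)]
    have h3 : ‖s‖ * (1 - r) ≤ B / N * (1 - r) := mul_le_mul_of_nonneg_right hsB (by linarith)
    have h4 : r * ‖Complex.exp s - 1 - s‖ ≤ (B / N) ^ 2 := by
      calc r * ‖Complex.exp s - 1 - s‖ ≤ 1 * ‖s‖ ^ 2 := mul_le_mul hr1 h1 (norm_nonneg _) (by norm_num)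
        _ ≤ (B / N) ^ 2 := by rw [one_mul]; exact pow_le_pow_left₀ (norm_nonneg _) hsB 2
    linarith
  have hMexp : M ^ n ≤ Real.exp (-(n * (1 - r)) + 2 * B) := by
    have h1 : M ≤ Real.exp (-(1 - r) + 2 * (B / N)) := by
      have := Real.add_one_le_exp (-(1 - r) + 2 * (B / N))
      rw [hM]; linarith
    have hM0 : 0 ≤ M := by positivity
    calc M ^ n ≤ (Real.exp (-(1 - r) + 2 * (B / N))) ^ n := pow_le_pow_left₀ hM0 h1 n
      _ = Real.exp (n * (-(1 - r) + 2 * (B / N))) := by rw [← Real.exp_nat_mul]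
      _ ≤ Real.exp (-(n * (1 - r)) + 2 * B) := by
          apply Real.exp_le_exp.mpr
          have h2 : (n : ℝ) * (B / N) ≤ B := by
            rw [mul_div_assoc', div_le_iff₀ hN0]
            nlinarith
          nlinarith
  refine (norm_pow_sub_pow_le' _ _ M hxM hyM n).trans ?_
  have hN' : ((n : ℝ) + 1) = N := rfl
  have h5 : ((n : ℝ) + 1) * ‖(r : ℂ) + s - (r : ℂ) * Complex.exp s‖ ≤ B * (1 - r) + B ^ 2 / N := by
    calc ((n : ℝ) + 1) * ‖(r : ℂ) + s - (r : ℂ) * Complex.exp s‖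
        ≤ N * (B / N * (1 - r) + (B / N) ^ 2) := mul_le_mul_of_nonneg_left hdiff hN0.le
      _ = B * (1 - r) + B ^ 2 / N := by field_simp
  have h6 : 0 ≤ B * (1 - r) + B ^ 2 / N := by
    have : 0 ≤ B * (1 - r) := mul_nonneg hB (by linarith)
    positivity
  calc ((n : ℝ) + 1) * ‖(r : ℂ) + s - (r : ℂ) * Complex.exp s‖ * M ^ n
      ≤ (B * (1 - r) + B ^ 2 / N) * Real.exp (-(n * (1 - r)) + 2 * B) := by
        apply mul_le_mul h5 hMexp (by positivity) h6
    _ = (B * ((1 - r) * Real.exp (-(n * (1 - r)))) + B ^ 2 / N * Real.exp (-(n * (1 - r)))) * Real.exp (2 * B) := by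
        rw [Real.exp_add]; ring
    _ ≤ (B * (1 / n) + B ^ 2 / n * 1) * Real.exp (2 * B) := by
        apply mul_le_mul_of_nonneg_right _ (Real.exp_pos _).le
        apply add_le_add
        · apply mul_le_mul_of_nonneg_left _ hB
          rw [le_div_iff₀ hn0]
          have h7 := Real.add_one_le_exp ((n : ℝ) * (1 - r))
          have h8 : Real.exp (-(n * (1 - r))) * Real.exp (n * (1 - r)) = 1 := by
            rw [← Real.exp_add]; simp
          have h9 := Real.exp_pos (-((n : ℝ) * (1 - r)))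
          calc (1 - r) * Real.exp (-(n * (1 - r))) * n = Real.exp (-(n * (1 - r))) * (n * (1 - r)) := by ring
            _ ≤ Real.exp (-(n * (1 - r))) * Real.exp (n * (1 - r)) :=
                mul_le_mul_of_nonneg_left (by linarith) h9.le
            _ = 1 := h8
        · apply mul_le_mul
          · apply div_le_div_of_nonneg_left (by positivity) hn0 (by linarith)
          · rw [Real.exp_le_one_iff]
            have : 0 ≤ (n : ℝ) * (1 - r) := mul_nonneg hn0.le (by linarith)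
            linarith
          · exact (Real.exp_pos _).le
          · positivity
    _ = (B + B ^ 2) * Real.exp (2 * B) / n := by field_simp

/-- tangential estimate with `‖lam‖` slightly above one -/
lemma tang2 (m l : ℕ) (hl : l < 20) (ζ w : E2) (lam : ℂ) (hζ : ‖ζ‖ = 1)
    (K : ℝ) (hK : 0 < K) (hlam : ‖lam‖ ≤ 1 + K / m ^ 2)
    (hort : inner ℂ ζ w = 0) (hw : ‖w‖ ≤ K / m ^ 2) (hmK : K < m) :
    ‖qf m l (lam • ζ + w) - lam ^ ((l + 1) * m ^ 2) * qf m l ζ‖ ≤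
      3 * (4 * Real.exp 2 * Real.exp (20 * (2 * K + 1))) * K / m := by
  have hm' : (0 : ℝ) < m := hK.trans hmK
  have hm : 0 < m := by exact_mod_cast hm'
  set M : ℝ := 4 * Real.exp 2 * Real.exp (20 * (2 * K + 1)) with hM
  have hM0 : 0 < M := by positivity
  set φ : ℂ → ℂ := fun s => qf m l (lam • ζ + s • w) with hφ
  have hφd : Differentiable ℂ φ := by
    have h1 := (qf_contDiff m l).differentiable (by norm_num)
    have h2 : Differentiable ℂ (fun s : ℂ => lam • ζ + s • w) := by fun_prop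
    exact h1.comp h2
  have hbound : ∀ s : ℂ, ‖s‖ < m / K → ‖φ s‖ ≤ M := by
    intro s hs
    have h1 := qf_bound m l hm (lam • ζ + s • w)
    refine h1.trans ?_
    rw [hM]
    apply mul_le_mul_of_nonneg_left _ (by positivity)
    have h2 : ‖lam • ζ + s • w‖ ^ 2 ≤ Real.exp ((2 * K + 1) / m ^ 2) := by
      have h3 : inner ℂ (lam • ζ) (s • w) = (0 : ℂ) := by
        rw [inner_smul_left, inner_smul_right, hort]; simp
      have h4 := norm_add_sq_eq_norm_sq_add_norm_sq_of_inner_eq_zero (𝕜 := ℂ) (lam • ζ) (s • w) h3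
      have h5 : ‖lam • ζ‖ ≤ Real.exp (K / m ^ 2) := by
        rw [norm_smul, hζ, mul_one]
        have := Real.add_one_le_exp (K / (m : ℝ) ^ 2)
        linarith
      have h6 : ‖s • w‖ ≤ 1 / m := by
        rw [norm_smul]
        calc ‖s‖ * ‖w‖ ≤ (m / K) * (K / m ^ 2) := by
              apply mul_le_mul hs.le hw (norm_nonneg _) (by positivity)
          _ = 1 / m := by field_simp
      have h7 : ‖lam • ζ‖ ^ 2 ≤ Real.exp (2 * K / m ^ 2) := by
        calc ‖lam • ζ‖ ^ 2 ≤ (Real.exp (K / m ^ 2)) ^ 2 := pow_le_pow_left₀ (norm_nonneg _) h5 2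
          _ = Real.exp (2 * K / m ^ 2) := by rw [← Real.exp_nat_mul]; congr 1; push_cast; ring
      have h8 : ‖s • w‖ ^ 2 ≤ (1 / m) ^ 2 := pow_le_pow_left₀ (norm_nonneg _) h6 2
      have h9 : 1 ≤ Real.exp (2 * K / m ^ 2) := Real.one_le_exp (by positivity)
      have h10 := Real.add_one_le_exp (1 / (m : ℝ) ^ 2)
      have h11 : Real.exp ((2 * K + 1) / m ^ 2) = Real.exp (2 * K / m ^ 2) * Real.exp (1 / (m : ℝ) ^ 2) := by
        rw [← Real.exp_add]; congr 1; ring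
      have h12 : (1 / (m : ℝ)) ^ 2 = 1 / (m : ℝ) ^ 2 := by ring
      rw [h11]
      rw [h12] at h8
      have h13 : 0 ≤ 1 / (m : ℝ) ^ 2 := by positivity
      calc ‖lam • ζ + s • w‖ ^ 2 = ‖lam • ζ‖ ^ 2 + ‖s • w‖ ^ 2 := by
            rw [sq, sq, sq]; exact h4
        _ ≤ Real.exp (2 * K / m ^ 2) + 1 / (m : ℝ) ^ 2 := add_le_add h7 h8
        _ ≤ Real.exp (2 * K / m ^ 2) * (1 / (m : ℝ) ^ 2 + 1) := by nlinarith
        _ ≤ _ := mul_le_mul_of_nonneg_left h10 (Real.exp_pos _).le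
    have h3 : ‖lam • ζ + s • w‖ ≤ Real.exp ((2 * K + 1) / m ^ 2) := by
      apply (pow_le_pow_iff_left₀ (norm_nonneg _) (Real.exp_pos _).le two_ne_zero).mp
      refine h2.trans ?_
      have h5 : 1 ≤ Real.exp ((2 * K + 1) / m ^ 2) := Real.one_le_exp (by positivity)
      nlinarith
    calc ‖lam • ζ + s • w‖ ^ ((l + 1) * m ^ 2) ≤ (Real.exp ((2 * K + 1) / m ^ 2)) ^ ((l + 1) * m ^ 2) :=
          pow_le_pow_left₀ (norm_nonneg _) h3 _
      _ = Real.exp ((l + 1) * (2 * K + 1)) := by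
          rw [← Real.exp_nat_mul]
          congr 1
          push_cast
          field_simp
      _ ≤ Real.exp (20 * (2 * K + 1)) := by
          apply Real.exp_le_exp.mpr
          have : (l : ℝ) + 1 ≤ 20 := by exact_mod_cast hl
          nlinarith
  have hR : 1 < m / K := by rw [lt_div_iff₀ hK]; linarith
  have hmaps : Set.MapsTo φ (Metric.ball 0 (m / K)) (Metric.closedBall (φ 0) (2 * M)) := by
    intro s hs
    rw [mem_ball_zero_iff] at hs
    rw [mem_closedBall_iff_norm]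
    have h1 := hbound s hs
    have h2 := hbound 0 (by rw [norm_zero]; positivity)
    have h3 := norm_sub_le (φ s) (φ 0)
    linarith
  have hS := Complex.dist_le_div_mul_dist_of_mapsTo_ball (f := φ) (c := 0) (z := 1)
    hφd.differentiableOn hmaps (by rw [mem_ball_zero_iff]; simpa using hR)
  rw [dist_eq_norm, dist_eq_norm] at hS
  have h1 : φ 1 = qf m l (lam • ζ + w) := by simp [hφ]
  have h0 : φ 0 = lam ^ ((l + 1) * m ^ 2) * qf m l ζ := by
    simp only [hφ, zero_smul, add_zero]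
    rw [qf_homog]
  rw [h1, h0] at hS
  simp only [sub_zero, norm_one, mul_one] at hS
  refine hS.trans ?_
  rw [div_div_eq_mul_div]
  apply div_le_div_of_nonneg_right _ hm'.le
  nlinarith


lemma qf_contDiff' (m l : ℕ) (n : WithTop ℕ∞) : ContDiff ℂ n (qf m l) := by
  have h0 : ContDiff ℂ n (fun z : E2 => z 0) := by fun_prop
  have h1 : ContDiff ℂ n (fun z : E2 => z 1) := by fun_prop
  unfold qf
  split_ifs with h
  · unfold pm bm
    fun_prop
  · unfold pm bm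
    fun_prop

/-- `g * PP m` is asymptotically holomorphic -/
def TP (g : E2 → ℂ) : Prop :=
  ∀ ε > 0, ∃ m0 : ℕ, ∀ m ≥ m0, ∃ F : E2 → ℂ, ContDiff ℂ 2 F ∧
    ∀ ζ : E2, ‖ζ‖ = 1 → ∀ r : ℝ, 0 ≤ r → r ≤ 1 →
      ‖F ((r : ℂ) • ζ) - g ζ * PP m ((r : ℂ) • ζ)‖ ≤ ε

lemma norm_r_smul (ζ : E2) (hζ : ‖ζ‖ = 1) (r : ℝ) (hr0 : 0 ≤ r) : ‖(r : ℂ) • ζ‖ = r := by
  rw [norm_smul, hζ, mul_one, Complex.norm_real, Real.norm_eq_abs, abs_of_nonneg hr0]

lemma TP_add (g h : E2 → ℂ) (hg : TP g) (hh : TP h) : TP (fun z => g z + h z) := by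
  intro ε hε
  obtain ⟨m1, h1⟩ := hg (ε / 2) (by positivity)
  obtain ⟨m2, h2⟩ := hh (ε / 2) (by positivity)
  refine ⟨max m1 m2, fun m hm => ?_⟩
  obtain ⟨F, hF, hF2⟩ := h1 m (le_trans (le_max_left _ _) hm)
  obtain ⟨G, hG, hG2⟩ := h2 m (le_trans (le_max_right _ _) hm)
  refine ⟨fun z => F z + G z, hF.add hG, fun ζ hζ r hr0 hr1 => ?_⟩
  have e : F ((r : ℂ) • ζ) + G ((r : ℂ) • ζ) - (g ζ + h ζ) * PP m ((r : ℂ) • ζ) =
      (F ((r : ℂ) • ζ) - g ζ * PP m ((r : ℂ) • ζ)) + (G ((r : ℂ) • ζ) - h ζ * PP m ((r : ℂ) • ζ)) := by ring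
  rw [e]
  refine (norm_add_le _ _).trans ?_
  have := hF2 ζ hζ r hr0 hr1
  have := hG2 ζ hζ r hr0 hr1
  linarith

lemma TP_smul (c : ℂ) (g : E2 → ℂ) (hg : TP g) : TP (fun z => c * g z) := by
  intro ε hε
  obtain ⟨m1, h1⟩ := hg (ε / (‖c‖ + 1)) (by positivity)
  refine ⟨m1, fun m hm => ?_⟩
  obtain ⟨F, hF, hF2⟩ := h1 m hm
  refine ⟨fun z => c * F z, contDiff_const.mul hF, fun ζ hζ r hr0 hr1 => ?_⟩
  have e : c * F ((r : ℂ) • ζ) - (c * g ζ) * PP m ((r : ℂ) • ζ) =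
      c * (F ((r : ℂ) • ζ) - g ζ * PP m ((r : ℂ) • ζ)) := by ring
  rw [e, norm_mul]
  have h2 := hF2 ζ hζ r hr0 hr1
  calc ‖c‖ * ‖F ((r : ℂ) • ζ) - g ζ * PP m ((r : ℂ) • ζ)‖ ≤ ‖c‖ * (ε / (‖c‖ + 1)) :=
        mul_le_mul_of_nonneg_left h2 (norm_nonneg _)
    _ ≤ (‖c‖ + 1) * (ε / (‖c‖ + 1)) := mul_le_mul_of_nonneg_right (by linarith) (by positivity)
    _ = ε := by field_simp

lemma TP_zero : TP (fun _ => 0) := by
  intro ε hε
  refine ⟨0, fun m _ => ⟨fun _ => 0, contDiff_const, fun ζ _ r _ _ => ?_⟩⟩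
  simp [hε.le]

lemma TP_approx (g : E2 → ℂ) (h : ∀ ε > 0, ∃ g' : E2 → ℂ, TP g' ∧ ∀ ζ, ‖ζ‖ = 1 → ‖g' ζ - g ζ‖ ≤ ε) :
    TP g := by
  intro ε hε
  have hM := M1_pos
  obtain ⟨g', hg', happ⟩ := h (ε / (2 * M1)) (by positivity)
  obtain ⟨m1, h1⟩ := hg' (ε / 2) (by positivity)
  refine ⟨max m1 1, fun m hm => ?_⟩
  obtain ⟨F, hF, hF2⟩ := h1 m (le_trans (le_max_left _ _) hm)
  have hm1 : 0 < m := lt_of_lt_of_le one_pos (le_trans (le_max_right _ _) hm)
  refine ⟨F, hF, fun ζ hζ r hr0 hr1 => ?_⟩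
  have e : F ((r : ℂ) • ζ) - g ζ * PP m ((r : ℂ) • ζ) =
      (F ((r : ℂ) • ζ) - g' ζ * PP m ((r : ℂ) • ζ)) + (g' ζ - g ζ) * PP m ((r : ℂ) • ζ) := by ring
  rw [e]
  refine (norm_add_le _ _).trans ?_
  rw [norm_mul]
  have h2 := hF2 ζ hζ r hr0 hr1
  have h3 := PP_bound m hm1 ((r : ℂ) • ζ) (by rw [norm_r_smul ζ hζ r hr0]; exact hr1)
  have h4 := mul_le_mul (happ ζ hζ) h3 (norm_nonneg _) (by positivity)
  have h5 : ε / (2 * M1) * M1 = ε / 2 := by field_simp
  linarith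

lemma PP_ray (m : ℕ) (ζ : E2) (r : ℝ) :
    PP m ((r : ℂ) • ζ) = ∑ l ∈ Finset.range 20, (r : ℂ) ^ ((l + 1) * m ^ 2) * qf m l ζ := by
  unfold PP
  apply Finset.sum_congr rfl
  intro l _
  rw [qf_homog]

lemma one_sub_mul_pow_le (n : ℕ) (hn : 0 < n) (r : ℝ) (hr0 : 0 ≤ r) (hr1 : r ≤ 1) :
    (1 - r) * r ^ n ≤ 1 / n := by
  have hn0 : (0 : ℝ) < n := by exact_mod_cast hn
  rw [le_div_iff₀ hn0]
  have h1 : r ≤ Real.exp (-(1 - r)) := by
    have := Real.add_one_le_exp (-(1 - r)); linarith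
  have h2 : r ^ n ≤ Real.exp (-(n * (1 - r))) := by
    calc r ^ n ≤ (Real.exp (-(1 - r))) ^ n := pow_le_pow_left₀ hr0 h1 n
      _ = Real.exp (-(n * (1 - r))) := by rw [← Real.exp_nat_mul]; congr 1; ring
  have h7 := Real.add_one_le_exp ((n : ℝ) * (1 - r))
  have h8 : Real.exp (-(n * (1 - r))) * Real.exp (n * (1 - r)) = 1 := by
    rw [← Real.exp_add]; simp
  have h9 := Real.exp_pos (-((n : ℝ) * (1 - r)))
  calc (1 - r) * r ^ n * n ≤ (1 - r) * Real.exp (-(n * (1 - r))) * n := by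
        apply mul_le_mul_of_nonneg_right _ hn0.le
        exact mul_le_mul_of_nonneg_left h2 (by linarith)
    _ = Real.exp (-(n * (1 - r))) * (n * (1 - r)) := by ring
    _ ≤ Real.exp (-(n * (1 - r))) * Real.exp (n * (1 - r)) :=
        mul_le_mul_of_nonneg_left (by linarith) h9.le
    _ = 1 := h8

/-- the translation estimate for one homogeneous piece -/
lemma qf_translate (b : E2) (K : ℝ) (hK : K = ‖b‖ + 1) (m l : ℕ) (hl : l < 20) (hmK : K < m)
    (hm2 : 2 ≤ m) (ζ : E2) (hζ : ‖ζ‖ = 1) (r : ℝ) (hr0 : 0 ≤ r) (hr1 : r ≤ 1) :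
    ‖qf m l ((r : ℂ) • ζ + ((1 : ℂ) / (((l + 1) * m ^ 2 : ℕ) : ℂ)) • b) -
      Complex.exp (inner ℂ ζ b) * ((r : ℂ) ^ ((l + 1) * m ^ 2) * qf m l ζ)‖ ≤
      (3 * (4 * Real.exp 2 * Real.exp (20 * (2 * K + 1))) * K
        + (K + K ^ 2) * Real.exp (2 * K) * (4 * Real.exp 2)) / m := by
  have hK0 : 0 < K := by rw [hK]; positivity
  have hm' : (0 : ℝ) < m := hK0.trans hmK
  have hm : 0 < m := by omega
  have hm2' : (2 : ℝ) ≤ m := by exact_mod_cast hm2
  obtain ⟨n, hn⟩ : ∃ n, (l + 1) * m ^ 2 = n + 1 := ⟨(l + 1) * m ^ 2 - 1, by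
    have : 0 < (l + 1) * m ^ 2 := by positivity
    omega⟩
  rw [hn]
  have hNm : (m : ℝ) ^ 2 ≤ (n : ℝ) + 1 := by
    have h1 : m ^ 2 ≤ n + 1 := by rw [← hn]; nlinarith
    exact_mod_cast h1
  have hnm : (m : ℝ) ≤ n := by nlinarith
  have hn1 : 1 ≤ n := by
    have : (1 : ℝ) ≤ n := by linarith
    exact_mod_cast this
  set β : ℂ := inner ℂ ζ b with hβ
  have hβb : ‖β‖ ≤ ‖b‖ := by
    have := norm_inner_le_norm (𝕜 := ℂ) ζ b
    rwa [hζ, one_mul] at this
  have hβK : ‖β‖ ≤ K := by rw [hK]; linarith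
  have hN0 : (0 : ℝ) < (n : ℝ) + 1 := by positivity
  have hNc : ((n + 1 : ℕ) : ℂ) ≠ 0 := by exact_mod_cast Nat.succ_ne_zero n
  set lam : ℂ := (r : ℂ) + β / ((n + 1 : ℕ) : ℂ) with hlam
  set w : E2 := ((1 : ℂ) / ((n + 1 : ℕ) : ℂ)) • (b - β • ζ) with hw
  have hζζ : inner ℂ ζ ζ = (1 : ℂ) := by
    rw [inner_self_eq_norm_sq_to_K, hζ]; norm_num
  have hortb : inner ℂ ζ (b - β • ζ) = (0 : ℂ) := by
    rw [inner_sub_right, inner_smul_right, hζζ, ← hβ]; ring
  have hort : inner ℂ ζ w = (0 : ℂ) := by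
    rw [hw, inner_smul_right, hortb, mul_zero]
  have hz : (r : ℂ) • ζ + ((1 : ℂ) / ((n + 1 : ℕ) : ℂ)) • b = lam • ζ + w := by
    rw [hlam, hw, smul_sub, smul_smul, add_smul]
    have : (1 : ℂ) / ((n + 1 : ℕ) : ℂ) * β = β / ((n + 1 : ℕ) : ℂ) := by ring
    rw [this]; abel
  have hnormN : ‖(1 : ℂ) / ((n + 1 : ℕ) : ℂ)‖ = 1 / ((n : ℝ) + 1) := by
    rw [norm_div, norm_one, Complex.norm_natCast]; push_cast; rfl
  have hbperp : ‖b - β • ζ‖ ≤ ‖b‖ := by
    have h3 : inner ℂ (β • ζ) (b - β • ζ) = (0 : ℂ) := by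
      rw [inner_smul_left, hortb, mul_zero]
    have h4 := norm_add_sq_eq_norm_sq_add_norm_sq_of_inner_eq_zero (𝕜 := ℂ) _ _ h3
    have h5 : β • ζ + (b - β • ζ) = b := by abel
    rw [h5] at h4
    apply (pow_le_pow_iff_left₀ (norm_nonneg _) (norm_nonneg _) two_ne_zero).mp
    nlinarith [norm_nonneg (β • ζ)]
  have hinv : 1 / ((n : ℝ) + 1) ≤ 1 / (m : ℝ) ^ 2 := by
    apply div_le_div_of_nonneg_left (by norm_num) (by positivity) hNm
  have hwn : ‖w‖ ≤ K / m ^ 2 := by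
    rw [hw, norm_smul, hnormN]
    calc 1 / ((n : ℝ) + 1) * ‖b - β • ζ‖ ≤ 1 / (m : ℝ) ^ 2 * K := by
          apply mul_le_mul hinv (by linarith [hbperp, hK]) (norm_nonneg _) (by positivity)
      _ = K / m ^ 2 := by ring
  have hlamn : ‖lam‖ ≤ 1 + K / m ^ 2 := by
    rw [hlam]
    refine (norm_add_le _ _).trans ?_
    rw [Complex.norm_real, Real.norm_eq_abs, abs_of_nonneg hr0, norm_div, Complex.norm_natCast]
    have h6 : ‖β‖ / ((n + 1 : ℕ) : ℝ) ≤ K / m ^ 2 := by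
      push_cast
      calc ‖β‖ / ((n : ℝ) + 1) = ‖β‖ * (1 / ((n : ℝ) + 1)) := by ring
        _ ≤ K * (1 / (m : ℝ) ^ 2) := mul_le_mul hβK hinv (by positivity) hK0.le
        _ = K / m ^ 2 := by ring
    linarith
  rw [hz]
  have h1 := tang2 m l hl ζ w lam hζ K hK0 hlamn hort hwn hmK
  rw [hn] at h1
  have h2 := pow_compare K hK0.le n (by nlinarith) hn1 r hr0 hr1 β hβK
  rw [← hlam] at h2
  have h3 : ‖qf m l ζ‖ ≤ 4 * Real.exp 2 := qf_upper m l hm ζ hζ
  have e : qf m l (lam • ζ + w) - Complex.exp β * ((r : ℂ) ^ (n + 1) * qf m l ζ) =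
      (qf m l (lam • ζ + w) - lam ^ (n + 1) * qf m l ζ) +
      (lam ^ (n + 1) - (r : ℂ) ^ (n + 1) * Complex.exp β) * qf m l ζ := by ring
  rw [e]
  refine (norm_add_le _ _).trans ?_
  rw [norm_mul, add_div]
  refine add_le_add h1 ?_
  have h4 : (K + K ^ 2) * Real.exp (2 * K) / n ≤ (K + K ^ 2) * Real.exp (2 * K) / m := by
    apply div_le_div_of_nonneg_left (by positivity) hm' hnm
  calc ‖lam ^ (n + 1) - (r : ℂ) ^ (n + 1) * Complex.exp β‖ * ‖qf m l ζ‖
      ≤ ((K + K ^ 2) * Real.exp (2 * K) / m) * (4 * Real.exp 2) := by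
        apply mul_le_mul (h2.trans h4) h3 (norm_nonneg _) (by positivity)
    _ = (K + K ^ 2) * Real.exp (2 * K) * (4 * Real.exp 2) / m := by ring

lemma TP_exp (a b : E2) : TP (fun ζ => Complex.exp (inner ℂ a ζ + inner ℂ ζ b)) := by
  intro ε hε
  set K : ℝ := ‖b‖ + 1 with hK
  have hK0 : 0 < K := by positivity
  set C1 : ℝ := (3 * (4 * Real.exp 2 * Real.exp (20 * (2 * K + 1))) * K
        + (K + K ^ 2) * Real.exp (2 * K) * (4 * Real.exp 2)) with hC1
  have hC10 : 0 < C1 := by positivity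
  have hM := M1_pos
  set C2 : ℝ := Real.exp ‖a‖ * (20 * C1) + Real.exp ‖a‖ * (‖a‖ * Real.exp ‖a‖) * Real.exp ‖b‖ * M1 with hC2
  have hC20 : 0 < C2 := by positivity
  obtain ⟨m1, hm1⟩ := exists_nat_gt K
  obtain ⟨m2, hm2⟩ := exists_nat_gt (C2 / ε)
  refine ⟨m1 + m2 + 2, fun m hm => ?_⟩
  have hmK : K < m := lt_of_lt_of_le hm1 (by exact_mod_cast (by omega : m1 ≤ m))
  have hmC : C2 / ε < m := lt_of_lt_of_le hm2 (by exact_mod_cast (by omega : m2 ≤ m))
  have hmge : 2 ≤ m := by omega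
  have hm' : (0 : ℝ) < m := hK0.trans hmK
  have hmpos : 0 < m := by omega
  refine ⟨fun z => Complex.exp (inner ℂ a z) *
    ∑ l ∈ Finset.range 20, qf m l (z + ((1 : ℂ) / (((l + 1) * m ^ 2 : ℕ) : ℂ)) • b), ?_, ?_⟩
  · apply ContDiff.mul
    · apply ContDiff.cexp
      exact (innerSL ℂ a).contDiff
    · apply ContDiff.sum
      intro l _
      exact (qf_contDiff' m l 2).comp (contDiff_id.add contDiff_const)
  · intro ζ hζ r hr0 hr1
    set β : ℂ := inner ℂ ζ b with hβ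
    set x : ℂ := inner ℂ a ζ with hx
    have hxa : ‖x‖ ≤ ‖a‖ := by
      have := norm_inner_le_norm (𝕜 := ℂ) a ζ
      rwa [hζ, mul_one] at this
    have hβb : ‖β‖ ≤ ‖b‖ := by
      have := norm_inner_le_norm (𝕜 := ℂ) ζ b
      rwa [hζ, one_mul] at this
    have hir : inner ℂ a ((r : ℂ) • ζ) = (r : ℂ) * x := by rw [inner_smul_right]
    beta_reduce
    rw [hir, ← hx, ← hβ]
    have hexpx : ‖Complex.exp ((r : ℂ) * x)‖ ≤ Real.exp ‖a‖ := by
      rw [Complex.norm_exp]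
      apply Real.exp_le_exp.mpr
      refine (Complex.re_le_norm _).trans ?_
      rw [norm_mul, Complex.norm_real, Real.norm_eq_abs, abs_of_nonneg hr0]
      nlinarith [norm_nonneg x]
    have hexpβ : ‖Complex.exp β‖ ≤ Real.exp ‖b‖ := by
      rw [Complex.norm_exp]
      apply Real.exp_le_exp.mpr
      exact (Complex.re_le_norm _).trans hβb
    have hexpd : ‖Complex.exp ((r : ℂ) * x) - Complex.exp x‖ ≤
        (1 - r) * (Real.exp ‖a‖ * (‖a‖ * Real.exp ‖a‖)) := by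
      have h1 := Complex.norm_exp_sub_sum_le_norm_mul_exp (((1 - r : ℝ) : ℂ) * x) 1
      simp only [Finset.range_one, Finset.sum_singleton, pow_zero, Nat.factorial_zero, Nat.cast_one,
        div_one, pow_one] at h1
      have h2 : Complex.exp ((r : ℂ) * x) - Complex.exp x =
          -(Complex.exp ((r : ℂ) * x) * (Complex.exp (((1 - r : ℝ) : ℂ) * x) - 1)) := by
        rw [mul_sub, ← Complex.exp_add]
        have : (r : ℂ) * x + ((1 - r : ℝ) : ℂ) * x = x := by push_cast; ring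
        rw [this]; ring
      rw [h2, norm_neg, norm_mul]
      have h3 : ‖((1 - r : ℝ) : ℂ) * x‖ ≤ (1 - r) * ‖a‖ := by
        rw [norm_mul, Complex.norm_real, Real.norm_eq_abs, abs_of_nonneg (by linarith)]
        exact mul_le_mul_of_nonneg_left hxa (by linarith)
      have h4 : ‖((1 - r : ℝ) : ℂ) * x‖ ≤ ‖a‖ := by nlinarith [norm_nonneg a]
      have h5 : ‖Complex.exp (((1 - r : ℝ) : ℂ) * x) - 1‖ ≤ (1 - r) * ‖a‖ * Real.exp ‖a‖ := by
        refine h1.trans ?_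
        apply mul_le_mul h3 (Real.exp_le_exp.mpr h4) (Real.exp_pos _).le
        exact mul_nonneg (by linarith) (norm_nonneg _)
      calc ‖Complex.exp ((r : ℂ) * x)‖ * ‖Complex.exp (((1 - r : ℝ) : ℂ) * x) - 1‖
          ≤ Real.exp ‖a‖ * ((1 - r) * ‖a‖ * Real.exp ‖a‖) :=
            mul_le_mul hexpx h5 (norm_nonneg _) (Real.exp_pos _).le
        _ = (1 - r) * (Real.exp ‖a‖ * (‖a‖ * Real.exp ‖a‖)) := by ring
    have hPP : (1 - r) * ‖PP m ((r : ℂ) • ζ)‖ ≤ M1 / m := by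
      have h1 : ‖PP m ((r : ℂ) • ζ)‖ ≤ M1 * r ^ (m ^ 2) := by
        rw [PP_ray]
        refine (norm_sum_le _ _).trans ?_
        calc ∑ l ∈ Finset.range 20, ‖(r : ℂ) ^ ((l + 1) * m ^ 2) * qf m l ζ‖
            ≤ ∑ l ∈ Finset.range 20, r ^ (m ^ 2) * (4 * Real.exp 2) := by
              apply Finset.sum_le_sum
              intro l _
              rw [norm_mul, norm_pow, Complex.norm_real, Real.norm_eq_abs, abs_of_nonneg hr0]
              apply mul_le_mul _ (qf_upper m l hmpos ζ hζ) (norm_nonneg _) (by positivity)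
              apply pow_le_pow_of_le_one hr0 hr1
              nlinarith
          _ = M1 * r ^ (m ^ 2) := by
              rw [Finset.sum_const, Finset.card_range]; unfold M1; simp; ring
      have h2 := one_sub_mul_pow_le (m ^ 2) (by positivity) r hr0 hr1
      have h3 : (1 : ℝ) / ((m ^ 2 : ℕ) : ℝ) ≤ 1 / m := by
        apply div_le_div_of_nonneg_left (by norm_num) hm'
        push_cast
        have : (2 : ℝ) ≤ m := by exact_mod_cast hmge
        nlinarith
      calc (1 - r) * ‖PP m ((r : ℂ) • ζ)‖ ≤ (1 - r) * (M1 * r ^ (m ^ 2)) :=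
            mul_le_mul_of_nonneg_left h1 (by linarith)
        _ = M1 * ((1 - r) * r ^ (m ^ 2)) := by ring
        _ ≤ M1 * (1 / m) := mul_le_mul_of_nonneg_left (h2.trans h3) hM.le
        _ = M1 / m := by ring
    have e : Complex.exp ((r : ℂ) * x) *
          ∑ l ∈ Finset.range 20, qf m l ((r : ℂ) • ζ + ((1 : ℂ) / (((l + 1) * m ^ 2 : ℕ) : ℂ)) • b) -
          Complex.exp (x + β) * PP m ((r : ℂ) • ζ) =
        Complex.exp ((r : ℂ) * x) * (∑ l ∈ Finset.range 20,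
          (qf m l ((r : ℂ) • ζ + ((1 : ℂ) / (((l + 1) * m ^ 2 : ℕ) : ℂ)) • b) -
            Complex.exp β * ((r : ℂ) ^ ((l + 1) * m ^ 2) * qf m l ζ))) +
        (Complex.exp ((r : ℂ) * x) - Complex.exp x) * Complex.exp β * PP m ((r : ℂ) • ζ) := by
      rw [Finset.sum_sub_distrib, ← Finset.mul_sum, ← PP_ray, Complex.exp_add]
      ring
    rw [e]
    refine (norm_add_le _ _).trans ?_
    have h6 : ‖Complex.exp ((r : ℂ) * x) * (∑ l ∈ Finset.range 20,
          (qf m l ((r : ℂ) • ζ + ((1 : ℂ) / (((l + 1) * m ^ 2 : ℕ) : ℂ)) • b) -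
            Complex.exp β * ((r : ℂ) ^ ((l + 1) * m ^ 2) * qf m l ζ)))‖ ≤ Real.exp ‖a‖ * (20 * C1) / m := by
      rw [norm_mul, mul_div_assoc]
      apply mul_le_mul hexpx _ (norm_nonneg _) (Real.exp_pos _).le
      refine (norm_sum_le _ _).trans ?_
      calc _ ≤ ∑ l ∈ Finset.range 20, C1 / m := by
            apply Finset.sum_le_sum
            intro l hl
            exact qf_translate b K hK m l (Finset.mem_range.mp hl) hmK hmge ζ hζ r hr0 hr1
        _ = 20 * C1 / m := by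
            rw [Finset.sum_const, Finset.card_range]; simp; ring
    have h7 : ‖(Complex.exp ((r : ℂ) * x) - Complex.exp x) * Complex.exp β * PP m ((r : ℂ) • ζ)‖ ≤
        Real.exp ‖a‖ * (‖a‖ * Real.exp ‖a‖) * Real.exp ‖b‖ * M1 / m := by
      rw [norm_mul, norm_mul]
      calc ‖Complex.exp ((r : ℂ) * x) - Complex.exp x‖ * ‖Complex.exp β‖ * ‖PP m ((r : ℂ) • ζ)‖
          ≤ ((1 - r) * (Real.exp ‖a‖ * (‖a‖ * Real.exp ‖a‖))) * Real.exp ‖b‖ * ‖PP m ((r : ℂ) • ζ)‖ := by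
            apply mul_le_mul_of_nonneg_right _ (norm_nonneg _)
            apply mul_le_mul hexpd hexpβ (norm_nonneg _)
            exact mul_nonneg (by linarith) (by positivity)
        _ = (Real.exp ‖a‖ * (‖a‖ * Real.exp ‖a‖)) * Real.exp ‖b‖ * ((1 - r) * ‖PP m ((r : ℂ) • ζ)‖) := by ring
        _ ≤ (Real.exp ‖a‖ * (‖a‖ * Real.exp ‖a‖)) * Real.exp ‖b‖ * (M1 / m) :=
            mul_le_mul_of_nonneg_left hPP (by positivity)
        _ = _ := by ring
    refine (add_le_add h6 h7).trans ?_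
    rw [← add_div, ← hC2, div_le_iff₀ hm']
    rw [div_lt_iff₀ hε] at hmC
    linarith


lemma TP_congr (g h : E2 → ℂ) (hgh : ∀ ζ, ‖ζ‖ = 1 → g ζ = h ζ) (hg : TP g) : TP h := by
  intro ε hε
  obtain ⟨m0, h0⟩ := hg ε hε
  refine ⟨m0, fun m hm => ?_⟩
  obtain ⟨F, hF, hF2⟩ := h0 m hm
  refine ⟨F, hF, fun ζ hζ r hr0 hr1 => ?_⟩
  rw [← hgh ζ hζ]
  exact hF2 ζ hζ r hr0 hr1

abbrev SX := Metric.sphere (0 : E2) 1

/-- the exponential characters on the sphere -/
noncomputable def ee (a b : E2) : C(SX, ℂ) :=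
  ⟨fun ζ => Complex.exp (inner ℂ a (ζ : E2) + inner ℂ (ζ : E2) b), by fun_prop⟩

lemma ee_apply (a b : E2) (ζ : SX) : ee a b ζ = Complex.exp (inner ℂ a (ζ : E2) + inner ℂ (ζ : E2) b) := rfl

lemma ee_mul (a b a' b' : E2) : ee a b * ee a' b' = ee (a + a') (b + b') := by
  ext ζ
  simp only [ContinuousMap.mul_apply, ee_apply]
  rw [← Complex.exp_add, inner_add_left, inner_add_right]
  congr 1; ring

lemma ee_one : ee 0 0 = 1 := by
  ext ζ
  simp [ee_apply]

lemma ee_star (a b : E2) : star (ee a b) = ee b a := by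
  ext ζ
  simp only [ContinuousMap.star_apply, ee_apply]
  rw [Complex.star_def, ← Complex.exp_conj, map_add, inner_conj_symm, inner_conj_symm, add_comm]

noncomputable def eeM : Submonoid C(SX, ℂ) where
  carrier := Set.range (fun p : E2 × E2 => ee p.1 p.2)
  one_mem' := ⟨(0, 0), ee_one⟩
  mul_mem' := by
    rintro _ _ ⟨p, rfl⟩ ⟨q, rfl⟩
    exact ⟨(p.1 + q.1, p.2 + q.2), (ee_mul _ _ _ _).symm⟩

noncomputable def eeA : StarSubalgebra ℂ C(SX, ℂ) where
  toSubalgebra := Algebra.adjoin ℂ (eeM : Set C(SX, ℂ))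
  star_mem' := by
    intro x hx
    change star x ∈ Algebra.adjoin ℂ (eeM : Set C(SX, ℂ))
    change x ∈ Algebra.adjoin ℂ (eeM : Set C(SX, ℂ)) at hx
    induction hx using Algebra.adjoin_induction with
    | mem x hx =>
      obtain ⟨p, rfl⟩ := hx
      apply Algebra.subset_adjoin
      exact ⟨(p.2, p.1), (ee_star _ _).symm⟩
    | algebraMap r =>
      rw [← algebraMap_star_comm]
      exact Subalgebra.algebraMap_mem _ _
    | add x y _ _ h1 h2 =>
      rw [star_add]; exact Subalgebra.add_mem _ h1 h2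
    | mul x y _ _ h1 h2 =>
      rw [star_mul]; exact Subalgebra.mul_mem _ h2 h1

lemma eeA_sep : eeA.SeparatesPoints := by
  intro x y hxy
  by_contra hcon
  push Not at hcon
  -- use exponentials of small multiples
  have hmem : ∀ a b : E2, ee a b ∈ eeA := by
    intro a b
    apply Algebra.subset_adjoin
    exact ⟨(a, b), rfl⟩
  apply hxy
  apply Subtype.ext
  have h1 : ∀ a : E2, ‖a‖ ≤ 1 → inner ℂ a (x : E2) = inner ℂ a (y : E2) := by
    intro a ha
    have h2 := hcon (ee a 0) ⟨ee a 0, hmem a 0, rfl⟩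
    rw [ee_apply, ee_apply, inner_zero_right, inner_zero_right, add_zero, add_zero] at h2
    have hx : ‖inner ℂ a (x : E2)‖ ≤ 1 := by
      have := norm_inner_le_norm (𝕜 := ℂ) a (x : E2)
      have hx1 : ‖(x : E2)‖ = 1 := by simp
      rw [hx1, mul_one] at this
      exact this.trans ha
    have hy : ‖inner ℂ a (y : E2)‖ ≤ 1 := by
      have := norm_inner_le_norm (𝕜 := ℂ) a (y : E2)
      have hy1 : ‖(y : E2)‖ = 1 := by simp
      rw [hy1, mul_one] at this
      exact this.trans ha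
    have hpi := Real.pi_gt_three
    have hxi := (Complex.abs_im_le_norm (inner ℂ a (x : E2))).trans hx
    have hyi := (Complex.abs_im_le_norm (inner ℂ a (y : E2))).trans hy
    rw [abs_le] at hxi hyi
    apply Complex.exp_inj_of_neg_pi_lt_of_le_pi _ _ _ _ h2
    · linarith
    · linarith
    · linarith
    · linarith
  have h3 := h1 (((1 / 2 : ℝ) : ℂ) • ((x : E2) - y)) (by
    rw [norm_smul]
    have hx1 : ‖(x : E2)‖ = 1 := by simp
    have hy1 : ‖(y : E2)‖ = 1 := by simp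
    have := norm_sub_le (x : E2) (y : E2)
    rw [Complex.norm_real]
    norm_num
    linarith)
  rw [inner_smul_left, inner_smul_left] at h3
  have h4 : (starRingEnd ℂ) (((1 / 2 : ℝ) : ℂ)) ≠ 0 := by
    simp
  have h5 := mul_left_cancel₀ h4 h3
  have h6 : inner ℂ ((x : E2) - y) ((x : E2) - y) = (0 : ℂ) := by
    rw [inner_sub_right, h5, sub_self]
  rw [inner_self_eq_zero] at h6
  exact sub_eq_zero.mp h6

noncomputable def extS (h : C(SX, ℂ)) (z : E2) : ℂ :=
  open Classical in if hz : z ∈ Metric.sphere (0 : E2) 1 then h ⟨z, hz⟩ else 0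

lemma extS_apply (h : C(SX, ℂ)) (z : E2) (hz : z ∈ Metric.sphere (0 : E2) 1) :
    extS h z = h ⟨z, hz⟩ := by
  unfold extS; rw [dif_pos hz]

lemma TP_eeA (h : C(SX, ℂ)) (hh : h ∈ eeA) : TP (extS h) := by
  have h1 : h ∈ Submodule.span ℂ (eeM : Set C(SX, ℂ)) := by
    have h2 : h ∈ Subalgebra.toSubmodule (Algebra.adjoin ℂ (eeM : Set C(SX, ℂ))) := hh
    rw [Algebra.adjoin_eq_span, Submonoid.closure_eq] at h2
    exact h2
  clear hh
  induction h1 using Submodule.span_induction with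
  | mem x hx =>
    obtain ⟨p, rfl⟩ := hx
    apply TP_congr _ _ _ (TP_exp p.1 p.2)
    intro ζ hζ
    rw [extS_apply _ _ (by simpa using hζ)]
    rfl
  | zero =>
    apply TP_congr _ _ _ TP_zero
    intro ζ hζ
    rw [extS_apply _ _ (by simpa using hζ)]
    rfl
  | add x y _ _ hx hy =>
    apply TP_congr _ _ _ (TP_add _ _ hx hy)
    intro ζ hζ
    rw [extS_apply _ _ (by simpa using hζ), extS_apply _ _ (by simpa using hζ),
      extS_apply _ _ (by simpa using hζ)]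
    rfl
  | smul c x _ hx =>
    apply TP_congr _ _ _ (TP_smul c _ hx)
    intro ζ hζ
    rw [extS_apply _ _ (by simpa using hζ), extS_apply _ _ (by simpa using hζ)]
    rfl

theorem TP_of_continuousOn (g : E2 → ℂ) (hg : ContinuousOn g (Metric.sphere 0 1)) : TP g := by
  apply TP_approx
  intro ε hε
  set g' : C(SX, ℂ) := ⟨fun ζ => g ζ, hg.domRestrict⟩ with hg'
  have hdense := ContinuousMap.starSubalgebra_topologicalClosure_eq_top_of_separatesPoints eeA eeA_sep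
  have hmem : g' ∈ eeA.topologicalClosure := by rw [hdense]; trivial
  have hmem2 : g' ∈ closure (eeA : Set C(SX, ℂ)) := hmem
  rw [Metric.mem_closure_iff] at hmem2
  obtain ⟨h, hh, hd⟩ := hmem2 ε hε
  refine ⟨extS h, TP_eeA h hh, fun ζ hζ => ?_⟩
  have hζ' : ζ ∈ Metric.sphere (0 : E2) 1 := by simpa using hζ
  rw [extS_apply _ _ hζ', ← dist_eq_norm, dist_comm]
  have h3 := ContinuousMap.dist_apply_le_dist (f := g') (g := h) ⟨ζ, hζ'⟩
  exact (h3.trans hd.le)


/-- the uniform probability on `(0, 2π]` -/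
noncomputable def nu : Measure ℝ :=
  (ENNReal.ofReal (2 * Real.pi)⁻¹) • (volume.restrict (Set.Ioc 0 (2 * Real.pi)))

instance : IsProbabilityMeasure nu := by
  constructor
  unfold nu
  rw [Measure.smul_apply, Measure.restrict_apply_univ, Real.volume_Ioc, sub_zero, smul_eq_mul,
    ← ENNReal.ofReal_mul (by positivity), inv_mul_cancel₀ (by positivity)]
  simp

lemma integral_nu {F : Type*} [NormedAddCommGroup F] [NormedSpace ℝ F] (f : ℝ → F) :
    ∫ θ, f θ ∂nu = (2 * Real.pi)⁻¹ • ∫ θ in (0 : ℝ)..(2 * Real.pi), f θ := by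
  unfold nu
  rw [integral_smul_measure, intervalIntegral.integral_of_le (by positivity),
    ENNReal.toReal_ofReal (by positivity)]

lemma integrable_nu {F : Type*} [NormedAddCommGroup F] (f : ℝ → F) (hf : Continuous f) :
    Integrable f nu := by
  unfold nu
  apply Integrable.smul_measure _ ENNReal.ofReal_ne_top
  exact hf.integrableOn_Ioc

/-- rotation point -/
noncomputable def rot (z v : E2) (θ : ℝ) : E2 := z + Complex.exp (θ * Complex.I) • v

lemma rot_cont (z v : E2) : Continuous (rot z v) := by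
  unfold rot; fun_prop

lemma norm_expI (θ : ℝ) : ‖Complex.exp (θ * Complex.I)‖ = 1 := Complex.norm_exp_ofReal_mul_I θ

lemma norm_rot_sub (z v : E2) (θ : ℝ) : ‖rot z v θ - z‖ = ‖v‖ := by
  unfold rot
  rw [add_sub_cancel_left, norm_smul, norm_expI, one_mul]

lemma norm_rot_le (z v : E2) (θ : ℝ) : ‖rot z v θ‖ ≤ ‖z‖ + ‖v‖ := by
  unfold rot
  refine (norm_add_le _ _).trans ?_
  rw [norm_smul, norm_expI, one_mul]

lemma mean_value (g : E2 → ℂ) (hc : Continuous g) (hd : DifferentiableOn ℂ g (Metric.ball 0 1))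
    (z v : E2) (hzv : ‖z‖ + ‖v‖ < 1) : ∫ θ, g (rot z v θ) ∂nu = g z := by
  have hsub : ∀ s : ℂ, ‖s‖ ≤ 1 → z + s • v ∈ Metric.ball (0 : E2) 1 := by
    intro s hs
    rw [mem_ball_zero_iff]
    refine lt_of_le_of_lt (norm_add_le _ _) ?_
    rw [norm_smul]
    nlinarith [norm_nonneg v]
  have h1 : DiffContOnCl ℂ (fun s : ℂ => g (z + s • v)) (Metric.ball 0 |(1 : ℝ)|) := by
    constructor
    · intro s hs
      rw [abs_one, mem_ball_zero_iff] at hs
      have h2 : DifferentiableAt ℂ g (z + s • v) :=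
        (hd _ (hsub s hs.le)).differentiableAt (Metric.isOpen_ball.mem_nhds (hsub s hs.le))
      have h3 : DifferentiableAt ℂ (fun s : ℂ => z + s • v) s := by fun_prop
      exact (DifferentiableAt.comp s h2 h3).differentiableWithinAt
    · apply Continuous.continuousOn
      fun_prop
  have h4 := DiffContOnCl.circleAverage h1
  rw [Real.circleAverage_def] at h4
  rw [integral_nu]
  simp only [zero_smul, add_zero] at h4
  rw [← h4]
  congr 1
  apply intervalIntegral.integral_congr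
  intro θ _
  simp only [circleMap, rot]
  congr 2
  simp

lemma second_moment (g : E2 → ℂ) (hc : Continuous g) (hd : DifferentiableOn ℂ g (Metric.ball 0 1))
    (z v : E2) (hzv : ‖z‖ + ‖v‖ < 1) :
    ∫ θ, ‖g (rot z v θ)‖ ^ 2 ∂nu = ‖g z‖ ^ 2 + ∫ θ, ‖g (rot z v θ) - g z‖ ^ 2 ∂nu := by
  have hrc := rot_cont z v
  have h0 : ∀ θ, ‖g (rot z v θ)‖ ^ 2 = ‖g z‖ ^ 2 + 2 * inner ℝ (g z) (g (rot z v θ) - g z)
      + ‖g (rot z v θ) - g z‖ ^ 2 := by
    intro θ
    have := norm_add_sq_real (g z) (g (rot z v θ) - g z)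
    rwa [add_sub_cancel] at this
  have hint1 : Integrable (fun θ => g (rot z v θ) - g z) nu := integrable_nu _ (by fun_prop)
  have hint2 : Integrable (fun θ => inner ℝ (g z) (g (rot z v θ) - g z)) nu := integrable_nu _ (by fun_prop)
  have hint3 : Integrable (fun θ => ‖g (rot z v θ) - g z‖ ^ 2) nu := integrable_nu _ (by fun_prop)
  have h1 : ∫ θ, inner ℝ (g z) (g (rot z v θ) - g z) ∂nu = 0 := by
    rw [integral_inner hint1 (g z)]
    rw [integral_sub (integrable_nu _ (by fun_prop)) (integrable_const _), mean_value g hc hd z v hzv]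
    simp
  calc ∫ θ, ‖g (rot z v θ)‖ ^ 2 ∂nu = ∫ θ, (‖g z‖ ^ 2 + 2 * inner ℝ (g z) (g (rot z v θ) - g z)
      + ‖g (rot z v θ) - g z‖ ^ 2) ∂nu := by
        apply integral_congr_ae
        exact Filter.Eventually.of_forall h0
    _ = ‖g z‖ ^ 2 + 2 * ∫ θ, inner ℝ (g z) (g (rot z v θ) - g z) ∂nu
        + ∫ θ, ‖g (rot z v θ) - g z‖ ^ 2 ∂nu := by
        have hA : Integrable (fun θ => ‖g z‖ ^ 2 + 2 * inner ℝ (g z) (g (rot z v θ) - g z)) nu :=
          (integrable_const _).add (hint2.const_mul 2)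
        rw [integral_add hA hint3,
          integral_add (integrable_const _) (hint2.const_mul 2), integral_const_mul]
        simp
    _ = _ := by rw [h1]; ring

/-- representing measures of the origin with compact support in the open ball -/
structure GoodM (μ : Measure E2) : Prop where
  prob : IsProbabilityMeasure μ
  supp : ∃ R : ℝ, R < 1 ∧ ∀ᵐ z ∂μ, ‖z‖ ≤ R
  rep : ∀ g : E2 → ℂ, Continuous g → DifferentiableOn ℂ g (Metric.ball 0 1) → ∫ z, g z ∂μ = g 0

lemma int_of_supp {F : Type*} [NormedAddCommGroup F] [SecondCountableTopology F] (μ : Measure E2) [IsFiniteMeasure μ]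
    (hμ : ∀ᵐ z ∂μ, ‖z‖ ≤ 1) (g : E2 → F) (hg : Continuous g) : Integrable g μ := by
  obtain ⟨C, hC⟩ := (isCompact_closedBall (0 : E2) 1).exists_bound_of_continuousOn hg.continuousOn
  borelize F
  apply Integrable.of_bound hg.aestronglyMeasurable C
  filter_upwards [hμ] with z hz
  exact hC z (by simpa using hz)

noncomputable def stepM (v : E2 → E2) (μ : Measure E2) : Measure E2 :=
  Measure.map (fun p : E2 × ℝ => rot p.1 (v p.1) p.2) (μ.prod nu)

lemma rot_meas (v : E2 → E2) (hv : Measurable v) :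
    Measurable (fun p : E2 × ℝ => rot p.1 (v p.1) p.2) := by
  unfold rot
  exact Measurable.add measurable_fst (Measurable.smul
    ((by fun_prop : Continuous (fun p : E2 × ℝ => Complex.exp (p.2 * Complex.I))).measurable)
    (hv.comp measurable_fst))

/-- hypothesis on the step field -/
structure StepField (η : ℝ) (v : E2 → E2) : Prop where
  pos : 0 < η
  lt : η < 1
  meas : Measurable v
  size : ∀ z, ‖z‖ ≤ 1 → ‖v z‖ = η * (1 - ‖z‖)

lemma StepField.sum_lt {η : ℝ} {v : E2 → E2} (hv : StepField η v) (z : E2) (hz : ‖z‖ < 1) :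
    ‖z‖ + ‖v z‖ < 1 := by
  rw [hv.size z hz.le]
  nlinarith [hv.pos, hv.lt]

lemma integral_stepM {F : Type*} [NormedAddCommGroup F] [NormedSpace ℝ F]
    [SecondCountableTopology F] {η : ℝ} {v : E2 → E2} (hv : StepField η v)
    (μ : Measure E2) (hμ : GoodM μ) (g : E2 → F) (hg : Continuous g) :
    ∫ z, g z ∂(stepM v μ) = ∫ z, ∫ θ, g (rot z (v z) θ) ∂nu ∂μ := by
  have := hμ.prob
  obtain ⟨R, hR, hsupp⟩ := hμ.supp
  have hmeas := rot_meas v hv.meas
  unfold stepM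
  borelize F
  rw [integral_map hmeas.aemeasurable hg.aestronglyMeasurable]
  apply integral_prod
  obtain ⟨C, hC⟩ := (isCompact_closedBall (0 : E2) 1).exists_bound_of_continuousOn hg.continuousOn
  apply Integrable.of_bound (hg.measurable.comp hmeas).aestronglyMeasurable C
  have h1 : ∀ᵐ p ∂(μ.prod nu), ‖(p : E2 × ℝ).1‖ ≤ R :=
    Measure.quasiMeasurePreserving_fst.ae hsupp
  filter_upwards [h1] with p hp
  apply hC
  rw [mem_closedBall_zero_iff]
  exact (norm_rot_le _ _ _).trans (hv.sum_lt _ (lt_of_le_of_lt hp hR)).le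

lemma stepM_good {η : ℝ} {v : E2 → E2} (hv : StepField η v) (μ : Measure E2) (hμ : GoodM μ) :
    GoodM (stepM v μ) := by
  have := hμ.prob
  obtain ⟨R, hR, hsupp⟩ := hμ.supp
  have hmeas := rot_meas v hv.meas
  refine ⟨?_, ?_, ?_⟩
  · unfold stepM
    exact Measure.isProbabilityMeasure_map hmeas.aemeasurable
  · refine ⟨η + (1 - η) * R, by nlinarith [hv.lt], ?_⟩
    unfold stepM
    have hms : MeasurableSet {y : E2 | ‖y‖ ≤ η + (1 - η) * R} :=
      measurableSet_le measurable_norm measurable_const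
    rw [ae_map_iff hmeas.aemeasurable hms]
    have h1 : ∀ᵐ p ∂(μ.prod nu), ‖(p : E2 × ℝ).1‖ ≤ R :=
      Measure.quasiMeasurePreserving_fst.ae hsupp
    filter_upwards [h1] with p hp
    refine (norm_rot_le _ _ _).trans ?_
    rw [hv.size p.1 (hp.trans hR.le)]
    nlinarith [hv.lt, hv.pos]
  · intro g hc hd
    rw [integral_stepM hv μ hμ g hc, ← hμ.rep g hc hd]
    apply integral_congr_ae
    filter_upwards [hsupp] with z hz
    exact mean_value g hc hd z (v z) (hv.sum_lt z (lt_of_le_of_lt hz hR))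

/-- second moment of the position -/
noncomputable def aI (μ : Measure E2) : ℝ := ∫ z, ‖z‖ ^ 2 ∂μ

noncomputable def sqI (g : E2 → ℂ) (μ : Measure E2) : ℝ := ∫ z, ‖g z‖ ^ 2 ∂μ

lemma GoodM.ae_le_one {μ : Measure E2} (hμ : GoodM μ) : ∀ᵐ z ∂μ, ‖z‖ ≤ 1 := by
  obtain ⟨R, hR, hsupp⟩ := hμ.supp
  filter_upwards [hsupp] with z hz
  exact hz.trans hR.le

lemma v_int {η : ℝ} {v : E2 → E2} (hv : StepField η v) (μ : Measure E2) (hμ : GoodM μ) :
    Integrable (fun z => ‖v z‖ ^ 2) μ := by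
  have := hμ.prob
  apply Integrable.of_bound (hv.meas.norm.pow_const 2).aestronglyMeasurable 1
  filter_upwards [hμ.ae_le_one] with z hz
  rw [hv.size z hz, Real.norm_eq_abs, abs_of_nonneg (by positivity)]
  have h1 : 0 ≤ 1 - ‖z‖ := by linarith
  have h2 : 1 - ‖z‖ ≤ 1 := by linarith [norm_nonneg z]
  have h3 : η * (1 - ‖z‖) ≤ 1 := by nlinarith [hv.lt, hv.pos]
  have h4 : 0 ≤ η * (1 - ‖z‖) := mul_nonneg hv.pos.le h1
  exact pow_le_one₀ h4 h3

lemma sqI_step_eq {η : ℝ} {v : E2 → E2} (hv : StepField η v) (μ : Measure E2) (hμ : GoodM μ)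
    (g : E2 → ℂ) (hc : Continuous g) (hd : DifferentiableOn ℂ g (Metric.ball 0 1)) :
    ∫ z, ‖g z‖ ^ 2 ∂(stepM v μ) = ∫ z, (‖g z‖ ^ 2 + ∫ θ, ‖g (rot z (v z) θ) - g z‖ ^ 2 ∂nu) ∂μ := by
  rw [integral_stepM hv μ hμ (fun z => ‖g z‖ ^ 2) (by fun_prop)]
  apply integral_congr_ae
  obtain ⟨R, hR, hsupp⟩ := hμ.supp
  filter_upwards [hsupp] with z hz
  exact second_moment g hc hd z (v z) (hv.sum_lt z (lt_of_le_of_lt hz hR))

lemma sqI_step_le {η : ℝ} {v : E2 → E2} (hv : StepField η v) (μ : Measure E2) (hμ : GoodM μ)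
    (g : E2 → ℂ) (hc : Continuous g) (hd : DifferentiableOn ℂ g (Metric.ball 0 1)) (κ : ℝ)
    (hκ : ∀ z, ‖z‖ < 1 → ∀ θ, ‖g (rot z (v z) θ) - g z‖ ^ 2 ≤ κ * ‖v z‖ ^ 2) :
    sqI g (stepM v μ) ≤ sqI g μ + κ * ∫ z, ‖v z‖ ^ 2 ∂μ := by
  have := hμ.prob
  obtain ⟨R, hR, hsupp⟩ := hμ.supp
  unfold sqI
  rw [sqI_step_eq hv μ hμ g hc hd, ← integral_const_mul,
    ← integral_add (int_of_supp μ hμ.ae_le_one _ (by fun_prop)) ((v_int hv μ hμ).const_mul κ)]
  apply integral_mono_of_nonneg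
  · filter_upwards with z
    have : 0 ≤ ∫ θ, ‖g (rot z (v z) θ) - g z‖ ^ 2 ∂nu := integral_nonneg (fun θ => by positivity)
    positivity
  · exact (int_of_supp μ hμ.ae_le_one _ (by fun_prop)).add ((v_int hv μ hμ).const_mul κ)
  · filter_upwards [hsupp] with z hz
    have h1 : ∫ θ, ‖g (rot z (v z) θ) - g z‖ ^ 2 ∂nu ≤ ∫ θ : ℝ, κ * ‖v z‖ ^ 2 ∂nu := by
      apply integral_mono
      · have hrc := rot_cont z (v z)
        exact integrable_nu _ (by fun_prop)
      · exact integrable_const _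
      · intro θ
        exact hκ z (lt_of_le_of_lt hz hR) θ
    have h2 : ∫ θ : ℝ, κ * ‖v z‖ ^ 2 ∂nu = κ * ‖v z‖ ^ 2 := by simp
    linarith

lemma coord_step {η : ℝ} {v : E2 → E2} (hv : StepField η v) (μ : Measure E2) (hμ : GoodM μ)
    (i : Fin 2) : ∫ z, ‖z i‖ ^ 2 ∂(stepM v μ) = ∫ z, (‖z i‖ ^ 2 + ‖v z i‖ ^ 2) ∂μ := by
  rw [sqI_step_eq hv μ hμ (fun z => z i) (by fun_prop) (by fun_prop)]
  apply integral_congr_ae
  filter_upwards with z
  congr 1
  have : ∀ θ : ℝ, ‖(rot z (v z) θ) i - z i‖ ^ 2 = ‖v z i‖ ^ 2 := by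
    intro θ
    unfold rot
    simp only [PiLp.add_apply, PiLp.smul_apply, smul_eq_mul, add_sub_cancel_left, norm_mul, norm_expI,
      one_mul]
  simp_rw [this]
  simp

lemma aI_step {η : ℝ} {v : E2 → E2} (hv : StepField η v) (μ : Measure E2) (hμ : GoodM μ) :
    aI (stepM v μ) = aI μ + ∫ z, ‖v z‖ ^ 2 ∂μ := by
  have hμ' := stepM_good hv μ hμ
  have := hμ.prob
  have := hμ'.prob
  unfold aI
  have h1 : ∀ ρ : Measure E2, IsProbabilityMeasure ρ → (∀ᵐ z ∂ρ, ‖z‖ ≤ 1) →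
      ∫ z, ‖z‖ ^ 2 ∂ρ = ∫ z, ‖z 0‖ ^ 2 ∂ρ + ∫ z, ‖z 1‖ ^ 2 ∂ρ := by
    intro ρ hρ hs
    rw [← integral_add (int_of_supp ρ hs _ (by fun_prop)) (int_of_supp ρ hs _ (by fun_prop))]
    apply integral_congr_ae
    filter_upwards with z
    exact norm_sq_E2 z
  have hvi : ∀ i : Fin 2, Integrable (fun z => ‖v z i‖ ^ 2) μ := by
    intro i
    apply (v_int hv μ hμ).mono'
    · have : Measurable (fun z => v z i) :=
        (by fun_prop : Continuous (fun z : E2 => z i)).measurable.comp hv.meas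
      exact (this.norm.pow_const 2).aestronglyMeasurable
    · filter_upwards with z
      rw [Real.norm_eq_abs, abs_of_nonneg (by positivity)]
      apply pow_le_pow_left₀ (norm_nonneg _)
      exact PiLp.norm_apply_le (v z) i
  rw [h1 _ hμ'.prob hμ'.ae_le_one, h1 _ hμ.prob hμ.ae_le_one, coord_step hv μ hμ 0,
    coord_step hv μ hμ 1]
  rw [integral_add (int_of_supp μ hμ.ae_le_one _ (by fun_prop)) (hvi 0),
    integral_add (int_of_supp μ hμ.ae_le_one _ (by fun_prop)) (hvi 1)]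
  have h2 : ∫ z, ‖v z‖ ^ 2 ∂μ = ∫ z, ‖v z 0‖ ^ 2 ∂μ + ∫ z, ‖v z 1‖ ^ 2 ∂μ := by
    rw [← integral_add (hvi 0) (hvi 1)]
    apply integral_congr_ae
    filter_upwards with z
    exact norm_sq_E2 (v z)
  rw [h2]; ring

lemma aI_le_one {μ : Measure E2} (hμ : GoodM μ) : aI μ ≤ 1 := by
  have := hμ.prob
  unfold aI
  calc ∫ z, ‖z‖ ^ 2 ∂μ ≤ ∫ _z : E2, (1 : ℝ) ∂μ := by
        apply integral_mono_ae (int_of_supp μ hμ.ae_le_one _ (by fun_prop)) (integrable_const _)
        filter_upwards [hμ.ae_le_one] with z hz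
        exact pow_le_one₀ (norm_nonneg _) hz
    _ = 1 := by simp

lemma aI_nonneg (μ : Measure E2) : 0 ≤ aI μ := integral_nonneg (fun z => by positivity)

lemma v_lower {η : ℝ} {v : E2 → E2} (hv : StepField η v) (μ : Measure E2) (hμ : GoodM μ) (δ : ℝ)
    (hδ : 0 < δ) (ha : aI μ < 1 - δ) : η ^ 2 * (δ ^ 2 / 4) ≤ ∫ z, ‖v z‖ ^ 2 ∂μ := by
  have := hμ.prob
  have h1 : ∫ z, (η ^ 2 * (δ / 2 * (1 - ‖z‖ ^ 2) - (δ / 2) ^ 2)) ∂μ ≤ ∫ z, ‖v z‖ ^ 2 ∂μ := by
    apply integral_mono_ae (int_of_supp μ hμ.ae_le_one _ (by fun_prop)) (v_int hv μ hμ)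
    filter_upwards [hμ.ae_le_one] with z hz
    rw [hv.size z hz, mul_pow]
    apply mul_le_mul_of_nonneg_left _ (by positivity)
    have h0 := norm_nonneg z
    nlinarith [sq_nonneg (1 - ‖z‖ - δ / 2), mul_nonneg hδ.le (sq_nonneg (1 - ‖z‖))]
  have h2 : ∫ z, (η ^ 2 * (δ / 2 * (1 - ‖z‖ ^ 2) - (δ / 2) ^ 2)) ∂μ =
      η ^ 2 * (δ / 2 * (1 - aI μ) - (δ / 2) ^ 2) := by
    have hi : Integrable (fun z : E2 => ‖z‖ ^ 2) μ := int_of_supp μ hμ.ae_le_one _ (by fun_prop)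
    have hA : Integrable (fun z : E2 => δ / 2 * (1 - ‖z‖ ^ 2)) μ :=
      ((integrable_const _).sub hi).const_mul _
    rw [integral_const_mul, integral_sub hA (integrable_const _),
      integral_const_mul, integral_sub (integrable_const _) hi]
    simp [aI]
  rw [h2] at h1
  refine le_trans ?_ h1
  apply mul_le_mul_of_nonneg_left _ (by positivity)
  nlinarith


lemma iter_good {η : ℝ} {v : E2 → E2} (hv : StepField η v) (μ : Measure E2) (hμ : GoodM μ) (j : ℕ) :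
    GoodM ((stepM v)^[j] μ) := by
  induction j with
  | zero => exact hμ
  | succ j ih =>
    rw [Function.iterate_succ_apply']
    exact stepM_good hv _ ih

lemma iter_sqI {η : ℝ} {v : E2 → E2} (hv : StepField η v) (μ : Measure E2) (hμ : GoodM μ) (j : ℕ)
    (g : E2 → ℂ) (hc : Continuous g) (hd : DifferentiableOn ℂ g (Metric.ball 0 1)) (κ : ℝ)
    (hκ : ∀ z, ‖z‖ < 1 → ∀ θ, ‖g (rot z (v z) θ) - g z‖ ^ 2 ≤ κ * ‖v z‖ ^ 2) :
    sqI g ((stepM v)^[j] μ) ≤ sqI g μ + κ * (aI ((stepM v)^[j] μ) - aI μ) := by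
  induction j with
  | zero => simp
  | succ j ih =>
    rw [Function.iterate_succ_apply']
    have h1 := sqI_step_le hv _ (iter_good hv μ hμ j) g hc hd κ hκ
    have h2 := aI_step hv _ (iter_good hv μ hμ j)
    rw [h2]
    linarith

lemma iter_exists {η : ℝ} {v : E2 → E2} (hv : StepField η v) (μ : Measure E2) (hμ : GoodM μ) (δ : ℝ)
    (hδ : 0 < δ) : ∃ j : ℕ, 1 - δ ≤ aI ((stepM v)^[j] μ) := by
  by_contra hcon
  push Not at hcon
  have hη := hv.pos
  have h1 : ∀ j : ℕ, j * (η ^ 2 * (δ ^ 2 / 4)) ≤ aI ((stepM v)^[j] μ) := by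
    intro j
    induction j with
    | zero => simpa using aI_nonneg μ
    | succ j ih =>
      rw [Function.iterate_succ_apply', aI_step hv _ (iter_good hv μ hμ j)]
      have h2 := v_lower hv _ (iter_good hv μ hμ j) δ hδ (hcon j)
      push_cast
      linarith
  obtain ⟨n, hn⟩ := exists_nat_gt (1 / (η ^ 2 * (δ ^ 2 / 4)))
  have h3 := h1 n
  have h4 := aI_le_one (iter_good hv μ hμ n)
  rw [div_lt_iff₀ (by positivity)] at hn
  linarith

/-- a vector in the kernel of a linear functional -/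
noncomputable def kraw (L : E2 →L[ℂ] ℂ) : E2 :=
  !₂[L (EuclideanSpace.single 1 1), -L (EuclideanSpace.single 0 1)]

lemma lin_apply (L : E2 →L[ℂ] ℂ) (x : E2) :
    L x = x 0 * L (EuclideanSpace.single 0 1) + x 1 * L (EuclideanSpace.single 1 1) := by
  have h1 : x = x 0 • EuclideanSpace.single (0 : Fin 2) (1 : ℂ) + x 1 • EuclideanSpace.single (1 : Fin 2) (1 : ℂ) := by
    ext i
    fin_cases i <;> simp
  conv_lhs => rw [h1]
  rw [map_add, map_smul, map_smul, smul_eq_mul, smul_eq_mul]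

lemma kraw_ker (L : E2 →L[ℂ] ℂ) : L (kraw L) = 0 := by
  rw [lin_apply]
  simp [kraw]
  ring

lemma kraw_zero (L : E2 →L[ℂ] ℂ) (h : kraw L = 0) (x : E2) : L x = 0 := by
  have h0 : L (EuclideanSpace.single 1 1) = 0 := by
    have := congrArg (fun y : E2 => y 0) h
    simpa [kraw] using this
  have h1 : L (EuclideanSpace.single 0 1) = 0 := by
    have := congrArg (fun y : E2 => y 1) h
    simpa [kraw] using this
  rw [lin_apply, h0, h1]; simp

open Classical in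
noncomputable def kunit (L : E2 →L[ℂ] ℂ) : E2 :=
  if kraw L = 0 then EuclideanSpace.single 0 1 else ((‖kraw L‖⁻¹ : ℝ) : ℂ) • kraw L

lemma kunit_norm (L : E2 →L[ℂ] ℂ) : ‖kunit L‖ = 1 := by
  unfold kunit
  split_ifs with h
  · simp
  · have h1 : 0 < ‖kraw L‖ := norm_pos_iff.mpr h
    rw [norm_smul, Complex.norm_real, Real.norm_eq_abs, abs_of_nonneg (by positivity),
      inv_mul_cancel₀ h1.ne']

lemma kunit_ker (L : E2 →L[ℂ] ℂ) : L (kunit L) = 0 := by
  unfold kunit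
  split_ifs with h
  · exact kraw_zero L h _
  · rw [map_smul, kraw_ker, smul_zero]

lemma kraw_cont : Continuous kraw := by
  unfold kraw
  apply Continuous.comp (PiLp.continuous_toLp 2 _)
  apply continuous_pi
  intro i
  fin_cases i
  · simp only [Fin.zero_eta, Matrix.cons_val_zero]
    exact (ContinuousLinearMap.apply ℂ ℂ (EuclideanSpace.single (1 : Fin 2) (1 : ℂ))).continuous
  · simp only [Fin.mk_one, Matrix.cons_val_one]
    exact (ContinuousLinearMap.apply ℂ ℂ (EuclideanSpace.single (0 : Fin 2) (1 : ℂ))).continuous.neg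

noncomputable def vfield (G : E2 → ℂ) (η : ℝ) (z : E2) : E2 :=
  ((η * (1 - ‖z‖) : ℝ) : ℂ) • kunit (fderiv ℂ G z)

lemma vfield_step (G : E2 → ℂ) (hG : ContDiff ℂ 2 G) (η : ℝ) (h0 : 0 < η) (h1 : η < 1) :
    StepField η (vfield G η) := by
  refine ⟨h0, h1, ?_, ?_⟩
  · have hc : Continuous (fderiv ℂ G) := hG.continuous_fderiv (by norm_num)
    have hk : Measurable (fun z => kraw (fderiv ℂ G z)) := (kraw_cont.comp hc).measurable
    have hku : Measurable (fun z => kunit (fderiv ℂ G z)) := by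
      unfold kunit
      apply Measurable.ite
      · exact hk (measurableSet_singleton 0)
      · exact measurable_const
      · exact Measurable.smul (Complex.measurable_ofReal.comp hk.norm.inv) hk
    unfold vfield
    exact Measurable.smul (Complex.measurable_ofReal.comp
      ((measurable_const.sub measurable_norm).const_mul η)) hku
  · intro z hz
    unfold vfield
    rw [norm_smul, kunit_norm, mul_one, Complex.norm_real, Real.norm_eq_abs, abs_of_nonneg]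
    exact mul_nonneg h0.le (by linarith)

lemma quad_est (G : E2 → ℂ) (hG : ContDiff ℂ 2 G) : ∃ C : ℝ, 0 ≤ C ∧ ∀ z w : E2, ‖z‖ ≤ 1 → ‖z + w‖ ≤ 1 →
    fderiv ℂ G z w = 0 → ‖G (z + w) - G z‖ ≤ C * ‖w‖ ^ 2 := by
  have h1 : ContDiff ℂ 1 (fderiv ℂ G) := hG.fderiv_right (by norm_num)
  have h2 : Continuous (fderiv ℂ (fderiv ℂ G)) := h1.continuous_fderiv (by norm_num)
  have h2' : Continuous (fun z : E2 => ‖fderiv ℂ (fderiv ℂ G) z‖) :=
    (continuous_norm (E := E2 →L[ℂ] E2 →L[ℂ] ℂ)).comp h2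
  obtain ⟨C, hC'⟩ := (isCompact_closedBall (0 : E2) 1).exists_bound_of_continuousOn h2'.continuousOn
  have hC : ∀ x ∈ Metric.closedBall (0 : E2) 1, ‖fderiv ℂ (fderiv ℂ G) x‖ ≤ C := by
    intro x hx
    exact (le_abs_self _).trans (hC' x hx)
  refine ⟨max C 0, le_max_right _ _, fun z w hz hzw hker => ?_⟩
  have hseg : ∀ x ∈ segment ℝ z (z + w), x ∈ Metric.closedBall (0 : E2) 1 := by
    intro x hx
    have hz' : z ∈ Metric.closedBall (0 : E2) 1 := by simpa using hz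
    have hzw' : z + w ∈ Metric.closedBall (0 : E2) 1 := by simpa using hzw
    exact (convex_closedBall (0 : E2) 1).segment_subset hz' hzw' hx
  have h3 : ∀ x ∈ segment ℝ z (z + w), ‖fderiv ℂ G x - fderiv ℂ G z‖ ≤ max C 0 * ‖w‖ := by
    intro x hx
    have h4 : ‖fderiv ℂ G x - fderiv ℂ G z‖ ≤ max C 0 * ‖x - z‖ := by
      apply Convex.norm_image_sub_le_of_norm_fderiv_le (𝕜 := ℂ) (s := Metric.closedBall (0 : E2) 1)
      · intro y _
        exact h1.differentiable (by norm_num) y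
      · intro y hy
        exact (hC y hy).trans (le_max_left _ _)
      · exact convex_closedBall _ _
      · simpa using hz
      · exact hseg x hx
    refine h4.trans ?_
    apply mul_le_mul_of_nonneg_left _ (le_max_right _ _)
    have h5 := norm_sub_le_of_mem_segment hx
    rwa [add_sub_cancel_left] at h5
  have h6 := Convex.norm_image_sub_le_of_norm_fderiv_le' (𝕜 := ℂ) (f := G) (φ := fderiv ℂ G z)
    (s := segment ℝ z (z + w)) (x := z) (y := z + w) (C := max C 0 * ‖w‖)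
    (fun x _ => hG.differentiable (by norm_num) x) h3 (convex_segment _ _)
    (left_mem_segment ℝ _ _) (right_mem_segment ℝ _ _)
  rw [add_sub_cancel_left, hker, sub_zero] at h6
  calc ‖G (z + w) - G z‖ ≤ max C 0 * ‖w‖ * ‖w‖ := h6
    _ = max C 0 * ‖w‖ ^ 2 := by ring

/-- pushing a good measure towards the sphere along the level sets of `G` -/
lemma push (μ : Measure E2) (hμ : GoodM μ) (G : E2 → ℂ) (hG : ContDiff ℂ 2 G) (ε δ : ℝ) (hε : 0 < ε)
    (hδ : 0 < δ) : ∃ μ' : Measure E2, GoodM μ' ∧ 1 - δ ≤ aI μ' ∧ sqI G μ' ≤ sqI G μ + ε ∧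
      ∀ g : E2 → ℂ, Continuous g → DifferentiableOn ℂ g (Metric.ball 0 1) → ∀ L : ℝ,
        (∀ z w : E2, ‖z‖ ≤ 1 → ‖w‖ ≤ 1 → ‖g z - g w‖ ≤ L * ‖z - w‖) →
        sqI g μ' ≤ sqI g μ + L ^ 2 * (aI μ' - aI μ) := by
  obtain ⟨C, hC0, hC⟩ := quad_est G hG
  set η : ℝ := min (1 / 2) (ε / (C ^ 2 + 1)) with hη
  have hη0 : 0 < η := by rw [hη]; positivity
  have hη1 : η < 1 := lt_of_le_of_lt (min_le_left _ _) (by norm_num)
  have hv := vfield_step G hG η hη0 hη1
  obtain ⟨j, hj⟩ := iter_exists hv μ hμ δ hδ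
  refine ⟨(stepM (vfield G η))^[j] μ, iter_good hv μ hμ j, hj, ?_, ?_⟩
  · have h1 := iter_sqI hv μ hμ j G hG.continuous
      (hG.differentiable (by norm_num)).differentiableOn (C ^ 2 * η ^ 2) (by
        intro z hz θ
        have h2 : rot z (vfield G η z) θ = z + Complex.exp (θ * Complex.I) • vfield G η z := rfl
        rw [h2]
        have h3 := hC z (Complex.exp (θ * Complex.I) • vfield G η z) hz.le (by
          rw [← h2]
          exact (norm_rot_le _ _ _).trans (hv.sum_lt z hz).le) (by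
          unfold vfield
          rw [map_smul, map_smul, kunit_ker, smul_zero, smul_zero])
        rw [norm_smul, norm_expI, one_mul] at h3
        have h4 : ‖vfield G η z‖ ≤ η := by
          rw [hv.size z hz.le]
          nlinarith [norm_nonneg z]
        calc ‖G (z + Complex.exp (θ * Complex.I) • vfield G η z) - G z‖ ^ 2
            ≤ (C * ‖vfield G η z‖ ^ 2) ^ 2 := pow_le_pow_left₀ (norm_nonneg _) h3 2
          _ = C ^ 2 * ‖vfield G η z‖ ^ 2 * ‖vfield G η z‖ ^ 2 := by ring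
          _ ≤ C ^ 2 * η ^ 2 * ‖vfield G η z‖ ^ 2 := by
              apply mul_le_mul_of_nonneg_right _ (by positivity)
              apply mul_le_mul_of_nonneg_left _ (by positivity)
              exact pow_le_pow_left₀ (norm_nonneg _) h4 2)
    refine h1.trans ?_
    have h5 := aI_le_one (iter_good hv μ hμ j)
    have h6 := aI_nonneg μ
    have h7 : C ^ 2 * η ^ 2 ≤ ε := by
      have h8 : η ≤ ε / (C ^ 2 + 1) := min_le_right _ _
      have h9 : η ^ 2 ≤ η := by nlinarith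
      calc C ^ 2 * η ^ 2 ≤ (C ^ 2 + 1) * η := by nlinarith [sq_nonneg C]
        _ ≤ (C ^ 2 + 1) * (ε / (C ^ 2 + 1)) := mul_le_mul_of_nonneg_left h8 (by positivity)
        _ = ε := by field_simp
    have h10 : C ^ 2 * η ^ 2 * (aI ((stepM (vfield G η))^[j] μ) - aI μ) ≤ C ^ 2 * η ^ 2 * 1 :=
      mul_le_mul_of_nonneg_left (by linarith) (by positivity)
    linarith
  · intro g hgc hgd L hL
    apply iter_sqI hv μ hμ j g hgc hgd (L ^ 2)
    intro z hz θ
    have h1 := hL (rot z (vfield G η z) θ) z ((norm_rot_le _ _ _).trans (hv.sum_lt z hz).le) hz.le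
    rw [norm_rot_sub] at h1
    calc ‖g (rot z (vfield G η z) θ) - g z‖ ^ 2 ≤ (L * ‖vfield G η z‖) ^ 2 :=
          pow_le_pow_left₀ (norm_nonneg _) h1 2
      _ = L ^ 2 * ‖vfield G η z‖ ^ 2 := by ring


/-- radial retraction onto the closed ball -/
noncomputable def ret (z : E2) : E2 := (((max 1 ‖z‖)⁻¹ : ℝ) : ℂ) • z

lemma ret_cont : Continuous ret := by
  unfold ret
  have h1 : Continuous (fun z : E2 => (max 1 ‖z‖)⁻¹) := by
    apply Continuous.inv₀ (by fun_prop)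
    intro z
    positivity
  exact (Complex.continuous_ofReal.comp h1).smul continuous_id

lemma ret_mem (z : E2) : ret z ∈ Metric.closedBall (0 : E2) 1 := by
  rw [mem_closedBall_zero_iff]
  unfold ret
  rw [norm_smul, Complex.norm_real, Real.norm_eq_abs, abs_of_nonneg (by positivity)]
  rw [inv_mul_le_iff₀ (by positivity), mul_one]
  exact le_max_right _ _

lemma ret_eq (z : E2) (hz : ‖z‖ ≤ 1) : ret z = z := by
  unfold ret
  rw [max_eq_left hz]; simp

lemma bdd_of_cont (h : E2 → ℝ) (hh : Continuous h) : ∃ f : BoundedContinuousFunction E2 ℝ,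
    ∀ z, f z = h (ret z) := by
  obtain ⟨C, hC⟩ := (isCompact_closedBall (0 : E2) 1).exists_bound_of_continuousOn hh.continuousOn
  refine ⟨BoundedContinuousFunction.ofNormedAddCommGroup (fun z => h (ret z)) (hh.comp ret_cont) C
    (fun z => hC _ (ret_mem z)), fun z => rfl⟩

lemma weak_limit (μ : ℕ → Measure E2) (hμ : ∀ k, GoodM (μ k))
    (ha : Tendsto (fun k => aI (μ k)) atTop (𝓝 1)) :
    ∃ ρ : Measure E2, IsProbabilityMeasure ρ ∧ ρ (Metric.sphere (0 : E2) 1)ᶜ = 0 ∧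
      (∀ g : E2 → ℂ, ContinuousOn g (Metric.closedBall 0 1) → DifferentiableOn ℂ g (Metric.ball 0 1) →
        ∫ z, g z ∂ρ = g 0) ∧
      (∀ g : E2 → ℂ, Continuous g → ∀ c : ℝ, (∀ᶠ k in atTop, sqI g (μ k) ≤ c) → sqI g ρ ≤ c) := by
  set P : ℕ → ProbabilityMeasure E2 := fun k => ⟨μ k, (hμ k).prob⟩ with hP
  have hKc := isCompact_setOfPred_probabilityMeasure_mass_eq_compl_isCompact_le (E := E2)
    (u := fun _ : ℕ => (0 : NNReal)) (K := fun _ => Metric.closedBall (0 : E2) 1)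
    tendsto_const_nhds (fun _ => isCompact_closedBall _ _) (Or.inl inferInstance)
  set 𝒦 := {ν : ProbabilityMeasure E2 | ∀ n : ℕ, ν (Metric.closedBall (0 : E2) 1)ᶜ ≤ (0 : NNReal)} with h𝒦
  have hPK : ∀ k, P k ∈ 𝒦 := by
    intro k n
    have h1 : μ k (Metric.closedBall (0 : E2) 1)ᶜ = 0 := by
      have h2 := (hμ k).ae_le_one
      rw [ae_iff] at h2
      convert h2 using 2
      ext z
      simp
    have h3 : P k (Metric.closedBall (0 : E2) 1)ᶜ = ((μ k (Metric.closedBall (0 : E2) 1)ᶜ)).toNNReal := rfl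
    rw [h3, h1]; simp
  set U : Ultrafilter ℕ := hyperfilter ℕ with hU
  have hUle : (U : Filter ℕ) ≤ atTop := Nat.hyperfilter_le_atTop
  obtain ⟨ν, hν, hle⟩ := hKc.ultrafilter_le_nhds (U.map P) (by
    rw [le_principal_iff]
    exact Filter.mem_map.mpr (Filter.univ_mem' hPK))
  have htend : Tendsto P (U : Filter ℕ) (𝓝 ν) := hle
  set ρ : Measure E2 := (ν : Measure E2) with hρ
  have hprob : IsProbabilityMeasure ρ := ν.2
  have hsupp : ∀ᵐ z ∂ρ, ‖z‖ ≤ 1 := by
    have h1 := hν 0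
    have h2 : ρ (Metric.closedBall (0 : E2) 1)ᶜ = 0 := by
      have h3 : ((ν (Metric.closedBall (0 : E2) 1)ᶜ : NNReal) : ENNReal) = ρ (Metric.closedBall (0 : E2) 1)ᶜ :=
        ProbabilityMeasure.ennreal_coeFn_eq_coeFn_toMeasure ν _
      rw [← h3]
      have h4 : ν (Metric.closedBall (0 : E2) 1)ᶜ = 0 := le_antisymm h1 zero_le
      rw [h4]; simp
    rw [ae_iff]
    convert h2 using 2
    ext z
    simp
  have hlim : ∀ h : E2 → ℝ, Continuous h → Tendsto (fun k => ∫ z, h z ∂(μ k)) (U : Filter ℕ)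
      (𝓝 (∫ z, h z ∂ρ)) := by
    intro h hh
    obtain ⟨f, hf⟩ := bdd_of_cont h hh
    have h1 := (ProbabilityMeasure.tendsto_iff_forall_integral_tendsto.mp htend) f
    have h2 : ∀ k, ∫ z, f z ∂(P k : Measure E2) = ∫ z, h z ∂(μ k) := by
      intro k
      apply integral_congr_ae
      have h3 : ∀ᵐ z ∂(μ k), f z = h z := by
        filter_upwards [(hμ k).ae_le_one] with z hz
        rw [hf, ret_eq z hz]
      exact h3
    have h4 : ∫ z, f z ∂(ν : Measure E2) = ∫ z, h z ∂ρ := by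
      apply integral_congr_ae
      filter_upwards [hsupp] with z hz
      rw [hf, ret_eq z hz]
    simp_rw [h2] at h1
    rw [h4] at h1
    exact h1
  have haρ : aI ρ = 1 := by
    have h1 := hlim (fun z => ‖z‖ ^ 2) (by fun_prop)
    exact tendsto_nhds_unique h1 (ha.mono_left hUle)
  refine ⟨ρ, hprob, ?_, ?_, ?_⟩
  · have h1 : ∫ z, (1 - ‖z‖ ^ 2) ∂ρ = 0 := by
      rw [integral_sub (integrable_const _) (int_of_supp ρ hsupp _ (by fun_prop))]
      have : ∫ z, ‖z‖ ^ 2 ∂ρ = 1 := haρ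
      rw [this]; simp
    have h2 : 0 ≤ᵐ[ρ] (fun z : E2 => 1 - ‖z‖ ^ 2) := by
      filter_upwards [hsupp] with z hz
      have : ‖z‖ ^ 2 ≤ 1 := pow_le_one₀ (norm_nonneg _) hz
      simpa using this
    have h3 := (integral_eq_zero_iff_of_nonneg_ae h2 (int_of_supp ρ hsupp _ (by fun_prop))).mp h1
    have h4 : ∀ᵐ z ∂ρ, z ∈ Metric.sphere (0 : E2) 1 := by
      filter_upwards [h3] with z hz
      have h5 : ‖z‖ ^ 2 = 1 := by
        have : 1 - ‖z‖ ^ 2 = 0 := hz
        linarith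
      rw [mem_sphere_zero_iff_norm]
      have h6 := norm_nonneg z
      nlinarith
    exact h4
  · intro g hc hd
    set g' : E2 → ℂ := fun z => g (ret z) with hg'
    have hc' : Continuous g' := hc.comp_continuous ret_cont ret_mem
    have hd' : DifferentiableOn ℂ g' (Metric.ball 0 1) := by
      apply hd.congr
      intro z hz
      rw [mem_ball_zero_iff] at hz
      simp only [hg']
      rw [ret_eq z hz.le]
    have hg0 : g' 0 = g 0 := by simp only [hg']; rw [ret_eq 0 (by simp)]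
    have hgρ : ∫ z, g z ∂ρ = ∫ z, g' z ∂ρ := by
      apply integral_congr_ae
      filter_upwards [hsupp] with z hz
      simp only [hg']
      rw [ret_eq z hz]
    rw [hgρ, ← hg0]
    have hint : Integrable g' ρ := int_of_supp ρ hsupp _ hc'
    have hre : ∫ z, (g' z).re ∂ρ = (g' 0).re := by
      have h1 := hlim (fun z => (g' z).re) (Complex.continuous_re.comp hc')
      have h2 : ∀ k, ∫ z, (g' z).re ∂(μ k) = (g' 0).re := by
        intro k
        have := (hμ k).prob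
        have h3 := (hμ k).rep g' hc' hd'
        rw [← h3]
        exact Complex.reCLM.integral_comp_comm (int_of_supp (μ k) (hμ k).ae_le_one _ hc')
      simp_rw [h2] at h1
      exact tendsto_nhds_unique h1 tendsto_const_nhds
    have him : ∫ z, (g' z).im ∂ρ = (g' 0).im := by
      have h1 := hlim (fun z => (g' z).im) (Complex.continuous_im.comp hc')
      have h2 : ∀ k, ∫ z, (g' z).im ∂(μ k) = (g' 0).im := by
        intro k
        have := (hμ k).prob
        have h3 := (hμ k).rep g' hc' hd'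
        rw [← h3]
        exact Complex.imCLM.integral_comp_comm (int_of_supp (μ k) (hμ k).ae_le_one _ hc')
      simp_rw [h2] at h1
      exact tendsto_nhds_unique h1 tendsto_const_nhds
    apply Complex.ext
    · rw [← hre]
      exact (Complex.reCLM.integral_comp_comm hint).symm
    · rw [← him]
      exact (Complex.imCLM.integral_comp_comm hint).symm
  · intro g hc c hev
    have h1 := hlim (fun z => ‖g z‖ ^ 2) (by fun_prop)
    exact le_of_tendsto h1 (hUle hev)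


noncomputable def chi (w : ℂ) : ℝ := max 0 (min 1 (2 - 4 * ‖w‖))

lemma chi_cont : Continuous chi := by unfold chi; fun_prop

lemma chi_nonneg (w : ℂ) : 0 ≤ chi w := le_max_left _ _

lemma chi_le_one (w : ℂ) : chi w ≤ 1 := max_le (by norm_num) (min_le_left _ _)

lemma chi_one (w : ℂ) (hw : ‖w‖ ≤ 1 / 4) : chi w = 1 := by
  unfold chi
  rw [min_eq_left (by linarith)]
  norm_num

lemma chi_zero (w : ℂ) (hw : 1 / 2 ≤ ‖w‖) : chi w = 0 := by
  unfold chi
  apply max_eq_left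
  exact (min_le_right _ _).trans (by linarith)

lemma lip_of_contDiff (g : E2 → ℂ) (hg : ContDiff ℂ 2 g) : ∃ L : ℝ, 0 ≤ L ∧
    ∀ z w : E2, ‖z‖ ≤ 1 → ‖w‖ ≤ 1 → ‖g z - g w‖ ≤ L * ‖z - w‖ := by
  have h1 : Continuous (fderiv ℂ g) := hg.continuous_fderiv (by norm_num)
  obtain ⟨C, hC⟩ := (isCompact_closedBall (0 : E2) 1).exists_bound_of_continuousOn h1.continuousOn
  refine ⟨max C 0, le_max_right _ _, fun z z' hz hz' => ?_⟩
  apply Convex.norm_image_sub_le_of_norm_fderiv_le (𝕜 := ℂ) (s := Metric.closedBall (0 : E2) 1)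
  · intro x _
    exact hg.differentiable (by norm_num) x
  · intro x hx
    exact (hC x hx).trans (le_max_left _ _)
  · exact convex_closedBall _ _
  · simpa using hz'
  · simpa using hz

lemma PP_bound2 (m : ℕ) (hm : 0 < m) (z : E2) (hz : ‖z‖ ≤ 1) : ‖PP m z‖ ≤ M1 * ‖z‖ ^ (m ^ 2) := by
  unfold PP M1
  calc ‖∑ l ∈ Finset.range 20, qf m l z‖ ≤ ∑ l ∈ Finset.range 20, ‖qf m l z‖ := norm_sum_le _ _
    _ ≤ ∑ l ∈ Finset.range 20, 4 * Real.exp 2 * ‖z‖ ^ (m ^ 2) := by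
        apply Finset.sum_le_sum
        intro l _
        refine (qf_bound m l hm z).trans ?_
        apply mul_le_mul_of_nonneg_left _ (by positivity)
        apply pow_le_pow_of_le_one (norm_nonneg _) hz
        nlinarith
    _ = 20 * (4 * Real.exp 2) * ‖z‖ ^ (m ^ 2) := by
        rw [Finset.sum_const, Finset.card_range]; simp; ring

noncomputable def rr (i : Fin 21) : ℝ := ((i : ℕ) + 1 : ℝ) / 22

lemma rr_pos (i : Fin 21) : 0 < rr i := by unfold rr; positivity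

lemma rr_lt (i : Fin 21) : rr i < 1 := by
  unfold rr
  have : ((i : ℕ) : ℝ) ≤ 20 := by exact_mod_cast (by omega : (i : ℕ) ≤ 20)
  linarith

lemma rr_inj : Function.Injective rr := by
  intro i j hij
  unfold rr at hij
  have : ((i : ℕ) : ℝ) = ((j : ℕ) : ℝ) := by linarith
  exact Fin.ext (by exact_mod_cast this)

/-- the radius at which `r ^ (m^2) = rr i` -/
noncomputable def rad (m : ℕ) (i : Fin 21) : ℝ := Real.exp (Real.log (rr i) / (m : ℝ) ^ 2)

lemma rad_pos (m : ℕ) (i : Fin 21) : 0 < rad m i := Real.exp_pos _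

lemma rad_lt (m : ℕ) (hm : 0 < m) (i : Fin 21) : rad m i < 1 := by
  unfold rad
  rw [Real.exp_lt_one_iff]
  have hm' : (0 : ℝ) < m := by exact_mod_cast hm
  apply div_neg_of_neg_of_pos (Real.log_neg (rr_pos i) (rr_lt i)) (by positivity)

lemma rad_pow (m : ℕ) (hm : 0 < m) (i : Fin 21) : rad m i ^ (m ^ 2) = rr i := by
  unfold rad
  have hm' : (0 : ℝ) < m := by exact_mod_cast hm
  rw [← Real.exp_nat_mul]
  push_cast
  rw [mul_div_cancel₀ _ (by positivity : (m : ℝ) ^ 2 ≠ 0), Real.exp_log (rr_pos i)]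

lemma rad_near (m : ℕ) (hm : 0 < m) (i : Fin 21) : 1 - rad m i ≤ 22 / m := by
  have hm' : (0 : ℝ) < m := by exact_mod_cast hm
  have hm1 : (1 : ℝ) ≤ m := by exact_mod_cast hm
  have h1 := Real.add_one_le_exp (Real.log (rr i) / (m : ℝ) ^ 2)
  have h2 : -22 ≤ Real.log (rr i) := by
    have h3 := Real.log_le_sub_one_of_pos (inv_pos.mpr (rr_pos i))
    rw [Real.log_inv] at h3
    have h4 : (rr i)⁻¹ ≤ 22 := by
      rw [inv_le_comm₀ (rr_pos i) (by norm_num)]
      unfold rr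
      have : (0 : ℝ) ≤ (i : ℕ) := by positivity
      linarith
    linarith
  have h5 : -(22 / (m : ℝ)) ≤ Real.log (rr i) / (m : ℝ) ^ 2 := by
    have h6 : -(22 / (m : ℝ)) = (-22 * m) / (m : ℝ) ^ 2 := by field_simp
    rw [h6]
    apply div_le_div_of_nonneg_right _ (by positivity)
    nlinarith
  unfold rad
  linarith

structure St where
  f : E2 → ℂ
  μ : Measure E2
  R : ℝ

noncomputable def ek (k : ℕ) : ℝ := (1 / 16 : ℝ) ^ (k + 3)

lemma ek_pos (k : ℕ) : 0 < ek k := by unfold ek; positivity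

lemma ek_le (k : ℕ) : ek k ≤ (1 / 2 : ℝ) ^ (k + 1) := by
  unfold ek
  calc (1 / 16 : ℝ) ^ (k + 3) ≤ (1 / 2 : ℝ) ^ (k + 3) := pow_le_pow_left₀ (by norm_num) (by norm_num) _
    _ ≤ (1 / 2 : ℝ) ^ (k + 1) := pow_le_pow_of_le_one (by norm_num) (by norm_num) (by omega)

lemma ek_small (k : ℕ) : ek k ≤ 1 / 4 := by
  unfold ek
  calc (1 / 16 : ℝ) ^ (k + 3) ≤ (1 / 16 : ℝ) ^ 1 := pow_le_pow_of_le_one (by norm_num) (by norm_num) (by omega)
    _ ≤ 1 / 4 := by norm_num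

structure Inv (k : ℕ) (s : St) : Prop where
  smooth : ContDiff ℂ 2 s.f
  bdd : ∀ ζ : E2, ‖ζ‖ = 1 → ‖s.f ζ‖ ≤ 1 / 2 + M1 + (1 - (1 / 2 : ℝ) ^ k)
  good : GoodM s.μ
  R0 : 0 ≤ s.R
  R1 : s.R < 1
  Rk : 1 - 1 / ((k : ℝ) + 1) ≤ s.R
  supp : ∀ᵐ z ∂s.μ, ‖z‖ ≤ s.R

structure RelS (k : ℕ) (s s' : St) (m : ℕ) : Prop where
  mge : k + 1 ≤ m
  close : ∀ ζ : E2, ‖ζ‖ = 1 → ∀ r : ℝ, 0 ≤ r → r ≤ 1 →
    ‖(s'.f ((r : ℂ) • ζ) - s.f ((r : ℂ) • ζ)) - (chi (s.f ζ) : ℂ) * PP m ((r : ℂ) • ζ)‖ ≤ ek k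
  small : ∀ z : E2, ‖z‖ ≤ s.R → ‖s'.f z - s.f z‖ ≤ 2 * ek k
  ray : ∀ ζ : E2, ‖ζ‖ = 1 → ∀ i : Fin 21, ‖s.f ((rad m i : ℂ) • ζ) - s.f ζ‖ ≤ ek k
  Rrad : ∀ i : Fin 21, rad m i ≤ s'.R
  Rmono : s.R ≤ s'.R
  sq1 : sqI (fun z => s'.f z - s.f z) s'.μ ≤ 2 * ek k
  lip : ∃ L : ℝ, (∀ z w : E2, ‖z‖ ≤ 1 → ‖w‖ ≤ 1 →
    ‖(s'.f z - s.f z) - (s'.f w - s.f w)‖ ≤ L * ‖z - w‖) ∧ L ^ 2 * (1 - aI s'.μ) ≤ ek k
  trans : ∀ g : E2 → ℂ, Continuous g → DifferentiableOn ℂ g (Metric.ball 0 1) → ∀ L : ℝ,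
        (∀ z w : E2, ‖z‖ ≤ 1 → ‖w‖ ≤ 1 → ‖g z - g w‖ ≤ L * ‖z - w‖) →
        sqI g s'.μ ≤ sqI g s.μ + L ^ 2 * (aI s'.μ - aI s.μ)
  aI1 : 1 - 1 / ((k : ℝ) + 1) ≤ aI s'.μ

lemma exists_ray (z : E2) (hz : ‖z‖ ≤ 1) : ∃ ζ : E2, ‖ζ‖ = 1 ∧ z = ((‖z‖ : ℝ) : ℂ) • ζ := by
  by_cases h : z = 0
  · refine ⟨EuclideanSpace.single 0 1, by simp, ?_⟩
    subst h; simp
  · have hz' : 0 < ‖z‖ := norm_pos_iff.mpr h
    refine ⟨((‖z‖⁻¹ : ℝ) : ℂ) • z, ?_, ?_⟩
    · rw [norm_smul, Complex.norm_real, Real.norm_eq_abs, abs_of_nonneg (by positivity),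
        inv_mul_cancel₀ hz'.ne']
    · rw [smul_smul, ← Complex.ofReal_mul, mul_inv_cancel₀ hz'.ne']; simp

lemma step_exists (k : ℕ) (s : St) (hs : Inv k s) : ∃ s' : St, Inv (k + 1) s' ∧ ∃ m, RelS k s s' m := by
  have hM := M1_pos
  have hek := ek_pos k
  obtain ⟨Lf, hLf0, hLf⟩ := lip_of_contDiff s.f hs.smooth
  have hTP : TP (fun ζ => (chi (s.f ζ) : ℂ)) := by
    apply TP_of_continuousOn
    exact (Complex.continuous_ofReal.comp (chi_cont.comp hs.smooth.continuous)).continuousOn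
  obtain ⟨m0, hm0⟩ := hTP (ek k) hek
  -- choose m
  have hpow : Tendsto (fun n : ℕ => M1 * s.R ^ n) atTop (𝓝 (M1 * 0)) :=
    (tendsto_pow_atTop_nhds_zero_of_lt_one hs.R0 hs.R1).const_mul M1
  rw [mul_zero] at hpow
  obtain ⟨n1, hn1⟩ := Filter.eventually_atTop.mp (hpow.eventually (eventually_lt_nhds hek))
  obtain ⟨n2, hn2⟩ := exists_nat_gt (Lf * 22 / ek k)
  set m : ℕ := m0 + n1 + n2 + k + 1 with hm
  have hmpos : 0 < m := by omega
  have hm' : (0 : ℝ) < m := by exact_mod_cast hmpos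
  obtain ⟨F, hF, hFapp⟩ := hm0 m (by omega)
  have hsmallR : M1 * s.R ^ (m ^ 2) ≤ ek k := (hn1 (m ^ 2) (by nlinarith)).le
  have hFsmall : ∀ z : E2, ‖z‖ ≤ s.R → ‖F z‖ ≤ 2 * ek k := by
    intro z hz
    have hz1 : ‖z‖ ≤ 1 := hz.trans hs.R1.le
    obtain ⟨ζ, hζ, hzζ⟩ := exists_ray z hz1
    have h1 := hFapp ζ hζ ‖z‖ (norm_nonneg _) hz1
    rw [← hzζ] at h1
    have h2 : ‖(chi (s.f ζ) : ℂ) * PP m z‖ ≤ ek k := by
      rw [norm_mul, Complex.norm_real, Real.norm_eq_abs, abs_of_nonneg (chi_nonneg _)]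
      calc chi (s.f ζ) * ‖PP m z‖ ≤ 1 * (M1 * ‖z‖ ^ (m ^ 2)) :=
            mul_le_mul (chi_le_one _) (PP_bound2 m hmpos z hz1) (norm_nonneg _) (by norm_num)
        _ ≤ M1 * s.R ^ (m ^ 2) := by
            rw [one_mul]
            exact mul_le_mul_of_nonneg_left (pow_le_pow_left₀ (norm_nonneg _) hz _) hM.le
        _ ≤ ek k := hsmallR
    have h3 : F z = (F z - (chi (s.f ζ) : ℂ) * PP m z) + (chi (s.f ζ) : ℂ) * PP m z := by ring
    rw [h3]
    refine (norm_add_le _ _).trans ?_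
    linarith
  obtain ⟨LF, hLF0, hLF⟩ := lip_of_contDiff F hF
  set δ : ℝ := min (ek k / (LF ^ 2 + 1)) (1 / ((k : ℝ) + 1)) with hδ
  have hδ0 : 0 < δ := by rw [hδ]; positivity
  obtain ⟨μ', hμ', haI', hsq', htrans'⟩ := push s.μ hs.good F hF (ek k) δ hek hδ0
  obtain ⟨R', hR', hsupp'⟩ := hμ'.supp
  have hprob := hs.good.prob
  refine ⟨⟨fun z => s.f z + F z, μ', max (max s.R R') (max (rad m 20) (1 - 1 / ((k : ℝ) + 2)))⟩, ?_, m, ?_⟩
  · refine ⟨hs.smooth.add hF, ?_, hμ', ?_, ?_, ?_, ?_⟩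
    · intro ζ hζ
      have h1 := hFapp ζ hζ 1 (by norm_num) le_rfl
      simp only [Complex.ofReal_one, one_smul] at h1
      have h2 := hs.bdd ζ hζ
      have h3 := ek_le k
      have h4 : (1 / 2 : ℝ) ^ k = (1 / 2 : ℝ) ^ (k + 1) + (1 / 2 : ℝ) ^ (k + 1) := by
        rw [pow_succ]; ring
      by_cases hc : 1 / 2 ≤ ‖s.f ζ‖
      · rw [chi_zero _ hc] at h1
        simp only [Complex.ofReal_zero, zero_mul, sub_zero] at h1
        refine (norm_add_le _ _).trans ?_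
        linarith
      · push Not at hc
        have h5 : ‖(chi (s.f ζ) : ℂ) * PP m ζ‖ ≤ M1 := by
          rw [norm_mul, Complex.norm_real, Real.norm_eq_abs, abs_of_nonneg (chi_nonneg _)]
          calc chi (s.f ζ) * ‖PP m ζ‖ ≤ 1 * M1 :=
                mul_le_mul (chi_le_one _) (PP_bound m hmpos ζ hζ.le) (norm_nonneg _) (by norm_num)
            _ = M1 := one_mul _
        have h6 : s.f ζ + F ζ = s.f ζ + (F ζ - (chi (s.f ζ) : ℂ) * PP m ζ) + (chi (s.f ζ) : ℂ) * PP m ζ := by ring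
        have h7 : (1 / 2 : ℝ) ^ (k + 1) ≤ 1 / 2 := by
          calc (1 / 2 : ℝ) ^ (k + 1) ≤ (1 / 2 : ℝ) ^ 1 := pow_le_pow_of_le_one (by norm_num) (by norm_num) (by omega)
            _ = 1 / 2 := by norm_num
        simp only
        rw [h6]
        refine (norm_add_le _ _).trans ?_
        have h8 := norm_add_le (s.f ζ) (F ζ - (chi (s.f ζ) : ℂ) * PP m ζ)
        linarith
    · exact le_trans hs.R0 ((le_max_left _ _).trans (le_max_left _ _))
    · apply max_lt (max_lt hs.R1 hR') (max_lt (rad_lt m hmpos 20) _)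
      have : 0 < 1 / ((k : ℝ) + 2) := by positivity
      linarith
    · have h1 : 1 - 1 / (((k + 1 : ℕ) : ℝ) + 1) = 1 - 1 / ((k : ℝ) + 2) := by push_cast; ring_nf
      rw [h1]
      exact (le_max_right _ _).trans (le_max_right _ _)
    · filter_upwards [hsupp'] with z hz
      exact hz.trans ((le_max_right _ _).trans (le_max_left _ _))
  · refine ⟨by omega, ?_, ?_, ?_, ?_, ?_, ?_, ?_, ?_, ?_⟩
    · intro ζ hζ r hr0 hr1
      simp only [add_sub_cancel_left]
      exact hFapp ζ hζ r hr0 hr1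
    · intro z hz
      simp only [add_sub_cancel_left]
      exact hFsmall z hz
    · intro ζ hζ i
      have h1 : ‖((rad m i : ℝ) : ℂ) • ζ‖ = rad m i := norm_r_smul ζ hζ _ (rad_pos m i).le
      have h2 := hLf (((rad m i : ℝ) : ℂ) • ζ) ζ (by rw [h1]; exact (rad_lt m hmpos i).le) hζ.le
      refine h2.trans ?_
      have h3 : ‖((rad m i : ℝ) : ℂ) • ζ - ζ‖ = 1 - rad m i := by
        have h4 : ((rad m i : ℝ) : ℂ) • ζ - ζ = (((rad m i - 1 : ℝ)) : ℂ) • ζ := by
          push_cast; rw [sub_smul, one_smul]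
        rw [h4, norm_smul, hζ, mul_one, Complex.norm_real, Real.norm_eq_abs,
          abs_of_nonpos (by linarith [rad_lt m hmpos i])]
        ring
      rw [h3]
      calc Lf * (1 - rad m i) ≤ Lf * (22 / m) := mul_le_mul_of_nonneg_left (rad_near m hmpos i) hLf0
        _ = Lf * 22 / m := by ring
        _ ≤ ek k := by
            rw [div_le_iff₀ hm']
            rw [div_lt_iff₀ hek] at hn2
            have h5 : (n2 : ℝ) ≤ m := by exact_mod_cast (by omega : n2 ≤ m)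
            nlinarith
    · intro i
      refine le_trans ?_ ((le_max_left _ _).trans (le_max_right _ _))
      unfold rad
      apply Real.exp_le_exp.mpr
      apply div_le_div_of_nonneg_right _ (by positivity)
      apply Real.log_le_log (rr_pos i)
      unfold rr
      have h5 : ((i : ℕ) : ℝ) ≤ 20 := by exact_mod_cast (by omega : (i : ℕ) ≤ 20)
      have h6 : (((20 : Fin 21) : ℕ) : ℝ) = 20 := by norm_num
      rw [h6]
      linarith
    · exact (le_max_left _ _).trans (le_max_left _ _)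
    · simp only [add_sub_cancel_left]
      refine hsq'.trans ?_
      have h1 : sqI F s.μ ≤ ek k := by
        unfold sqI
        calc ∫ z, ‖F z‖ ^ 2 ∂s.μ ≤ ∫ _z : E2, ek k ∂s.μ := by
              apply integral_mono_ae (int_of_supp s.μ hs.good.ae_le_one _ (by
                have := hF.continuous
                fun_prop)) (integrable_const _)
              filter_upwards [hs.supp] with z hz
              have h2 := hFsmall z hz
              have h3 := ek_small k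
              calc ‖F z‖ ^ 2 ≤ (2 * ek k) ^ 2 := pow_le_pow_left₀ (norm_nonneg _) h2 2
                _ = (4 * ek k) * ek k := by ring
                _ ≤ 1 * ek k := mul_le_mul_of_nonneg_right (by linarith) hek.le
                _ = ek k := one_mul _
          _ = ek k := by simp
      linarith
    · refine ⟨LF, ?_, ?_⟩
      · intro z w hz hw
        simp only [add_sub_cancel_left]
        exact hLF z w hz hw
      · have h1 : 1 - aI μ' ≤ ek k / (LF ^ 2 + 1) := by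
          have : δ ≤ ek k / (LF ^ 2 + 1) := min_le_left _ _
          linarith
        have h2 := aI_le_one hμ'
        simp only
        calc LF ^ 2 * (1 - aI μ') ≤ (LF ^ 2 + 1) * (1 - aI μ') :=
              mul_le_mul_of_nonneg_right (by linarith) (by linarith)
          _ ≤ (LF ^ 2 + 1) * (ek k / (LF ^ 2 + 1)) := mul_le_mul_of_nonneg_left h1 (by positivity)
          _ = ek k := by field_simp
    · exact htrans'
    · have : δ ≤ 1 / ((k : ℝ) + 1) := min_le_right _ _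
      simp only
      linarith


lemma inv_zero : Inv 0 ⟨fun _ => 0, Measure.dirac 0, 0⟩ := by
  have hM := M1_pos
  refine ⟨contDiff_const, ?_, ?_, le_rfl, by norm_num, by norm_num, ?_⟩
  · intro ζ _
    simp only [norm_zero, pow_zero]
    linarith
  · refine ⟨Measure.dirac.isProbabilityMeasure, ⟨0, by norm_num, ?_⟩, ?_⟩
    · rw [ae_dirac_eq]
      simp
    · intro g _ _
      exact integral_dirac g 0
  · simp only
    rw [ae_dirac_eq]
    simp

noncomputable def seqS : (k : ℕ) → {s : St // Inv k s}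
  | 0 => ⟨⟨fun _ => 0, Measure.dirac 0, 0⟩, inv_zero⟩
  | k + 1 => ⟨Classical.choose (step_exists k (seqS k).1 (seqS k).2),
      (Classical.choose_spec (step_exists k (seqS k).1 (seqS k).2)).1⟩

noncomputable def ss (k : ℕ) : St := (seqS k).1

lemma seqS_rel (k : ℕ) : ∃ m, RelS k (ss k) (ss (k + 1)) m :=
  (Classical.choose_spec (step_exists k (seqS k).1 (seqS k).2)).2

lemma inv_k (k : ℕ) : Inv k (ss k) := (seqS k).2

lemma ss_zero_f (z : E2) : (ss 0).f z = 0 := rfl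

attribute [irreducible] ss

noncomputable def fs (k : ℕ) : E2 → ℂ := (ss k).f
noncomputable def ms (k : ℕ) : Measure E2 := (ss k).μ
noncomputable def Rs (k : ℕ) : ℝ := (ss k).R
noncomputable def Fs (k : ℕ) (z : E2) : ℂ := fs (k + 1) z - fs k z

lemma fs_zero (z : E2) : fs 0 z = 0 := ss_zero_f z

lemma fs_smooth (k : ℕ) : ContDiff ℂ 2 (fs k) := (inv_k k).smooth

lemma Fs_smooth (k : ℕ) : ContDiff ℂ 2 (Fs k) := (fs_smooth (k + 1)).sub (fs_smooth k)

lemma Rs_mono : Monotone Rs := by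
  apply monotone_nat_of_le_succ
  intro k
  obtain ⟨m, h⟩ := seqS_rel k
  exact h.Rmono

lemma Rs_lt (k : ℕ) : Rs k < 1 := (inv_k k).R1

lemma Rs_ge (k : ℕ) : 1 - 1 / ((k : ℝ) + 1) ≤ Rs k := (inv_k k).Rk

lemma Rs_exists (x : ℝ) (hx : x < 1) : ∃ k, x < Rs k := by
  obtain ⟨n, hn⟩ := exists_nat_gt (1 / (1 - x))
  refine ⟨n, lt_of_lt_of_le ?_ (Rs_ge n)⟩
  have h1 : 0 < 1 - x := by linarith
  rw [div_lt_iff₀ h1] at hn
  have h2 : (0 : ℝ) < (n : ℝ) + 1 := by positivity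
  have h3 : 1 / ((n : ℝ) + 1) < 1 - x := by
    rw [div_lt_iff₀ h2]
    nlinarith
  linarith

lemma Fs_small (k j : ℕ) (hkj : k ≤ j) (z : E2) (hz : ‖z‖ ≤ Rs k) : ‖Fs j z‖ ≤ 2 * ek j := by
  obtain ⟨m, h⟩ := seqS_rel j
  exact h.small z (hz.trans (Rs_mono hkj))

lemma ek_geom (k j : ℕ) : 2 * ek (j + k) = 2 * ek k * (1 / 16 : ℝ) ^ j := by
  unfold ek
  have : j + k + 3 = (k + 3) + j := by ring
  rw [this, pow_add]; ring

lemma ek_tail (k : ℕ) : HasSum (fun j => 2 * ek (j + k)) (2 * ek k * (16 / 15)) := by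
  simp_rw [ek_geom k]
  have h := (hasSum_geometric_of_lt_one (by norm_num : (0 : ℝ) ≤ 1 / 16) (by norm_num)).mul_left (2 * ek k)
  have h2 : ((1 : ℝ) - 1 / 16)⁻¹ = 16 / 15 := by norm_num
  rwa [h2] at h

noncomputable def ffin (z : E2) : ℂ := ∑' k, Fs k z

lemma Fs_summable (z : E2) (hz : ‖z‖ < 1) : Summable (fun k => Fs k z) := by
  obtain ⟨k, hk⟩ := Rs_exists ‖z‖ hz
  rw [← summable_nat_add_iff k]
  apply Summable.of_norm_bounded (ek_tail k).summable
  intro j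
  exact Fs_small k (j + k) (by omega) z hk.le

lemma Fs_sum (k : ℕ) (z : E2) : ∑ j ∈ Finset.range k, Fs j z = fs k z := by
  induction k with
  | zero => simp [fs_zero]
  | succ k ih =>
    rw [Finset.sum_range_succ, ih]
    unfold Fs; ring

lemma ffin_close (k : ℕ) (z : E2) (hz : ‖z‖ ≤ Rs k) : ‖ffin z - fs k z‖ ≤ 3 * ek k := by
  have hz1 : ‖z‖ < 1 := lt_of_le_of_lt hz (Rs_lt k)
  have h1 := (Fs_summable z hz1).sum_add_tsum_nat_add k
  rw [Fs_sum] at h1
  have h2 : ffin z - fs k z = ∑' j, Fs (j + k) z := by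
    unfold ffin
    rw [← h1]; ring
  rw [h2]
  have h3 := tsum_of_norm_bounded (ek_tail k) (fun j => Fs_small k (j + k) (by omega) z hz)
  have h4 := ek_pos k
  linarith

lemma fs_bdd_sphere (k : ℕ) (ζ : E2) (hζ : ‖ζ‖ = 1) : ‖fs k ζ‖ ≤ 3 / 2 + M1 := by
  have h1 := (inv_k k).bdd ζ hζ
  have h2 : (0 : ℝ) ≤ (1 / 2 : ℝ) ^ k := by positivity
  have h3 : ‖fs k ζ‖ ≤ 1 / 2 + M1 + (1 - (1 / 2 : ℝ) ^ k) := h1
  linarith

lemma fs_bdd (k : ℕ) (z : E2) (hz : ‖z‖ ≤ 1) : ‖fs k z‖ ≤ 3 / 2 + M1 := by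
  apply Complex.norm_le_of_forall_mem_frontier_norm_le (U := Metric.ball (0 : E2) 1)
    Metric.isBounded_ball
  · exact ((fs_smooth k).differentiable (by norm_num)).diffContOnCl
  · intro ζ hζ
    rw [frontier_ball (0 : E2) (by norm_num)] at hζ
    exact fs_bdd_sphere k ζ (by simpa using hζ)
  · rw [closure_ball (0 : E2) (by norm_num)]
    simpa using hz

lemma ffin_bdd (z : E2) (hz : ‖z‖ < 1) : ‖ffin z‖ ≤ 3 + M1 := by
  obtain ⟨k, hk⟩ := Rs_exists ‖z‖ hz
  have h1 := ffin_close k z hk.le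
  have h2 := fs_bdd k z hz.le
  have h3 := ek_small k
  have h4 : ffin z = (ffin z - fs k z) + fs k z := by ring
  rw [h4]
  refine (norm_add_le _ _).trans ?_
  linarith

lemma norm_fderiv_le_R (g : E2 → ℂ) (M R : ℝ) (hd : DifferentiableOn ℂ g (Metric.ball 0 R))
    (hM : ∀ z, ‖z‖ < R → ‖g z‖ ≤ M) (z : E2) (hz : ‖z‖ < R) :
    ‖fderiv ℂ g z‖ ≤ 2 * M / (R - ‖z‖) := by
  have hsub : Metric.ball z (R - ‖z‖) ⊆ Metric.ball 0 R := by
    intro y hy
    rw [mem_ball_iff_norm] at hy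
    rw [mem_ball_zero_iff]
    have := norm_le_norm_add_norm_sub' y z
    linarith
  apply Complex.norm_fderiv_le_div_of_mapsTo_ball (hd.mono hsub) _ (by linarith)
  intro y hy
  have hy' := hsub hy
  rw [mem_ball_zero_iff] at hy'
  rw [mem_closedBall_iff_norm]
  have h3 := norm_sub_le (g y) (g z)
  have := hM y hy'
  have := hM z hz
  linarith

lemma ffin_diff : DifferentiableOn ℂ ffin (Metric.ball 0 1) := by
  intro z hz
  rw [mem_ball_zero_iff] at hz
  obtain ⟨k, hk⟩ := Rs_exists ‖z‖ hz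
  obtain ⟨ρ, hρ1, hρ2⟩ := exists_between hk
  have hz' : z ∈ Metric.ball (0 : E2) ρ := by rw [mem_ball_zero_iff]; exact hρ1
  apply DifferentiableAt.differentiableWithinAt
  have htail := hasFDerivAt_tsum_of_isPreconnected (𝕜 := ℂ) (f := fun j => Fs (j + k))
    (f' := fun j x => fderiv ℂ (Fs (j + k)) x) (s := Metric.ball (0 : E2) ρ)
    (u := fun j : ℕ => 2 * (2 * ek (j + k)) / (Rs k - ρ)) (x₀ := z) (x := z)
    (((ek_tail k).summable.mul_left 2).div_const _) Metric.isOpen_ball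
    (convex_ball _ _).isPreconnected
    (fun j x _ => ((Fs_smooth (j + k)).differentiable (by norm_num) x).hasFDerivAt)
    (by
      intro j x hx
      rw [mem_ball_zero_iff] at hx
      have h1 := norm_fderiv_le_R (Fs (j + k)) (2 * ek (j + k)) (Rs k)
        ((Fs_smooth (j + k)).differentiable (by norm_num)).differentiableOn
        (fun y hy => Fs_small k (j + k) (by omega) y hy.le) x (hx.trans hρ2)
      refine h1.trans ?_
      apply div_le_div_of_nonneg_left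
      · have := ek_pos (j + k); positivity
      · linarith
      · linarith)
    hz'
    ((summable_nat_add_iff k).mpr (Fs_summable z hz))
    hz'
  have h1 : ffin =ᶠ[𝓝 z] fun y => fs k y + ∑' j, Fs (j + k) y := by
    filter_upwards [Metric.isOpen_ball.mem_nhds hz'] with y hy
    rw [mem_ball_zero_iff] at hy
    have h2 := (Fs_summable y (hy.trans (hρ2.trans (Rs_lt k)))).sum_add_tsum_nat_add k
    rw [Fs_sum] at h2
    exact h2.symm
  have h3 : DifferentiableAt ℂ (fun y => fs k y + ∑' j, Fs (j + k) y) z :=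
    ((fs_smooth k).differentiable (by norm_num) z).add htail.differentiableAt
  exact h3.congr_of_eventuallyEq h1

lemma ms_good (k : ℕ) : GoodM (ms k) := (inv_k k).good

lemma aI_ms_ge (k : ℕ) : 1 - 1 / ((k : ℝ) + 1) ≤ aI (ms (k + 1)) := by
  obtain ⟨m, h⟩ := seqS_rel k
  exact h.aI1

lemma aI_tendsto : Tendsto (fun k => aI (ms k)) atTop (𝓝 1) := by
  have h0 : Tendsto (fun k => aI (ms (k + 1))) atTop (𝓝 1) := by
    have h1 : Tendsto (fun k : ℕ => 1 - 1 / ((k : ℝ) + 1)) atTop (𝓝 (1 - 0)) :=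
      tendsto_const_nhds.sub tendsto_one_div_add_atTop_nhds_zero_nat
    rw [sub_zero] at h1
    exact tendsto_of_tendsto_of_tendsto_of_le_of_le h1 tendsto_const_nhds
      (fun k => aI_ms_ge k) (fun k => aI_le_one (ms_good (k + 1)))
  exact (tendsto_add_atTop_iff_nat (f := fun k => aI (ms k)) 1).mp h0

lemma sqI_Fs (k j : ℕ) (hkj : k + 1 ≤ j) : sqI (Fs k) (ms j) ≤ 3 * ek k := by
  obtain ⟨m, h⟩ := seqS_rel k
  obtain ⟨L, hL1, hL2⟩ := h.lip
  have h1 : ∀ i, sqI (Fs k) (ms (k + 1 + i)) ≤ 2 * ek k + L ^ 2 * (aI (ms (k + 1 + i)) - aI (ms (k + 1))) := by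
    intro i
    induction i with
    | zero =>
      simp only [add_zero, sub_self, mul_zero]
      exact h.sq1
    | succ i ih =>
      obtain ⟨m', h'⟩ := seqS_rel (k + 1 + i)
      have h2 := h'.trans (Fs k) (Fs_smooth k).continuous
        ((Fs_smooth k).differentiable (by norm_num)).differentiableOn L hL1
      have h3 : sqI (Fs k) (ms (k + 1 + (i + 1))) ≤ sqI (Fs k) (ms (k + 1 + i)) +
        L ^ 2 * (aI (ms (k + 1 + (i + 1))) - aI (ms (k + 1 + i))) := h2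
      nlinarith
  obtain ⟨i, rfl⟩ := Nat.exists_eq_add_of_le hkj
  have h4 := h1 i
  have h5 := aI_le_one (inv_k (k + 1 + i)).good
  have h6 : aI (ms (k + 1 + i)) ≤ 1 := h5
  have h7 : L ^ 2 * (1 - aI (ms (k + 1))) ≤ ek k := hL2
  have h8 : L ^ 2 * (aI (ms (k + 1 + i)) - aI (ms (k + 1))) ≤ L ^ 2 * (1 - aI (ms (k + 1))) :=
    mul_le_mul_of_nonneg_left (by linarith) (by positivity)
  linarith

lemma no_limit (ζ : E2) (hζ : ‖ζ‖ = 1) (hsmall : ∀ k, ‖Fs k ζ‖ < (1 / 2 : ℝ) ^ (k + 3)) :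
    ¬ ∃ L : ℂ, Tendsto (fun r : ℝ => ffin ((r : ℂ) • ζ)) (𝓝[<] 1) (𝓝 L) := by
  rintro ⟨L, hL⟩
  have hchi : ∀ k, chi (fs k ζ) = 1 := by
    intro k
    apply chi_one
    rw [← Fs_sum]
    calc ‖∑ j ∈ Finset.range k, Fs j ζ‖ ≤ ∑ j ∈ Finset.range k, (1 / 2 : ℝ) ^ (j + 3) :=
          (norm_sum_le _ _).trans (Finset.sum_le_sum (fun j _ => (hsmall j).le))
      _ = 1 / 8 * ∑ j ∈ Finset.range k, (1 / 2 : ℝ) ^ j := by
          rw [Finset.mul_sum]
          apply Finset.sum_congr rfl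
          intro j _
          rw [pow_add]; ring
      _ ≤ 1 / 8 * 2 := by
          apply mul_le_mul_of_nonneg_left _ (by norm_num)
          calc ∑ j ∈ Finset.range k, (1 / 2 : ℝ) ^ j ≤ ∑' j : ℕ, (1 / 2 : ℝ) ^ j :=
                summable_geometric_two.sum_le_tsum _ (fun i _ => by positivity)
            _ = 2 := tsum_geometric_two
      _ = 1 / 4 := by norm_num
  obtain ⟨δ0, hδ0, hδ⟩ := interp_lemma 20 rr rr_inj rr_pos
  set c0 : ℝ := 3 / 4 * Real.exp (-60) with hc0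
  have hc0pos : 0 < c0 := by positivity
  set δ : ℝ := δ0 * c0 with hδdef
  have hδpos : 0 < δ := by positivity
  -- closeness to the limit
  have hev : ∀ᶠ r : ℝ in 𝓝[<] (1 : ℝ), ‖ffin ((r : ℂ) • ζ) - L‖ < δ / 4 := by
    have := (tendsto_iff_norm_sub_tendsto_zero.mp hL).eventually (eventually_lt_nhds (show 0 < δ / 4 by positivity))
    exact this
  obtain ⟨τ, hτ1, hτ⟩ : ∃ τ : ℝ, τ < 1 ∧ ∀ r : ℝ, τ < r → r < 1 → ‖ffin ((r : ℂ) • ζ) - L‖ < δ / 4 := by
    rw [eventually_nhdsWithin_iff, Metric.eventually_nhds_iff] at hev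
    obtain ⟨ε, hε, h⟩ := hev
    refine ⟨1 - ε, by linarith, fun r hr1 hr2 => h ?_ hr2⟩
    rw [Real.dist_eq, abs_lt]
    constructor <;> linarith
  -- choose k
  have hek0 : Tendsto ek atTop (𝓝 0) := by
    have h1 : Tendsto (fun k : ℕ => (1 / 16 : ℝ) ^ k) atTop (𝓝 0) :=
      tendsto_pow_atTop_nhds_zero_of_lt_one (by norm_num) (by norm_num)
    exact (tendsto_add_atTop_iff_nat 3).mpr h1
  obtain ⟨n1, hn1⟩ := Filter.eventually_atTop.mp (hek0.eventually (eventually_lt_nhds (show 0 < δ / 16 by positivity)))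
  obtain ⟨n2, hn2⟩ := exists_nat_gt (22 / (1 - τ))
  set k : ℕ := n1 + n2 with hk
  have hekk : ek k < δ / 16 := hn1 k (by omega)
  obtain ⟨m, h⟩ := seqS_rel k
  have hmpos : 0 < m := by have := h.mge; omega
  have hm' : (0 : ℝ) < m := by exact_mod_cast hmpos
  have hmn2 : (n2 : ℝ) ≤ m := by
    have := h.mge
    exact_mod_cast (by omega : n2 ≤ m)
  have hτ' : 0 < 1 - τ := by linarith
  have hradτ : ∀ i, τ < rad m i := by
    intro i
    have h1 := rad_near m hmpos i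
    have h2 : 22 / (m : ℝ) < 1 - τ := by
      rw [div_lt_iff₀ hm']
      rw [div_lt_iff₀ hτ'] at hn2
      nlinarith
    linarith
  -- the key approximation
  have hkey : ∀ i, ‖fs k ζ - L + PP m (((rad m i : ℝ) : ℂ) • ζ)‖ < δ := by
    intro i
    have hn : ‖((rad m i : ℝ) : ℂ) • ζ‖ = rad m i := norm_r_smul ζ hζ _ (rad_pos m i).le
    have h1 := hτ (rad m i) (hradτ i) (rad_lt m hmpos i)
    have h2 := ffin_close (k + 1) (((rad m i : ℝ) : ℂ) • ζ) (by rw [hn]; exact h.Rrad i)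
    have h3 : ek (k + 1) ≤ ek k := by
      unfold ek
      exact pow_le_pow_of_le_one (by norm_num) (by norm_num) (by omega)
    have h4 := h.ray ζ hζ i
    have h5 := h.close ζ hζ (rad m i) (rad_pos m i).le (rad_lt m hmpos i).le
    have h5' : ‖(fs (k + 1) (((rad m i : ℝ) : ℂ) • ζ) - fs k (((rad m i : ℝ) : ℂ) • ζ)) -
        (chi (fs k ζ) : ℂ) * PP m (((rad m i : ℝ) : ℂ) • ζ)‖ ≤ ek k := h5
    rw [hchi k, Complex.ofReal_one, one_mul] at h5'
    have h4' : ‖fs k (((rad m i : ℝ) : ℂ) • ζ) - fs k ζ‖ ≤ ek k := h4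
    have e : fs k ζ - L + PP m (((rad m i : ℝ) : ℂ) • ζ) =
        (ffin (((rad m i : ℝ) : ℂ) • ζ) - L) - (ffin (((rad m i : ℝ) : ℂ) • ζ) - fs (k + 1) (((rad m i : ℝ) : ℂ) • ζ))
        - ((fs (k + 1) (((rad m i : ℝ) : ℂ) • ζ) - fs k (((rad m i : ℝ) : ℂ) • ζ)) - PP m (((rad m i : ℝ) : ℂ) • ζ))
        - (fs k (((rad m i : ℝ) : ℂ) • ζ) - fs k ζ) := by ring
    rw [e]
    have h6 := norm_sub_le ((ffin (((rad m i : ℝ) : ℂ) • ζ) - L) - (ffin (((rad m i : ℝ) : ℂ) • ζ) - fs (k + 1) (((rad m i : ℝ) : ℂ) • ζ))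
        - ((fs (k + 1) (((rad m i : ℝ) : ℂ) • ζ) - fs k (((rad m i : ℝ) : ℂ) • ζ)) - PP m (((rad m i : ℝ) : ℂ) • ζ)))
        (fs k (((rad m i : ℝ) : ℂ) • ζ) - fs k ζ)
    have h7 := norm_sub_le ((ffin (((rad m i : ℝ) : ℂ) • ζ) - L) - (ffin (((rad m i : ℝ) : ℂ) • ζ) - fs (k + 1) (((rad m i : ℝ) : ℂ) • ζ)))
        ((fs (k + 1) (((rad m i : ℝ) : ℂ) • ζ) - fs k (((rad m i : ℝ) : ℂ) • ζ)) - PP m (((rad m i : ℝ) : ℂ) • ζ))
    have h8 := norm_sub_le (ffin (((rad m i : ℝ) : ℂ) • ζ) - L) (ffin (((rad m i : ℝ) : ℂ) • ζ) - fs (k + 1) (((rad m i : ℝ) : ℂ) • ζ))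
    linarith
  set a : Fin 21 → ℂ := Fin.cons (fs k ζ - L) (fun l : Fin 20 => qf m l ζ) with ha
  set u : Fin 21 → ℂ := fun i => ((rr i : ℝ) : ℂ) with hu
  have hunorm : ∀ i, ‖u i‖ = rr i := by
    intro i
    simp only [hu]
    rw [Complex.norm_real, Real.norm_eq_abs, abs_of_pos (rr_pos i)]
  obtain ⟨i, hi⟩ := hδ a u hunorm
  have hanorm : c0 ≤ ‖a‖ := by
    obtain ⟨l, hl, hlow⟩ := qf_lower m hmpos ζ hζ
    refine hlow.trans ?_
    have h1 := norm_le_pi_norm a (Fin.succ ⟨l, hl⟩)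
    simp only [ha, Fin.cons_succ] at h1
    exact h1
  have hsum : ∑ l : Fin 21, u i ^ (l : ℕ) * a l = fs k ζ - L + PP m (((rad m i : ℝ) : ℂ) • ζ) := by
    rw [Fin.sum_univ_succ, PP_ray, Finset.sum_range]
    simp only [ha, hu, Fin.cons_zero, Fin.cons_succ, Fin.val_zero, pow_zero, one_mul, Fin.val_succ]
    congr 1
    apply Finset.sum_congr rfl
    intro l _
    congr 1
    rw [mul_comm ((l : ℕ) + 1) (m ^ 2), pow_mul, ← rad_pow m hmpos i]
    push_cast
    rfl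
  rw [hsum] at hi
  have h1 : δ ≤ δ0 * ‖a‖ := mul_le_mul_of_nonneg_left hanorm hδ0.le
  have h2 := hkey i
  linarith

theorem main_henkin : ∃ ρ : Measure E2, IsFiniteMeasure ρ ∧ ρ (Metric.sphere (0 : E2) 1)ᶜ = 0 ∧
    (∀ g : E2 → ℂ, ContinuousOn g (Metric.closedBall 0 1) → DifferentiableOn ℂ g (Metric.ball 0 1) →
        ∫ z, g z ∂ρ = g 0) ∧
    ρ {ζ | ζ ∈ Metric.sphere (0 : E2) 1 ∧
      ¬ ∃ L : ℂ, Tendsto (fun r : ℝ => ffin ((r : ℂ) • ζ)) (𝓝[<] 1) (𝓝 L)} ≠ 0 := by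
  obtain ⟨ρ, hprob, hsph, hrep, hsq⟩ := weak_limit ms (fun k => (inv_k k).good) aI_tendsto
  refine ⟨ρ, inferInstance, hsph, hrep, ?_⟩
  have hsq' : ∀ k, sqI (Fs k) ρ ≤ 3 * ek k := by
    intro k
    apply hsq (Fs k) (Fs_smooth k).continuous
    filter_upwards [eventually_ge_atTop (k + 1)] with j hj
    exact sqI_Fs k j hj
  have hsupp : ∀ᵐ z ∂ρ, ‖z‖ ≤ 1 := by
    have h1 : ∀ᵐ z ∂ρ, z ∈ Metric.sphere (0 : E2) 1 := hsph
    filter_upwards [h1] with z hz
    rw [mem_sphere_zero_iff_norm] at hz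
    exact hz.le
  set A : ℕ → Set E2 := fun k => {z | (1 / 4 : ℝ) ^ (k + 3) ≤ ‖Fs k z‖ ^ 2} with hA
  have hcheb : ∀ k, ρ (A k) ≤ ENNReal.ofReal (3 * (1 / 4 : ℝ) ^ (k + 3)) := by
    intro k
    have hint : Integrable (fun z => ‖Fs k z‖ ^ 2) ρ := int_of_supp ρ hsupp _ (by
      have := (Fs_smooth k).continuous
      fun_prop)
    have h1 := mul_meas_ge_le_integral_of_nonneg (μ := ρ) (f := fun z => ‖Fs k z‖ ^ 2)
      (Eventually.of_forall (fun z => by positivity)) hint ((1 / 4 : ℝ) ^ (k + 3))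
    have h2 : (1 / 4 : ℝ) ^ (k + 3) * ρ.real (A k) ≤ 3 * ek k := h1.trans (hsq' k)
    have h3 : ek k = (1 / 4 : ℝ) ^ (k + 3) * (1 / 4 : ℝ) ^ (k + 3) := by
      unfold ek
      rw [← mul_pow]; norm_num
    rw [h3] at h2
    have h4 : 0 < (1 / 4 : ℝ) ^ (k + 3) := by positivity
    have h5 : ρ.real (A k) ≤ 3 * (1 / 4 : ℝ) ^ (k + 3) := by
      have h6 : (1 / 4 : ℝ) ^ (k + 3) * ρ.real (A k) ≤ (1 / 4 : ℝ) ^ (k + 3) * (3 * (1 / 4 : ℝ) ^ (k + 3)) := by
        linarith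
      exact le_of_mul_le_mul_left h6 h4
    rw [← ENNReal.ofReal_toReal (measure_ne_top ρ (A k))]
    exact ENNReal.ofReal_le_ofReal h5
  have hunion : ρ (⋃ k, A k) ≤ 1 / 2 := by
    refine (measure_iUnion_le A).trans ?_
    have h1 : ∑' k, ρ (A k) ≤ ∑' k, ENNReal.ofReal (3 * (1 / 4 : ℝ) ^ (k + 3)) :=
      ENNReal.tsum_le_tsum hcheb
    have h2 : HasSum (fun k : ℕ => 3 * (1 / 4 : ℝ) ^ (k + 3)) (1 / 16) := by
      have h3 := (hasSum_geometric_of_lt_one (by norm_num : (0 : ℝ) ≤ 1 / 4) (by norm_num)).mul_left (3 / 64)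
      have h4 : (3 : ℝ) / 64 * (1 - 1 / 4)⁻¹ = 1 / 16 := by norm_num
      rw [h4] at h3
      have h6 : (fun k : ℕ => 3 * (1 / 4 : ℝ) ^ (k + 3)) = fun k : ℕ => (3 / 64 : ℝ) * (1 / 4 : ℝ) ^ k := by
        funext k
        rw [pow_add]; ring
      rw [h6]
      exact h3
    have h5 : ∑' k, ENNReal.ofReal (3 * (1 / 4 : ℝ) ^ (k + 3)) = ENNReal.ofReal (1 / 16) := by
      rw [← ENNReal.ofReal_tsum_of_nonneg (fun k => by positivity) h2.summable, h2.tsum_eq]
    rw [h5] at h1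
    refine h1.trans ?_
    rw [show (1 / 2 : ENNReal) = ENNReal.ofReal (1 / 2) by
      rw [ENNReal.ofReal_div_of_pos (by norm_num)]; simp]
    exact ENNReal.ofReal_le_ofReal (by norm_num)
  have hsub : ((⋃ k, A k) ∪ (Metric.sphere (0 : E2) 1)ᶜ)ᶜ ⊆ {ζ | ζ ∈ Metric.sphere (0 : E2) 1 ∧
      ¬ ∃ L : ℂ, Tendsto (fun r : ℝ => ffin ((r : ℂ) • ζ)) (𝓝[<] 1) (𝓝 L)} := by
    intro ζ hζ
    simp only [Set.compl_union, compl_compl, Set.mem_inter_iff, Set.mem_compl_iff, Set.mem_iUnion,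
      not_exists] at hζ
    refine ⟨hζ.2, no_limit ζ (by simpa using hζ.2) (fun k => ?_)⟩
    have h1 := hζ.1 k
    simp only [hA, Set.mem_ofPred_eq, not_le] at h1
    have h2 : (1 / 4 : ℝ) ^ (k + 3) = ((1 / 2 : ℝ) ^ (k + 3)) ^ 2 := by
      rw [← pow_mul, mul_comm, pow_mul]; norm_num
    rw [h2] at h1
    exact lt_of_pow_lt_pow_left₀ 2 (by positivity) h1
  intro hzero
  have h1 : ρ (((⋃ k, A k) ∪ (Metric.sphere (0 : E2) 1)ᶜ)ᶜ) = 0 := measure_mono_null hsub hzero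
  have h2 : ρ Set.univ ≤ ρ ((⋃ k, A k) ∪ (Metric.sphere (0 : E2) 1)ᶜ) +
      ρ (((⋃ k, A k) ∪ (Metric.sphere (0 : E2) 1)ᶜ)ᶜ) := by
    rw [← Set.union_compl_self ((⋃ k, A k) ∪ (Metric.sphere (0 : E2) 1)ᶜ)]
    exact measure_union_le _ _
  have h3 : ρ ((⋃ k, A k) ∪ (Metric.sphere (0 : E2) 1)ᶜ) ≤ 1 / 2 := by
    refine (measure_union_le _ _).trans ?_
    rw [hsph, add_zero]
    exact hunion
  rw [h1, add_zero, measure_univ] at h2
  have h4 := h2.trans h3
  have h5 : (1 / 2 : ENNReal) < 1 := by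
    rw [one_div]; exact ENNReal.one_half_lt_one
  exact absurd h4 (not_le.mpr h5)

end Pool.Agent.Helper140.NT
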