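import Pool.Agent.Helper140.OW10

set_option autoImplicit false
open Complex Filter Topology Set Metric

namespace Pool.Agent.Helper140.OW

noncomputable section

def ss : ℝ := (Real.sqrt 2)⁻¹

lemma ss_pos : 0 < ss := by unfold ss; positivity

lemma ss_sq : ss ^ 2 = 1 / 2 := by
  unfold ss
  rw [inv_pow, Real.sq_sqrt (by norm_num)]; norm_num

lemma ss_lt_one : ss < 1 := by
  have h1 := ss_sq
  have h2 := ss_pos
  nlinarith

def Lj (j : ℕ) : ℝ := ss ^ j * (1 + 1 / (j + 1))
def mj (j : ℕ) : ℝ := ss ^ j / (j + 2) ^ 2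
def aj (j : ℕ) : ℝ := 2 * Lj j + mj j
def bj (j : ℕ) : ℝ := 2 * Lj (j + 1) + mj j
def Mj (j : ℕ) : ℝ := 2 * (4 / 3) ^ j - 1

lemma Lj_pos (j : ℕ) : 0 < Lj j := by
  unfold Lj
  have := pow_pos ss_pos j
  positivity

lemma mj_pos (j : ℕ) : 0 < mj j := by
  unfold mj
  have := pow_pos ss_pos j
  positivity

lemma aj_pos (j : ℕ) : 0 < aj j := by
  unfold aj; linarith [Lj_pos j, mj_pos j]

lemma bj_pos (j : ℕ) : 0 < bj j := by
  unfold bj; linarith [Lj_pos (j+1), mj_pos j]

lemma mj_succ (j : ℕ) : mj (j + 1) < mj j := by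
  unfold mj
  have h := pow_pos ss_pos j
  have h1 := ss_lt_one
  have h2 := ss_pos
  rw [pow_succ]
  push_cast
  have e1 : ss ^ j * ss / ((j:ℝ) + 1 + 2) ^ 2 ≤ ss ^ j * ss / ((j:ℝ) + 2) ^ 2 := by
    apply div_le_div_of_nonneg_left (by positivity) (by positivity)
    apply pow_le_pow_left₀ (by positivity); linarith
  have e2 : ss ^ j * ss / ((j:ℝ) + 2) ^ 2 < ss ^ j / ((j:ℝ) + 2) ^ 2 := by
    apply div_lt_div_of_pos_right _ (by positivity)
    nlinarith
  linarith

lemma key_Lj (j : ℕ) : 2 * Lj (j + 2) + mj (j + 1) < Lj j := by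
  unfold Lj mj
  have h := pow_pos ss_pos j
  have h1 := ss_lt_one
  have h2 := ss_pos
  have h3 := ss_sq
  have e1 : ss ^ (j + 2) = ss ^ j * (1 / 2) := by rw [pow_add, h3]
  have e2 : ss ^ (j + 1) = ss ^ j * ss := pow_succ _ _
  rw [e1, e2]
  push_cast
  have e3 : 2 * (ss ^ j * (1 / 2) * (1 + 1 / ((j:ℝ) + 2 + 1))) + ss ^ j * ss / ((j:ℝ) + 1 + 2) ^ 2
      = ss ^ j * (1 + 1 / ((j:ℝ) + 3) + ss / ((j:ℝ) + 3) ^ 2) := by
    have e4 : (j:ℝ) + 2 + 1 = j + 3 := by ring
    have e5 : (j:ℝ) + 1 + 2 = j + 3 := by ring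
    rw [e4, e5]
    ring
  rw [e3]
  apply mul_lt_mul_of_pos_left _ h
  have hj : (0:ℝ) ≤ j := Nat.cast_nonneg j
  have e6 : ss / ((j:ℝ) + 3) ^ 2 < 1 / ((j:ℝ) + 3) ^ 2 := div_lt_div_of_pos_right h1 (by positivity)
  have e7 : 1 / ((j:ℝ) + 3) + 1 / ((j:ℝ) + 3) ^ 2 < 1 / ((j:ℝ) + 1) := by
    rw [div_add_div _ _ (by positivity) (by positivity), div_lt_div_iff₀ (by positivity) (by positivity)]
    nlinarith [mul_nonneg hj hj, mul_nonneg (mul_nonneg hj hj) hj]
  linarith

lemma Mj_succ (j : ℕ) : 4 / 3 * Mj j + 1 / 3 = Mj (j + 1) := by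
  unfold Mj; rw [pow_succ]; ring

structure St (j : ℕ) : Type 1 where
  ι : Type
  fι : Fintype ι
  dι : DecidableEq ι
  F : ℂ → ℂ
  ζ : ι → ℂ
  R : ℝ
  co : ℕ → ℂ
  T : ℕ → ℝ
  good : Good F ζ R (aj j) (bj j)
  card : Fintype.card ι = 2 ^ j
  hs : ∀ z ∈ closedBall (0:ℂ) 1, HasSum (fun n => co n * z ^ n) (F z)
  sm : Summable (fun n => ‖co n‖)
  hT : ∀ n, ‖FS F ζ n‖ ≤ T n
  hM : HM (fun n => (T n : ℂ)) ((Mj j : ℝ) : ℂ)

attribute [instance] St.fι St.dι

lemma step {j : ℕ} (s : St j) : ∃ s' : St (j + 1), Summable (fun n => ‖s'.co n - s.co n‖) ∧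
    ∑' n, ‖s'.co n - s.co n‖ ≤ 2 * Lj j * (Mj j + 1) ∧ ‖s'.co 1 - s.co 1‖ ≤ (1 / 2) ^ (j + 2) := by
  obtain ⟨K, hK, hKb⟩ := exists_K (η := mj j - mj (j + 1)) (L := Lj j) (by linarith [mj_succ j]) (Lj_pos j)
  have hL := Lj_pos j
  set c : ℝ := 2 * Lj j with hc
  have hcp : 0 < c := by positivity
  have hca : c ≤ aj j := by unfold aj; linarith [mj_pos j]
  have hb'c : bj (j + 1) < c / 2 := by
    unfold bj; rw [hc]
    have := key_Lj j
    have e : j + 1 + 1 = j + 2 := by ring
    rw [e]; linarith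
  have hcb : c * wK K + aj (j + 1) < bj j := by
    unfold aj bj; linarith
  have hcb' : c * wK K ≤ bj j := by linarith [aj_pos (j + 1)]
  have hconf : Conf s.F s.ζ s.R c K := s.good.conf hK hcp hca hcb'
  have hY := YK_pos hK
  have E1 := step_geom s.good hK hcp hca (aj_pos (j+1)) (bj_pos (j+1)) hb'c hcb
  set N : ℝ := (Fintype.card (s.ι × Bool) : ℝ) with hN
  have hNp : 0 < N := by
    rw [hN, Fintype.card_prod, s.card, Fintype.card_bool]
    positivity
  have E2 := kap_eventually hconf (ε := 1 / (3 * N)) (by positivity)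
  have E3 := s.hM.mul_UU hY
  have E4 := HM.bound hK s.hM
  have hT0 : ∀ n, 0 ≤ s.T n := fun n => (norm_nonneg _).trans (s.hT n)
  have E5 : ∀ᶠ δ in 𝓝[>] (0:ℝ), c * (bet K δ 1 * s.T 1) < (1 / 2) ^ (j + 2) := by
    have h1 := ((tendsto_bet_one (K := K)).mul_const (s.T 1)).const_mul c
    rw [zero_mul, mul_zero] at h1
    exact h1.eventually (gt_mem_nhds (by positivity))
  have hpos : ∀ᶠ δ in 𝓝[>] (0:ℝ), 0 < δ := eventually_mem_nhdsWithin
  obtain ⟨δ, ⟨R', hgood⟩, h2, h3, ⟨h4, h4'⟩, h5, hδ⟩ := (E1.and (E2.and (E3.and (E4.and (E5.and hpos))))).exists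
  have hbet := bet_nonneg hK hδ
  have hinc : ∀ n, ‖(c:ℂ) * (bet K δ n * FS s.F s.ζ n)‖ ≤ c * (bet K δ n * s.T n) := by
    intro n
    rw [norm_mul, norm_mul, Complex.norm_real, Complex.norm_real, Real.norm_eq_abs, Real.norm_eq_abs,
      abs_of_pos hcp, abs_of_nonneg (hbet n)]
    apply mul_le_mul_of_nonneg_left _ hcp.le
    exact mul_le_mul_of_nonneg_left (s.hT n) (hbet n)
  have hsum1 : Summable (fun n => ‖(c:ℂ) * (bet K δ n * FS s.F s.ζ n)‖) :=
    Summable.of_nonneg_of_le (fun n => norm_nonneg _) hinc (h4.mul_left c)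
  have hUU : ∀ n, 0 ≤ UU (δ * YK K) n := fun n => by
    have := UU_ge (δ * YK K) n
    have h0 := abs_nonneg (Real.sin (n * (δ * YK K)))
    linarith
  refine ⟨{ ι := s.ι × Bool
            fι := inferInstance
            dι := inferInstance
            F := GG s.F s.ζ c K δ
            ζ := nt s.ζ K δ
            R := R'
            co := fun n => s.co n + c * (bet K δ n * FS s.F s.ζ n)
            T := fun n => s.T n * UU (δ * YK K) n + 1 / 3
            good := hgood
            card := ?_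
            hs := ?_
            sm := ?_
            hT := ?_
            hM := ?_ }, ?_, ?_, ?_⟩
  · rw [Fintype.card_prod, s.card, Fintype.card_bool, pow_succ]
  · intro z hz
    have h6 := s.hs z hz
    have h7 : HasSum (fun n => ∑ q, c * kap s.F (s.ζ q) * ((bet K δ n : ℂ) * (z / s.ζ q) ^ n))
        (∑ q, c * kap s.F (s.ζ q) * bmp K δ (z / s.ζ q)) := by
      apply hasSum_sum
      intro q _
      apply HasSum.mul_left
      apply hasSum_bmp hK hδ
      rw [norm_div, hconf.unit q, div_one]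
      simpa using hz
    have h8 := h6.add h7
    refine h8.congr_fun ?_ |> fun h => h
    intro n
    unfold FS
    rw [add_mul]
    congr 1
    rw [Finset.mul_sum, Finset.mul_sum, Finset.sum_mul]
    apply Finset.sum_congr rfl
    intro q _
    rw [div_pow, inv_pow, div_eq_mul_inv]
    ring
  · exact Summable.of_nonneg_of_le (fun n => norm_nonneg _) (fun n => norm_add_le _ _) (s.sm.add hsum1)
  · intro n
    have h6 := FS_step hconf h2 n
    have h7 : (Fintype.card (s.ι × Bool) : ℝ) * (1 / (3 * N)) = 1 / 3 := by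
      rw [← hN]; field_simp
    rw [h7] at h6
    refine h6.trans ?_
    have h8 := UU_ge (δ * YK K) n
    have h9 : ‖FS s.F s.ζ n‖ * (2 * |Real.sin (n * (δ * YK K))|) ≤ s.T n * UU (δ * YK K) n :=
      mul_le_mul (s.hT n) h8 (by positivity) (hT0 n)
    linarith
  · have := h3
    rw [Mj_succ] at this
    exact this
  · have e : ∀ n, s.co n + c * (bet K δ n * FS s.F s.ζ n) - s.co n = c * (bet K δ n * FS s.F s.ζ n) := by
      intro n; ring
    simp only [e]
    exact hsum1
  · have e : ∀ n, s.co n + c * (bet K δ n * FS s.F s.ζ n) - s.co n = c * (bet K δ n * FS s.F s.ζ n) := by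
      intro n; ring
    simp only [e]
    calc ∑' n, ‖(c:ℂ) * (bet K δ n * FS s.F s.ζ n)‖ ≤ ∑' n, c * (bet K δ n * s.T n) :=
          hsum1.tsum_le_tsum hinc (h4.mul_left c)
      _ = c * ∑' n, bet K δ n * s.T n := tsum_mul_left
      _ ≤ c * (Mj j + 1) := mul_le_mul_of_nonneg_left h4' hcp.le
  · have e : s.co 1 + c * (bet K δ 1 * FS s.F s.ζ 1) - s.co 1 = c * (bet K δ 1 * FS s.F s.ζ 1) := by ring
    show ‖s.co 1 + c * (bet K δ 1 * FS s.F s.ζ 1) - s.co 1‖ ≤ _
    rw [e]
    exact (hinc 1).trans h5.le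

/-- initial state -/
lemma start : ∃ s : St 0, s.co 1 = 1 := by
  have hd : ∀ z : ℂ, deriv (fun z : ℂ => z) z = 1 := fun z => deriv_id z
  have hk : kap (fun z : ℂ => z) 1 = 1 := by unfold kap; rw [hd]; simp
  refine ⟨{ ι := Unit
            fι := inferInstance
            dι := inferInstance
            F := fun z => z
            ζ := fun _ => 1
            R := 2
            co := fun n => if n = 1 then 1 else 0
            T := fun _ => 1
            good := ?_
            card := ?_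
            hs := ?_
            sm := ?_
            hT := ?_
            hM := ?_ }, ?_⟩
  · refine ⟨by norm_num, differentiableOn_id, fun x _ y _ h => h, ?_, ?_, ?_, ?_, ?_⟩
    · intro z _
      rw [hd]; exact one_ne_zero
    · intro _; simp
    · intro _
      have : deriv (fun z : ℂ => z) = fun _ => 1 := funext hd
      rw [this]; simp
    · intro z hz q hzB
      have h1 := hzB.1
      rw [hk] at h1
      simp at h1
      rw [mem_closedBall_zero_iff] at hz
      by_contra hne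
      have := re_lt_one_of_ne hz hne
      linarith
    · intro q q' hne
      exact absurd (Subsingleton.elim q q') hne
  · simp
  · intro z _
    have : (fun n : ℕ => (if n = 1 then (1:ℂ) else 0) * z ^ n) = fun n => if n = 1 then z else 0 := by
      funext n
      split_ifs with h
      · rw [h]; simp
      · simp
    rw [this]
    exact hasSum_ite_eq 1 z
  · apply summable_of_ne_finset_zero (s := {1})
    intro b hb
    rw [Finset.mem_singleton] at hb
    simp [hb]
  · intro n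
    unfold FS
    simp [hk]
  · have : ((Mj 0 : ℝ) : ℂ) = 1 := by unfold Mj; norm_num
    rw [this]
    simpa using HM.const 1
  · simp

/-- the sequence of states -/
lemma exists_seq : ∃ s : ∀ j, St j, (s 0).co 1 = 1 ∧ ∀ j, Summable (fun n => ‖(s (j+1)).co n - (s j).co n‖) ∧
    ∑' n, ‖(s (j+1)).co n - (s j).co n‖ ≤ 2 * Lj j * (Mj j + 1) ∧
    ‖(s (j+1)).co 1 - (s j).co 1‖ ≤ (1 / 2) ^ (j + 2) := by
  obtain ⟨s0, hs0⟩ := start
  choose nx hnx using fun (j : ℕ) (s : St j) => step s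
  let s : ∀ j, St j := fun j => Nat.rec (motive := fun j => St j) s0 (fun j s => nx j s) j
  exact ⟨s, hs0, fun j => hnx j (s j)⟩

end
end Pool.Agent.Helper140.OW
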