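import Pool.Agent.Helper140.OW1

set_option autoImplicit false
open Complex Filter Topology Set Metric

namespace Pool.Agent.Helper140.OW

noncomputable section

lemma norm_exp_path {A1 A2 : ℂ} (h1 : 0 < A1.re) (h2 : 0 < A2.re) (t : ℝ) :
    ‖Complex.exp ((1 - t) * Complex.log A1 + t * Complex.log A2)‖ = ‖A1‖ ^ (1 - t) * ‖A2‖ ^ t := by
  have e1 : 0 < ‖A1‖ := norm_pos_iff.2 (ne_of_re_pos h1)
  have e2 : 0 < ‖A2‖ := norm_pos_iff.2 (ne_of_re_pos h2)
  rw [Complex.norm_exp, Real.rpow_def_of_pos e1, Real.rpow_def_of_pos e2, ← Real.exp_add]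
  congr 1
  have : (1 - (t:ℂ)) = ((1 - t : ℝ) : ℂ) := by push_cast; ring
  rw [this, Complex.add_re, Complex.re_ofReal_mul, Complex.re_ofReal_mul, Complex.log_re, Complex.log_re]
  ring

lemma re_exp_path {A1 A2 : ℂ} (h1 : 0 < A1.re) (h2 : 0 < A2.re) {t : ℝ} (ht : t ∈ Icc (0:ℝ) 1) :
    A1.re ^ (1 - t) * A2.re ^ t ≤ (Complex.exp ((1 - t) * Complex.log A1 + t * Complex.log A2)).re := by
  have e1 : 0 < ‖A1‖ := norm_pos_iff.2 (ne_of_re_pos h1)
  have e2 : 0 < ‖A2‖ := norm_pos_iff.2 (ne_of_re_pos h2)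
  have hn := norm_exp_path h1 h2 t
  rw [Complex.norm_exp] at hn
  rw [Complex.exp_re, hn]
  have him : ((1 - (t:ℂ)) * Complex.log A1 + t * Complex.log A2).im = (1 - t) * A1.arg + t * A2.arg := by
    have : (1 - (t:ℂ)) = ((1 - t : ℝ) : ℂ) := by push_cast; ring
    rw [this, Complex.add_im, Complex.im_ofReal_mul, Complex.im_ofReal_mul, Complex.log_im, Complex.log_im]
  rw [him]
  have a1 := Complex.abs_arg_lt_pi_div_two_iff.2 (Or.inl h1)
  have a2 := Complex.abs_arg_lt_pi_div_two_iff.2 (Or.inl h2)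
  rw [abs_lt] at a1 a2
  have c1 : ‖A1‖ * Real.cos A1.arg = A1.re := Complex.norm_mul_cos_arg A1
  have c2 : ‖A2‖ * Real.cos A2.arg = A2.re := Complex.norm_mul_cos_arg A2
  have p1 : 0 < Real.cos A1.arg := Real.cos_pos_of_mem_Ioo ⟨by linarith [a1.1], a1.2⟩
  have p2 : 0 < Real.cos A2.arg := Real.cos_pos_of_mem_Ioo ⟨by linarith [a2.1], a2.2⟩
  have m1 : A1.arg ∈ Icc (-(Real.pi / 2)) (Real.pi / 2) := ⟨by linarith [a1.1], a1.2.le⟩
  have m2 : A2.arg ∈ Icc (-(Real.pi / 2)) (Real.pi / 2) := ⟨by linarith [a2.1], a2.2.le⟩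
  have hconc := strictConcaveOn_cos_Icc.concaveOn.2 m1 m2 (show 0 ≤ 1 - t by linarith [ht.2]) ht.1
    (show (1 - t) + t = 1 by ring)
  have hgm := Real.geom_mean_le_arith_mean2_weighted (w₁ := 1 - t) (w₂ := t) (by linarith [ht.2]) ht.1
    p1.le p2.le (by ring)
  simp only [smul_eq_mul] at hconc
  rw [← c1, ← c2, Real.mul_rpow e1.le p1.le, Real.mul_rpow e2.le p2.le]
  have hp : 0 ≤ ‖A1‖ ^ (1 - t) * ‖A2‖ ^ t := by positivity
  have := mul_le_mul_of_nonneg_left (hgm.trans hconc) hp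
  calc _ = ‖A1‖ ^ (1 - t) * ‖A2‖ ^ t * (Real.cos A1.arg ^ (1 - t) * Real.cos A2.arg ^ t) := by ring
    _ ≤ _ := this

/-- the region near a tip -/
def Wr (r δ : ℝ) : Set ℂ := {A | ‖A‖ < r ∧ δ ≤ A.re ∧ ‖A‖ ^ 2 / 4 ≤ A.re}

lemma Wr_path {r δ : ℝ} (hδ : 0 < δ) {A1 A2 : ℂ} (h1 : A1 ∈ Wr r δ) (h2 : A2 ∈ Wr r δ) {t : ℝ}
    (ht : t ∈ Icc (0:ℝ) 1) :
    Complex.exp ((1 - t) * Complex.log A1 + t * Complex.log A2) ∈ Wr r δ := by
  have p1 : 0 < A1.re := lt_of_lt_of_le hδ h1.2.1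
  have p2 : 0 < A2.re := lt_of_lt_of_le hδ h2.2.1
  have e1 : 0 < ‖A1‖ := norm_pos_iff.2 (ne_of_re_pos p1)
  have e2 : 0 < ‖A2‖ := norm_pos_iff.2 (ne_of_re_pos p2)
  have hn := norm_exp_path p1 p2 t
  have hr := re_exp_path p1 p2 ht
  have ht1 : 0 ≤ 1 - t := by linarith [ht.2]
  have hsplit : ∀ x : ℝ, 0 < x → x ^ (1 - t) * x ^ t = x := by
    intro x hx
    rw [← Real.rpow_add hx]; simp
  refine ⟨?_, ?_, ?_⟩
  · rw [hn]
    have hr0 : 0 < r := lt_trans e1 h1.1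
    have hm : max ‖A1‖ ‖A2‖ < r := max_lt h1.1 h2.1
    have hmp : 0 < max ‖A1‖ ‖A2‖ := lt_max_of_lt_left e1
    calc ‖A1‖ ^ (1 - t) * ‖A2‖ ^ t ≤ (max ‖A1‖ ‖A2‖) ^ (1 - t) * (max ‖A1‖ ‖A2‖) ^ t := by
          apply mul_le_mul
          · exact Real.rpow_le_rpow e1.le (le_max_left _ _) ht1
          · exact Real.rpow_le_rpow e2.le (le_max_right _ _) ht.1
          · positivity
          · positivity
      _ = max ‖A1‖ ‖A2‖ := hsplit _ hmp
      _ < r := hm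
  · refine le_trans ?_ hr
    calc δ = δ ^ (1 - t) * δ ^ t := (hsplit _ hδ).symm
      _ ≤ _ := by
          apply mul_le_mul
          · exact Real.rpow_le_rpow hδ.le h1.2.1 ht1
          · exact Real.rpow_le_rpow hδ.le h2.2.1 ht.1
          · positivity
          · positivity
  · refine le_trans ?_ hr
    rw [hn]
    have q1 : 0 < ‖A1‖ ^ 2 / 4 := by positivity
    have q2 : 0 < ‖A2‖ ^ 2 / 4 := by positivity
    have : (‖A1‖ ^ (1 - t) * ‖A2‖ ^ t) ^ 2 / 4 = (‖A1‖ ^ 2 / 4) ^ (1 - t) * (‖A2‖ ^ 2 / 4) ^ t := by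
      rw [Real.div_rpow (by positivity) (by norm_num), Real.div_rpow (by positivity) (by norm_num)]
      have h4 : (4:ℝ) ^ (1 - t) * 4 ^ t = 4 := hsplit 4 (by norm_num)
      have h5 : (‖A1‖ ^ 2) ^ (1 - t) = (‖A1‖ ^ (1 - t)) ^ 2 := by
        rw [← Real.rpow_natCast, ← Real.rpow_mul e1.le, mul_comm, Real.rpow_mul e1.le, Real.rpow_natCast]
      have h6 : (‖A2‖ ^ 2) ^ t = (‖A2‖ ^ t) ^ 2 := by
        rw [← Real.rpow_natCast, ← Real.rpow_mul e2.le, mul_comm, Real.rpow_mul e2.le, Real.rpow_natCast]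
      rw [h5, h6, div_mul_div_comm, h4]; ring
    rw [this]
    apply mul_le_mul
    · exact Real.rpow_le_rpow q1.le h1.2.2 ht1
    · exact Real.rpow_le_rpow q2.le h2.2.2 ht.1
    · positivity
    · exact Real.rpow_nonneg p1.le _

/-- injectivity in logarithmic coordinates -/
lemma inj_of_log {G : ℂ → ℂ} {ζ κ : ℂ} {δ r : ℝ} (hδ : 0 < δ)
    (hG : ∀ A ∈ Wr r δ, DifferentiableAt ℂ G (ζ * (1 + δ - A)))
    (hpos : ∀ A ∈ Wr r δ, 0 < (starRingEnd ℂ κ * A * ζ * deriv G (ζ * (1 + δ - A))).re)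
    {A1 A2 : ℂ} (h1 : A1 ∈ Wr r δ) (h2 : A2 ∈ Wr r δ)
    (heq : G (ζ * (1 + δ - A1)) = G (ζ * (1 + δ - A2))) : A1 = A2 := by
  have p1 : 0 < A1.re := lt_of_lt_of_le hδ h1.2.1
  have p2 : 0 < A2.re := lt_of_lt_of_le hδ h2.2.1
  by_contra hne
  set d : ℂ := Complex.log A2 - Complex.log A1 with hd
  have hd0 : d ≠ 0 := by
    intro h
    apply hne
    have : Complex.log A1 = Complex.log A2 := by rw [hd] at h; linear_combination -h
    rw [← Complex.exp_log (ne_of_re_pos p1), ← Complex.exp_log (ne_of_re_pos p2), this]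
  let P : ℝ → ℂ := fun t => Complex.exp ((1 - t) * Complex.log A1 + t * Complex.log A2)
  have hP : ∀ t ∈ Icc (0:ℝ) 1, P t ∈ Wr r δ := fun t ht => Wr_path hδ h1 h2 ht
  have hPd : ∀ t : ℝ, HasDerivAt P (P t * d) t := by
    intro t
    have h3 : HasDerivAt (fun t : ℝ => (1 - (t:ℂ)) * Complex.log A1 + t * Complex.log A2)
        ((0 - 1) * Complex.log A1 + 1 * Complex.log A2) t := by
      have h4 : HasDerivAt (fun t : ℝ => (t : ℂ)) 1 t := Complex.ofRealCLM.hasDerivAt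
      exact (((hasDerivAt_const t (1:ℂ)).sub h4).mul_const _).add (h4.mul_const _)
    have h5 := h3.cexp
    refine h5.congr_deriv ?_
    rw [hd]; ring
  let Z : ℝ → ℂ := fun t => ζ * (1 + δ - P t)
  have hZd : ∀ t : ℝ, HasDerivAt Z (ζ * (0 - P t * d)) t := by
    intro t
    exact ((hasDerivAt_const t (1 + (δ:ℂ))).sub (hPd t)).const_mul ζ
  let g : ℝ → ℝ := fun t => (starRingEnd ℂ d * starRingEnd ℂ κ * G (Z t)).re
  have hgd : ∀ t ∈ Icc (0:ℝ) 1, HasDerivAt g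
      ((starRingEnd ℂ d * starRingEnd ℂ κ * (deriv G (Z t) * (ζ * (0 - P t * d)))).re) t := by
    intro t ht
    have h6 : HasDerivAt (fun t => G (Z t)) (deriv G (Z t) * (ζ * (0 - P t * d))) t :=
      (hG _ (hP t ht)).hasDerivAt.comp t (hZd t)
    have h7 := (h6.const_mul (starRingEnd ℂ d * starRingEnd ℂ κ))
    exact (Complex.reCLM.hasFDerivAt.comp_hasDerivAt t h7)
  have hgneg : ∀ t ∈ Icc (0:ℝ) 1,
      (starRingEnd ℂ d * starRingEnd ℂ κ * (deriv G (Z t) * (ζ * (0 - P t * d)))).re < 0 := by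
    intro t ht
    have h8 := hpos _ (hP t ht)
    have h9 : starRingEnd ℂ d * starRingEnd ℂ κ * (deriv G (Z t) * (ζ * (0 - P t * d)))
        = -(((Complex.normSq d : ℝ) : ℂ) * (starRingEnd ℂ κ * P t * ζ * deriv G (ζ * (1 + δ - P t)))) := by
      rw [Complex.normSq_eq_conj_mul_self]; ring
    rw [h9, Complex.neg_re, Complex.re_ofReal_mul]
    have h10 : 0 < Complex.normSq d := Complex.normSq_pos.2 hd0
    have := mul_pos h10 h8
    linarith
  have hcont : ContinuousOn g (Icc 0 1) := fun t ht => (hgd t ht).continuousAt.continuousWithinAt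
  have hanti : StrictAntiOn g (Icc 0 1) := by
    apply strictAntiOn_of_deriv_neg (convex_Icc 0 1) hcont
    intro t ht
    rw [interior_Icc] at ht
    have ht' : t ∈ Icc (0:ℝ) 1 := ⟨ht.1.le, ht.2.le⟩
    rw [(hgd t ht').deriv]
    exact hgneg t ht'
  have h01 := hanti (left_mem_Icc.2 zero_le_one) (right_mem_Icc.2 zero_le_one) zero_lt_one
  have hP0 : P 0 = A1 := by
    simp only [P]; simp [Complex.exp_log (ne_of_re_pos p1)]
  have hP1 : P 1 = A2 := by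
    simp only [P]; simp [Complex.exp_log (ne_of_re_pos p2)]
  have : g 0 = g 1 := by
    simp only [g, Z, hP0, hP1, heq]
  linarith

end
end Pool.Agent.Helper140.OW
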