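import Pool.Agent.Helper140.OW2

set_option autoImplicit false
open Complex Filter Topology Set Metric

namespace Pool.Agent.Helper140.OW

noncomputable section

/-- unit outer normal -/
def kap (F : ℂ → ℂ) (ζ : ℂ) : ℂ := ζ * deriv F ζ / ((‖deriv F ζ‖ : ℝ) : ℂ)

lemma norm_kap {F : ℂ → ℂ} {ζ : ℂ} (hζ : ‖ζ‖ = 1) (h : deriv F ζ ≠ 0) : ‖kap F ζ‖ = 1 := by
  unfold kap
  rw [norm_div, norm_mul, hζ, Complex.norm_real, norm_norm, one_mul, div_self (norm_ne_zero_iff.2 h)]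

lemma conj_mul_self_of_unit {ζ : ℂ} (hζ : ‖ζ‖ = 1) : starRingEnd ℂ ζ * ζ = 1 := by
  rw [Complex.conj_mul', hζ]; simp

lemma conj_kap_mul {F : ℂ → ℂ} {ζ : ℂ} (hζ : ‖ζ‖ = 1) (h : deriv F ζ ≠ 0) :
    starRingEnd ℂ (kap F ζ) * ζ = ((‖deriv F ζ‖ : ℝ) : ℂ) / deriv F ζ := by
  unfold kap
  rw [map_div₀, map_mul, Complex.conj_ofReal]
  have h1 := conj_mul_self_of_unit hζ
  have h2 : starRingEnd ℂ (deriv F ζ) * deriv F ζ = ((‖deriv F ζ‖ : ℝ) : ℂ) ^ 2 := Complex.conj_mul' _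
  have h3 : ((‖deriv F ζ‖ : ℝ) : ℂ) ≠ 0 := by exact_mod_cast norm_ne_zero_iff.2 h
  field_simp
  linear_combination (starRingEnd ℂ (deriv F ζ) * deriv F ζ) * h1 + h2

lemma taylor2 {h : ℂ → ℂ} {ζ : ℂ} {U : Set ℂ} (hU : U ∈ 𝓝 ζ) (hh : DifferentiableOn ℂ h U) :
    ∃ r > 0, ∃ C ≥ 0, ∀ z, ‖z - ζ‖ < r → ‖h z - h ζ - deriv h ζ * (z - ζ)‖ ≤ C * ‖z - ζ‖ ^ 2 := by
  have h1 : DifferentiableOn ℂ (dslope h ζ) U := (Complex.differentiableOn_dslope hU).2 hh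
  have h2 : DifferentiableOn ℂ (dslope (dslope h ζ) ζ) U := (Complex.differentiableOn_dslope hU).2 h1
  have hc : ContinuousAt (dslope (dslope h ζ) ζ) ζ := (h2.differentiableAt hU).continuousAt
  set C : ℝ := ‖dslope (dslope h ζ) ζ ζ‖ + 1 with hC
  have hev : ∀ᶠ z in 𝓝 ζ, ‖dslope (dslope h ζ) ζ z‖ < C := by
    have := hc.norm.eventually (gt_mem_nhds (show ‖dslope (dslope h ζ) ζ ζ‖ < C by rw [hC]; linarith))
    exact this
  obtain ⟨r, hr, hr2⟩ := Metric.eventually_nhds_iff.1 hev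
  refine ⟨r, hr, C, by positivity, fun z hz => ?_⟩
  have e1 : (z - ζ) • dslope h ζ z = h z - h ζ := sub_smul_dslope h ζ z
  have e2 : (z - ζ) • dslope (dslope h ζ) ζ z = dslope h ζ z - dslope h ζ ζ := sub_smul_dslope _ ζ z
  rw [dslope_same] at e2
  simp only [smul_eq_mul] at e1 e2
  have e3 : h z - h ζ - deriv h ζ * (z - ζ) = (z - ζ) ^ 2 * dslope (dslope h ζ) ζ z := by
    linear_combination -e1 - (z - ζ) * e2
  rw [e3, norm_mul, norm_pow, mul_comm]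
  apply mul_le_mul_of_nonneg_right _ (by positivity)
  exact (hr2 (by rwa [dist_eq_norm])).le

lemma re_part {τ A : ℂ} {δ : ℝ} (hτ : 0 ≤ τ.re) (hA : 0 ≤ A.re) (hδ : 0 ≤ δ) (hδA : δ ≤ A.re) :
    A.re * (1 - 4 * ‖τ‖ * ‖A‖) ≤ (A * (1 - τ * (A - δ))).re := by
  have hx : |A.re| ≤ ‖A‖ := Complex.abs_re_le_norm A
  have hy : |A.im| ≤ ‖A‖ := Complex.abs_im_le_norm A
  have tx : |τ.re| ≤ ‖τ‖ := Complex.abs_re_le_norm τ
  have ty : |τ.im| ≤ ‖τ‖ := Complex.abs_im_le_norm τ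
  have hn := norm_nonneg A
  have tn := norm_nonneg τ
  have e : (A * (1 - τ * (A - δ))).re
      = A.re - (τ.re * (A.re ^ 2 - A.im ^ 2) - 2 * τ.im * (A.re * A.im)) + δ * (τ * A).re := by
    simp only [Complex.mul_re, Complex.sub_re, Complex.one_re, Complex.ofReal_re, Complex.sub_im,
      Complex.one_im, Complex.mul_im, Complex.ofReal_im]
    ring
  rw [e]
  have h1 : -(‖τ‖ * ‖A‖) ≤ (τ * A).re := by
    have := (Complex.abs_re_le_norm (τ * A))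
    rw [norm_mul] at this
    linarith [(abs_le.1 this).1]
  have h2 : δ * (-(‖τ‖ * ‖A‖)) ≤ δ * (τ * A).re := mul_le_mul_of_nonneg_left h1 hδ
  have h3 : δ * (‖τ‖ * ‖A‖) ≤ A.re * (‖τ‖ * ‖A‖) := mul_le_mul_of_nonneg_right hδA (by positivity)
  have h4 : τ.re * A.re ^ 2 ≤ ‖τ‖ * (A.re * ‖A‖) := by
    have a1 : τ.re ≤ ‖τ‖ := Complex.re_le_norm τ
    have a2 : A.re ≤ ‖A‖ := Complex.re_le_norm A
    calc τ.re * A.re ^ 2 ≤ ‖τ‖ * A.re ^ 2 := mul_le_mul_of_nonneg_right a1 (sq_nonneg _)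
      _ = ‖τ‖ * (A.re * A.re) := by ring
      _ ≤ ‖τ‖ * (A.re * ‖A‖) := by
          apply mul_le_mul_of_nonneg_left _ tn
          exact mul_le_mul_of_nonneg_left a2 hA
  have h5 : -(2 * τ.im * (A.re * A.im)) ≤ 2 * ‖τ‖ * (A.re * ‖A‖) := by
    have a1 : |2 * τ.im * (A.re * A.im)| ≤ 2 * ‖τ‖ * (A.re * ‖A‖) := by
      rw [abs_mul, abs_mul, abs_mul, abs_of_nonneg hA, abs_two]
      apply mul_le_mul
      · linarith
      · exact mul_le_mul_of_nonneg_left hy hA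
      · positivity
      · positivity
    linarith [(abs_le.1 a1).1]
  have h6 : 0 ≤ τ.re * A.im ^ 2 := mul_nonneg hτ (sq_nonneg _)
  nlinarith

lemma pos_near_tip {F : ℂ → ℂ} {ζ : ℂ} {R : ℝ} (hR : 1 < R) (hF : DifferentiableOn ℂ F (ball 0 R))
    (hζ : ‖ζ‖ = 1) (hF' : deriv F ζ ≠ 0) (hconv : 0 ≤ (ζ * deriv (deriv F) ζ / deriv F ζ).re)
    {O : ℝ → ℂ → ℂ} {r0 C : ℝ} (hr0 : 0 < r0) (hC : 0 ≤ C)
    (hO : ∀ δ : ℝ, 0 < δ → δ < r0 → ∀ z, ‖z - ζ‖ < r0 →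
      DifferentiableAt ℂ (O δ) z ∧ ‖deriv (O δ) z‖ ≤ C * δ) {c K : ℝ} (hc : 0 < c) (hK : 0 < K) :
    ∃ r > 0, ∀ δ : ℝ, 0 < δ → δ < r → ∀ A ∈ Wr r δ,
      DifferentiableAt ℂ (fun z => F z + c * kap F ζ * bmp K δ (z / ζ) + O δ z) (ζ * (1 + δ - A)) ∧
      0 < (starRingEnd ℂ (kap F ζ) * A * ζ *
        deriv (fun z => F z + c * kap F ζ * bmp K δ (z / ζ) + O δ z) (ζ * (1 + δ - A))).re := by
  have hζ0 : ζ ≠ 0 := by rintro rfl; simp at hζ
  have hUn : ball (0:ℂ) R ∈ 𝓝 ζ := isOpen_ball.mem_nhds (by simp [hζ, hR])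
  have hFd : DifferentiableOn ℂ (deriv F) (ball 0 R) := hF.deriv isOpen_ball
  obtain ⟨r1, hr1, C1, hC1, hT⟩ := taylor2 hUn hFd
  set τ := ζ * deriv (deriv F) ζ / deriv F ζ with hτ
  set N := ‖deriv F ζ‖ with hN
  have hNpos : 0 < N := norm_pos_iff.2 hF'
  set M : ℝ := 4 * ‖τ‖ * N + 16 * C1 + C with hM
  have hMn : 0 ≤ M := by positivity
  set r : ℝ := min (min (r1 / 2) (r0 / 2)) (min ((R - 1) / 2) (N / (2 * (M + 1)))) with hr
  have hrpos : 0 < r := by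
    rw [hr]
    refine lt_min (lt_min (by linarith) (by linarith)) (lt_min (by linarith) (by positivity))
  have hr_1 : r ≤ r1 / 2 := (min_le_left _ _).trans (min_le_left _ _)
  have hr_2 : r ≤ r0 / 2 := (min_le_left _ _).trans (min_le_right _ _)
  have hr_3 : r ≤ (R - 1) / 2 := (min_le_right _ _).trans (min_le_left _ _)
  have hr_4 : r ≤ N / (2 * (M + 1)) := (min_le_right _ _).trans (min_le_right _ _)
  refine ⟨r, hrpos, fun δ hδ hδr A hA => ?_⟩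
  obtain ⟨hA1, hA2, hA3⟩ := hA
  have hAre : 0 < A.re := lt_of_lt_of_le hδ hA2
  have hA0 : A ≠ 0 := ne_of_re_pos hAre
  have hAn : 0 < ‖A‖ := norm_pos_iff.2 hA0
  have hδA : δ ≤ ‖A‖ := hA2.trans (Complex.re_le_norm A)
  set z := ζ * (1 + δ - A) with hz
  have hzζ : z - ζ = ζ * (δ - A) := by rw [hz]; ring
  have hnz : ‖z - ζ‖ ≤ 2 * ‖A‖ := by
    rw [hzζ, norm_mul, hζ, one_mul]
    calc ‖(δ:ℂ) - A‖ ≤ ‖(δ:ℂ)‖ + ‖A‖ := norm_sub_le _ _
      _ ≤ 2 * ‖A‖ := by rw [Complex.norm_real, Real.norm_eq_abs, abs_of_pos hδ]; linarith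
  have hnz1 : ‖z - ζ‖ < r1 := by linarith
  have hnz0 : ‖z - ζ‖ < r0 := by linarith
  have hzR : z ∈ ball (0:ℂ) R := by
    rw [mem_ball_zero_iff]
    have h1 := norm_add_le (z - ζ) ζ
    rw [sub_add_cancel, hζ] at h1
    linarith
  have hFz : DifferentiableAt ℂ F z := hF.differentiableAt (isOpen_ball.mem_nhds hzR)
  obtain ⟨hOd, hOb⟩ := hO δ hδ (by linarith) z hnz0
  have hzdiv : z / ζ = 1 + δ - A := by rw [hz]; field_simp
  have hzre : (z / ζ).re < 1 + δ := by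
    rw [hzdiv]; simp; exact hAre
  have hb : HasDerivAt (fun z => bmp K δ (z / ζ)) ((((K * δ : ℝ) : ℂ) / ((Real.log (1 + K) : ℝ) : ℂ) /
      ((((1 + δ : ℝ) : ℂ) - z / ζ) * (((1 + δ + K * δ : ℝ) : ℂ) - z / ζ))) * (1 / ζ)) z := by
    have := (hasDerivAt_bmp hK hδ hzre).comp z ((hasDerivAt_id z).div_const ζ)
    exact this
  have hGd : HasDerivAt (fun z => F z + c * kap F ζ * bmp K δ (z / ζ) + O δ z)
      (deriv F z + c * kap F ζ * ((((K * δ : ℝ) : ℂ) / ((Real.log (1 + K) : ℝ) : ℂ) /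
      ((((1 + δ : ℝ) : ℂ) - z / ζ) * (((1 + δ + K * δ : ℝ) : ℂ) - z / ζ))) * (1 / ζ)) + deriv (O δ) z) z :=
    (hFz.hasDerivAt.add (hb.const_mul _)).add hOd.hasDerivAt
  refine ⟨hGd.differentiableAt, ?_⟩
  rw [hGd.deriv]
  have e1 : (((1 + δ : ℝ) : ℂ) - z / ζ) = A := by rw [hzdiv]; push_cast; ring
  have e2 : (((1 + δ + K * δ : ℝ) : ℂ) - z / ζ) = A + ((K * δ : ℝ) : ℂ) := by rw [hzdiv]; push_cast; ring
  rw [e1, e2]
  have hkk : starRingEnd ℂ (kap F ζ) * kap F ζ = 1 := conj_mul_self_of_unit (norm_kap hζ hF')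
  have hkz := conj_kap_mul hζ hF'
  have hsplit : starRingEnd ℂ (kap F ζ) * A * ζ * (deriv F z + c * kap F ζ * ((((K * δ : ℝ) : ℂ) / ((Real.log (1 + K) : ℝ) : ℂ) /
      (A * (A + ((K * δ : ℝ) : ℂ)))) * (1 / ζ)) + deriv (O δ) z)
      = (N : ℂ) * (A * (deriv F z / deriv F ζ)) + ((c * (K * δ / Real.log (1 + K)) : ℝ) : ℂ) * (A + ((K * δ : ℝ) : ℂ))⁻¹
        + starRingEnd ℂ (kap F ζ) * A * ζ * deriv (O δ) z := by
    have hAK : A + ((K * δ : ℝ) : ℂ) ≠ 0 := by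
      apply ne_of_re_pos; simp only [Complex.add_re, Complex.ofReal_re]
      have := mul_pos hK hδ; linarith
    have t1 : starRingEnd ℂ (kap F ζ) * A * ζ * deriv F z = (N : ℂ) * (A * (deriv F z / deriv F ζ)) := by
      calc _ = (starRingEnd ℂ (kap F ζ) * ζ) * (A * deriv F z) := by ring
        _ = _ := by rw [hkz]; ring
    have t2 : starRingEnd ℂ (kap F ζ) * A * ζ * (c * kap F ζ * ((((K * δ : ℝ) : ℂ) / ((Real.log (1 + K) : ℝ) : ℂ) /
      (A * (A + ((K * δ : ℝ) : ℂ)))) * (1 / ζ))) = ((c * (K * δ / Real.log (1 + K)) : ℝ) : ℂ) * (A + ((K * δ : ℝ) : ℂ))⁻¹ := by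
      have hL : ((Real.log (1 + K) : ℝ) : ℂ) ≠ 0 := by exact_mod_cast (logK_pos hK).ne'
      calc _ = (starRingEnd ℂ (kap F ζ) * kap F ζ) * (ζ * (1 / ζ)) * (c * ((((K * δ : ℝ) : ℂ) / ((Real.log (1 + K) : ℝ) : ℂ)) *
                (A * (A * (A + ((K * δ : ℝ) : ℂ)))⁻¹))) := by ring
        _ = _ := by
          rw [hkk, mul_one_div_cancel hζ0, mul_inv, ← mul_assoc A, mul_inv_cancel₀ hA0]
          push_cast; ring
    rw [mul_add, mul_add, t1, t2]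
  rw [hsplit, Complex.add_re, Complex.add_re, Complex.re_ofReal_mul, Complex.re_ofReal_mul]
  -- bump part is positive
  have p2 : 0 < c * (K * δ / Real.log (1 + K)) * ((A + ((K * δ : ℝ) : ℂ))⁻¹).re := by
    have hL := logK_pos hK
    have hAK : 0 < (A + ((K * δ : ℝ) : ℂ)).re := by
      simp only [Complex.add_re, Complex.ofReal_re]
      have := mul_pos hK hδ; linarith
    rw [Complex.inv_re]
    have := Complex.normSq_pos.2 (ne_of_re_pos hAK)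
    positivity
  -- other part
  have p3 : -(C * ‖A‖ * A.re) ≤ (starRingEnd ℂ (kap F ζ) * A * ζ * deriv (O δ) z).re := by
    have h1 := Complex.abs_re_le_norm (starRingEnd ℂ (kap F ζ) * A * ζ * deriv (O δ) z)
    rw [norm_mul, norm_mul, norm_mul, Complex.norm_conj, norm_kap hζ hF', hζ, one_mul, mul_one] at h1
    have h2 : ‖A‖ * ‖deriv (O δ) z‖ ≤ C * ‖A‖ * A.re := by
      calc ‖A‖ * ‖deriv (O δ) z‖ ≤ ‖A‖ * (C * δ) := mul_le_mul_of_nonneg_left hOb hAn.le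
        _ ≤ ‖A‖ * (C * A.re) := by gcongr
        _ = _ := by ring
    linarith [(abs_le.1 (h1.trans h2)).1]
  -- main part
  have p1 : N * A.re - (4 * ‖τ‖ * N + 16 * C1) * ‖A‖ * A.re ≤ N * (A * (deriv F z / deriv F ζ)).re := by
    have hTz := hT z hnz1
    set e := deriv F z - deriv F ζ - deriv (deriv F) ζ * (z - ζ) with he
    have h1 : deriv F z / deriv F ζ = (1 - τ * (A - δ)) + e / deriv F ζ := by
      have : deriv F z = deriv F ζ + deriv (deriv F) ζ * (z - ζ) + e := by rw [he]; ring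
      rw [this, hzζ, hτ]
      field_simp
      ring
    have h2 := re_part (τ := τ) (A := A) (δ := δ) hconv hAre.le hδ.le hA2
    have h3 : (A * (deriv F z / deriv F ζ)).re = (A * (1 - τ * (A - δ))).re + (A * (e / deriv F ζ)).re := by
      rw [h1, mul_add, Complex.add_re]
    have h4 : -(16 * C1 * ‖A‖ * A.re / N) ≤ (A * (e / deriv F ζ)).re := by
      have h5 := Complex.abs_re_le_norm (A * (e / deriv F ζ))
      rw [norm_mul, norm_div] at h5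
      have h6 : ‖e‖ ≤ 16 * C1 * A.re := by
        calc ‖e‖ ≤ C1 * ‖z - ζ‖ ^ 2 := hTz
          _ ≤ C1 * (2 * ‖A‖) ^ 2 := by gcongr
          _ = 16 * C1 * (‖A‖ ^ 2 / 4) := by ring
          _ ≤ 16 * C1 * A.re := by gcongr
      have h7 : ‖A‖ * (‖e‖ / ‖deriv F ζ‖) ≤ 16 * C1 * ‖A‖ * A.re / N := by
        rw [← hN, mul_div_assoc']
        apply div_le_div_of_nonneg_right _ hNpos.le
        calc ‖A‖ * ‖e‖ ≤ ‖A‖ * (16 * C1 * A.re) := mul_le_mul_of_nonneg_left h6 hAn.le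
          _ = 16 * C1 * ‖A‖ * A.re := by ring
      linarith [(abs_le.1 (h5.trans h7)).1]
    rw [h3]
    have h8 : N * (16 * C1 * ‖A‖ * A.re / N) = 16 * C1 * ‖A‖ * A.re := by field_simp
    have h9 := mul_le_mul_of_nonneg_left h2 hNpos.le
    have h10 := mul_le_mul_of_nonneg_left h4 hNpos.le
    have h11 : N * -(16 * C1 * ‖A‖ * A.re / N) = -(16 * C1 * ‖A‖ * A.re) := by rw [mul_neg, h8]
    rw [h11] at h10
    have h12 : N * ((A * (1 - τ * (A - δ))).re + (A * (e / deriv F ζ)).re)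
        = N * (A * (1 - τ * (A - δ))).re + N * (A * (e / deriv F ζ)).re := by ring
    rw [h12]
    have h13 : N * A.re - (4 * ‖τ‖ * N + 16 * C1) * ‖A‖ * A.re
        = N * (A.re * (1 - 4 * ‖τ‖ * ‖A‖)) + -(16 * C1 * ‖A‖ * A.re) := by ring
    rw [h13]
    exact add_le_add h9 h10
  have hfin : 0 < N * A.re - (4 * ‖τ‖ * N + 16 * C1) * ‖A‖ * A.re - C * ‖A‖ * A.re := by
    have : N * A.re - (4 * ‖τ‖ * N + 16 * C1) * ‖A‖ * A.re - C * ‖A‖ * A.re = A.re * (N - M * ‖A‖) := by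
      rw [hM]; ring
    rw [this]
    apply mul_pos hAre
    have h1 : (M + 1) * ‖A‖ < (M + 1) * (N / (2 * (M + 1))) := by
      apply mul_lt_mul_of_pos_left _ (by linarith)
      linarith
    have h2 : (M + 1) * (N / (2 * (M + 1))) = N / 2 := by field_simp
    have h3 : (M + 1) * ‖A‖ = M * ‖A‖ + ‖A‖ := by ring
    rw [h2, h3] at h1
    linarith
  linarith

end
end Pool.Agent.Helper140.OW
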