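import Pool.Agent.Helper140.OW4

set_option autoImplicit false
open Complex Filter Topology Set Metric

namespace Pool.Agent.Helper140.OW

noncomputable section

/-- the constant `B` -/
def BB (c K : ℝ) (κ ζ : ℂ) : ℂ := c * κ * (K / ((Real.log (1 + K) : ℝ) : ℂ)) / ζ

lemma BB_ne {c K : ℝ} {κ ζ : ℂ} (hc : 0 < c) (hK : 0 < K) (hκ : ‖κ‖ = 1) (hζ : ‖ζ‖ = 1) :
    BB c K κ ζ ≠ 0 := by
  have h1 : κ ≠ 0 := by rintro rfl; simp at hκ
  have h2 : ζ ≠ 0 := by rintro rfl; simp at hζ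
  have h3 : ((Real.log (1 + K) : ℝ) : ℂ) ≠ 0 := by exact_mod_cast (logK_pos hK).ne'
  have h4 : (c : ℂ) ≠ 0 := by exact_mod_cast hc.ne'
  have h5 : (K : ℂ) ≠ 0 := by exact_mod_cast hK.ne'
  unfold BB
  exact div_ne_zero (mul_ne_zero (mul_ne_zero h4 h1) (div_ne_zero h5 h3)) h2

/-- data near one tip -/
structure TipData (E : ℝ → ℂ → ℂ) (ζ : ℂ) (r0 C : ℝ) : Prop where
  r0pos : 0 < r0
  Cnn : 0 ≤ C
  diff : ∀ δ : ℝ, 0 < δ → δ < r0 → DifferentiableOn ℂ (E δ) (ball ζ r0)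
  b1 : ∀ δ : ℝ, 0 < δ → δ < r0 → ∀ z ∈ ball ζ r0, ‖deriv (E δ) z‖ ≤ C
  b2 : ∀ δ : ℝ, 0 < δ → δ < r0 → ∀ z ∈ ball ζ r0, ‖deriv (deriv (E δ)) z‖ ≤ C

lemma hasDerivAt_G {G E : ℝ → ℂ → ℂ} {c K : ℝ} {κ ζ : ℂ} (hK : 0 < K) (hζ : ‖ζ‖ = 1)
    (hG : ∀ δ z, G δ z = E δ z + c * κ * bmp K δ (z / ζ)) {δ : ℝ} (hδ : 0 < δ) {z : ℂ}
    (hE : DifferentiableAt ℂ (E δ) z) (hz : (z / ζ).re < 1 + δ) :
    HasDerivAt (G δ) (deriv (E δ) z + BB c K κ ζ / (δ * DD K ((1 - z / ζ) / δ))) z := by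
  have hζ0 : ζ ≠ 0 := by rintro rfl; simp at hζ
  have hδ0 : (δ : ℂ) ≠ 0 := by exact_mod_cast hδ.ne'
  have hL : ((Real.log (1 + K) : ℝ) : ℂ) ≠ 0 := by exact_mod_cast (logK_pos hK).ne'
  have hb := (hasDerivAt_bmp hK hδ hz).comp z ((hasDerivAt_id z).div_const ζ)
  have h := hE.hasDerivAt.add (hb.const_mul ((c : ℂ) * κ))
  have hfun : G δ = fun z => E δ z + c * κ * bmp K δ (z / ζ) := funext (hG δ)
  rw [hfun]
  refine h.congr_deriv ?_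
  congr 1
  have p1 := ne_of_re_pos (re_pos1 hz)
  have p2 := ne_of_re_pos (re_pos2 hK hδ hz)
  have e1 : (((1 + δ : ℝ) : ℂ) - z / ζ) = δ * (1 + (1 - z / ζ) / δ) := by
    field_simp; push_cast; ring
  have e2 : (((1 + δ + K * δ : ℝ) : ℂ) - z / ζ) = δ * (1 + K + (1 - z / ζ) / δ) := by
    field_simp; push_cast; ring
  rw [e1] at p1 ⊢
  rw [e2] at p2 ⊢
  unfold BB DD
  have q1 := right_ne_zero_of_mul p1
  have q2 := right_ne_zero_of_mul p2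
  generalize (1 - z / ζ) / (δ:ℂ) = u at q1 q2 ⊢
  push_cast
  field_simp

lemma hasDerivAt_DD (K : ℝ) (u : ℂ) : HasDerivAt (DD K) (2 + K + u + u) u := by
  unfold DD
  have h1 : HasDerivAt (fun u : ℂ => 1 + u) 1 u := (hasDerivAt_id u).const_add 1
  have h2 : HasDerivAt (fun u : ℂ => 1 + (K:ℂ) + u) 1 u := (hasDerivAt_id u).const_add _
  refine (h1.mul h2).congr_deriv ?_
  ring

lemma deriv2_G {G E : ℝ → ℂ → ℂ} {c K : ℝ} {κ ζ : ℂ} {r0 C : ℝ} (hT : TipData E ζ r0 C)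
    (hK : 0 < K) (hζ : ‖ζ‖ = 1)
    (hG : ∀ δ z, G δ z = E δ z + c * κ * bmp K δ (z / ζ)) {δ : ℝ} (hδ : 0 < δ) (hδ0 : δ < r0) {z : ℂ}
    (hzb : z ∈ ball ζ r0) (hz : (z / ζ).re ≤ 1) :
    deriv (deriv (G δ)) z = deriv (deriv (E δ)) z +
      BB c K κ ζ * (2 + K + (1 - z / ζ) / δ + (1 - z / ζ) / δ) / (δ ^ 2 * ζ * DD K ((1 - z / ζ) / δ) ^ 2) := by
  have hζ0 : ζ ≠ 0 := by rintro rfl; simp at hζ
  have hδc : (δ : ℂ) ≠ 0 := by exact_mod_cast hδ.ne'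
  have hev : deriv (G δ) =ᶠ[𝓝 z] fun w => deriv (E δ) w + BB c K κ ζ / (δ * DD K ((1 - w / ζ) / δ)) := by
    have hopen : {w : ℂ | (w / ζ).re < 1 + δ} ∈ 𝓝 z := by
      apply IsOpen.mem_nhds
      · exact isOpen_lt (by fun_prop) continuous_const
      · show (z / ζ).re < 1 + δ
        linarith
    filter_upwards [hopen, isOpen_ball.mem_nhds hzb] with w hw1 hw2
    exact (hasDerivAt_G hK hζ hG hδ ((hT.diff δ hδ hδ0).differentiableAt (isOpen_ball.mem_nhds hw2)) hw1).deriv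
  rw [hev.deriv_eq]
  have hu0 : 0 ≤ ((1 - z / ζ) / δ).re := by
    rw [Complex.div_ofReal_re]
    apply div_nonneg _ hδ.le
    simp only [Complex.sub_re, Complex.one_re]; linarith
  have hD := DD_ne hK hu0
  have h1 : HasDerivAt (fun w : ℂ => (1 - w / ζ) / (δ:ℂ)) ((0 - 1 / ζ) / δ) z :=
    ((hasDerivAt_const z (1:ℂ)).sub ((hasDerivAt_id z).div_const ζ)).div_const _
  have h2 := ((hasDerivAt_DD K ((1 - z / ζ) / δ)).comp z h1).const_mul (δ : ℂ)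
  have h3 := (hasDerivAt_const z (BB c K κ ζ)).div h2 (mul_ne_zero hδc hD)
  have hE2 : HasDerivAt (deriv (E δ)) (deriv (deriv (E δ)) z) z :=
    (((hT.diff δ hδ hδ0).deriv isOpen_ball).differentiableAt (isOpen_ball.mem_nhds hzb)).hasDerivAt
  have h4 := hE2.add h3
  have h5 : deriv (fun w => deriv (E δ) w + BB c K κ ζ / (δ * DD K ((1 - w / ζ) / δ))) z = _ := h4.deriv
  rw [h5]
  congr 1
  simp only [Function.comp]
  generalize (1 - z / ζ) / (δ:ℂ) = u at hD ⊢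
  field_simp
  ring

lemma tendsto_tipz (K σ : ℝ) (ζ : ℂ) : Tendsto (tipz K ζ σ) (𝓝[>] 0) (𝓝 ζ) := by
  have hc : Continuous (tipz K ζ σ) := by unfold tipz; fun_prop
  have := (hc.tendsto 0).mono_left (nhdsWithin_le_nhds (s := Set.Ioi 0))
  have e : tipz K ζ σ 0 = ζ := by unfold tipz; simp
  rwa [e] at this

lemma tipz_div {K σ δ : ℝ} {ζ : ℂ} (hζ : ‖ζ‖ = 1) : (1 - tipz K ζ σ δ / ζ) / δ = up K σ δ := by
  have hζ0 : ζ ≠ 0 := by rintro rfl; simp at hζ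
  unfold tipz up
  rw [mul_div_cancel_left₀ _ hζ0]

lemma tipz_div_re {K σ δ : ℝ} {ζ : ℂ} (hζ : ‖ζ‖ = 1) : (tipz K ζ σ δ / ζ).re ≤ 1 := by
  have h := Complex.re_le_norm (tipz K ζ σ δ / ζ)
  rwa [norm_div, norm_tipz hζ, hζ, div_one] at h

lemma tendsto_dG {G E : ℝ → ℂ → ℂ} {c K σ : ℝ} {κ ζ : ℂ} {r0 C : ℝ} (hT : TipData E ζ r0 C)
    (hK : 0 < K) (hζ : ‖ζ‖ = 1)
    (hG : ∀ δ z, G δ z = E δ z + c * κ * bmp K δ (z / ζ)) :
    Tendsto (fun δ : ℝ => (δ : ℂ) * deriv (G δ) (tipz K ζ σ δ)) (𝓝[>] 0)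
      (𝓝 (BB c K κ ζ / DD K (uu K σ))) := by
  have hu0 : 0 ≤ (uu K σ).re := by unfold uu; simp
  have hD := DD_ne hK hu0
  have h1 : Tendsto (fun δ : ℝ => BB c K κ ζ / DD K (up K σ δ)) (𝓝[>] 0) (𝓝 (BB c K κ ζ / DD K (uu K σ))) := by
    apply Tendsto.div tendsto_const_nhds _ hD
    exact ((hasDerivAt_DD K (uu K σ)).continuousAt.tendsto.comp (tendsto_up K σ))
  have hδ0 : Tendsto (fun δ : ℝ => (δ : ℂ)) (𝓝[>] 0) (𝓝 0) := by
    have := (Complex.continuous_ofReal.tendsto 0).mono_left (nhdsWithin_le_nhds (s := Set.Ioi (0:ℝ)))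
    simpa using this
  have hball : ∀ᶠ δ in 𝓝[>] (0:ℝ), tipz K ζ σ δ ∈ ball ζ r0 :=
    (tendsto_tipz K σ ζ).eventually (isOpen_ball.mem_nhds (mem_ball_self hT.r0pos))
  have hpos : ∀ᶠ δ in 𝓝[>] (0:ℝ), 0 < δ := eventually_mem_nhdsWithin
  have hlt : ∀ᶠ δ in 𝓝[>] (0:ℝ), δ < r0 :=
    (tendsto_id.mono_left nhdsWithin_le_nhds).eventually (gt_mem_nhds hT.r0pos)
  have h2 : Tendsto (fun δ : ℝ => (δ : ℂ) * deriv (E δ) (tipz K ζ σ δ)) (𝓝[>] 0) (𝓝 0) := by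
    apply squeeze_zero_norm' (a := fun δ : ℝ => ‖(δ : ℂ)‖ * C)
    · filter_upwards [hball, hpos, hlt] with δ h1 h2 h3
      rw [norm_mul]
      exact mul_le_mul_of_nonneg_left (hT.b1 δ h2 h3 _ h1) (norm_nonneg _)
    · have := hδ0.norm.mul_const C
      simpa using this
  have h3 := h2.add h1
  rw [zero_add] at h3
  refine h3.congr' ?_
  filter_upwards [hball, hpos, hlt] with δ h4 h5 h6
  have hδc : (δ : ℂ) ≠ 0 := by exact_mod_cast h5.ne'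
  have hre := tipz_div_re (K := K) (σ := σ) (δ := δ) hζ
  rw [(hasDerivAt_G hK hζ hG h5 ((hT.diff δ h5 h6).differentiableAt (isOpen_ball.mem_nhds h4))
    (by linarith)).deriv, tipz_div hζ]
  have hup : 0 ≤ (up K σ δ).re := by
    rw [← tipz_div (K := K) (σ := σ) (δ := δ) hζ, Complex.div_ofReal_re]
    apply div_nonneg _ h5.le
    simp only [Complex.sub_re, Complex.one_re]; linarith
  have := DD_ne hK hup
  field_simp

lemma tendsto_d2G {G E : ℝ → ℂ → ℂ} {c K σ : ℝ} {κ ζ : ℂ} {r0 C : ℝ} (hT : TipData E ζ r0 C)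
    (hK : 0 < K) (hζ : ‖ζ‖ = 1)
    (hG : ∀ δ z, G δ z = E δ z + c * κ * bmp K δ (z / ζ)) :
    Tendsto (fun δ : ℝ => (δ : ℂ) ^ 2 * deriv (deriv (G δ)) (tipz K ζ σ δ)) (𝓝[>] 0)
      (𝓝 (BB c K κ ζ * (2 + K + uu K σ + uu K σ) / (ζ * DD K (uu K σ) ^ 2))) := by
  have hu0 : 0 ≤ (uu K σ).re := by unfold uu; simp
  have hD := DD_ne hK hu0
  have hζ0 : ζ ≠ 0 := by rintro rfl; simp at hζ
  have hup' := tendsto_up K σ
  have h1 : Tendsto (fun δ : ℝ => BB c K κ ζ * (2 + K + up K σ δ + up K σ δ) / (ζ * DD K (up K σ δ) ^ 2)) (𝓝[>] 0)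
      (𝓝 (BB c K κ ζ * (2 + K + uu K σ + uu K σ) / (ζ * DD K (uu K σ) ^ 2))) := by
    apply Tendsto.div
    · exact ((hup'.const_add _).add hup').const_mul _
    · exact (((hasDerivAt_DD K (uu K σ)).continuousAt.tendsto.comp hup').pow 2).const_mul _
    · exact mul_ne_zero hζ0 (pow_ne_zero 2 hD)
  have hδ0 : Tendsto (fun δ : ℝ => (δ : ℂ)) (𝓝[>] 0) (𝓝 0) := by
    have := (Complex.continuous_ofReal.tendsto 0).mono_left (nhdsWithin_le_nhds (s := Set.Ioi (0:ℝ)))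
    simpa using this
  have hball : ∀ᶠ δ in 𝓝[>] (0:ℝ), tipz K ζ σ δ ∈ ball ζ r0 :=
    (tendsto_tipz K σ ζ).eventually (isOpen_ball.mem_nhds (mem_ball_self hT.r0pos))
  have hpos : ∀ᶠ δ in 𝓝[>] (0:ℝ), 0 < δ := eventually_mem_nhdsWithin
  have hlt : ∀ᶠ δ in 𝓝[>] (0:ℝ), δ < r0 :=
    (tendsto_id.mono_left nhdsWithin_le_nhds).eventually (gt_mem_nhds hT.r0pos)
  have h2 : Tendsto (fun δ : ℝ => (δ : ℂ) ^ 2 * deriv (deriv (E δ)) (tipz K ζ σ δ)) (𝓝[>] 0) (𝓝 0) := by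
    apply squeeze_zero_norm' (a := fun δ : ℝ => ‖(δ : ℂ) ^ 2‖ * C)
    · filter_upwards [hball, hpos, hlt] with δ h1 h2 h3
      rw [norm_mul]
      exact mul_le_mul_of_nonneg_left (hT.b2 δ h2 h3 _ h1) (norm_nonneg _)
    · have := (hδ0.pow 2).norm.mul_const C
      simpa using this
  have h3 := h2.add h1
  rw [zero_add] at h3
  refine h3.congr' ?_
  filter_upwards [hball, hpos, hlt] with δ h4 h5 h6
  have hδc : (δ : ℂ) ≠ 0 := by exact_mod_cast h5.ne'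
  have hre := tipz_div_re (K := K) (σ := σ) (δ := δ) hζ
  rw [deriv2_G hT hK hζ hG h5 h6 h4 hre, tipz_div hζ]
  have hup : 0 ≤ (up K σ δ).re := by
    rw [← tipz_div (K := K) (σ := σ) (δ := δ) hζ, Complex.div_ofReal_re]
    apply div_nonneg _ h5.le
    simp only [Complex.sub_re, Complex.one_re]; linarith
  have := DD_ne hK hup
  field_simp

lemma tip_dne {G E : ℝ → ℂ → ℂ} {c K σ : ℝ} {κ ζ : ℂ} {r0 C : ℝ} (hT : TipData E ζ r0 C)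
    (hc : 0 < c) (hK : 0 < K) (hζ : ‖ζ‖ = 1) (hκ : ‖κ‖ = 1)
    (hG : ∀ δ z, G δ z = E δ z + c * κ * bmp K δ (z / ζ)) :
    ∀ᶠ δ in 𝓝[>] (0:ℝ), deriv (G δ) (tipz K ζ σ δ) ≠ 0 := by
  have hu0 : 0 ≤ (uu K σ).re := by unfold uu; simp
  have hD := DD_ne hK hu0
  have h1 := tendsto_dG (σ := σ) hT hK hζ hG
  have h2 : BB c K κ ζ / DD K (uu K σ) ≠ 0 := div_ne_zero (BB_ne hc hK hκ hζ) hD
  filter_upwards [h1.eventually_ne h2] with δ h3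
  exact right_ne_zero_of_mul h3

lemma tip_conv {G E : ℝ → ℂ → ℂ} {c K σ : ℝ} {κ ζ : ℂ} {r0 C : ℝ} (hT : TipData E ζ r0 C)
    (hc : 0 < c) (hK : 0 < K) (hσ : σ = 1 ∨ σ = -1) (hζ : ‖ζ‖ = 1) (hκ : ‖κ‖ = 1)
    (hG : ∀ δ z, G δ z = E δ z + c * κ * bmp K δ (z / ζ)) :
    ∀ᶠ δ in 𝓝[>] (0:ℝ), 0 ≤ (tipz K ζ σ δ * deriv (deriv (G δ)) (tipz K ζ σ δ) /
      deriv (G δ) (tipz K ζ σ δ)).re := by
  have hu0 : 0 ≤ (uu K σ).re := by unfold uu; simp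
  have hD := DD_ne hK hu0
  have hB := BB_ne hc hK hκ hζ
  have hζ0 : ζ ≠ 0 := by rintro rfl; simp at hζ
  have h1 := tendsto_dG (σ := σ) hT hK hζ hG
  have h2 := tendsto_d2G (σ := σ) hT hK hζ hG
  have h3 : BB c K κ ζ / DD K (uu K σ) ≠ 0 := div_ne_zero hB hD
  have h4 := ((tendsto_tipz K σ ζ).mul h2).div h1 h3
  have e : ζ * (BB c K κ ζ * (2 + K + uu K σ + uu K σ) / (ζ * DD K (uu K σ) ^ 2)) / (BB c K κ ζ / DD K (uu K σ))
      = (2 + K + uu K σ + uu K σ) / DD K (uu K σ) := by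
    field_simp
  rw [e] at h4
  have h5 := (Complex.continuous_re.tendsto _).comp h4
  rw [om_re hK hσ] at h5
  have h6 : (0:ℝ) < 2 / (2 + K) := by positivity
  have hpos : ∀ᶠ δ in 𝓝[>] (0:ℝ), 0 < δ := eventually_mem_nhdsWithin
  filter_upwards [h5.eventually (lt_mem_nhds h6), hpos, tip_dne (σ := σ) hT hc hK hζ hκ hG] with δ h7 h8 h9
  have hδc : (δ : ℂ) ≠ 0 := by exact_mod_cast h8.ne'
  simp only [Function.comp, Pi.div_apply] at h7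
  have e2 : tipz K ζ σ δ * deriv (deriv (G δ)) (tipz K ζ σ δ) / deriv (G δ) (tipz K ζ σ δ)
      = ((1 / δ : ℝ) : ℂ) * (tipz K ζ σ δ * ((δ : ℂ) ^ 2 * deriv (deriv (G δ)) (tipz K ζ σ δ)) /
        ((δ : ℂ) * deriv (G δ) (tipz K ζ σ δ))) := by
    push_cast
    field_simp
  rw [e2, Complex.re_ofReal_mul]
  have : 0 < 1 / δ := by positivity
  positivity

lemma kap_scale {f : ℂ → ℂ} {z : ℂ} {δ : ℝ} (hδ : 0 < δ) :
    kap f z = z * ((δ:ℂ) * deriv f z) / ((‖(δ:ℂ) * deriv f z‖ : ℝ) : ℂ) := by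
  unfold kap
  rw [norm_mul, Complex.norm_real, Real.norm_eq_abs, abs_of_pos hδ]
  have hδc : (δ : ℂ) ≠ 0 := by exact_mod_cast hδ.ne'
  push_cast
  rw [show z * (↑δ * deriv f z) = (δ:ℂ) * (z * deriv f z) by ring, mul_div_mul_left _ _ hδc]

lemma tendsto_kap {G E : ℝ → ℂ → ℂ} {c K σ : ℝ} {κ ζ : ℂ} {r0 C : ℝ} (hT : TipData E ζ r0 C)
    (hc : 0 < c) (hK : 0 < K) (hσ : σ = 1 ∨ σ = -1) (hζ : ‖ζ‖ = 1) (hκ : ‖κ‖ = 1)
    (hG : ∀ δ z, G δ z = E δ z + c * κ * bmp K δ (z / ζ)) :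
    Tendsto (fun δ : ℝ => kap (G δ) (tipz K ζ σ δ)) (𝓝[>] 0) (𝓝 (-(σ * I) * κ)) := by
  have hu0 : 0 ≤ (uu K σ).re := by unfold uu; simp
  have hD := DD_ne hK hu0
  have hB := BB_ne hc hK hκ hζ
  have hζ0 : ζ ≠ 0 := by rintro rfl; simp at hζ
  have h1 := tendsto_dG (σ := σ) hT hK hζ hG
  have h3 : BB c K κ ζ / DD K (uu K σ) ≠ 0 := div_ne_zero hB hD
  have h4 := ((tendsto_tipz K σ ζ).mul h1).div (Complex.continuous_ofReal.tendsto _ |>.comp h1.norm)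
    (by simpa using h3)
  have hL := logK_pos hK
  have hY := YK_pos hK
  have e1 : ζ * (BB c K κ ζ / DD K (uu K σ)) = ((c * (K / Real.log (1 + K)) / (YK K * (2 + K)) : ℝ) : ℂ) * (-(σ * I) * κ) := by
    rw [DD_uu hK hσ]
    unfold BB uu
    have hσ2 : (σ : ℂ) ^ 2 = 1 := by rcases hσ with rfl | rfl <;> norm_num
    have hσ0 : (σ : ℂ) ≠ 0 := by rcases hσ with rfl | rfl <;> norm_num
    have hLc : ((Real.log (1 + K) : ℝ) : ℂ) ≠ 0 := by exact_mod_cast hL.ne'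
    have hYc : (YK K : ℂ) ≠ 0 := by exact_mod_cast hY.ne'
    have hK2 : (2 + (K : ℂ)) ≠ 0 := by
      have : (2 + (K : ℂ)) = ((2 + K : ℝ) : ℂ) := by push_cast; ring
      rw [this]; exact_mod_cast (by linarith : (2 + K) ≠ 0)
    have hI := Complex.I_ne_zero
    have hI2 : I ^ 2 = -1 := Complex.I_sq
    push_cast
    field_simp
    linear_combination (c * κ * K * (σ:ℂ) ^ 2) * hI2 - (c * κ * K) * hσ2
  have e2 : ‖BB c K κ ζ / DD K (uu K σ)‖ = c * (K / Real.log (1 + K)) / (YK K * (2 + K)) := by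
    have := congrArg norm e1
    rw [norm_mul, hζ, one_mul, norm_mul, norm_mul, hκ, Complex.norm_real, Real.norm_eq_abs] at this
    have hs : ‖-((σ:ℂ) * I)‖ = 1 := by
      rw [norm_neg, norm_mul, Complex.norm_I, Complex.norm_real]
      rcases hσ with rfl | rfl <;> norm_num
    rw [hs, mul_one, mul_one, abs_of_pos (by positivity)] at this
    exact this
  have e3 : ζ * (BB c K κ ζ / DD K (uu K σ)) / ((‖BB c K κ ζ / DD K (uu K σ)‖ : ℝ) : ℂ) = -(σ * I) * κ := by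
    rw [e1, e2]
    have : ((c * (K / Real.log (1 + K)) / (YK K * (2 + K)) : ℝ) : ℂ) ≠ 0 := by
      have : 0 < c * (K / Real.log (1 + K)) / (YK K * (2 + K)) := by positivity
      exact_mod_cast this.ne'
    exact mul_div_cancel_left₀ _ this
  rw [e3] at h4
  refine h4.congr' ?_
  have hpos : ∀ᶠ δ in 𝓝[>] (0:ℝ), 0 < δ := eventually_mem_nhdsWithin
  filter_upwards [hpos] with δ hδ
  rw [kap_scale hδ]
  rfl

end
end Pool.Agent.Helper140.OW
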