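import Pool.Agent.Helper140.OW8

set_option autoImplicit false
open Complex Filter Topology Set Metric

namespace Pool.Agent.Helper140.OW

noncomputable section

set_option linter.unusedSectionVars false
variable {ι : Type} [Fintype ι] [DecidableEq ι]

/-- a box with base point `p`, direction `κ`, length `a`, half width `b` -/
def Bx (p κ : ℂ) (a b : ℝ) : Set ℂ :=
  {w | 0 ≤ (starRingEnd ℂ κ * (w - p)).re ∧ (starRingEnd ℂ κ * (w - p)).re ≤ a ∧
    |(starRingEnd ℂ κ * (w - p)).im| ≤ b}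

lemma Bx_norm {p κ w : ℂ} {a b : ℝ} (hκ : ‖κ‖ = 1) (hw : w ∈ Bx p κ a b) : ‖w - p‖ ≤ a + b := by
  obtain ⟨h1, h2, h3⟩ := hw
  have e : ‖w - p‖ = ‖starRingEnd ℂ κ * (w - p)‖ := by
    rw [norm_mul, Complex.norm_conj, hκ, one_mul]
  rw [e]
  have := Complex.norm_le_abs_re_add_abs_im (starRingEnd ℂ κ * (w - p))
  rw [abs_of_nonneg h1] at this
  linarith

lemma base_mem_Bx {p κ : ℂ} {a b : ℝ} (ha : 0 ≤ a) (hb : 0 ≤ b) : p ∈ Bx p κ a b := by
  refine ⟨?_, ?_, ?_⟩ <;> simp [ha, hb]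

structure Good (F : ℂ → ℂ) (ζ : ι → ℂ) (R a b : ℝ) : Prop where
  hR : 1 < R
  an : DifferentiableOn ℂ F (ball 0 R)
  inj : InjOn F (closedBall 0 1)
  dne : ∀ z ∈ closedBall (0:ℂ) 1, deriv F z ≠ 0
  unit : ∀ q, ‖ζ q‖ = 1
  conv : ∀ q, 0 ≤ (ζ q * deriv (deriv F) (ζ q) / deriv F (ζ q)).re
  touch : ∀ z ∈ closedBall (0:ℂ) 1, ∀ q, F z ∈ Bx (F (ζ q)) (kap F (ζ q)) a b → z = ζ q
  disj : ∀ q q', q ≠ q' → Disjoint (Bx (F (ζ q)) (kap F (ζ q)) a b) (Bx (F (ζ q')) (kap F (ζ q')) a b)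

variable {F : ℂ → ℂ} {ζ : ι → ℂ} {R c K a b : ℝ}

lemma Good.mem (h : Good F ζ R a b) (q : ι) : ζ q ∈ closedBall (0:ℂ) 1 := by
  rw [mem_closedBall_zero_iff, h.unit q]

lemma Good.kap1 (h : Good F ζ R a b) (q : ι) : ‖kap F (ζ q)‖ = 1 :=
  norm_kap (h.unit q) (h.dne _ (h.mem q))

lemma chi_cigar {κ : ℂ} (hκ : ‖κ‖ = 1) (p ψ : ℂ) (c : ℝ) :
    starRingEnd ℂ κ * (p + c * κ * ψ - p) = c * ψ := by
  have := conj_mul_self_of_unit hκ
  linear_combination (c * ψ) * this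

lemma cigar_mem_Bx {κ p : ℂ} (hκ : ‖κ‖ = 1) (hK : 0 < K) (hc : 0 < c) (hca : c ≤ a) (hcb : c * wK K ≤ b)
    {s : ℂ} (hs : s ∈ closedBall (1/2 : ℂ) (1/2)) : p + c * κ * psi K s ∈ Bx p κ a b := by
  have e := chi_cigar hκ p (psi K s) c
  unfold Bx
  rw [mem_ofPred_eq, e, Complex.re_ofReal_mul, Complex.im_ofReal_mul]
  have h1 := psi_re_nonneg hK hs
  have h2 := psi_re_le hK hs
  have h3 := psi_im_abs hK hs
  refine ⟨by positivity, by nlinarith, ?_⟩
  rw [abs_mul, abs_of_pos hc]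
  nlinarith

lemma Good.zinj (h : Good F ζ R a b) (ha : 0 ≤ a) (hb : 0 ≤ b) : Function.Injective ζ := by
  intro q q' hqq
  by_contra hne
  have hd := h.disj q q' hne
  rw [Set.disjoint_left] at hd
  have h1 := base_mem_Bx (p := F (ζ q)) (κ := kap F (ζ q)) ha hb
  exact hd h1 (by rw [← hqq]; exact h1)

lemma Good.conf (h : Good F ζ R a b) (hK : 0 < K) (hc : 0 < c) (hca : c ≤ a) (hcb : c * wK K ≤ b) :
    Conf F ζ R c K where
  hR := h.hR
  an := h.an
  inj := h.inj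
  dne := h.dne
  unit := h.unit
  conv := h.conv
  zinj := h.zinj (by linarith) (le_trans (by have := wK_pos hK; positivity) hcb)
  hc := hc
  hK := hK
  cig1 := by
    intro z hz q s hs he
    apply h.touch z hz q
    rw [he]
    exact cigar_mem_Bx (h.kap1 q) hK hc hca hcb hs
  cig2 := by
    intro q q' s hs s' hs' he
    by_contra hne
    have hd := h.disj q q' hne
    rw [Set.disjoint_left] at hd
    have h1 := cigar_mem_Bx (p := F (ζ q)) (h.kap1 q) hK hc hca hcb hs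
    have h2 := cigar_mem_Bx (p := F (ζ q')) (h.kap1 q') hK hc hca hcb hs'
    exact hd h1 (by rw [he]; exact h2)

def sg (t : Bool) : ℝ := if t then 1 else -1

lemma sg_or (t : Bool) : sg t = 1 ∨ sg t = -1 := by
  cases t <;> simp [sg]

lemma sg_neg {t t' : Bool} (h : t ≠ t') : sg t' = - sg t := by
  revert h
  cases t <;> cases t' <;> simp [sg]

lemma chi_child {κ p w : ℂ} (hκ : ‖κ‖ = 1) {c σ wk : ℝ} (hσ : σ = 1 ∨ σ = -1) :
    starRingEnd ℂ (-(σ * I) * κ) * (w - (p + c * κ * (1 / 2 - (σ * wk : ℝ) * I)))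
      = I * σ * (starRingEnd ℂ κ * (w - p)) - I * σ * c / 2 - c * wk := by
  have h1 := conj_mul_self_of_unit hκ
  have hσ2 : (σ : ℂ) ^ 2 = 1 := by rcases hσ with rfl | rfl <;> norm_num
  have hI : I ^ 2 = -1 := Complex.I_sq
  rw [map_mul, map_neg, map_mul, Complex.conj_ofReal, Complex.conj_I]
  push_cast
  linear_combination (-(I * σ * c / 2) + (I ^ 2) * σ ^ 2 * wk * c) * h1 + (σ ^ 2 * wk * c) * hI - (wk * c) * hσ2

lemma chi_child_re {κ p w : ℂ} (hκ : ‖κ‖ = 1) {c σ wk : ℝ} (hσ : σ = 1 ∨ σ = -1) :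
    (starRingEnd ℂ (-(σ * I) * κ) * (w - (p + c * κ * (1 / 2 - (σ * wk : ℝ) * I)))).re
      = - (σ * (starRingEnd ℂ κ * (w - p)).im) - c * wk := by
  rw [chi_child hκ hσ]
  set X := starRingEnd ℂ κ * (w - p)
  have e : I * σ * X - I * σ * c / 2 - c * wk = I * ((σ : ℝ) * X) - I * ((σ * c / 2 : ℝ) : ℂ) - ((c * wk : ℝ) : ℂ) := by
    push_cast; ring
  rw [e]
  simp

lemma chi_child_im {κ p w : ℂ} (hκ : ‖κ‖ = 1) {c σ wk : ℝ} (hσ : σ = 1 ∨ σ = -1) :
    (starRingEnd ℂ (-(σ * I) * κ) * (w - (p + c * κ * (1 / 2 - (σ * wk : ℝ) * I)))).im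
      = σ * ((starRingEnd ℂ κ * (w - p)).re - c / 2) := by
  rw [chi_child hκ hσ]
  set X := starRingEnd ℂ κ * (w - p)
  have e : I * σ * X - I * σ * c / 2 - c * wk = I * ((σ : ℝ) * X) - I * ((σ * c / 2 : ℝ) : ℂ) - ((c * wk : ℝ) : ℂ) := by
    push_cast; ring
  rw [e]
  simp
  ring

lemma tipz_mem {ζ1 : ℂ} (hζ : ‖ζ1‖ = 1) (σ δ : ℝ) : tipz K ζ1 σ δ ∈ closedBall (0:ℂ) 1 := by
  rw [mem_closedBall_zero_iff, norm_tipz hζ]

/-- coordinates of points of child boxes -/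
lemma child_coord (h : Conf F ζ R c K) (q : ι) {σ : ℝ} (hσ : σ = 1 ∨ σ = -1) {a' b' : ℝ}
    {e : ℝ} (he : 0 < e) :
    ∀ᶠ δ in 𝓝[>] (0:ℝ), ∀ w ∈ Bx (GG F ζ c K δ (tipz K (ζ q) σ δ)) (kap (GG F ζ c K δ) (tipz K (ζ q) σ δ)) a' b',
      -e ≤ - (σ * (starRingEnd ℂ (kap F (ζ q)) * (w - F (ζ q))).im) - c * wK K ∧
      - (σ * (starRingEnd ℂ (kap F (ζ q)) * (w - F (ζ q))).im) - c * wK K ≤ a' + e ∧
      |(starRingEnd ℂ (kap F (ζ q)) * (w - F (ζ q))).re - c / 2| ≤ b' + e := by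
  obtain ⟨r0, C, hT⟩ := h.tipData q
  have hk := tendsto_kap (σ := σ) hT h.hc h.hK hσ (h.unit q) (h.kap1 q) (G := GG F ζ c K) (GG_eq2 q)
  have hp := tendsto_pos h q hσ
  set P := F (ζ q) + c * kap F (ζ q) * (1 / 2 - (σ * wK K : ℝ) * I) with hP
  set κs := -(σ * I) * kap F (ζ q) with hκs
  have h1 : Tendsto (fun δ => ‖kap (GG F ζ c K δ) (tipz K (ζ q) σ δ) - κs‖ * (a' + b') +
      ‖GG F ζ c K δ (tipz K (ζ q) σ δ) - P‖) (𝓝[>] 0) (𝓝 0) := by
    have h2 := (tendsto_iff_norm_sub_tendsto_zero.1 hk).mul_const (a' + b')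
    have h3 := tendsto_iff_norm_sub_tendsto_zero.1 hp
    simpa using h2.add h3
  filter_upwards [h1.eventually (gt_mem_nhds he), dne_eventually h] with δ h2 hd w hw
  have hκ1 : ‖kap (GG F ζ c K δ) (tipz K (ζ q) σ δ)‖ = 1 :=
    norm_kap (norm_tipz (h.unit q) _ _) (hd _ (tipz_mem (h.unit q) _ _))
  have hwn := Bx_norm hκ1 hw
  obtain ⟨w1, w2, w3⟩ := hw
  set κ' := kap (GG F ζ c K δ) (tipz K (ζ q) σ δ)
  set p' := GG F ζ c K δ (tipz K (ζ q) σ δ)
  have hκsn : ‖κs‖ = 1 := by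
    rw [hκs, norm_mul, h.kap1 q, norm_neg, norm_mul, Complex.norm_I, Complex.norm_real]
    rcases hσ with rfl | rfl <;> norm_num
  have hdiff : ‖starRingEnd ℂ κs * (w - P) - starRingEnd ℂ κ' * (w - p')‖ ≤ e := by
    have e1 : starRingEnd ℂ κs * (w - P) - starRingEnd ℂ κ' * (w - p')
        = -(starRingEnd ℂ (κ' - κs) * (w - p')) + starRingEnd ℂ κs * (p' - P) := by
      rw [map_sub]; ring
    rw [e1]
    calc _ ≤ ‖-(starRingEnd ℂ (κ' - κs) * (w - p'))‖ + ‖starRingEnd ℂ κs * (p' - P)‖ := norm_add_le _ _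
      _ = ‖κ' - κs‖ * ‖w - p'‖ + ‖p' - P‖ := by
          rw [norm_neg, norm_mul, norm_mul, Complex.norm_conj, Complex.norm_conj, hκsn, one_mul]
      _ ≤ ‖κ' - κs‖ * (a' + b') + ‖p' - P‖ := by
          have := mul_le_mul_of_nonneg_left hwn (norm_nonneg (κ' - κs))
          linarith
      _ ≤ e := h2.le
  have hre := (Complex.abs_re_le_norm _).trans hdiff
  have him := (Complex.abs_im_le_norm _).trans hdiff
  rw [Complex.sub_re] at hre
  rw [Complex.sub_im] at him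
  rw [hκs, hP, chi_child_re (h.kap1 q) hσ] at hre
  rw [hκs, hP, chi_child_im (h.kap1 q) hσ] at him
  set X := starRingEnd ℂ (kap F (ζ q)) * (w - F (ζ q))
  rw [abs_le] at hre him
  refine ⟨by linarith, by linarith, ?_⟩
  have hab : |σ * (X.re - c / 2)| ≤ b' + e := by
    rw [abs_le] at w3 ⊢
    constructor <;> linarith
  rw [abs_mul] at hab
  have : |σ| = 1 := by rcases hσ with rfl | rfl <;> norm_num
  rw [this, one_mul] at hab
  exact hab

lemma uu_of_sS : (sS K c)⁻¹ - 1 = uu K c := by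
  rw [sS_inv]; unfold uu; ring

/-- the touching condition -/
lemma touch_eventually (hg : Good F ζ R a b) (hK : 0 < K) (hc : 0 < c) (hca : c ≤ a) {a' b' : ℝ}
    (ha' : 0 < a') (hb' : 0 < b') (hb'c : b' < c / 2) (hcb : c * wK K + a' < b)
    (q : ι) {σ : ℝ} (hσ : σ = 1 ∨ σ = -1) :
    ∀ᶠ δ in 𝓝[>] (0:ℝ), ∀ z ∈ closedBall (0:ℂ) 1, GG F ζ c K δ z ∈
      Bx (GG F ζ c K δ (tipz K (ζ q) σ δ)) (kap (GG F ζ c K δ) (tipz K (ζ q) σ δ)) a' b' → z = tipz K (ζ q) σ δ := by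
  have h : Conf F ζ R c K := hg.conf hK hc hca (by linarith)
  have hw0 := wK_pos hK
  by_contra hcon
  rw [Filter.not_eventually] at hcon
  have hpos : ∀ᶠ δ in 𝓝[>] (0:ℝ), 0 < δ := eventually_mem_nhdsWithin
  obtain ⟨δ, hδl, hδ⟩ := Filter.exists_seq_forall_of_frequently (hcon.and_eventually hpos)
  have hδ0 : Tendsto δ atTop (𝓝 0) := hδl.mono_right nhdsWithin_le_nhds
  have hδp : ∀ n, 0 < δ n := fun n => (hδ n).2
  have hbad : ∀ n, ∃ p : ℂ, p ∈ closedBall (0:ℂ) 1 ∧ GG F ζ c K (δ n) p ∈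
      Bx (GG F ζ c K (δ n) (tipz K (ζ q) σ (δ n))) (kap (GG F ζ c K (δ n)) (tipz K (ζ q) σ (δ n))) a' b' ∧
      p ≠ tipz K (ζ q) σ (δ n) := by
    intro n
    have h1 := (hδ n).1
    push Not at h1
    exact h1
  choose p hp1 hp2 hp3 using hbad
  obtain ⟨x, hxm, φ, hφ, hφp⟩ := (isCompact_closedBall (0:ℂ) 1).tendsto_subseq (x := p) hp1
  have hd1 : Tendsto (fun n => δ (φ n)) atTop (𝓝 0) := hδ0.comp hφ.tendsto_atTop
  obtain ⟨ψ, hψ, w, hw, hwc⟩ := lim_val h (δ := fun n => δ (φ n)) (fun n => hδp _) hd1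
    (x := fun n => p (φ n)) (fun n => hp1 _) hφp
  have hdl : Tendsto (fun n => δ (φ (ψ n))) atTop (𝓝[>] 0) :=
    hδl.comp (hφ.tendsto_atTop.comp hψ.tendsto_atTop)
  set X := starRingEnd ℂ (kap F (ζ q)) * (w - F (ζ q)) with hX
  set Xn : ℕ → ℂ := fun n => starRingEnd ℂ (kap F (ζ q)) * (GG F ζ c K (δ (φ (ψ n))) (p (φ (ψ n))) - F (ζ q)) with hXn
  have hXt : Tendsto Xn atTop (𝓝 X) := (hw.sub_const _).const_mul _
  have hre : Tendsto (fun n => (Xn n).re) atTop (𝓝 X.re) := (Complex.continuous_re.tendsto _).comp hXt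
  have him : Tendsto (fun n => (Xn n).im) atTop (𝓝 X.im) := (Complex.continuous_im.tendsto _).comp hXt
  have him2 : Tendsto (fun n => - (σ * (Xn n).im) - c * wK K) atTop (𝓝 (- (σ * X.im) - c * wK K)) :=
    ((him.const_mul σ).neg).sub_const _
  have hre2 : Tendsto (fun n => |(Xn n).re - c / 2|) atTop (𝓝 |X.re - c / 2|) := (hre.sub_const _).abs
  have hco : ∀ e > 0, ∀ᶠ n in atTop, -e ≤ - (σ * (Xn n).im) - c * wK K ∧
      - (σ * (Xn n).im) - c * wK K ≤ a' + e ∧ |(Xn n).re - c / 2| ≤ b' + e := by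
    intro e he
    filter_upwards [hdl.eventually (child_coord h q hσ he)] with n hn
    exact hn _ (hp2 _)
  have k1 : 0 ≤ - (σ * X.im) - c * wK K := by
    by_contra hneg
    push Not at hneg
    set e := -(- (σ * X.im) - c * wK K) / 2 with he
    have hep : 0 < e := by rw [he]; linarith
    have := ge_of_tendsto him2 ((hco e hep).mono fun n hn => hn.1)
    linarith
  have k2 : - (σ * X.im) - c * wK K ≤ a' := by
    apply le_of_forall_pos_le_add
    intro e he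
    exact le_of_tendsto him2 ((hco e he).mono fun n hn => hn.2.1)
  have k3 : |X.re - c / 2| ≤ b' := by
    apply le_of_forall_pos_le_add
    intro e he
    exact le_of_tendsto hre2 ((hco e he).mono fun n hn => hn.2.2)
  have hwB : w ∈ Bx (F (ζ q)) (kap F (ζ q)) a b := by
    unfold Bx
    rw [mem_ofPred_eq, ← hX]
    rw [abs_le] at k3 ⊢
    have : 0 < c * wK K := by positivity
    refine ⟨by linarith, by linarith, ?_⟩
    rcases hσ with rfl | rfl
    · constructor <;> linarith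
    · constructor <;> linarith
  rcases hwc with ⟨hn, hv⟩ | ⟨q', s, hs, hq', hv, hst⟩
  · rw [hv] at hwB
    exact hn q (hg.touch x hxm q hwB).symm
  · have hqq : q' = q := by
      by_contra hne
      have hd := hg.disj q' q hne
      rw [Set.disjoint_left] at hd
      apply hd _ hwB
      rw [hv]
      exact cigar_mem_Bx (hg.kap1 q') hK hc hca (by linarith) hs
    subst hqq
    have hX2 : X = c * psi K s := by rw [hX, hv]; exact chi_cigar (hg.kap1 q') _ _ _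
    have hs2 : s = sS K σ := by
      apply psi_im_side_eq hK hσ hs
      rw [hX2, Complex.im_ofReal_mul] at k1
      have : c * (σ * (psi K s).im) ≤ c * (-wK K) := by linarith
      exact le_of_mul_le_mul_left this hc
    subst hs2
    -- rescaled coordinates
    have hsne : sS K σ ≠ 0 := by
      unfold sS
      exact div_ne_zero one_ne_zero one_add_sigma_ne
    have hu : Tendsto (fun n => (1 - p (φ (ψ n)) / ζ q') / (δ (φ (ψ n)) : ℂ)) atTop (𝓝 (uu K σ)) := by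
      have h1 := (hst.inv₀ hsne).sub_const 1
      rw [uu_of_sS] at h1
      refine h1.congr ?_
      intro n
      have hδc : (δ (φ (ψ n)) : ℂ) ≠ 0 := by exact_mod_cast (hδp _).ne'
      rw [inv_div]
      push_cast
      field_simp
      ring
    obtain ⟨r0, C, hT⟩ := h.tipData q'
    obtain ⟨ρ, hρ, hloc⟩ := tip_local (σ := σ) hT hc hK hσ (hg.unit q') (hg.kap1 q') (G := GG F ζ c K) (GG_eq2 q')
    have e1 : ∀ᶠ n in atTop, ‖(1 - p (φ (ψ n)) / ζ q') / (δ (φ (ψ n)) : ℂ) - uu K σ‖ < ρ := by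
      have := tendsto_iff_norm_sub_tendsto_zero.1 hu
      exact this.eventually (gt_mem_nhds hρ)
    have e2 := hdl.eventually hloc
    obtain ⟨n, h1, h2⟩ := (e1.and e2).exists
    have h3 := h2 _ (by simpa using hp1 (φ (ψ n))) h1 (hp3 _)
    have h4 := (hp2 (φ (ψ n))).1
    linarith

/-- tips of the next generation -/
def nt (ζ : ι → ℂ) (K δ : ℝ) (p : ι × Bool) : ℂ := tipz K (ζ p.1) (sg p.2) δ

theorem step_geom (hg : Good F ζ R a b) (hK : 0 < K) (hc : 0 < c) (hca : c ≤ a) {a' b' : ℝ}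
    (ha' : 0 < a') (hb' : 0 < b') (hb'c : b' < c / 2) (hcb : c * wK K + a' < b) :
    ∀ᶠ δ in 𝓝[>] (0:ℝ), ∃ R', Good (GG F ζ c K δ) (nt ζ K δ) R' a' b' := by
  have h : Conf F ζ R c K := hg.conf hK hc hca (by linarith)
  have hw0 := wK_pos hK
  have hcw : 0 < c * wK K := by positivity
  set e := min (min (b - a' - c * wK K) (c / 2 - b')) (c * wK K) / 2 with he
  have hep : 0 < e := by
    rw [he]
    apply half_pos
    apply lt_min (lt_min _ _) hcw <;> linarith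
  have he1 : e < b - a' - c * wK K := by
    have : min (min (b - a' - c * wK K) (c / 2 - b')) (c * wK K) ≤ b - a' - c * wK K :=
      (min_le_left _ _).trans (min_le_left _ _)
    linarith
  have he2 : e < c / 2 - b' := by
    have : min (min (b - a' - c * wK K) (c / 2 - b')) (c * wK K) ≤ c / 2 - b' :=
      (min_le_left _ _).trans (min_le_right _ _)
    linarith
  have he3 : e < c * wK K := by
    have : min (min (b - a' - c * wK K) (c / 2 - b')) (c * wK K) ≤ c * wK K := min_le_right _ _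
    linarith
  have E1 : ∀ᶠ δ in 𝓝[>] (0:ℝ), ∀ p : ι × Bool, ∀ w ∈ Bx (GG F ζ c K δ (nt ζ K δ p)) (kap (GG F ζ c K δ) (nt ζ K δ p)) a' b',
      -e ≤ - (sg p.2 * (starRingEnd ℂ (kap F (ζ p.1)) * (w - F (ζ p.1))).im) - c * wK K ∧
      - (sg p.2 * (starRingEnd ℂ (kap F (ζ p.1)) * (w - F (ζ p.1))).im) - c * wK K ≤ a' + e ∧
      |(starRingEnd ℂ (kap F (ζ p.1)) * (w - F (ζ p.1))).re - c / 2| ≤ b' + e := by
    rw [Filter.eventually_all]
    intro p
    exact child_coord h p.1 (sg_or p.2) hep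
  have E2 : ∀ᶠ δ in 𝓝[>] (0:ℝ), ∀ p : ι × Bool, ∀ z ∈ closedBall (0:ℂ) 1, GG F ζ c K δ z ∈
      Bx (GG F ζ c K δ (nt ζ K δ p)) (kap (GG F ζ c K δ) (nt ζ K δ p)) a' b' → z = nt ζ K δ p := by
    rw [Filter.eventually_all]
    intro p
    exact touch_eventually hg hK hc hca ha' hb' hb'c hcb p.1 (sg_or p.2)
  have E3 : ∀ᶠ δ in 𝓝[>] (0:ℝ), ∀ p : ι × Bool, 0 ≤ (nt ζ K δ p * deriv (deriv (GG F ζ c K δ)) (nt ζ K δ p) /
      deriv (GG F ζ c K δ) (nt ζ K δ p)).re := by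
    rw [Filter.eventually_all]
    intro p
    obtain ⟨r0, C, hT⟩ := h.tipData p.1
    exact tip_conv hT h.hc h.hK (sg_or p.2) (h.unit p.1) (h.kap1 p.1) (G := GG F ζ c K) (GG_eq2 p.1)
  have hpos : ∀ᶠ δ in 𝓝[>] (0:ℝ), 0 < δ := eventually_mem_nhdsWithin
  filter_upwards [E1, E2, E3, inj_eventually h, dne_eventually h, hpos] with δ h1 h2 h3 h4 h5 h6
  have hpar : ∀ p : ι × Bool, ∀ w ∈ Bx (GG F ζ c K δ (nt ζ K δ p)) (kap (GG F ζ c K δ) (nt ζ K δ p)) a' b',
      w ∈ Bx (F (ζ p.1)) (kap F (ζ p.1)) a b := by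
    intro p w hw
    obtain ⟨w1, w2, w3⟩ := h1 p w hw
    unfold Bx
    rw [mem_ofPred_eq]
    rw [abs_le] at w3 ⊢
    refine ⟨by linarith, by linarith, ?_⟩
    rcases sg_or p.2 with hs | hs <;> rw [hs] at w1 w2 <;> constructor <;> linarith
  refine ⟨min R (1 + δ), ?_, ?_, h4, h5, ?_, h3, fun z hz p => h2 p z hz, ?_⟩
  · exact lt_min h.hR (by linarith)
  · unfold GG
    apply DifferentiableOn.add
    · exact h.an.mono (ball_subset_ball (min_le_left _ _))
    · apply DifferentiableOn.fun_sum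
      intro q _
      apply DifferentiableOn.const_mul
      intro z hz
      apply DifferentiableAt.differentiableWithinAt
      have hz2 : (z / ζ q).re < 1 + δ := by
        have h7 := Complex.re_le_norm (z / ζ q)
        rw [norm_div, h.unit q, div_one] at h7
        rw [mem_ball_zero_iff] at hz
        have := lt_of_lt_of_le hz (min_le_right _ _)
        linarith
      have h8 := (hasDerivAt_bmp hK h6 hz2).comp z ((hasDerivAt_id z).div_const (ζ q))
      exact h8.differentiableAt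
  · intro p
    exact norm_tipz (h.unit p.1) _ _
  · intro p p' hne
    rw [Set.disjoint_left]
    intro w hw hw'
    by_cases hq : p.1 = p'.1
    · have hb : p.2 ≠ p'.2 := fun hb => hne (Prod.ext hq hb)
      obtain ⟨w1, -, -⟩ := h1 p w hw
      obtain ⟨w1', -, -⟩ := h1 p' w hw'
      rw [← hq] at w1'
      rw [sg_neg hb] at w1'
      linarith
    · have hd := hg.disj p.1 p'.1 hq
      rw [Set.disjoint_left] at hd
      exact hd (hpar p w hw) (hpar p' w hw')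

lemma kap_eventually (h : Conf F ζ R c K) {ε : ℝ} (hε : 0 < ε) :
    ∀ᶠ δ in 𝓝[>] (0:ℝ), ∀ p : ι × Bool,
      ‖kap (GG F ζ c K δ) (nt ζ K δ p) - (-(sg p.2 * I) * kap F (ζ p.1))‖ < ε := by
  rw [Filter.eventually_all]
  intro p
  obtain ⟨r0, C, hT⟩ := h.tipData p.1
  have hk := tendsto_kap (σ := sg p.2) hT h.hc h.hK (sg_or p.2) (h.unit p.1) (h.kap1 p.1) (G := GG F ζ c K) (GG_eq2 p.1)
  exact (tendsto_iff_norm_sub_tendsto_zero.1 hk).eventually (gt_mem_nhds hε)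

end
end Pool.Agent.Helper140.OW
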