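import Mathlib

section
open Polynomial Finset
open scoped ComplexConjugate

namespace Pool.Agent.Helper140.SelfInv.A

noncomputable def NN (m : ℕ) (f : ℂ[X]) : ℝ := ∑ j ∈ range m, ‖f.coeff j‖ ^ 2

lemma nsq (a : ℂ) : ‖a‖ ^ 2 = a.re ^ 2 + a.im ^ 2 := by
  rw [← Complex.normSq_eq_norm_sq, Complex.normSq_apply]; ring

lemma coeff_zero_A (ζ : ℂ) (f : ℂ[X]) : ((X - C ζ) * f).coeff 0 = - ζ * f.coeff 0 := by
  simp [sub_mul]

lemma coeff_succ_A (ζ : ℂ) (f : ℂ[X]) (j : ℕ) :
    ((X - C ζ) * f).coeff (j + 1) = f.coeff j - ζ * f.coeff (j + 1) := by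
  simp [sub_mul, coeff_X_mul]

lemma coeff_zero_B (ζ : ℂ) (f : ℂ[X]) : ((1 - C ζ * X) * f).coeff 0 = f.coeff 0 := by
  simp [sub_mul, mul_assoc]

lemma coeff_succ_B (ζ : ℂ) (f : ℂ[X]) (j : ℕ) :
    ((1 - C ζ * X) * f).coeff (j + 1) = f.coeff (j + 1) - ζ * f.coeff j := by
  simp [sub_mul, mul_assoc, coeff_X_mul]

lemma NN_diff (ζ : ℂ) (f : ℂ[X]) (m : ℕ) :
    NN (m + 1) ((X - C ζ) * f) - NN (m + 1) ((1 - C (conj ζ) * X) * f)
      = (‖ζ‖ ^ 2 - 1) * ‖f.coeff m‖ ^ 2 := by
  induction m with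
  | zero =>
    simp only [NN, zero_add, sum_range_one, coeff_zero_A, coeff_zero_B]
    rw [norm_mul, norm_neg]; ring
  | succ m ih =>
    simp only [NN] at ih ⊢
    rw [sum_range_succ _ (m + 1), sum_range_succ _ (m + 1)]
    rw [coeff_succ_A, coeff_succ_B]
    have h : ‖f.coeff m - ζ * f.coeff (m + 1)‖ ^ 2 - ‖f.coeff (m + 1) - conj ζ * f.coeff m‖ ^ 2
        = (‖ζ‖ ^ 2 - 1) * (‖f.coeff (m + 1)‖ ^ 2 - ‖f.coeff m‖ ^ 2) := by
      simp only [nsq, Complex.sub_re, Complex.sub_im, Complex.mul_re, Complex.mul_im,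
        Complex.conj_re, Complex.conj_im]
      ring
    linarith

lemma NN_one_factor (ζ : ℂ) (hζ : 1 ≤ ‖ζ‖) (f : ℂ[X]) (m : ℕ) :
    NN m ((1 - C (conj ζ) * X) * f) ≤ NN m ((X - C ζ) * f) := by
  cases m with
  | zero => simp [NN]
  | succ m =>
    have h := NN_diff ζ f m
    have : 0 ≤ (‖ζ‖ ^ 2 - 1) * ‖f.coeff m‖ ^ 2 := by
      apply mul_nonneg _ (by positivity)
      nlinarith
    linarith

lemma NN_multiset (s : Multiset ℂ) (hs : ∀ ζ ∈ s, 1 ≤ ‖ζ‖) (m : ℕ) : ∀ h : ℂ[X],
    NN m ((s.map (fun ζ => 1 - C (conj ζ) * X)).prod * h) ≤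
      NN m ((s.map (fun ζ => X - C ζ)).prod * h) := by
  induction s using Multiset.induction_on with
  | empty => intro h; simp
  | cons ζ s ih =>
    intro h
    have hs' : ∀ ζ ∈ s, 1 ≤ ‖ζ‖ := fun x hx => hs x (Multiset.mem_cons_of_mem hx)
    have h1 := ih hs' ((1 - C (conj ζ) * X) * h)
    have h2 := NN_one_factor ζ (hs ζ (Multiset.mem_cons_self _ _))
      ((s.map (fun ζ => X - C ζ)).prod * h) m
    simp only [Multiset.map_cons, Multiset.prod_cons]
    calc NN m ((1 - C (conj ζ) * X) * (s.map (fun ζ => 1 - C (conj ζ) * X)).prod * h)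
        = NN m ((s.map (fun ζ => 1 - C (conj ζ) * X)).prod * ((1 - C (conj ζ) * X) * h)) := by
          congr 1; ring
      _ ≤ _ := h1
      _ = NN m ((1 - C (conj ζ) * X) * ((s.map (fun ζ => X - C ζ)).prod * h)) := by
          congr 1; ring
      _ ≤ _ := h2
      _ = _ := by congr 1; ring

/-- conjugate reciprocal polynomial -/
noncomputable def star (R : ℂ[X]) : ℂ[X] := (R.map (starRingEnd ℂ)).reverse

lemma reverse_X_sub_C (ζ : ℂ) : (X - C ζ : ℂ[X]).reverse = 1 - C ζ * X := by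
  have h1 : (X - C ζ : ℂ[X]).natDegree = 1 := natDegree_X_sub_C ζ
  ext k
  rw [coeff_reverse, h1]
  rcases Nat.lt_or_ge k 2 with hk | hk
  · interval_cases k
    · rw [revAt_le (by norm_num)]; simp
    · rw [revAt_le (by norm_num)]; simp [coeff_one]
  · rw [revAt_eq_self_of_lt (by omega)]
    have h2 : k ≠ 0 := by omega
    have h3 : k ≠ 1 := by omega
    simp [coeff_X, coeff_C, coeff_one, h2, h3, Ne.symm h3]

lemma star_prod (s : Multiset ℂ) :
    star ((s.map (fun ζ => X - C ζ)).prod) = (s.map (fun ζ => 1 - C (conj ζ) * X)).prod := by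
  unfold star
  induction s using Multiset.induction_on with
  | empty =>
    have : (1 : ℂ[X]).reverse = 1 := by rw [← C_1, reverse_C]
    simpa using this
  | cons ζ s ih =>
    simp only [Multiset.map_cons, Multiset.prod_cons, Polynomial.map_mul, reverse_mul_of_domain]
    rw [ih]
    congr 1
    simp only [Polynomial.map_sub, map_X, map_C]
    exact reverse_X_sub_C _

lemma NN_const (c : ℂ) (f : ℂ[X]) (m : ℕ) : NN m (C c * f) = ‖c‖ ^ 2 * NN m f := by
  simp only [NN, coeff_C_mul, norm_mul, mul_pow, mul_sum]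

lemma schur_cohn (R : ℂ[X]) (hR : ∀ ζ ∈ R.roots, 1 ≤ ‖ζ‖) (m : ℕ) (h : ℂ[X]) :
    NN m (star R * h) ≤ NN m (R * h) := by
  have hs := (IsAlgClosed.splits R).eq_prod_roots
  have key := NN_multiset R.roots hR m h
  set p := (R.roots.map (fun ζ => X - C ζ)).prod with hp
  have h1 : star R = C (conj R.leadingCoeff) * star p := by
    conv_lhs => rw [hs]
    unfold star
    rw [Polynomial.map_mul, reverse_mul_of_domain]
    simp
  rw [h1, star_prod]
  conv_rhs => rw [hs]
  rw [mul_assoc, mul_assoc, NN_const, NN_const]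
  rw [RCLike.norm_conj]
  exact mul_le_mul_of_nonneg_left key (by positivity)

end Pool.Agent.Helper140.SelfInv.A
end

section
open Polynomial Finset
open scoped ComplexConjugate

namespace Pool.Agent.Helper140.SelfInv.A

lemma star_coeff (R : ℂ[X]) (j : ℕ) (hj : j ≤ R.natDegree) :
    (star R).coeff j = conj (R.coeff (R.natDegree - j)) := by
  unfold star
  have h1 : (R.map (starRingEnd ℂ)).natDegree = R.natDegree :=
    natDegree_map_eq_of_injective (RingHom.injective _) _
  rw [coeff_reverse, h1, revAt_le hj, coeff_map]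

lemma coeff_h (R : ℂ[X]) (x y : ℂ) (k j : ℕ) :
    (R * (C x + C y * X ^ k)).coeff j = x * R.coeff j + if k ≤ j then y * R.coeff (j - k) else 0 := by
  rw [mul_add, coeff_add, mul_comm R (C x), coeff_C_mul]
  congr 1
  rw [← mul_assoc, coeff_mul_X_pow', mul_comm R (C y), coeff_C_mul]

lemma norm_sq_add (a b : ℂ) : ‖a + b‖ ^ 2 = ‖a‖ ^ 2 + ‖b‖ ^ 2 + 2 * (conj b * a).re := by
  simp only [nsq, Complex.add_re, Complex.add_im, Complex.mul_re, Complex.conj_re, Complex.conj_im]
  ring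

lemma ineq_zero (R : ℂ[X]) (hR : ∀ ζ ∈ R.roots, 1 ≤ ‖ζ‖) :
    ‖R.coeff R.natDegree‖ ≤ ‖R.coeff 0‖ := by
  have h := schur_cohn R hR 1 1
  simp only [NN, sum_range_one, mul_one] at h
  rw [star_coeff R 0 (Nat.zero_le _), RCLike.norm_conj, Nat.sub_zero] at h
  exact (pow_le_pow_iff_left₀ (norm_nonneg _) (norm_nonneg _) two_ne_zero).1 h

lemma key_ineq (R : ℂ[X]) (hR : ∀ ζ ∈ R.roots, 1 ≤ ‖ζ‖) (k : ℕ) (hk0 : 0 < k)
    (hkn : k < R.natDegree)
    (hsym : ∀ j, 0 < j → j ≤ k → ‖R.coeff (R.natDegree - j)‖ = ‖R.coeff j‖) :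
    ‖R.coeff k * conj (R.coeff 0) - conj (R.coeff (R.natDegree - k)) * R.coeff R.natDegree‖
      ≤ ‖R.coeff 0‖ ^ 2 - ‖R.coeff R.natDegree‖ ^ 2 := by
  set n := R.natDegree with hn
  obtain ⟨k', rfl⟩ : ∃ k', k = k' + 1 := ⟨k - 1, by omega⟩
  -- general inequality
  have gen : ∀ y : ℂ, ‖y‖ = 1 →
      - (conj y * (R.coeff (k' + 1) * conj (R.coeff 0)
        - conj (R.coeff (n - (k' + 1))) * R.coeff n)).re
      ≤ ‖R.coeff 0‖ ^ 2 - ‖R.coeff n‖ ^ 2 := by
    intro y hy
    have h := schur_cohn R hR (k' + 1 + 1) (C 1 + C y * X ^ (k' + 1))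
    simp only [NN] at h
    rw [sum_range_succ _ (k' + 1), sum_range_succ _ (k' + 1), sum_range_succ' _ k',
      sum_range_succ' _ k'] at h
    simp only [coeff_h, one_mul] at h
    have e1 : ∀ j ∈ range k', ‖(star R).coeff (j + 1) +
        (if k' + 1 ≤ j + 1 then y * (star R).coeff (j + 1 - (k' + 1)) else 0)‖ ^ 2
        = ‖R.coeff (j + 1)‖ ^ 2 := by
      intro j hj
      have hj' := Finset.mem_range.1 hj
      rw [if_neg (by omega), add_zero, star_coeff R (j + 1) (by omega), RCLike.norm_conj,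
        hsym (j + 1) (by omega) (by omega)]
    have e2 : ∀ j ∈ range k', ‖R.coeff (j + 1) +
        (if k' + 1 ≤ j + 1 then y * R.coeff (j + 1 - (k' + 1)) else 0)‖ ^ 2
        = ‖R.coeff (j + 1)‖ ^ 2 := by
      intro j hj
      have hj' := Finset.mem_range.1 hj
      rw [if_neg (by omega), add_zero]
    rw [Finset.sum_congr rfl e1, Finset.sum_congr rfl e2] at h
    have i1 : ¬ (k' + 1 ≤ 0) := by omega
    have i2 : k' + 1 ≤ k' + 1 := le_rfl
    simp only [if_neg i1, if_pos i2, Nat.sub_self, add_zero] at h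
    rw [star_coeff R 0 (Nat.zero_le _), star_coeff R (k' + 1) (by omega)] at h
    rw [norm_sq_add, norm_sq_add] at h
    simp only [RCLike.norm_conj, norm_mul, hy, one_mul, Nat.sub_zero] at h
    rw [← hn, hsym (k' + 1) (by omega) le_rfl] at h
    simp only [map_mul, Complex.conj_conj] at h
    have e3 : (conj y * (R.coeff (k' + 1) * conj (R.coeff 0)
        - conj (R.coeff (n - (k' + 1))) * R.coeff n)).re
        = (conj y * conj (R.coeff 0) * R.coeff (k' + 1)).re
          - (conj y * R.coeff n * conj (R.coeff (n - (k' + 1)))).re := by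
      rw [← Complex.sub_re]; congr 1; ring
    rw [e3]
    linarith
  set D := R.coeff (k' + 1) * conj (R.coeff 0) - conj (R.coeff (n - (k' + 1))) * R.coeff n with hD
  by_cases hD0 : D = 0
  · have := gen 1 (by simp)
    rw [hD0] at this ⊢
    simpa using this
  · have hD1 : ‖D‖ ≠ 0 := norm_ne_zero_iff.2 hD0
    have h := gen (- (D / (‖D‖ : ℂ))) (by
      rw [norm_neg, norm_div, Complex.norm_real, norm_norm, div_self hD1])
    have e : (conj (-(D / (‖D‖ : ℂ))) * D) = - (‖D‖ : ℂ) := by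
      rw [map_neg, map_div₀, Complex.conj_ofReal]
      have h3 : conj D * D = (‖D‖ : ℂ) ^ 2 := Complex.conj_mul' D
      have h4 : (‖D‖ : ℂ) ≠ 0 := by exact_mod_cast hD1
      have : -(conj D / (‖D‖ : ℂ)) * D = -((conj D * D) / (‖D‖ : ℂ)) := by ring
      rw [this, h3, pow_two, mul_div_assoc, div_self h4, mul_one]
    rw [e] at h
    simpa using h

end Pool.Agent.Helper140.SelfInv.A
end

section
open Polynomial Finset
open scoped ComplexConjugate

namespace Pool.Agent.Helper140.SelfInv.A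

lemma dich_aux (β a : ℂ) (A : ℝ) (h : A * ‖β - a‖ ≤ ‖β‖ ^ 2 - ‖a‖ ^ 2) :
    β = a ∨ A ≤ ‖β + a‖ := by
  by_cases hβ : β = a
  · exact Or.inl hβ
  right
  have h1 : ‖β‖ ^ 2 - ‖a‖ ^ 2 ≤ ‖β - a‖ * ‖β + a‖ := by
    have e : ‖β‖ ^ 2 - ‖a‖ ^ 2 = ((β - a) * conj (β + a)).re := by
      simp only [nsq, Complex.mul_re, Complex.sub_re, Complex.sub_im, Complex.add_re,
        Complex.add_im, map_add, Complex.conj_re, Complex.conj_im]
      ring
    rw [e]
    calc ((β - a) * conj (β + a)).re ≤ ‖(β - a) * conj (β + a)‖ := Complex.re_le_norm _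
      _ = ‖β - a‖ * ‖β + a‖ := by rw [norm_mul, RCLike.norm_conj]
  have h2 : 0 < ‖β - a‖ := norm_pos_iff.2 (sub_ne_zero.2 hβ)
  have h3 : ‖β - a‖ * A ≤ ‖β - a‖ * ‖β + a‖ := by linarith
  exact le_of_mul_le_mul_left h3 h2

lemma natDegree_sub_C' (P : ℂ[X]) (w : ℂ) : (P - C w).natDegree = P.natDegree :=
  natDegree_sub_C

lemma coeff_sub_C_pos (P : ℂ[X]) (w : ℂ) (j : ℕ) (hj : 0 < j) :
    (P - C w).coeff j = P.coeff j := by
  rw [coeff_sub, coeff_C_of_ne_zero hj.ne', sub_zero]

/-- dichotomy for the map `ζ ↦ 1/ζ`. -/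
lemma dich_inv (P : ℂ[X]) (ε : ℂ) (hε : conj ε * ε = 1)
    (hsym : ∀ j, j ≤ P.natDegree → P.coeff (P.natDegree - j) = ε * P.coeff j)
    (k : ℕ) (hk0 : 0 < k) (hkn : k < P.natDegree) (hk : P.coeff k ≠ 0) (w : ℂ)
    (hw : ∀ ζ ∈ (P - C w).roots, 1 ≤ ‖ζ‖) :
    P.coeff 0 - w = P.coeff k / conj (P.coeff k) * conj (P.coeff 0) ∨
    ‖P.coeff k‖ ≤ ‖P.coeff 0 - w + P.coeff k / conj (P.coeff k) * conj (P.coeff 0)‖ := by
  have hε1 : ‖ε‖ = 1 := by
    have : ‖conj ε * ε‖ = 1 := by rw [hε]; simp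
    rw [norm_mul, RCLike.norm_conj] at this
    nlinarith [norm_nonneg ε]
  have hk' : conj (P.coeff k) ≠ 0 := by
    intro h; apply hk; simpa using h
  apply dich_aux
  have key := key_ineq (P - C w) hw k hk0 (by rwa [natDegree_sub_C']) (by
    intro j hj1 hj2
    rw [natDegree_sub_C', coeff_sub_C_pos P w _ (by omega), coeff_sub_C_pos P w _ hj1,
      hsym j (by omega), norm_mul, hε1, one_mul])
  rw [natDegree_sub_C', coeff_sub_C_pos P w _ hk0, coeff_sub_C_pos P w (P.natDegree - k) (by omega),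
    coeff_sub_C_pos P w P.natDegree (by omega), hsym k hkn.le] at key
  have hn : P.coeff P.natDegree = ε * P.coeff 0 := by
    have := hsym 0 (Nat.zero_le _); simpa using this
  have h0 : (P - C w).coeff 0 = P.coeff 0 - w := by simp
  rw [hn, h0] at key
  have e1 : P.coeff k * conj (P.coeff 0 - w) - conj (ε * P.coeff k) * (ε * P.coeff 0)
      = conj (conj (P.coeff k) * (P.coeff 0 - w
        - P.coeff k / conj (P.coeff k) * conj (P.coeff 0))) := by
    have : conj (P.coeff k) * (P.coeff 0 - w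
        - P.coeff k / conj (P.coeff k) * conj (P.coeff 0)) =
        conj (P.coeff k) * (P.coeff 0 - w) - P.coeff k * conj (P.coeff 0) := by
      field_simp
    rw [this]
    simp only [map_sub, map_mul, Complex.conj_conj]
    linear_combination (-(conj (P.coeff k)) * P.coeff 0) * hε
  rw [e1, RCLike.norm_conj, norm_mul, RCLike.norm_conj, norm_mul ε, hε1, one_mul] at key
  have e2 : ‖P.coeff k / conj (P.coeff k) * conj (P.coeff 0)‖ = ‖P.coeff 0‖ := by
    rw [norm_mul, norm_div, RCLike.norm_conj, RCLike.norm_conj, div_self (norm_ne_zero_iff.2 hk),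
      one_mul]
  rw [e2]
  exact key

/-- dichotomy for the map `ζ ↦ 1/conj ζ`. -/
lemma dich_conj (P : ℂ[X]) (ε : ℂ) (hε : conj ε * ε = 1)
    (hsym : ∀ j, j ≤ P.natDegree → P.coeff (P.natDegree - j) = ε * conj (P.coeff j))
    (k : ℕ) (hk0 : 0 < k) (hkn : k < P.natDegree) (w : ℂ)
    (hw : ∀ ζ ∈ (P - C w).roots, 1 ≤ ‖ζ‖) :
    P.coeff 0 - w = P.coeff 0 ∨
    ‖P.coeff k‖ ≤ ‖P.coeff 0 - w + P.coeff 0‖ := by
  have hε1 : ‖ε‖ = 1 := by
    have : ‖conj ε * ε‖ = 1 := by rw [hε]; simp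
    rw [norm_mul, RCLike.norm_conj] at this
    nlinarith [norm_nonneg ε]
  apply dich_aux
  have key := key_ineq (P - C w) hw k hk0 (by rwa [natDegree_sub_C']) (by
    intro j hj1 hj2
    rw [natDegree_sub_C', coeff_sub_C_pos P w _ (by omega), coeff_sub_C_pos P w _ hj1,
      hsym j (by omega), norm_mul, hε1, one_mul, RCLike.norm_conj])
  rw [natDegree_sub_C', coeff_sub_C_pos P w _ hk0, coeff_sub_C_pos P w (P.natDegree - k) (by omega),
    coeff_sub_C_pos P w P.natDegree (by omega), hsym k hkn.le] at key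
  have hn : P.coeff P.natDegree = ε * conj (P.coeff 0) := by
    have := hsym 0 (Nat.zero_le _); simpa using this
  have h0 : (P - C w).coeff 0 = P.coeff 0 - w := by simp
  rw [hn, h0] at key
  have e1 : P.coeff k * conj (P.coeff 0 - w) - conj (ε * conj (P.coeff k)) * (ε * conj (P.coeff 0))
      = P.coeff k * conj (P.coeff 0 - w - P.coeff 0) := by
    simp only [map_sub, map_mul, Complex.conj_conj]
    linear_combination (-(P.coeff k) * conj (P.coeff 0)) * hε
  rw [e1, norm_mul, RCLike.norm_conj, norm_mul ε, hε1, one_mul, RCLike.norm_conj] at key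
  exact key

/-! ### Laguerre type inequality -/

lemma lag_multiset (s : Multiset ℂ) (z : ℂ) (hs : ∀ ζ ∈ s, ‖z‖ ≤ ‖ζ‖) :
    (z * (derivative (s.map (fun ζ => X - C ζ)).prod).eval z *
      conj (((s.map (fun ζ => X - C ζ)).prod).eval z)).re
      ≤ (s.card / 2 : ℝ) * ‖((s.map (fun ζ => X - C ζ)).prod).eval z‖ ^ 2 := by
  induction s using Multiset.induction_on with
  | empty => simp
  | cons ζ s ih =>
    have ih' := ih (fun x hx => hs x (Multiset.mem_cons_of_mem hx))
    have hζ := hs ζ (Multiset.mem_cons_self _ _)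
    simp only [Multiset.map_cons, Multiset.prod_cons, Multiset.card_cons]
    set g := (s.map (fun ζ => X - C ζ)).prod with hg
    simp only [derivative_mul, derivative_sub, derivative_X, derivative_C, sub_zero, one_mul,
      eval_add, eval_mul, eval_sub, eval_X, eval_C]
    set a := eval z g with ha
    set b := eval z (derivative g) with hb
    have e : (z * (a + (z - ζ) * b) * conj ((z - ζ) * a)).re
        = (z * conj (z - ζ)).re * ‖a‖ ^ 2 + ‖z - ζ‖ ^ 2 * (z * b * conj a).re := by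
      simp only [nsq, Complex.mul_re, Complex.mul_im, Complex.sub_re, Complex.sub_im,
        Complex.add_re, Complex.add_im, map_mul, map_sub, Complex.conj_re, Complex.conj_im]
      ring
    rw [e, norm_mul, mul_pow]
    have h1 : (z * conj (z - ζ)).re ≤ ‖z - ζ‖ ^ 2 / 2 := by
      have : ‖z‖ ^ 2 ≤ ‖ζ‖ ^ 2 := pow_le_pow_left₀ (norm_nonneg _) hζ 2
      simp only [nsq, Complex.mul_re, Complex.sub_re, Complex.sub_im, map_sub, Complex.conj_re,
        Complex.conj_im] at this ⊢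
      nlinarith
    have h2 : 0 ≤ ‖a‖ ^ 2 := by positivity
    have h3 : 0 ≤ ‖z - ζ‖ ^ 2 := by positivity
    push_cast
    nlinarith [mul_le_mul_of_nonneg_right h1 h2, mul_le_mul_of_nonneg_left ih' h3]

lemma lag_multiset_eq (s : Multiset ℂ) (z : ℂ) (hs : ∀ ζ ∈ s, ‖z‖ = ‖ζ‖) :
    (z * (derivative (s.map (fun ζ => X - C ζ)).prod).eval z *
      conj (((s.map (fun ζ => X - C ζ)).prod).eval z)).re
      = (s.card / 2 : ℝ) * ‖((s.map (fun ζ => X - C ζ)).prod).eval z‖ ^ 2 := by
  induction s using Multiset.induction_on with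
  | empty => simp
  | cons ζ s ih =>
    have ih' := ih (fun x hx => hs x (Multiset.mem_cons_of_mem hx))
    have hζ := hs ζ (Multiset.mem_cons_self _ _)
    simp only [Multiset.map_cons, Multiset.prod_cons, Multiset.card_cons]
    set g := (s.map (fun ζ => X - C ζ)).prod with hg
    simp only [derivative_mul, derivative_sub, derivative_X, derivative_C, sub_zero, one_mul,
      eval_add, eval_mul, eval_sub, eval_X, eval_C]
    set a := eval z g with ha
    set b := eval z (derivative g) with hb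
    have e : (z * (a + (z - ζ) * b) * conj ((z - ζ) * a)).re
        = (z * conj (z - ζ)).re * ‖a‖ ^ 2 + ‖z - ζ‖ ^ 2 * (z * b * conj a).re := by
      simp only [nsq, Complex.mul_re, Complex.mul_im, Complex.sub_re, Complex.sub_im,
        Complex.add_re, Complex.add_im, map_mul, map_sub, Complex.conj_re, Complex.conj_im]
      ring
    rw [e, norm_mul, mul_pow, ih']
    have h1 : (z * conj (z - ζ)).re = ‖z - ζ‖ ^ 2 / 2 := by
      have : ‖z‖ ^ 2 = ‖ζ‖ ^ 2 := by rw [hζ]
      simp only [nsq, Complex.mul_re, Complex.sub_re, Complex.sub_im, map_sub, Complex.conj_re,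
        Complex.conj_im] at this ⊢
      nlinarith
    rw [h1]
    push_cast
    ring

lemma lag (R : ℂ[X]) (z : ℂ) (h : ∀ ζ ∈ R.roots, ‖z‖ ≤ ‖ζ‖) :
    (z * (derivative R).eval z * conj (R.eval z)).re ≤ (R.natDegree / 2 : ℝ) * ‖R.eval z‖ ^ 2 := by
  have hs := (IsAlgClosed.splits R).eq_prod_roots
  have hc := (IsAlgClosed.splits R).natDegree_eq_card_roots
  have key := lag_multiset R.roots z h
  rw [hc]
  set p := (R.roots.map (fun ζ => X - C ζ)).prod with hp
  set c := R.leadingCoeff with hcc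
  have e1 : eval z R = c * eval z p := by rw [hs]; simp
  have e2 : eval z (derivative R) = c * eval z (derivative p) := by
    rw [hs]; simp [derivative_mul]
  rw [e1, e2]
  have e3 : (z * (c * eval z (derivative p)) * conj (c * eval z p)).re
      = ‖c‖ ^ 2 * (z * eval z (derivative p) * conj (eval z p)).re := by
    simp only [nsq, Complex.mul_re, Complex.mul_im, map_mul, Complex.conj_re, Complex.conj_im]
    ring
  rw [e3, norm_mul, mul_pow]
  nlinarith [mul_le_mul_of_nonneg_left key (by positivity : 0 ≤ ‖c‖ ^ 2)]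

lemma lag_eq (R : ℂ[X]) (z : ℂ) (h : ∀ ζ ∈ R.roots, ‖z‖ = ‖ζ‖) :
    (z * (derivative R).eval z * conj (R.eval z)).re = (R.natDegree / 2 : ℝ) * ‖R.eval z‖ ^ 2 := by
  have hs := (IsAlgClosed.splits R).eq_prod_roots
  have hc := (IsAlgClosed.splits R).natDegree_eq_card_roots
  have key := lag_multiset_eq R.roots z h
  rw [hc]
  set p := (R.roots.map (fun ζ => X - C ζ)).prod with hp
  set c := R.leadingCoeff with hcc
  have e1 : eval z R = c * eval z p := by rw [hs]; simp
  have e2 : eval z (derivative R) = c * eval z (derivative p) := by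
    rw [hs]; simp [derivative_mul]
  rw [e1, e2]
  have e3 : (z * (c * eval z (derivative p)) * conj (c * eval z p)).re
      = ‖c‖ ^ 2 * (z * eval z (derivative p) * conj (eval z p)).re := by
    simp only [nsq, Complex.mul_re, Complex.mul_im, map_mul, Complex.conj_re, Complex.conj_im]
    ring
  rw [e3, norm_mul, mul_pow, key]
  ring

end Pool.Agent.Helper140.SelfInv.A
end

section
open Polynomial Finset
open scoped ComplexConjugate

namespace Pool.Agent.Helper140.SelfInv.A

/-- the polynomial `Q - z Q'/n`. -/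
noncomputable def SP (Q : ℂ[X]) : ℂ[X] := Q - C (1 / (Q.natDegree : ℂ)) * (X * derivative Q)

lemma SP_eval (Q : ℂ[X]) (z : ℂ) :
    (SP Q).eval z = Q.eval z - (z * (derivative Q).eval z) / (Q.natDegree : ℂ) := by
  simp [SP]; ring

lemma roots_of_no_zero (R : ℂ[X]) (h : ∀ z : ℂ, ‖z‖ < 1 → R.eval z ≠ 0) :
    ∀ ζ ∈ R.roots, 1 ≤ ‖ζ‖ := by
  intro ζ hζ
  by_contra hlt
  push Not at hlt
  by_cases hR : R = 0
  · rw [hR] at hζ; simp at hζ
  · exact h ζ hlt ((mem_roots hR).1 hζ)

lemma disc_ineq (Q : ℂ[X]) (hn : 0 < Q.natDegree) (z : ℂ) (hz : ‖z‖ = 1)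
    (hQ : ∀ ζ ∈ Q.roots, ‖ζ‖ = 1) (v : ℂ) (hv : ∀ ζ ∈ (Q - C v).roots, 1 ≤ ‖ζ‖) :
    2 * ((SP Q).eval z * conj v).re ≤ ‖v‖ ^ 2 := by
  have h1 := lag (Q - C v) z (fun ζ hζ => by rw [hz]; exact hv ζ hζ)
  have h2 := lag_eq Q z (fun ζ hζ => by rw [hz]; exact (hQ ζ hζ).symm)
  rw [natDegree_sub_C'] at h1
  simp only [derivative_sub, derivative_C, sub_zero, eval_sub, eval_C] at h1
  rw [SP_eval]
  set q := eval z Q with hq
  set e := z * eval z (derivative Q) with he
  have hn' : (0 : ℝ) < Q.natDegree := by exact_mod_cast hn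
  set n : ℝ := (Q.natDegree : ℝ) with hnn
  have hcast : (Q.natDegree : ℂ) = ((n : ℝ) : ℂ) := by rw [hnn]; simp
  rw [hcast]
  have e1 : (e * conj (q - v)).re = (e * conj q).re - (e * conj v).re := by
    rw [map_sub, mul_sub, Complex.sub_re]
  have e2 : ‖q - v‖ ^ 2 = ‖q‖ ^ 2 - 2 * (q * conj v).re + ‖v‖ ^ 2 := by
    simp only [nsq, Complex.mul_re, Complex.sub_re, Complex.sub_im, Complex.conj_re,
      Complex.conj_im]
    ring
  have e3 : ((q - e / (n : ℂ)) * conj v).re = (q * conj v).re - (e * conj v).re / n := by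
    have : (q - e / (n : ℂ)) * conj v = q * conj v - (e * conj v) / (n : ℂ) := by ring
    rw [this, Complex.sub_re, Complex.div_ofReal_re]
  rw [e1, e2, h2] at h1
  rw [e3]
  have h3 : - (e * conj v).re ≤ n / 2 * (‖v‖ ^ 2 - 2 * (q * conj v).re) := by nlinarith
  have h4 : - (e * conj v).re / n ≤ 1 / 2 * (‖v‖ ^ 2 - 2 * (q * conj v).re) := by
    rw [div_le_iff₀ hn']; linarith
  have h5 : - (e * conj v).re / n = - ((e * conj v).re / n) := by ring
  rw [h5] at h4
  linarith

lemma ball_subset (Q : ℂ[X]) (hn : 0 < Q.natDegree) (z : ℂ) (hz : ‖z‖ = 1)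
    (hQ : ∀ ζ ∈ Q.roots, ‖ζ‖ = 1) (v : ℂ) (hv : ‖v - (SP Q).eval z‖ < ‖(SP Q).eval z‖) :
    ∃ x : ℂ, ‖x‖ < 1 ∧ Q.eval x = v := by
  by_contra hcon
  push Not at hcon
  have h := disc_ineq Q hn z hz hQ v (roots_of_no_zero _ (by
    intro x hx; simp only [eval_sub, eval_C]; exact sub_ne_zero.2 (hcon x hx)))
  set s := (SP Q).eval z with hs
  have e2 : ‖v - s‖ ^ 2 = ‖v‖ ^ 2 - 2 * (s * conj v).re + ‖s‖ ^ 2 := by
    simp only [nsq, Complex.mul_re, Complex.sub_re, Complex.sub_im, Complex.conj_re,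
      Complex.conj_im]
    ring
  have h3 : ‖v - s‖ ^ 2 < ‖s‖ ^ 2 := pow_lt_pow_left₀ hv (norm_nonneg _) two_ne_zero
  linarith

lemma norm_le_of_circle (Q : ℂ[X]) (M : ℝ) (hM : ∀ z : ℂ, ‖z‖ = 1 → ‖Q.eval z‖ ≤ M) (z : ℂ)
    (hz : ‖z‖ ≤ 1) : ‖Q.eval z‖ ≤ M := by
  have hd : DiffContOnCl ℂ (fun z => Q.eval z) (Metric.ball (0 : ℂ) 1) :=
    (Q.differentiable).diffContOnCl
  refine Complex.norm_le_of_forall_mem_frontier_norm_le (f := fun z => Q.eval z)
    Metric.isBounded_ball hd ?_ ?_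
  · intro w hw
    rw [frontier_ball (0 : ℂ) one_ne_zero] at hw
    exact hM w (by simpa using hw)
  · rw [closure_ball (0 : ℂ) one_ne_zero]
    simpa using hz

lemma SP_norm_le_half (Q : ℂ[X]) (hn : 0 < Q.natDegree) (hQ : ∀ ζ ∈ Q.roots, ‖ζ‖ = 1)
    (M : ℝ) (hM : ∀ z : ℂ, ‖z‖ = 1 → ‖Q.eval z‖ ≤ M) (z : ℂ) (hz : ‖z‖ = 1) :
    ‖(SP Q).eval z‖ ≤ M / 2 := by
  have hM0 : 0 ≤ M := le_trans (norm_nonneg _) (hM z hz)
  set s := (SP Q).eval z with hs
  by_cases hs0 : s = 0
  · rw [hs0]; simp; linarith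
  have hs1 : (0 : ℝ) < ‖s‖ := norm_pos_iff.2 hs0
  by_contra hlt
  push Not at hlt
  -- choose t with M < t < 2 ‖s‖
  obtain ⟨t, ht1, ht2⟩ := exists_between (show M < 2 * ‖s‖ by linarith)
  have ht0 : 0 < t := lt_of_le_of_lt hM0 ht1
  have hsc : ((‖s‖ : ℝ) : ℂ) ≠ 0 := by exact_mod_cast hs1.ne'
  set v : ℂ := ((t / ‖s‖ : ℝ) : ℂ) * s with hv
  have hvn : ‖v‖ = t := by
    rw [hv, norm_mul, Complex.norm_real, Real.norm_eq_abs, abs_of_pos (by positivity)]
    field_simp
  have h := disc_ineq Q hn z hz hQ v (roots_of_no_zero _ (by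
    intro x hx
    simp only [eval_sub, eval_C]
    refine sub_ne_zero.2 (fun h => ?_)
    have := norm_le_of_circle Q M hM x hx.le
    rw [h, hvn] at this
    linarith))
  have e : (s * conj v).re = t * ‖s‖ := by
    have : s * conj v = (((t / ‖s‖) * ‖s‖ ^ 2 : ℝ) : ℂ) := by
      rw [hv, map_mul, Complex.conj_ofReal]
      have : s * conj s = ((‖s‖ ^ 2 : ℝ) : ℂ) := by
        rw [Complex.mul_conj']; push_cast; ring
      push_cast at this ⊢
      linear_combination ((t : ℂ) / ‖s‖) * this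
    rw [this, Complex.ofReal_re]
    field_simp
  rw [← hs, e, hvn] at h
  nlinarith

/-- inside the disc `z Q'/n` is dominated by `Q - z Q'/n`. -/
lemma inner_ineq (Q : ℂ[X]) (hn : 0 < Q.natDegree) (hQ : ∀ ζ ∈ Q.roots, ‖ζ‖ = 1)
    (z : ℂ) (hz : ‖z‖ ≤ 1) :
    ‖(z * (derivative Q).eval z) / (Q.natDegree : ℂ)‖ ≤ ‖(SP Q).eval z‖ := by
  have h1 := lag Q z (fun ζ hζ => by rw [hQ ζ hζ]; exact hz)
  rw [SP_eval]
  set q := eval z Q with hq
  set e := z * eval z (derivative Q) with he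
  have hn' : (0 : ℝ) < Q.natDegree := by exact_mod_cast hn
  set n : ℝ := (Q.natDegree : ℝ) with hnn
  have hcast : (Q.natDegree : ℂ) = ((n : ℝ) : ℂ) := by rw [hnn]; simp
  rw [hcast]
  have h2 : (e / (n : ℂ) * conj q).re ≤ 1 / 2 * ‖q‖ ^ 2 := by
    have : e / (n : ℂ) * conj q = (e * conj q) / (n : ℂ) := by ring
    rw [this, Complex.div_ofReal_re, div_le_iff₀ hn']
    linarith
  set g := e / (n : ℂ) with hg
  have h3 : ‖q - g‖ ^ 2 = ‖q‖ ^ 2 - 2 * (g * conj q).re + ‖g‖ ^ 2 := by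
    simp only [nsq, Complex.mul_re, Complex.sub_re, Complex.sub_im, Complex.conj_re,
      Complex.conj_im]
    ring
  have h4 : ‖g‖ ^ 2 ≤ ‖q - g‖ ^ 2 := by rw [h3]; linarith
  exact (pow_le_pow_iff_left₀ (norm_nonneg _) (norm_nonneg _) two_ne_zero).1 h4

lemma SP_ne_zero (Q : ℂ[X]) (hn : 0 < Q.natDegree) (hQ : ∀ ζ ∈ Q.roots, ‖ζ‖ = 1)
    (z : ℂ) (hz : ‖z‖ < 1) : (SP Q).eval z ≠ 0 := by
  intro h0
  have h1 := inner_ineq Q hn hQ z hz.le
  rw [h0, norm_zero] at h1
  have h2 := norm_le_zero_iff.1 h1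
  rw [SP_eval, h2, sub_zero] at h0
  have hne : Q ≠ 0 := by intro h; rw [h] at hn; simp at hn
  have := hQ z ((mem_roots hne).2 h0)
  linarith

lemma parseval_range (p : ℂ[X]) (N : ℕ) (hN : p.natDegree < N) :
    ∑ i ∈ range N, ‖p.coeff i‖ ^ 2 = Real.circleAverage (fun z => ‖p.eval z‖ ^ 2) 0 1 := by
  rw [← Polynomial.sum_sq_norm_coeff_eq_circleAverage]
  symm
  apply Finset.sum_subset
  · intro i hi
    exact Finset.mem_range.2 (lt_of_le_of_lt (le_natDegree_of_mem_supp i hi) hN)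
  · intro i _ hi
    rw [notMem_support_iff.1 hi]; simp

lemma sum_sq_r (Q : ℂ[X]) (hn : 0 < Q.natDegree) (hQ : ∀ ζ ∈ Q.roots, ‖ζ‖ = 1)
    (M : ℝ) (hM : ∀ z : ℂ, ‖z‖ = 1 → ‖(SP Q).eval z‖ ≤ M) (r : ℝ) (hr0 : 0 < r) (hr1 : r < 1) :
    ∑ i ∈ range (Q.natDegree + 1), ‖Q.coeff i‖ ^ 2 * (r ^ i) ^ 2 ≤ 2 * M ^ 2 := by
  set p : ℂ[X] := Q.comp (C (r : ℂ) * X) with hp
  have hrc : (r : ℂ) ≠ 0 := by exact_mod_cast hr0.ne'
  have hpdeg : p.natDegree ≤ Q.natDegree := by
    rw [hp, natDegree_comp, natDegree_C_mul_X _ hrc, mul_one]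
  have h1 : ∑ i ∈ range (Q.natDegree + 1), ‖Q.coeff i‖ ^ 2 * (r ^ i) ^ 2
      = ∑ i ∈ range (Q.natDegree + 1), ‖p.coeff i‖ ^ 2 := by
    refine Finset.sum_congr rfl (fun i _ => ?_)
    rw [hp, comp_C_mul_X_coeff, norm_mul, norm_pow, Complex.norm_real, Real.norm_eq_abs,
      abs_of_pos hr0]
    ring
  rw [h1, parseval_range p _ (by omega)]
  set T : ℂ → ℂ := fun w => (w * (derivative Q).eval w) / (Q.natDegree : ℂ) with hT
  set G : ℂ → ℂ := fun z => ((2 * M ^ 2 : ℝ) : ℂ) * (1 + T (r * z) / (SP Q).eval (r * z)) with hG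
  have hnorm : ∀ z : ℂ, ‖z‖ ≤ 1 → ‖(r : ℂ) * z‖ < 1 := by
    intro z hz
    rw [norm_mul, Complex.norm_real, Real.norm_eq_abs, abs_of_pos hr0]
    nlinarith [norm_nonneg z]
  have hGd : DiffContOnCl ℂ G (Metric.ball (0 : ℂ) |1|) := by
    rw [abs_one]
    apply DifferentiableOn.diffContOnCl
    rw [closure_ball (0 : ℂ) one_ne_zero]
    intro z hz
    have hz' : ‖z‖ ≤ 1 := by simpa using hz
    have hne := SP_ne_zero Q hn hQ (r * z) (hnorm z hz')
    apply DifferentiableAt.differentiableWithinAt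
    have d1 : DifferentiableAt ℂ (fun z : ℂ => (SP Q).eval ((r : ℂ) * z)) z :=
      ((SP Q).differentiable.differentiableAt).comp z (by fun_prop)
    have d2 : DifferentiableAt ℂ (fun z : ℂ => T ((r : ℂ) * z)) z := by
      have : DifferentiableAt ℂ (fun z : ℂ => (derivative Q).eval ((r : ℂ) * z)) z :=
        ((derivative Q).differentiable.differentiableAt).comp z (by fun_prop)
      simp only [hT]
      fun_prop
    simp only [hG]
    exact ((d2.div d1 hne).const_add 1).const_mul _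
  have hav : Real.circleAverage G 0 1 = G 0 := DiffContOnCl.circleAverage hGd
  have hG0 : G 0 = ((2 * M ^ 2 : ℝ) : ℂ) := by simp [hG, hT]
  have hGc : ContinuousOn G (Metric.sphere (0 : ℂ) 1) := by
    have := hGd.continuousOn
    rw [abs_one, closure_ball (0 : ℂ) one_ne_zero] at this
    exact this.mono Metric.sphere_subset_closedBall
  have hGi : CircleIntegrable G 0 1 := hGc.circleIntegrable zero_le_one
  have hre : Real.circleAverage (Complex.reCLM ∘ G) 0 1 = 2 * M ^ 2 := by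
    rw [ContinuousLinearMap.circleAverage_comp_comm _ hGi, hav, hG0, Complex.reCLM_apply,
      Complex.ofReal_re]
  rw [← hre]
  apply Real.circleAverage_mono
  · apply ContinuousOn.circleIntegrable zero_le_one
    fun_prop
  · apply ContinuousOn.circleIntegrable zero_le_one
    exact Complex.reCLM.continuous.comp_continuousOn hGc
  · intro z hz
    have hz' : ‖z‖ = 1 := by simpa using hz
    have hw := hnorm z hz'.le
    have hne := SP_ne_zero Q hn hQ (r * z) hw
    have hin := inner_ineq Q hn hQ (r * z) hw.le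
    have hMb := norm_le_of_circle (SP Q) M hM (r * z) hw.le
    have hpe : p.eval z = Q.eval (r * z) := by rw [hp]; simp
    simp only [Function.comp_apply, Complex.reCLM_apply, hG]
    rw [Complex.re_ofReal_mul, hpe]
    set w := (r : ℂ) * z with hw'
    have hT' : T w = (w * (derivative Q).eval w) / (Q.natDegree : ℂ) := rfl
    rw [← hT'] at hin
    set s := (SP Q).eval w with hs
    have hq : Q.eval w = s * (1 + T w / s) := by
      have : Q.eval w = s + T w := by rw [hs, SP_eval, hT']; ring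
      rw [this]; field_simp
    set φ := T w / s with hφ
    have hφ1 : ‖φ‖ ≤ 1 := by
      rw [hφ, norm_div]
      exact div_le_one_of_le₀ hin (norm_nonneg _)
    rw [hq, norm_mul, mul_pow]
    have e1 : ‖1 + φ‖ ^ 2 = 1 + 2 * φ.re + ‖φ‖ ^ 2 := by
      simp only [nsq, Complex.add_re, Complex.add_im, Complex.one_re, Complex.one_im]
      ring
    have e2 : ‖φ‖ ^ 2 ≤ 1 := by nlinarith [norm_nonneg φ]
    have e3 : -1 ≤ φ.re := by
      have := Complex.abs_re_le_norm φ
      have := (abs_le.1 this).1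
      linarith
    have e4 : ‖s‖ ^ 2 ≤ M ^ 2 := pow_le_pow_left₀ (norm_nonneg _) hMb 2
    have e5 : (1 + φ).re = 1 + φ.re := by simp
    rw [e1, e5]
    have e6 : 1 + 2 * φ.re + ‖φ‖ ^ 2 ≤ 2 * (1 + φ.re) := by linarith
    have e7 : 0 ≤ 2 * (1 + φ.re) := by linarith
    calc ‖s‖ ^ 2 * (1 + 2 * φ.re + ‖φ‖ ^ 2) ≤ ‖s‖ ^ 2 * (2 * (1 + φ.re)) :=
          mul_le_mul_of_nonneg_left e6 (by positivity)
      _ ≤ M ^ 2 * (2 * (1 + φ.re)) := mul_le_mul_of_nonneg_right e4 e7
      _ = 2 * M ^ 2 * (1 + φ.re) := by ring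

lemma sum_sq_le (Q : ℂ[X]) (hn : 0 < Q.natDegree) (hQ : ∀ ζ ∈ Q.roots, ‖ζ‖ = 1)
    (M : ℝ) (hM : ∀ z : ℂ, ‖z‖ = 1 → ‖(SP Q).eval z‖ ≤ M) :
    ∑ i ∈ range (Q.natDegree + 1), ‖Q.coeff i‖ ^ 2 ≤ 2 * M ^ 2 := by
  have hc : Filter.Tendsto (fun r : ℝ => ∑ i ∈ range (Q.natDegree + 1), ‖Q.coeff i‖ ^ 2 * (r ^ i) ^ 2)
      (nhdsWithin 1 (Set.Iio 1)) (nhds (∑ i ∈ range (Q.natDegree + 1), ‖Q.coeff i‖ ^ 2)) := by
    have : Continuous (fun r : ℝ => ∑ i ∈ range (Q.natDegree + 1), ‖Q.coeff i‖ ^ 2 * (r ^ i) ^ 2) := by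
      fun_prop
    have h1 := this.tendsto 1
    simp only [one_pow, mul_one] at h1
    exact h1.mono_left nhdsWithin_le_nhds
  refine le_of_tendsto hc ?_
  have : ∀ᶠ r : ℝ in nhdsWithin 1 (Set.Iio 1), r ∈ Set.Ioo (0 : ℝ) 1 :=
    Ioo_mem_nhdsLT (by norm_num)
  filter_upwards [this] with r hr
  exact sum_sq_r Q hn hQ M hM r hr.1 hr.2

end Pool.Agent.Helper140.SelfInv.A
end

section
open Finset Real

namespace Pool.Agent.Helper140.SelfInv.B

noncomputable def q {n : ℕ} (θ : Fin n → ℝ) (t : ℝ) : ℝ := ∏ j, sin ((t - θ j) / 2)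

noncomputable def D {n : ℕ} (θ V : Fin n → ℝ) (t : ℝ) : ℝ :=
  ∑ j, (V j / 2 * cos ((t - θ j) / 2)) * ∏ i ∈ univ.erase j, sin ((t - θ i) / 2)

lemma sin_taylor (x h : ℝ) : |sin (x + h) - sin x - h * cos x| ≤ 3 * h ^ 2 := by
  by_cases hh : |h| ≤ 1
  · have e : sin (x + h) - sin x - h * cos x = sin x * (cos h - 1) + cos x * (sin h - h) := by
      rw [sin_add]; ring
    rw [e]
    have h1 : |cos h - 1| ≤ h ^ 2 / 2 := by
      rw [abs_le]
      constructor
      · linarith [Real.one_sub_sq_div_two_le_cos (x := h)]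
      · linarith [Real.cos_le_one h, sq_nonneg h]
    have h2 : |sin h - h| ≤ h ^ 2 := by
      have hb : ∀ y : ℝ, 0 ≤ y → y ≤ 1 → |sin y - y| ≤ y ^ 2 := by
        intro y hy0 hy1
        rcases hy0.eq_or_lt with rfl | hy0
        · simp
        have h3 := Real.sin_gt_sub_cube hy0
        have h4 := Real.sin_lt hy0
        rw [abs_le]
        constructor
        · have : y ^ 3 ≤ y ^ 2 := by nlinarith [mul_pos hy0 hy0]
          nlinarith [mul_pos hy0 hy0]
        · nlinarith [mul_pos hy0 hy0]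
      rcases le_total 0 h with h0 | h0
      · exact hb h h0 (le_trans (le_abs_self h) hh)
      · have := hb (-h) (by linarith) (le_trans (neg_le_abs h) hh)
        rw [sin_neg] at this
        have e2 : -sin h - -h = -(sin h - h) := by ring
        rw [e2, abs_neg] at this
        simpa using this
    calc |sin x * (cos h - 1) + cos x * (sin h - h)|
        ≤ |sin x * (cos h - 1)| + |cos x * (sin h - h)| := abs_add_le _ _
      _ = |sin x| * |cos h - 1| + |cos x| * |sin h - h| := by rw [abs_mul, abs_mul]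
      _ ≤ 1 * (h ^ 2 / 2) + 1 * h ^ 2 := by
          gcongr
          · exact abs_sin_le_one x
          · exact abs_cos_le_one x
      _ ≤ 3 * h ^ 2 := by nlinarith [sq_nonneg h]
  · push Not at hh
    have h1 : |sin (x + h) - sin x - h * cos x| ≤ 1 + 1 + |h| * 1 := by
      calc |sin (x + h) - sin x - h * cos x| ≤ |sin (x + h) - sin x| + |h * cos x| := abs_sub _ _
        _ ≤ |sin (x + h)| + |sin x| + |h * cos x| := by gcongr; exact abs_sub _ _
        _ ≤ 1 + 1 + |h| * 1 := by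
            rw [abs_mul]
            gcongr
            · exact abs_sin_le_one _
            · exact abs_sin_le_one _
            · exact abs_cos_le_one _
    have h2 : h ^ 2 = |h| ^ 2 := (sq_abs h).symm
    rw [h2]
    nlinarith

lemma D_insert {ι : Type*} [DecidableEq ι] (s : Finset ι) (a : ι) (ha : a ∉ s) (u v : ι → ℝ) :
    ∑ j ∈ insert a s, u j * ∏ i ∈ (insert a s).erase j, v i
      = u a * ∏ i ∈ s, v i + v a * ∑ j ∈ s, u j * ∏ i ∈ s.erase j, v i := by
  rw [sum_insert ha, erase_insert ha, mul_sum]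
  congr 1
  refine sum_congr rfl (fun j hj => ?_)
  have hja : j ≠ a := fun h => ha (h ▸ hj)
  rw [erase_insert_of_ne hja.symm, prod_insert (fun h => ha (mem_of_mem_erase h))]
  ring

lemma taylor_aux {ι : Type*} [DecidableEq ι] (θ V : ι → ℝ) (s : Finset ι) :
    ∃ K B : ℝ, 0 ≤ K ∧ 0 ≤ B ∧
      (∀ t : ℝ, |∑ j ∈ s, (V j / 2 * cos ((t - θ j) / 2)) * ∏ i ∈ s.erase j, sin ((t - θ i) / 2)|
        ≤ B) ∧
      ∀ ε t : ℝ, |ε| ≤ 1 →
        |∏ j ∈ s, sin ((t - (θ j - ε * V j)) / 2) - ∏ j ∈ s, sin ((t - θ j) / 2)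
          - ε * ∑ j ∈ s, (V j / 2 * cos ((t - θ j) / 2)) * ∏ i ∈ s.erase j, sin ((t - θ i) / 2)|
          ≤ K * ε ^ 2 := by
  induction s using Finset.induction_on with
  | empty => exact ⟨0, 0, le_rfl, le_rfl, by simp, by simp⟩
  | insert a s ha ih =>
    obtain ⟨K, B, hK, hB, h1, h2⟩ := ih
    refine ⟨|V a| / 2 * B + 3 * V a ^ 2 * (1 + B) + K, |V a| / 2 + B, by positivity,
      by positivity, ?_, ?_⟩
    · intro t
      rw [D_insert s a ha]
      have hp : |∏ i ∈ s, sin ((t - θ i) / 2)| ≤ 1 := by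
        rw [Finset.abs_prod]
        exact Finset.prod_le_one (fun i _ => abs_nonneg _) (fun i _ => abs_sin_le_one _)
      calc _ ≤ |V a / 2 * cos ((t - θ a) / 2) * ∏ i ∈ s, sin ((t - θ i) / 2)| +
            |sin ((t - θ a) / 2) * ∑ j ∈ s, V j / 2 * cos ((t - θ j) / 2) *
              ∏ i ∈ s.erase j, sin ((t - θ i) / 2)| := abs_add_le _ _
        _ ≤ |V a| / 2 * 1 * 1 + 1 * B := by
            rw [abs_mul, abs_mul, abs_mul, abs_div, abs_two]
            gcongr
            · exact abs_cos_le_one _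
            · exact abs_sin_le_one _
            · exact h1 t
        _ = _ := by ring
    · intro ε t hε
      rw [D_insert s a ha, prod_insert ha, prod_insert ha]
      set P := ∏ i ∈ s, sin ((t - θ i) / 2) with hP
      set S := ∑ j ∈ s, V j / 2 * cos ((t - θ j) / 2) * ∏ i ∈ s.erase j, sin ((t - θ i) / 2) with hS
      set Pe := ∏ j ∈ s, sin ((t - (θ j - ε * V j)) / 2) with hPe
      set x := (t - θ a) / 2 with hx
      have ex : (t - (θ a - ε * V a)) / 2 = x + ε * V a / 2 := by rw [hx]; ring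
      rw [ex]
      set r := sin (x + ε * V a / 2) - sin x - ε * V a / 2 * cos x with hr
      have hr1 : |r| ≤ 3 * V a ^ 2 * ε ^ 2 := by
        have := sin_taylor x (ε * V a / 2)
        calc |r| ≤ 3 * (ε * V a / 2) ^ 2 := this
          _ ≤ 3 * V a ^ 2 * ε ^ 2 := by nlinarith [sq_nonneg (ε * V a)]
      have hP1 : |P| ≤ 1 := by
        rw [hP, Finset.abs_prod]
        exact Finset.prod_le_one (fun i _ => abs_nonneg _) (fun i _ => abs_sin_le_one _)
      have hS1 : |S| ≤ B := h1 t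
      have hR := h2 ε t hε
      set R := Pe - P - ε * S with hRdef
      have e : sin (x + ε * V a / 2) * Pe - sin x * P
          - ε * (V a / 2 * cos x * P + sin x * S)
          = ε ^ 2 * (V a / 2 * cos x * S) + r * (P + ε * S) + sin (x + ε * V a / 2) * R := by
        rw [hr, hRdef]; ring
      rw [e]
      have hεS : |P + ε * S| ≤ 1 + B := by
        calc |P + ε * S| ≤ |P| + |ε * S| := abs_add_le _ _
          _ = |P| + |ε| * |S| := by rw [abs_mul]
          _ ≤ 1 + 1 * B := by gcongr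
          _ = 1 + B := by ring
      calc _ ≤ |ε ^ 2 * (V a / 2 * cos x * S) + r * (P + ε * S)| + |sin (x + ε * V a / 2) * R| :=
            abs_add_le _ _
        _ ≤ |ε ^ 2 * (V a / 2 * cos x * S)| + |r * (P + ε * S)| + |sin (x + ε * V a / 2) * R| := by
            gcongr; exact abs_add_le _ _
        _ ≤ ε ^ 2 * (|V a| / 2 * 1 * B) + (3 * V a ^ 2 * ε ^ 2) * (1 + B) + 1 * (K * ε ^ 2) := by
            have a1 : |ε ^ 2 * (V a / 2 * cos x * S)| ≤ ε ^ 2 * (|V a| / 2 * 1 * B) := by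
              rw [abs_mul, abs_of_nonneg (sq_nonneg ε), abs_mul, abs_mul, abs_div, abs_two]
              gcongr
              exact abs_cos_le_one _
            have a2 : |r * (P + ε * S)| ≤ (3 * V a ^ 2 * ε ^ 2) * (1 + B) := by
              rw [abs_mul]
              exact mul_le_mul hr1 hεS (abs_nonneg _) (by positivity)
            have a3 : |sin (x + ε * V a / 2) * R| ≤ 1 * (K * ε ^ 2) := by
              rw [abs_mul]
              exact mul_le_mul (abs_sin_le_one _) hR (abs_nonneg _) zero_le_one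
            linarith
        _ = _ := by ring

lemma taylor {n : ℕ} (θ V : Fin n → ℝ) : ∃ K : ℝ, 0 ≤ K ∧ ∀ ε t : ℝ, |ε| ≤ 1 →
    |q (fun j => θ j - ε * V j) t - q θ t - ε * D θ V t| ≤ K * ε ^ 2 := by
  obtain ⟨K, B, hK, hB, h1, h2⟩ := taylor_aux θ V univ
  exact ⟨K, hK, h2⟩

lemma D_bound {n : ℕ} (θ V : Fin n → ℝ) : ∃ B : ℝ, 0 ≤ B ∧ ∀ t, |D θ V t| ≤ B := by
  obtain ⟨K, B, hK, hB, h1, h2⟩ := taylor_aux θ V univ
  exact ⟨B, hB, h1⟩

lemma q_shift {n : ℕ} (θ : Fin n → ℝ) (t η : ℝ) :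
    q (fun j => θ j - η * (1 : ℝ)) t = q θ (t + η) := by
  unfold q
  refine prod_congr rfl (fun j _ => ?_)
  congr 1; ring

lemma hasDerivAt_q {n : ℕ} (θ : Fin n → ℝ) (t : ℝ) : HasDerivAt (q θ) (D θ (fun _ => 1) t) t := by
  have h : ∀ i ∈ (univ : Finset (Fin n)), HasDerivAt (fun t => sin ((t - θ i) / 2))
      (1 / 2 * cos ((t - θ i) / 2)) t := by
    intro i _
    have h1 : HasDerivAt (fun t : ℝ => (t - θ i) / 2) (1 / 2) t :=
      ((hasDerivAt_id t).sub_const _).div_const 2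
    have := h1.sin
    convert this using 1
    ring
  have h2 := HasDerivAt.fun_finsetProd h
  refine HasDerivAt.congr_deriv (f := q θ) h2 ?_
  unfold D
  refine sum_congr rfl (fun j _ => ?_)
  simp only [smul_eq_mul]
  ring

lemma continuous_q {n : ℕ} (θ : Fin n → ℝ) : Continuous (q θ) := by
  unfold q; fun_prop

lemma continuous_D {n : ℕ} (θ V : Fin n → ℝ) : Continuous (D θ V) := by
  unfold D; fun_prop

/-- weights -/
noncomputable def W {n : ℕ} (θ : Fin n → ℝ) (p : ℝ) (j : Fin n) : ℝ :=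
  cos ((θ j - p) / 2) / sin ((θ j - p) / 2)

lemma D_at_p {n : ℕ} (θ V : Fin n → ℝ) (p : ℝ) (hs : ∀ j, sin ((θ j - p) / 2) ≠ 0) :
    D θ V p = - (1 / 2) * (∑ j, V j * W θ p j) * q θ p := by
  unfold D
  rw [mul_assoc, sum_mul, mul_sum]
  refine sum_congr rfl (fun j _ => ?_)
  have h1 : q θ p = sin ((p - θ j) / 2) * ∏ i ∈ univ.erase j, sin ((p - θ i) / 2) := by
    unfold q
    rw [← mul_prod_erase univ _ (mem_univ j)]
  rw [h1]
  have h2 : cos ((p - θ j) / 2) = - (W θ p j * sin ((p - θ j) / 2)) := by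
    have e : (p - θ j) / 2 = - ((θ j - p) / 2) := by ring
    rw [e, cos_neg, sin_neg]
    unfold W
    field_simp [hs j]
  rw [h2]; ring

lemma D_identity {n : ℕ} (θ : Fin n → ℝ) (p t : ℝ) (hs : ∀ j, sin ((θ j - p) / 2) ≠ 0)
    (hsum : ∑ j, W θ p j = 0) :
    D θ (W θ p) t * sin ((t - p) / 2)
      = D θ (fun _ => 1) t * cos ((t - p) / 2) + (n / 2 : ℝ) * q θ t * sin ((t - p) / 2) := by
  have key : ∀ j, (W θ p j / 2 * cos ((t - θ j) / 2)) * (∏ i ∈ univ.erase j, sin ((t - θ i) / 2)) *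
        sin ((t - p) / 2)
      = (1 / 2 * cos ((t - θ j) / 2)) * (∏ i ∈ univ.erase j, sin ((t - θ i) / 2)) *
        cos ((t - p) / 2) + 1 / 2 * q θ t * sin ((t - p) / 2)
        + W θ p j * (1 / 2 * q θ t * cos ((t - p) / 2)) := by
    intro j
    have h1 : q θ t = sin ((t - θ j) / 2) * ∏ i ∈ univ.erase j, sin ((t - θ i) / 2) := by
      unfold q
      rw [← mul_prod_erase univ _ (mem_univ j)]
    rw [h1]
    set P := ∏ i ∈ univ.erase j, sin ((t - θ i) / 2) with hP
    set x := (t - θ j) / 2 with hx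
    set y := (t - p) / 2 with hy
    have hd : (θ j - p) / 2 = y - x := by rw [hx, hy]; ring
    have hW : W θ p j * sin (y - x) = cos (y - x) := by
      unfold W
      rw [hd, div_mul_cancel₀]
      rw [← hd]; exact hs j
    have hs' : sin (y - x) ≠ 0 := by rw [← hd]; exact hs j
    have id1 : W θ p j * (cos x * sin y - sin x * cos y) = cos x * cos y + sin x * sin y := by
      have : cos x * sin y - sin x * cos y = sin (y - x) := by rw [sin_sub]; ring
      rw [this, hW, cos_sub]; ring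
    linear_combination (P / 2) * id1
  unfold D
  rw [sum_mul, sum_mul]
  have e2 : ∑ j, W θ p j * (1 / 2 * q θ t * cos ((t - p) / 2)) = 0 := by
    rw [← sum_mul, hsum, zero_mul]
  rw [sum_congr rfl (fun j _ => key j), sum_add_distrib, sum_add_distrib, e2, add_zero, ← sum_mul]
  rw [sum_const, card_univ, Fintype.card_fin, nsmul_eq_mul]
  ring

end Pool.Agent.Helper140.SelfInv.B
end

section
open Finset Real

namespace Pool.Agent.Helper140.SelfInv.B

lemma q_periodic {n : ℕ} (hn : Even n) (θ : Fin n → ℝ) : Function.Periodic (q θ) (2 * π) := by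
  intro t
  unfold q
  have h : ∀ j : Fin n, sin ((t + 2 * π - θ j) / 2) = - sin ((t - θ j) / 2) := by
    intro j
    have : (t + 2 * π - θ j) / 2 = (t - θ j) / 2 + π := by ring
    rw [this, sin_add_pi]
  simp_rw [h]
  rw [prod_neg]
  simp [hn]

lemma E_mul_sin {n : ℕ} (θ : Fin n → ℝ) (p t : ℝ) (hs : ∀ j, sin ((θ j - p) / 2) ≠ 0)
    (hsum : ∑ j, W θ p j = 0) :
    (D θ (W θ p) t - (n / 2 : ℝ) * q θ t) * sin ((t - p) / 2)
      = D θ (fun _ => 1) t * cos ((t - p) / 2) := by
  rw [sub_mul, D_identity θ p t hs hsum]; ring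

lemma sum_W_eq_zero {n : ℕ} (θ : Fin n → ℝ) (p : ℝ) (hs : ∀ j, sin ((θ j - p) / 2) ≠ 0)
    (hp0 : q θ p ≠ 0) (hp : D θ (fun _ => 1) p = 0) : ∑ j, W θ p j = 0 := by
  have h := D_at_p θ (fun _ => 1) p hs
  rw [hp] at h
  simp only [one_mul] at h
  by_contra hne
  have : - (1 / 2) * (∑ j, W θ p j) * q θ p ≠ 0 := by
    refine mul_ne_zero (mul_ne_zero (by norm_num) hne) hp0
  exact this h.symm

lemma supE {n : ℕ} (θ : Fin n → ℝ) (M p : ℝ)
    (hM : ∀ t, |q θ t| ≤ M) (hM0 : 0 < M) (hs : ∀ j, sin ((θ j - p) / 2) ≠ 0)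
    (hsum : ∑ j, W θ p j = 0) (hn : 0 < n) (hq : q θ p < 0) :
    ∃ C ε₀ : ℝ, 0 ≤ C ∧ 0 < ε₀ ∧ ∀ ε, 0 < ε → ε < ε₀ → ∀ t, |t - p| ≤ π →
      |q θ t + ε * (D θ (W θ p) t - (n / 2 : ℝ) * q θ t)| ≤ M + C * ε ^ 2 := by
  set E : ℝ → ℝ := fun t => D θ (W θ p) t - (n / 2 : ℝ) * q θ t with hE
  have hEc : Continuous E := (continuous_D _ _).sub (continuous_const.mul (continuous_q _))
  have hEp : 0 < E p := by
    have h1 := D_at_p θ (W θ p) p hs
    have h2 : 0 ≤ ∑ j, W θ p j * W θ p j := Finset.sum_nonneg (fun j _ => mul_self_nonneg _)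
    have hn' : (0 : ℝ) < n := by exact_mod_cast hn
    simp only [hE]
    rw [h1]
    nlinarith
  have hev : ∀ᶠ t in nhds p, 0 < E t ∧ q θ t < 0 :=
    (hEc.continuousAt.eventually_const_lt hEp).and
      ((continuous_q θ).continuousAt.eventually_lt_const hq)
  obtain ⟨δ', hδ'0, hδ'⟩ := Metric.eventually_nhds_iff.1 hev
  set δ := min δ' 1 with hδ
  have hδ0 : 0 < δ := lt_min hδ'0 one_pos
  have hδ1 : δ ≤ 1 := min_le_right _ _
  have hnear : ∀ t, |t - p| < δ → 0 < E t ∧ q θ t < 0 := by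
    intro t ht
    exact hδ' (by rw [Real.dist_eq]; exact lt_of_lt_of_le ht (min_le_left _ _))
  obtain ⟨BE, hBE0, hBE⟩ := D_bound θ (W θ p)
  obtain ⟨K, hK0, hK⟩ := taylor θ (fun _ => (1 : ℝ))
  have hpi : (1 : ℝ) < π := by linarith [Real.pi_gt_three]
  set s₀ := sin (δ / 2) with hs₀
  have hs₀0 : 0 < s₀ := sin_pos_of_pos_of_lt_pi (by linarith) (by linarith)
  set Bc := 1 / s₀ with hBc
  have hBc0 : 0 < Bc := by positivity
  -- bound for E
  set B2 := BE + (n / 2 : ℝ) * M with hB2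
  have hB20 : 0 ≤ B2 := by positivity
  have hEb : ∀ t, |E t| ≤ B2 := by
    intro t
    calc |E t| ≤ |D θ (W θ p) t| + |(n / 2 : ℝ) * q θ t| := abs_sub _ _
      _ ≤ BE + (n / 2 : ℝ) * M := by
        rw [abs_mul, abs_of_nonneg (by positivity : (0 : ℝ) ≤ n / 2)]
        gcongr
        · exact hBE t
        · exact hM t
  refine ⟨K * Bc ^ 2, min (1 / Bc) (M / (B2 + 1)), by positivity, by positivity, ?_⟩
  intro ε hε0 hε1 t ht
  have hε2 : ε * Bc ≤ 1 := by
    have := lt_of_lt_of_le hε1 (min_le_left _ _)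
    rw [lt_div_iff₀ hBc0] at this
    exact this.le
  have hε3 : ε * B2 ≤ M := by
    have := lt_of_lt_of_le hε1 (min_le_right _ _)
    rw [lt_div_iff₀ (by positivity)] at this
    nlinarith
  by_cases hcase : |t - p| < δ
  · obtain ⟨h1, h2⟩ := hnear t hcase
    have h3 := (abs_le.1 (hM t)).1
    have h4 := (abs_le.1 (hEb t)).2
    have h5 : 0 ≤ K * Bc ^ 2 * ε ^ 2 := by positivity
    change |q θ t + ε * E t| ≤ _
    rw [abs_le]
    constructor
    · nlinarith [mul_pos hε0 h1]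
    · nlinarith [mul_le_mul_of_nonneg_left h4 hε0.le]
  · push Not at hcase
    set y := (t - p) / 2 with hy
    have habs : |y| = |t - p| / 2 := by rw [hy, abs_div, abs_two]
    have hsin : s₀ ≤ |sin y| := by
      rw [Real.abs_sin_eq_sin_abs_of_abs_le_pi (by rw [habs]; linarith [abs_nonneg (t - p)])]
      rw [habs]
      apply Real.sin_le_sin_of_le_of_le_pi_div_two
      · linarith [Real.pi_pos]
      · linarith
      · linarith
    have hsy : sin y ≠ 0 := by
      intro h; rw [h, abs_zero] at hsin; linarith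
    set c := cos y / sin y with hc
    have hcb : |c| ≤ Bc := by
      rw [hc, abs_div, hBc]
      exact div_le_div₀ zero_le_one (abs_cos_le_one _) hs₀0 hsin
    have hEc' : E t = D θ (fun _ => 1) t * c := by
      have := E_mul_sin θ p t hs hsum
      change E t * sin y = _ at this
      rw [hc, ← mul_div_assoc, ← this, mul_div_cancel_right₀ _ hsy]
    have hεc : |ε * c| ≤ 1 := by
      rw [abs_mul, abs_of_pos hε0]
      calc ε * |c| ≤ ε * Bc := by gcongr
        _ ≤ 1 := hε2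
    have h6 := hK (ε * c) t hεc
    rw [q_shift] at h6
    have h7 : |q θ t + ε * E t| ≤ |q θ (t + ε * c)| + K * (ε * c) ^ 2 := by
      have e : q θ t + ε * E t = q θ (t + ε * c) -
          (q θ (t + ε * c) - q θ t - ε * c * D θ (fun _ => 1) t) := by
        rw [hEc']; ring
      rw [e]
      calc _ ≤ |q θ (t + ε * c)| + |q θ (t + ε * c) - q θ t - ε * c * D θ (fun _ => 1) t| :=
            abs_sub _ _
        _ ≤ _ := by gcongr
    have h8 : (ε * c) ^ 2 ≤ Bc ^ 2 * ε ^ 2 := by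
      have : (ε * c) ^ 2 = ε ^ 2 * |c| ^ 2 := by rw [sq_abs]; ring
      rw [this]
      have : |c| ^ 2 ≤ Bc ^ 2 := pow_le_pow_left₀ (abs_nonneg _) hcb 2
      nlinarith [sq_nonneg ε]
    change |q θ t + ε * E t| ≤ _
    calc |q θ t + ε * E t| ≤ |q θ (t + ε * c)| + K * (ε * c) ^ 2 := h7
      _ ≤ M + K * (Bc ^ 2 * ε ^ 2) := by
        gcongr
        exact hM _
      _ = _ := by ring

lemma intE {n : ℕ} (hev : Even n) (θ : Fin n → ℝ) (p : ℝ) (hs : ∀ j, sin ((θ j - p) / 2) ≠ 0)
    (hsum : ∑ j, W θ p j = 0) (hmin : ∀ t, q θ p ≤ q θ t) (hd : D θ (fun _ => 1) p = 0) :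
    (1 / 2) * ∫ t in p..(p + 2 * π), (q θ t - q θ p) ≤
      ∫ t in p..(p + 2 * π), (D θ (W θ p) t - (n / 2 : ℝ) * q θ t) := by
  set E : ℝ → ℝ := fun t => D θ (W θ p) t - (n / 2 : ℝ) * q θ t with hE
  have hEc : Continuous E := (continuous_D _ _).sub (continuous_const.mul (continuous_q _))
  have hqc := continuous_q θ
  set F : ℝ → ℝ := fun t => E t - (1 / 2) * (q θ t - q θ p) with hF
  have hFc : Continuous F := hEc.sub (continuous_const.mul (hqc.sub continuous_const))
  obtain ⟨K, hK0, hK⟩ := taylor θ (fun _ => (1 : ℝ))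
  have hpi : (3 : ℝ) < π := Real.pi_gt_three
  -- lower bound on truncated integral
  have key : ∀ δ : ℝ, 0 < δ → δ < 1 → -(2 * π * K * δ) ≤ ∫ t in (p + δ)..(p + 2 * π - δ), F t := by
    intro δ hδ0 hδ1
    set a := p + δ with ha
    set b := p + 2 * π - δ with hb
    have hab : a ≤ b := by rw [ha, hb]; linarith
    have hsinpos : ∀ t ∈ Set.uIcc a b, 0 < sin ((t - p) / 2) := by
      intro t ht
      rw [Set.uIcc_of_le hab] at ht
      apply sin_pos_of_pos_of_lt_pi
      · linarith [ht.1]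
      · linarith [ht.2]
    set Φ : ℝ → ℝ := fun t => (q θ t - q θ p) * (cos ((t - p) / 2) / sin ((t - p) / 2)) with hΦ
    set Φ' : ℝ → ℝ := fun t => E t - (q θ t - q θ p) / (2 * sin ((t - p) / 2) ^ 2) with hΦ'
    have hder : ∀ t ∈ Set.uIcc a b, HasDerivAt Φ (Φ' t) t := by
      intro t ht
      have hsp := hsinpos t ht
      have h1 : HasDerivAt (fun t : ℝ => (t - p) / 2) (1 / 2) t :=
        ((hasDerivAt_id t).sub_const _).div_const 2
      have h2 := (h1.cos.div h1.sin hsp.ne')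
      have h3 := ((hasDerivAt_q θ t).sub_const (q θ p)).mul h2
      refine h3.congr_deriv ?_
      simp only [hΦ', Pi.div_apply]
      have h4 := E_mul_sin θ p t hs hsum
      change E t * sin ((t - p) / 2) = _ at h4
      have h5 : E t = D θ (fun _ => 1) t * (cos ((t - p) / 2) / sin ((t - p) / 2)) := by
        rw [← mul_div_assoc, ← h4, mul_div_cancel_right₀ _ hsp.ne']
      rw [h5]
      have h6 : cos ((t - p) / 2) ^ 2 = 1 - sin ((t - p) / 2) ^ 2 := by
        rw [Real.cos_sq']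
      have e1 : -sin ((t - p) / 2) * (1 / 2) * sin ((t - p) / 2)
          - cos ((t - p) / 2) * (cos ((t - p) / 2) * (1 / 2)) = -(1 / 2) := by
        linear_combination (-1 / 2) * h6
      rw [e1]
      have hsne := hsp.ne'
      field_simp
      ring
    have hcontΦ' : ContinuousOn Φ' (Set.uIcc a b) := by
      apply ContinuousOn.sub hEc.continuousOn
      apply ContinuousOn.div (by fun_prop) (by fun_prop)
      intro t ht
      have := hsinpos t ht
      positivity
    have hint := intervalIntegral.integral_eq_sub_of_hasDerivAt hder hcontΦ'.intervalIntegrable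
    have hle : ∫ t in a..b, Φ' t ≤ ∫ t in a..b, F t := by
      apply intervalIntegral.integral_mono_on hab hcontΦ'.intervalIntegrable
        (hFc.intervalIntegrable _ _)
      intro t ht
      have hsp := hsinpos t (by rw [Set.uIcc_of_le hab]; exact ht)
      have hu : 0 ≤ q θ t - q θ p := sub_nonneg.2 (hmin t)
      have h1 : sin ((t - p) / 2) ^ 2 ≤ 1 := by
        have := sin_sq_le_one ((t - p) / 2); exact this
      simp only [hΦ', hF]
      have h2 : (1 / 2) * (q θ t - q θ p) ≤ (q θ t - q θ p) / (2 * sin ((t - p) / 2) ^ 2) := by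
        rw [le_div_iff₀ (by positivity)]
        nlinarith
      linarith
    refine le_trans ?_ hle
    rw [hint]
    have hy1 : (a - p) / 2 = δ / 2 := by rw [ha]; ring
    have hy2 : (b - p) / 2 = π - δ / 2 := by rw [hb]; ring
    have hqb : q θ b = q θ (p + (-δ)) := by
      have := q_periodic hev θ (p + (-δ))
      rw [← this]; congr 1; rw [hb]; ring
    have hqa : q θ a = q θ (p + δ) := by rw [ha]
    simp only [hΦ, hy1, hy2, Real.cos_pi_sub, Real.sin_pi_sub, hqb, hqa]
    have hs2 : δ / π ≤ sin (δ / 2) := by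
      have := Real.mul_le_sin (x := δ / 2) (by linarith) (by linarith)
      calc δ / π = 2 / π * (δ / 2) := by ring
        _ ≤ _ := this
    have hs3 : 0 < sin (δ / 2) := lt_of_lt_of_le (by positivity) hs2
    have hcot : cos (δ / 2) / sin (δ / 2) ≤ π / δ := by
      rw [div_le_div_iff₀ hs3 hδ0]
      have h1 := Real.cos_le_one (δ / 2)
      have h2 : δ ≤ π * sin (δ / 2) := by
        rw [div_le_iff₀ (by linarith)] at hs2; linarith
      nlinarith
    have hcot0 : 0 ≤ cos (δ / 2) / sin (δ / 2) := by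
      apply div_nonneg _ hs3.le
      apply Real.cos_nonneg_of_neg_pi_div_two_le_of_le <;> linarith
    have hu1 : q θ (p + δ) - q θ p ≤ K * δ ^ 2 := by
      have := hK δ p (by rw [abs_of_pos hδ0]; exact hδ1.le)
      rw [q_shift, hd, mul_zero, sub_zero] at this
      exact (abs_le.1 this).2
    have hu2 : q θ (p + (-δ)) - q θ p ≤ K * δ ^ 2 := by
      have := hK (-δ) p (by rw [abs_neg, abs_of_pos hδ0]; exact hδ1.le)
      rw [q_shift, hd, mul_zero, sub_zero, neg_sq] at this
      exact (abs_le.1 this).2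
    have hu3 : 0 ≤ q θ (p + δ) - q θ p := sub_nonneg.2 (hmin _)
    have hu4 : 0 ≤ q θ (p + (-δ)) - q θ p := sub_nonneg.2 (hmin _)
    have e1 : (q θ (p + -δ) - q θ p) * (-cos (δ / 2) / sin (δ / 2)) -
        (q θ (p + δ) - q θ p) * (cos (δ / 2) / sin (δ / 2))
        = -((cos (δ / 2) / sin (δ / 2)) *
          ((q θ (p + -δ) - q θ p) + (q θ (p + δ) - q θ p))) := by ring
    rw [e1]
    have e2 : (cos (δ / 2) / sin (δ / 2)) *
          ((q θ (p + -δ) - q θ p) + (q θ (p + δ) - q θ p)) ≤ (π / δ) * (2 * (K * δ ^ 2)) := by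
      apply mul_le_mul hcot (by linarith) (by linarith) (by positivity)
    have e3 : (π / δ) * (2 * (K * δ ^ 2)) = 2 * π * K * δ := by field_simp
    linarith
  have hlim : Filter.Tendsto (fun δ : ℝ => ∫ t in (p + δ)..(p + 2 * π - δ), F t)
      (nhdsWithin 0 (Set.Ioi 0)) (nhds (∫ t in p..(p + 2 * π), F t)) := by
    have hc : Continuous (fun δ : ℝ => ∫ t in (p + δ)..(p + 2 * π - δ), F t) := by
      have : (fun δ : ℝ => ∫ t in (p + δ)..(p + 2 * π - δ), F t) =
          fun δ : ℝ => (∫ t in (0:ℝ)..(p + 2 * π - δ), F t) - ∫ t in (0:ℝ)..(p + δ), F t := by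
        funext δ
        rw [intervalIntegral.integral_interval_sub_left (hFc.intervalIntegrable _ _)
          (hFc.intervalIntegrable _ _)]
      rw [this]
      have hprim : Continuous (fun x : ℝ => ∫ t in (0:ℝ)..x, F t) :=
        intervalIntegral.continuous_primitive (fun a b => hFc.intervalIntegrable a b) 0
      exact (hprim.comp (by fun_prop)).sub (hprim.comp (by fun_prop))
    have := hc.tendsto 0
    simp only [add_zero, sub_zero] at this
    exact this.mono_left nhdsWithin_le_nhds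
  have hlim2 : Filter.Tendsto (fun δ : ℝ => -(2 * π * K * δ))
      (nhdsWithin 0 (Set.Ioi 0)) (nhds 0) := by
    have hc : Continuous (fun δ : ℝ => -(2 * π * K * δ)) := by fun_prop
    have := hc.tendsto 0
    simp only [mul_zero, neg_zero] at this
    exact this.mono_left nhdsWithin_le_nhds
  have hge : 0 ≤ ∫ t in p..(p + 2 * π), F t := by
    refine le_of_tendsto_of_tendsto hlim2 hlim ?_
    have : ∀ᶠ δ : ℝ in nhdsWithin 0 (Set.Ioi 0), δ ∈ Set.Ioo (0 : ℝ) 1 :=
      Ioo_mem_nhdsGT (by norm_num)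
    filter_upwards [this] with δ hδ
    exact key δ hδ.1 hδ.2
  have hsplit : ∫ t in p..(p + 2 * π), F t = (∫ t in p..(p + 2 * π), E t)
      - (1 / 2) * ∫ t in p..(p + 2 * π), (q θ t - q θ p) := by
    have hgc : Continuous (fun t => (1 / 2) * (q θ t - q θ p)) :=
      continuous_const.mul (hqc.sub continuous_const)
    rw [← intervalIntegral.integral_const_mul, ← intervalIntegral.integral_sub
      (hEc.intervalIntegrable _ _) (hgc.intervalIntegrable _ _)]
  rw [hsplit] at hge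
  linarith

end Pool.Agent.Helper140.SelfInv.B
end

section
open Finset Real

namespace Pool.Agent.Helper140.SelfInv.B

lemma perturb_contra {n : ℕ} (hev : Even n) (hn : 0 < n) (θ : Fin n → ℝ) (M lam p : ℝ)
    (hM : ∀ t, |q θ t| ≤ M) (hM0 : 0 < M) (hlam : 0 < lam)
    (hI : ∫ t in (0:ℝ)..(2 * π), q θ t = lam * M)
    (hmax : ∀ (θ' : Fin n → ℝ) (M' : ℝ), (∀ t, |q θ' t| ≤ M') →
      ∫ t in (0:ℝ)..(2 * π), q θ' t ≤ lam * M')
    (hmin : ∀ t, q θ p ≤ q θ t) (hq : q θ p < 0) : False := by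
  have hs : ∀ j, sin ((θ j - p) / 2) ≠ 0 := by
    intro j hj
    have h1 : sin ((p - θ j) / 2) = 0 := by
      have : (p - θ j) / 2 = - ((θ j - p) / 2) := by ring
      rw [this, sin_neg, hj, neg_zero]
    have : q θ p = 0 := by
      unfold q; exact Finset.prod_eq_zero (mem_univ j) h1
    linarith
  have hd : D θ (fun _ => 1) p = 0 := by
    have hloc : IsLocalMin (q θ) p := Filter.Eventually.of_forall hmin
    exact hloc.hasDerivAt_eq_zero (hasDerivAt_q θ p)
  have hsum := sum_W_eq_zero θ p hs hq.ne hd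
  obtain ⟨C, ε₀, hC, hε₀, hsup⟩ := supE θ M p hM hM0 hs hsum hn hq
  have hint := intE hev θ p hs hsum hmin hd
  obtain ⟨K, hK0, hK⟩ := taylor θ (W θ p)
  have hpi : (0 : ℝ) < π := Real.pi_pos
  set V := W θ p with hV
  set E : ℝ → ℝ := fun t => D θ V t - (n / 2 : ℝ) * q θ t with hE
  have hEc : Continuous E := (continuous_D _ _).sub (continuous_const.mul (continuous_q _))
  have hper := q_periodic hev θ
  have hI' : ∫ t in p..(p + 2 * π), q θ t = lam * M := by
    rw [← hI]
    have := hper.intervalIntegral_add_eq p 0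
    simpa using this
  set e₀ := ∫ t in p..(p + 2 * π), E t with he₀
  have he₀pos : 0 < e₀ := by
    have h1 : ∫ t in p..(p + 2 * π), (q θ t - q θ p) = lam * M - 2 * π * q θ p := by
      rw [intervalIntegral.integral_sub ((continuous_q θ).intervalIntegrable _ _)
        (intervalIntegrable_const), hI', intervalIntegral.integral_const]
      simp
    rw [h1] at hint
    have h2 : 0 < lam * M := mul_pos hlam hM0
    have h3 : 0 < - (2 * π * q θ p) := by nlinarith
    linarith
  set C2 := (1 + (n / 2 : ℝ)) * C + K with hC2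
  have hC20 : 0 ≤ C2 := by positivity
  -- the inequality for small ε
  have main : ∀ ε, 0 < ε → ε < ε₀ → ε ≤ 1 → ε * e₀ ≤ (2 * π * K + lam * C2) * ε ^ 2 := by
    intro ε hε0 hε1 hε2
    set θ' : Fin n → ℝ := fun j => θ j - ε * V j with hθ'
    set a : ℝ := 1 + (n / 2 : ℝ) * ε with ha
    have ha1 : 1 ≤ a := by rw [ha]; have : 0 ≤ (n / 2 : ℝ) * ε := by positivity
                           linarith
    have ha0 : 0 < a := by linarith
    have hKε := fun t => hK ε t (by rw [abs_of_pos hε0]; exact hε2)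
    have hbound : ∀ t, |t - p| ≤ π → |q θ' t| ≤ a * M + C2 * ε ^ 2 := by
      intro t ht
      have h1 := hKε t
      set ε' := ε / a with hε'
      have hε'0 : 0 < ε' := by positivity
      have hε'1 : ε' ≤ ε := div_le_self hε0.le ha1
      have h2 := hsup ε' hε'0 (lt_of_le_of_lt hε'1 hε1) t ht
      change |q θ t + ε' * E t| ≤ _ at h2
      have e1 : q θ t + ε * D θ V t = a * (q θ t + ε' * E t) := by
        have : a * ε' = ε := by rw [hε']; field_simp
        have e2 : D θ V t = E t + (n / 2 : ℝ) * q θ t := by simp [hE]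
        rw [e2, mul_add a, ← mul_assoc a, this, ha]; ring
      have e3 : q θ' t = (q θ' t - q θ t - ε * D θ V t) + a * (q θ t + ε' * E t) := by
        rw [← e1]; ring
      rw [e3]
      have h3 : ε' ^ 2 ≤ ε ^ 2 := pow_le_pow_left₀ hε'0.le hε'1 2
      have h4 : a ≤ 1 + (n / 2 : ℝ) := by
        rw [ha]; have : (n / 2 : ℝ) * ε ≤ (n / 2 : ℝ) * 1 := by gcongr
        linarith
      calc _ ≤ |q θ' t - q θ t - ε * D θ V t| + |a * (q θ t + ε' * E t)| := abs_add_le _ _
        _ ≤ K * ε ^ 2 + a * (M + C * ε' ^ 2) := by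
          rw [abs_mul, abs_of_pos ha0]
          gcongr
        _ = K * ε ^ 2 + a * M + a * (C * ε' ^ 2) := by ring
        _ ≤ K * ε ^ 2 + a * M + (1 + (n / 2 : ℝ)) * (C * ε ^ 2) := by
          gcongr
        _ = a * M + C2 * ε ^ 2 := by rw [hC2]; ring
    have hper' := q_periodic hev θ'
    have hbound' : ∀ t, |q θ' t| ≤ a * M + C2 * ε ^ 2 := by
      intro t
      obtain ⟨y, hy, hyt⟩ := hper'.exists_mem_Ico (by positivity) t (p - π)
      rw [hyt]
      apply hbound
      rw [abs_le]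
      constructor
      · linarith [hy.1]
      · linarith [hy.2]
    have h5 := hmax θ' _ hbound'
    have h6 : ∫ t in (0:ℝ)..(2 * π), q θ' t = ∫ t in p..(p + 2 * π), q θ' t := by
      have := hper'.intervalIntegral_add_eq p 0
      rw [this]; simp
    have h7 : ∫ t in p..(p + 2 * π), (q θ t + ε * D θ V t - K * ε ^ 2)
        ≤ ∫ t in p..(p + 2 * π), q θ' t := by
      apply intervalIntegral.integral_mono_on (by linarith)
      · exact (((continuous_q θ).add (continuous_const.mul (continuous_D θ V))).sub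
          continuous_const).intervalIntegrable _ _
      · exact (continuous_q θ').intervalIntegrable _ _
      · intro t _
        have := (abs_le.1 (hKε t)).1
        change - (K * ε ^ 2) ≤ q θ' t - q θ t - ε * D θ V t at this
        linarith
    have h8 : ∫ t in p..(p + 2 * π), (q θ t + ε * D θ V t - K * ε ^ 2)
        = a * (lam * M) + ε * e₀ - 2 * π * K * ε ^ 2 := by
      have e4 : ∀ t, q θ t + ε * D θ V t - K * ε ^ 2 = a * q θ t + ε * E t - K * ε ^ 2 := by
        intro t; simp only [hE, ha]; ring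
      simp_rw [e4]
      rw [intervalIntegral.integral_sub, intervalIntegral.integral_add,
        intervalIntegral.integral_const_mul, intervalIntegral.integral_const_mul, hI',
        intervalIntegral.integral_const]
      · simp; ring
      · exact (continuous_const.mul (continuous_q θ)).intervalIntegrable _ _
      · exact (continuous_const.mul hEc).intervalIntegrable _ _
      · exact ((continuous_const.mul (continuous_q θ)).add
          (continuous_const.mul hEc)).intervalIntegrable _ _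
      · exact intervalIntegrable_const
    rw [h6] at h5
    rw [h8] at h7
    nlinarith
  -- choose ε
  set L := 2 * π * K + lam * C2 with hL
  have hL0 : 0 ≤ L := by positivity
  set ε := min (min (ε₀ / 2) 1) (e₀ / (2 * (L + 1))) with hε
  have hε0 : 0 < ε := by
    apply lt_min (lt_min (by linarith) one_pos)
    positivity
  have hε1 : ε < ε₀ := lt_of_le_of_lt (le_trans (min_le_left _ _) (min_le_left _ _)) (by linarith)
  have hε2 : ε ≤ 1 := le_trans (min_le_left _ _) (min_le_right _ _)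
  have hε3 : ε ≤ e₀ / (2 * (L + 1)) := min_le_right _ _
  have h := main ε hε0 hε1 hε2
  rw [le_div_iff₀ (by positivity)] at hε3
  have h9 : e₀ ≤ L * ε := by
    have : ε * e₀ ≤ ε * (L * ε) := by linarith [h, show L * ε ^ 2 = ε * (L * ε) by ring]
    exact le_of_mul_le_mul_left this hε0
  nlinarith

end Pool.Agent.Helper140.SelfInv.B
end

section
open Finset Real

namespace Pool.Agent.Helper140.SelfInv.B

noncomputable def qm (m : Multiset ℝ) (t : ℝ) : ℝ := (m.map (fun a => sin ((t - a) / 2))).prod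

lemma qm_cons (a : ℝ) (m : Multiset ℝ) (t : ℝ) :
    qm (a ::ₘ m) t = sin ((t - a) / 2) * qm m t := by
  simp [qm]

lemma continuous_qm (m : Multiset ℝ) : Continuous (qm m) := by
  induction m using Multiset.induction_on with
  | empty =>
    have : qm 0 = fun _ => 1 := by funext t; simp [qm]
    rw [this]; exact continuous_const
  | cons a m ih =>
    have : qm (a ::ₘ m) = fun t => sin ((t - a) / 2) * qm m t := by funext t; exact qm_cons a m t
    rw [this]; fun_prop

lemma qm_zero_mem (m : Multiset ℝ) (t : ℝ) (h : qm m t = 0) : ∃ b ∈ m, sin ((t - b) / 2) = 0 := by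
  unfold qm at h
  rw [Multiset.prod_eq_zero_iff] at h
  simpa using h

lemma countable_zero (a : ℝ) : {t : ℝ | sin ((t - a) / 2) = 0}.Countable := by
  have : {t : ℝ | sin ((t - a) / 2) = 0} ⊆ Set.range (fun k : ℤ => a + 2 * (k * π)) := by
    intro t ht
    obtain ⟨k, hk⟩ := Real.sin_eq_zero_iff.1 ht
    exact ⟨k, by simp only; linarith⟩
  exact (Set.countable_range _).mono this

lemma pairing (d : ℕ) : ∀ (m : Multiset ℝ) (σ : ℝ), σ ≠ 0 → m.card = 2 * d →
    (∀ t, 0 ≤ σ * qm m t) →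
    ∃ s : Multiset ℝ, s.card = d ∧ ∀ t, |qm m t| = (s.map (fun a => sin ((t - a) / 2) ^ 2)).prod := by
  induction d with
  | zero =>
    intro m σ _ hc _
    have : m = 0 := Multiset.card_eq_zero.1 (by simpa using hc)
    subst this
    exact ⟨0, by simp, by intro t; simp [qm]⟩
  | succ d ih =>
    intro m σ hσ hc hnn
    obtain ⟨a, m', rfl⟩ : ∃ a m', m = a ::ₘ m' := by
      have : 0 < m.card := by omega
      obtain ⟨a, ha⟩ := Multiset.card_pos_iff_exists_mem.1 this
      obtain ⟨m', hm'⟩ := Multiset.exists_cons_of_mem ha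
      exact ⟨a, m', hm'⟩
    have hc' : m'.card = 2 * d + 1 := by rw [Multiset.card_cons] at hc; omega
    -- F' (a) = 0
    have hFa : qm m' a = 0 := by
      by_contra hne
      -- derivative at a of the product
      have hmin : IsLocalMin (fun t => σ * qm (a ::ₘ m') t) a := by
        apply Filter.Eventually.of_forall
        intro t
        have h0 : qm (a ::ₘ m') a = 0 := by rw [qm_cons]; simp
        simp only [h0, mul_zero]
        exact hnn t
      have hder : HasDerivAt (fun t => σ * qm (a ::ₘ m') t) (σ * (1 / 2 * qm m' a)) a := by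
        have e : (fun t => σ * qm (a ::ₘ m') t) = fun t => σ * (sin ((t - a) / 2) * qm m' t) := by
          funext t; rw [qm_cons]
        rw [e]
        have h1 : HasDerivAt (fun t : ℝ => sin ((t - a) / 2)) (1 / 2) a := by
          have h2 : HasDerivAt (fun t : ℝ => (t - a) / 2) (1 / 2) a :=
            ((hasDerivAt_id a).sub_const _).div_const 2
          have h3 := h2.sin
          simpa using h3
        have h4 : HasDerivAt (fun t : ℝ => sin ((t - a) / 2) * qm m' t) (1 / 2 * qm m' a) a := by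
          rw [hasDerivAt_iff_isLittleO_nhds_zero] at h1 ⊢
          have hcont := (continuous_qm m').continuousAt (x := a)
          have h0 : sin ((a - a) / 2) = 0 := by simp
          simp only [h0, sub_zero, zero_mul, smul_eq_mul] at h1 ⊢
          have e5 : (fun h : ℝ => sin ((a + h - a) / 2) * qm m' (a + h) - h * (1 / 2 * qm m' a))
              = fun h : ℝ => (sin ((a + h - a) / 2) - h * (1 / 2)) * qm m' (a + h)
                + h * (1 / 2 * (qm m' (a + h) - qm m' a)) := by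
            funext h; ring
          rw [e5]
          have hc0 : Filter.Tendsto (fun h : ℝ => qm m' (a + h)) (nhds 0) (nhds (qm m' a)) := by
            have := hcont.tendsto
            have h6 : Filter.Tendsto (fun h : ℝ => a + h) (nhds 0) (nhds a) := by
              have : Continuous (fun h : ℝ => a + h) := by fun_prop
              simpa using this.tendsto 0
            exact this.comp h6
          apply Asymptotics.IsLittleO.add
          · have hb : (fun h : ℝ => qm m' (a + h)) =O[nhds 0] (fun _ => (1 : ℝ)) :=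
              hc0.isBigO_one ℝ
            have := h1.mul_isBigO hb
            simpa using this
          · have hz : (fun h : ℝ => 1 / 2 * (qm m' (a + h) - qm m' a)) =o[nhds 0]
                (fun _ => (1 : ℝ)) := by
              rw [Asymptotics.isLittleO_one_iff]
              have := (hc0.sub_const (qm m' a)).const_mul (1 / 2)
              simpa using this
            have := (Asymptotics.isBigO_refl (fun h : ℝ => h) (nhds 0)).mul_isLittleO hz
            simpa using this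
        exact h4.const_mul σ
      have := hmin.hasDerivAt_eq_zero hder
      have h2 : (1 / 2 * qm m' a) ≠ 0 := mul_ne_zero (by norm_num) hne
      exact (mul_ne_zero hσ h2) this
    obtain ⟨b, hb, hsb⟩ := qm_zero_mem m' a hFa
    obtain ⟨m'', rfl⟩ := Multiset.exists_cons_of_mem hb
    obtain ⟨k, hk⟩ := Real.sin_eq_zero_iff.1 hsb
    -- sin ((t-b)/2) = (-1)^k sin((t-a)/2)
    have hsin : ∀ t, sin ((t - b) / 2) = (-1 : ℝ) ^ k * sin ((t - a) / 2) := by
      intro t
      have : (t - b) / 2 = (t - a) / 2 + k * π := by rw [hk]; ring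
      rw [this, Real.sin_add_int_mul_pi]
    have hsgn : ((-1 : ℝ) ^ k) ≠ 0 := by
      apply zpow_ne_zero; norm_num
    have habs : |((-1 : ℝ) ^ k)| = 1 := by
      rw [abs_zpow, abs_neg, abs_one, one_zpow]
    have hprod : ∀ t, qm (a ::ₘ b ::ₘ m'') t = (-1 : ℝ) ^ k * sin ((t - a) / 2) ^ 2 * qm m'' t := by
      intro t
      rw [qm_cons, qm_cons, hsin t]; ring
    have hnn' : ∀ t, 0 ≤ (σ * (-1 : ℝ) ^ k) * qm m'' t := by
      have hclosed : IsClosed {t : ℝ | 0 ≤ (σ * (-1 : ℝ) ^ k) * qm m'' t} :=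
        isClosed_le continuous_const (continuous_const.mul (continuous_qm m''))
      have hdense : Dense ({t : ℝ | sin ((t - a) / 2) = 0}ᶜ) :=
        (countable_zero a).dense_compl ℝ
      have hsub : {t : ℝ | sin ((t - a) / 2) = 0}ᶜ ⊆ {t : ℝ | 0 ≤ (σ * (-1 : ℝ) ^ k) * qm m'' t} := by
        intro t ht
        have hne : sin ((t - a) / 2) ≠ 0 := ht
        have h1 := hnn t
        rw [hprod t] at h1
        have h2 : 0 < sin ((t - a) / 2) ^ 2 := by positivity
        have h3 : σ * ((-1 : ℝ) ^ k * sin ((t - a) / 2) ^ 2 * qm m'' t)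
          = sin ((t - a) / 2) ^ 2 * ((σ * (-1 : ℝ) ^ k) * qm m'' t) := by ring
        rw [h3] at h1
        exact nonneg_of_mul_nonneg_right h1 h2
      intro t
      have : closure ({t : ℝ | sin ((t - a) / 2) = 0}ᶜ) ⊆ {t : ℝ | 0 ≤ (σ * (-1 : ℝ) ^ k) * qm m'' t} :=
        closure_minimal hsub hclosed
      exact this (hdense t)
    obtain ⟨s, hs1, hs2⟩ := ih m'' (σ * (-1 : ℝ) ^ k) (mul_ne_zero hσ hsgn)
      (by rw [Multiset.card_cons] at hc'; omega) hnn'
    refine ⟨a ::ₘ s, by rw [Multiset.card_cons, hs1], ?_⟩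
    intro t
    rw [hprod t, abs_mul, abs_mul, habs, one_mul, hs2 t, Multiset.map_cons, Multiset.prod_cons,
      abs_of_nonneg (sq_nonneg _)]

lemma norm_exp_sub (t a : ℝ) :
    ‖Complex.exp (t * Complex.I) - Complex.exp (a * Complex.I)‖ ^ 2 = 4 * sin ((t - a) / 2) ^ 2 := by
  rw [Pool.Agent.Helper140.SelfInv.A.nsq, Complex.sub_re, Complex.sub_im, Complex.exp_ofReal_mul_I_re,
    Complex.exp_ofReal_mul_I_re, Complex.exp_ofReal_mul_I_im, Complex.exp_ofReal_mul_I_im]
  have h1 : cos (t - a) = 1 - 2 * sin ((t - a) / 2) ^ 2 := by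
    have := Real.cos_two_mul ((t - a) / 2)
    have e : 2 * ((t - a) / 2) = t - a := by ring
    rw [e] at this
    rw [this, Real.cos_sq']; ring
  have h2 := Real.cos_sub t a
  have h3 := Real.sin_sq_add_cos_sq t
  have h4 := Real.sin_sq_add_cos_sq a
  nlinarith

end Pool.Agent.Helper140.SelfInv.B
end

section
open Finset Real

namespace Pool.Agent.Helper140.SelfInv.B

open Pool.Agent.Helper140.SelfInv.A

noncomputable def HH (s : Multiset ℝ) : Polynomial ℂ :=
  ((s.map (fun a : ℝ => Complex.exp (a * Complex.I))).map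
    (fun ζ => Polynomial.X - Polynomial.C ζ)).prod

lemma HH_norm (s : Multiset ℝ) (t : ℝ) :
    ‖(HH s).eval (Complex.exp (t * Complex.I))‖ ^ 2
      = 4 ^ s.card * (s.map (fun a => sin ((t - a) / 2) ^ 2)).prod := by
  induction s using Multiset.induction_on with
  | empty => simp [HH]
  | cons a s ih =>
    have : HH (a ::ₘ s) = (Polynomial.X - Polynomial.C (Complex.exp (a * Complex.I))) * HH s := by
      simp [HH]
    rw [this, Polynomial.eval_mul, norm_mul, mul_pow, ih, Multiset.card_cons, Multiset.map_cons,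
      Multiset.prod_cons, Polynomial.eval_sub, Polynomial.eval_X, Polynomial.eval_C, norm_exp_sub]
    ring

lemma HH_natDegree (s : Multiset ℝ) : (HH s).natDegree = s.card := by
  unfold HH
  rw [Polynomial.natDegree_multiset_prod_X_sub_C_eq_card, Multiset.card_map]

lemma HH_roots (s : Multiset ℝ) : ∀ ζ ∈ (HH s).roots, ‖ζ‖ = 1 := by
  intro ζ hζ
  unfold HH at hζ
  rw [Polynomial.roots_multiset_prod_X_sub_C, Multiset.mem_map] at hζ
  obtain ⟨a, _, rfl⟩ := hζ
  exact Complex.norm_exp_ofReal_mul_I a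

lemma exists_arg (z : ℂ) (hz : ‖z‖ = 1) : ∃ t : ℝ, Complex.exp (t * Complex.I) = z := by
  refine ⟨z.arg, ?_⟩
  have := Complex.norm_mul_exp_arg_mul_I z
  rwa [hz, Complex.ofReal_one, one_mul] at this

lemma nonneg_bound (s : Multiset ℝ) (hd : 0 < s.card) (M : ℝ)
    (hM : ∀ t : ℝ, (s.map (fun a => sin ((t - a) / 2) ^ 2)).prod ≤ M) :
    ∫ t in (0:ℝ)..(2 * π), (s.map (fun a => sin ((t - a) / 2) ^ 2)).prod ≤ π * M := by
  have hpos : ∀ t : ℝ, 0 ≤ (s.map (fun a => sin ((t - a) / 2) ^ 2)).prod := by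
    intro t
    apply Multiset.prod_nonneg
    intro x hx
    obtain ⟨a, _, rfl⟩ := Multiset.mem_map.1 hx
    positivity
  have hM0 : 0 ≤ M := le_trans (hpos 0) (hM 0)
  set N := Real.sqrt (4 ^ s.card * M) with hN
  have hN0 : 0 ≤ N := Real.sqrt_nonneg _
  have hN2 : N ^ 2 = 4 ^ s.card * M := Real.sq_sqrt (by positivity)
  have hH : ∀ z : ℂ, ‖z‖ = 1 → ‖(HH s).eval z‖ ≤ N := by
    intro z hz
    obtain ⟨t, rfl⟩ := exists_arg z hz
    apply Real.le_sqrt_of_sq_le
    rw [HH_norm]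
    exact mul_le_mul_of_nonneg_left (hM t) (by positivity)
  have hdeg : 0 < (HH s).natDegree := by rw [HH_natDegree]; exact hd
  have hS : ∀ z : ℂ, ‖z‖ = 1 → ‖(SP (HH s)).eval z‖ ≤ N / 2 :=
    fun z hz => SP_norm_le_half (HH s) hdeg (HH_roots s) N hH z hz
  have h1 := sum_sq_le (HH s) hdeg (HH_roots s) (N / 2) hS
  rw [parseval_range (HH s) _ (Nat.lt_succ_self _)] at h1
  rw [Real.circleAverage] at h1
  have h2 : ∀ t : ℝ, ‖(HH s).eval (circleMap 0 1 t)‖ ^ 2
      = 4 ^ s.card * (s.map (fun a => sin ((t - a) / 2) ^ 2)).prod := by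
    intro t
    have : circleMap 0 1 t = Complex.exp (t * Complex.I) := by simp [circleMap]
    rw [this, HH_norm]
  simp_rw [h2] at h1
  rw [intervalIntegral.integral_const_mul, smul_eq_mul] at h1
  set J := ∫ t in (0:ℝ)..(2 * π), (s.map (fun a => sin ((t - a) / 2) ^ 2)).prod with hJ
  have h3 : 2 * (N / 2) ^ 2 = 4 ^ s.card * M / 2 := by
    rw [← hN2]; ring
  rw [h3] at h1
  have hpi := Real.pi_pos
  have h4 : (2 * π)⁻¹ * (4 ^ s.card * J) = 4 ^ s.card * (J / (2 * π)) := by
    field_simp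
  rw [h4] at h1
  have h5 : (4 : ℝ) ^ s.card * (J / (2 * π)) ≤ 4 ^ s.card * (M / 2) := by linarith
  have h6 : J / (2 * π) ≤ M / 2 := le_of_mul_le_mul_left h5 (by positivity)
  rw [div_le_iff₀ (by positivity)] at h6
  linarith

lemma q_eq_qm {n : ℕ} (θ : Fin n → ℝ) (t : ℝ) : q θ t = qm ((univ.val).map θ) t := by
  unfold q qm
  rw [Multiset.map_map]
  rfl

lemma nonneg_case {n : ℕ} (d : ℕ) (hn : n = 2 * d) (hd : 0 < d) (θ : Fin n → ℝ) (M : ℝ)
    (hnn : ∀ t, 0 ≤ q θ t) (hM : ∀ t, |q θ t| ≤ M) :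
    ∫ t in (0:ℝ)..(2 * π), q θ t ≤ π * M := by
  obtain ⟨s, hs1, hs2⟩ := pairing d ((univ.val).map θ) 1 one_ne_zero
    (by rw [Multiset.card_map]; simp [hn]) (by intro t; rw [one_mul, ← q_eq_qm]; exact hnn t)
  have h1 : ∀ t, q θ t = (s.map (fun a => sin ((t - a) / 2) ^ 2)).prod := by
    intro t
    rw [← hs2 t, ← q_eq_qm, abs_of_nonneg (hnn t)]
  simp_rw [h1]
  apply nonneg_bound s (by rw [hs1]; exact hd)
  intro t
  rw [← h1 t]
  exact le_trans (le_abs_self _) (hM t)

/-! ### existence of a maximiser -/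

noncomputable def Msup {n : ℕ} (θ : Fin n → ℝ) : ℝ :=
  sSup ((fun t => |q θ t|) '' Set.Icc 0 (2 * π))

lemma continuous_q_uncurry {n : ℕ} :
    Continuous (fun x : (Fin n → ℝ) × ℝ => q x.1 x.2) := by
  unfold q; fun_prop

lemma continuous_Msup {n : ℕ} : Continuous (Msup (n := n)) := by
  unfold Msup
  exact IsCompact.continuous_sSup (f := fun θ t => |q θ t|) isCompact_Icc
    (continuous_q_uncurry.abs)

lemma le_Msup {n : ℕ} (hev : Even n) (θ : Fin n → ℝ) (t : ℝ) : |q θ t| ≤ Msup θ := by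
  obtain ⟨y, hy, hyt⟩ := (q_periodic hev θ).exists_mem_Ico₀ (by positivity) t
  rw [hyt]
  have hbdd : BddAbove ((fun t => |q θ t|) '' Set.Icc 0 (2 * π)) :=
    (isCompact_Icc.image (continuous_q θ).abs).bddAbove
  exact le_csSup hbdd ⟨y, ⟨hy.1, hy.2.le⟩, rfl⟩

lemma Msup_le {n : ℕ} (θ : Fin n → ℝ) (M : ℝ) (hM : ∀ t, |q θ t| ≤ M) : Msup θ ≤ M := by
  apply csSup_le
  · exact ⟨_, 0, ⟨le_rfl, by positivity⟩, rfl⟩
  · rintro _ ⟨t, _, rfl⟩
    exact hM t

lemma Msup_pos {n : ℕ} (hev : Even n) (θ : Fin n → ℝ) : 0 < Msup θ := by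
  -- find t with q θ t ≠ 0
  have hc : (⋃ j : Fin n, {t : ℝ | sin ((t - θ j) / 2) = 0}).Countable :=
    Set.countable_iUnion (fun j => countable_zero (θ j))
  obtain ⟨t, ht⟩ : ((⋃ j : Fin n, {t : ℝ | sin ((t - θ j) / 2) = 0})ᶜ).Nonempty :=
    (hc.dense_compl ℝ).nonempty
  have hne : q θ t ≠ 0 := by
    unfold q
    rw [Finset.prod_ne_zero_iff]
    intro j _ h0
    exact ht (Set.mem_iUnion.2 ⟨j, h0⟩)
  exact lt_of_lt_of_le (abs_pos.2 hne) (le_Msup hev θ t)

lemma continuous_I {n : ℕ} :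
    Continuous (fun θ : Fin n → ℝ => ∫ t in (0:ℝ)..(2 * π), q θ t) := by
  apply intervalIntegral.continuous_parametric_intervalIntegral_of_continuous'
  exact continuous_q_uncurry

lemma reduce {n : ℕ} (θ : Fin n → ℝ) :
    ∃ θ' : Fin n → ℝ, (∀ j, θ' j ∈ Set.Icc (0:ℝ) (4 * π)) ∧ q θ' = q θ := by
  have hpi := Real.pi_pos
  have h : ∀ j, ∃ y ∈ Set.Icc (0:ℝ) (4 * π), ∀ t, sin ((t - y) / 2) = sin ((t - θ j) / 2) := by
    intro j
    refine ⟨θ j - ⌊θ j / (4 * π)⌋ * (4 * π), ⟨?_, ?_⟩, ?_⟩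
    · have := Int.floor_le (θ j / (4 * π))
      rw [le_div_iff₀ (by positivity)] at this
      linarith
    · have := (Int.lt_floor_add_one (θ j / (4 * π))).le
      rw [div_le_iff₀ (by positivity)] at this
      linarith
    · intro t
      have : (t - (θ j - ⌊θ j / (4 * π)⌋ * (4 * π))) / 2
          = (t - θ j) / 2 + ⌊θ j / (4 * π)⌋ * (2 * π) := by ring
      rw [this, Real.sin_add_int_mul_two_pi]
  choose y hy1 hy2 using h
  refine ⟨y, hy1, ?_⟩
  funext t
  unfold q
  exact prod_congr rfl (fun j _ => hy2 j t)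

/-- Main real-variable theorem. -/
theorem mean_le {n : ℕ} (d : ℕ) (hn : n = 2 * d) (hd : 0 < d) (θ : Fin n → ℝ) (M : ℝ)
    (hM : ∀ t, |q θ t| ≤ M) : ∫ t in (0:ℝ)..(2 * π), q θ t ≤ π * M := by
  have hev : Even n := ⟨d, by omega⟩
  have hn0 : 0 < n := by omega
  have hpi := Real.pi_pos
  set K : Set (Fin n → ℝ) := Set.pi Set.univ (fun _ => Set.Icc (0:ℝ) (4 * π)) with hK
  have hKc : IsCompact K := isCompact_univ_pi (fun _ => isCompact_Icc)
  have hKn : K.Nonempty := ⟨fun _ => 0, by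
    intro j _; exact ⟨le_rfl, by positivity⟩⟩
  set ρ : (Fin n → ℝ) → ℝ := fun θ => (∫ t in (0:ℝ)..(2 * π), q θ t) / Msup θ with hρ
  have hρc : Continuous ρ := continuous_I.div continuous_Msup (fun θ => (Msup_pos hev θ).ne')
  obtain ⟨θs, hθsK, hθs⟩ := hKc.exists_isMaxOn hKn hρc.continuousOn
  set lam := ρ θs with hlamdef
  have hglob : ∀ θ' : Fin n → ℝ, ρ θ' ≤ lam := by
    intro θ'
    obtain ⟨θ'', h1, h2⟩ := reduce θ'
    have h3 : ρ θ' = ρ θ'' := by
      simp only [hρ, Msup, h2]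
    rw [h3]
    exact hθs (by intro j _; exact h1 j)
  have hmax : ∀ (θ' : Fin n → ℝ) (M' : ℝ), 0 ≤ lam → (∀ t, |q θ' t| ≤ M') →
      ∫ t in (0:ℝ)..(2 * π), q θ' t ≤ lam * M' := by
    intro θ' M' hl hM'
    have h1 := hglob θ'
    simp only [hρ] at h1
    rw [div_le_iff₀ (Msup_pos hev θ')] at h1
    exact le_trans h1 (mul_le_mul_of_nonneg_left (Msup_le θ' M' hM') hl)
  by_contra hcon
  push Not at hcon
  -- then lam > π
  have hM0 : 0 < M := lt_of_lt_of_le (Msup_pos hev θ) (Msup_le θ M hM)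
  have hlam : π < lam := by
    have h1 := hglob θ
    simp only [hρ] at h1
    rw [div_le_iff₀ (Msup_pos hev θ)] at h1
    by_contra hle
    push Not at hle
    have h2 : lam * Msup θ ≤ π * M := by
      calc lam * Msup θ ≤ π * Msup θ := mul_le_mul_of_nonneg_right hle (Msup_pos hev θ).le
        _ ≤ π * M := mul_le_mul_of_nonneg_left (Msup_le θ M hM) hpi.le
    linarith
  have hlam0 : 0 < lam := lt_trans hpi hlam
  have hI : ∫ t in (0:ℝ)..(2 * π), q θs t = lam * Msup θs := by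
    rw [hlamdef]; simp only [hρ]
    rw [div_mul_cancel₀ _ (Msup_pos hev θs).ne']
  -- minimum point
  obtain ⟨p, _, hp⟩ := isCompact_Icc.exists_isMinOn (Set.nonempty_Icc.2 (by positivity : (0:ℝ) ≤ 2 * π))
    (continuous_q θs).continuousOn
  have hmin : ∀ t, q θs p ≤ q θs t := by
    intro t
    obtain ⟨y, hy, hyt⟩ := (q_periodic hev θs).exists_mem_Ico₀ (by positivity) t
    rw [hyt]
    exact hp ⟨hy.1, hy.2.le⟩
  by_cases hneg : q θs p < 0
  · exact perturb_contra hev hn0 θs (Msup θs) lam p (le_Msup hev θs) (Msup_pos hev θs) hlam0 hI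
      (fun θ' M' h => hmax θ' M' hlam0.le h) hmin hneg
  · push Not at hneg
    have h1 := nonneg_case d hn hd θs (Msup θs) (fun t => le_trans hneg (hmin t)) (le_Msup hev θs)
    rw [hI] at h1
    have := le_of_mul_le_mul_right h1 (Msup_pos hev θs)
    linarith

end Pool.Agent.Helper140.SelfInv.B
end

section
open Finset Real

namespace Pool.Agent.Helper140.SelfInv.B

open Pool.Agent.Helper140.SelfInv.A

theorem abs_mean_le {n : ℕ} (d : ℕ) (hn : n = 2 * d) (hd : 0 < d) (θ : Fin n → ℝ) (M : ℝ)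
    (hM : ∀ t, |q θ t| ≤ M) : |∫ t in (0:ℝ)..(2 * π), q θ t| ≤ π * M := by
  rw [abs_le]
  refine ⟨?_, mean_le d hn hd θ M hM⟩
  set j0 : Fin n := ⟨0, by omega⟩ with hj0
  set θ' : Fin n → ℝ := fun j => if j = j0 then θ j + 2 * π else θ j with hθ'
  have h1 : ∀ t, q θ' t = - q θ t := by
    intro t
    unfold q
    have h2 : ∀ j, sin ((t - θ' j) / 2) = (if j = j0 then -1 else 1) * sin ((t - θ j) / 2) := by
      intro j
      by_cases hj : j = j0
      · simp only [hθ', hj, if_true]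
        have : (t - (θ j0 + 2 * π)) / 2 = (t - θ j0) / 2 - π := by ring
        rw [this, sin_sub_pi]; ring
      · simp only [hθ', hj, if_false, one_mul]
    simp_rw [h2]
    rw [prod_mul_distrib, prod_ite_eq' univ j0]
    simp
  have h2 := mean_le d hn hd θ' M (fun t => by rw [h1, abs_neg]; exact hM t)
  simp_rw [h1] at h2
  rw [intervalIntegral.integral_neg] at h2
  linarith

lemma exists_theta (s : Multiset ℂ) (N : ℕ) (hN : s.card = N) (hs : ∀ ζ ∈ s, ‖ζ‖ = 1) :
    ∃ θ : Fin N → ℝ, s = (univ.val).map (fun j => Complex.exp (θ j * Complex.I)) := by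
  subst hN
  induction s using Quotient.inductionOn with
  | _ l =>
    refine ⟨fun j => (l.get j).arg, ?_⟩
    have h1 : ∀ j : Fin l.length, Complex.exp ((l.get j).arg * Complex.I) = l.get j := by
      intro j
      have hz : ‖l.get j‖ = 1 := hs _ (by simp)
      have := Complex.norm_mul_exp_arg_mul_I (l.get j)
      rwa [hz, Complex.ofReal_one, one_mul] at this
    have h2 : (fun j : Fin l.length => Complex.exp ((l.get j).arg * Complex.I)) = l.get := by
      funext j; exact h1 j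
    change (l : Multiset ℂ) = (univ.val).map
      (fun j : Fin l.length => Complex.exp ((l.get j).arg * Complex.I))
    rw [h2, Fin.univ_val_map, List.ofFn_get]

lemma exp_sub_eq (t a : ℝ) :
    Complex.exp (t * Complex.I) - Complex.exp (a * Complex.I)
      = (2 * Complex.I * Complex.exp ((a / 2 : ℝ) * Complex.I)) *
        (Complex.exp ((t / 2 : ℝ) * Complex.I) * (sin ((t - a) / 2) : ℝ)) := by
  have h1 : Complex.exp (t * Complex.I) = Complex.exp ((t / 2 : ℝ) * Complex.I) *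
      Complex.exp ((t / 2 : ℝ) * Complex.I) := by
    rw [← Complex.exp_add]; congr 1; push_cast; ring
  have h2 : Complex.exp (a * Complex.I) = Complex.exp ((a / 2 : ℝ) * Complex.I) *
      Complex.exp ((a / 2 : ℝ) * Complex.I) := by
    rw [← Complex.exp_add]; congr 1; push_cast; ring
  have h3 : ((sin ((t - a) / 2) : ℝ) : ℂ) = (Complex.exp (-((t / 2 : ℝ) * Complex.I)) *
      Complex.exp ((a / 2 : ℝ) * Complex.I) - Complex.exp ((t / 2 : ℝ) * Complex.I) *
      Complex.exp (-((a / 2 : ℝ) * Complex.I))) * Complex.I / 2 := by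
    rw [← Complex.exp_add, ← Complex.exp_add, Complex.ofReal_sin, Complex.sin]
    congr 3
    · congr 1; push_cast; ring
    · congr 1; push_cast; ring
  set A := Complex.exp ((t / 2 : ℝ) * Complex.I) with hA
  set B := Complex.exp ((a / 2 : ℝ) * Complex.I) with hB
  have hA' : A * Complex.exp (-((t / 2 : ℝ) * Complex.I)) = 1 := by
    rw [hA, ← Complex.exp_add, add_neg_cancel, Complex.exp_zero]
  have hB' : B * Complex.exp (-((a / 2 : ℝ) * Complex.I)) = 1 := by
    rw [hB, ← Complex.exp_add, add_neg_cancel, Complex.exp_zero]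
  rw [h1, h2, h3]
  have hI := Complex.I_mul_I
  set A' := Complex.exp (-((t / 2 : ℝ) * Complex.I))
  set B' := Complex.exp (-((a / 2 : ℝ) * Complex.I))
  linear_combination (-(A * A' * B ^ 2 - A ^ 2 * B * B')) * hI + B ^ 2 * hA' - A ^ 2 * hB'

lemma integral_exp_int (m : ℤ) (hm : m ≠ 0) :
    ∫ t in (0:ℝ)..(2 * π), Complex.exp ((m * Complex.I) * t) = 0 := by
  have hc : ((m : ℂ) * Complex.I) ≠ 0 := mul_ne_zero (by exact_mod_cast hm) Complex.I_ne_zero
  rw [integral_exp_mul_complex hc]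
  have h1 : Complex.exp (((m : ℂ) * Complex.I) * ((2 * π : ℝ) : ℂ)) = 1 := by
    rw [Complex.exp_eq_one_iff]
    exact ⟨m, by push_cast; ring⟩
  rw [h1]; simp

lemma coeff_integral (Q : Polynomial ℂ) (d : ℕ) :
    ∫ t in (0:ℝ)..(2 * π), Q.eval (Complex.exp (t * Complex.I)) *
      Complex.exp (-(d * Complex.I) * t) = 2 * π * Q.coeff d := by
  have h1 : ∀ t : ℝ, Q.eval (Complex.exp (t * Complex.I)) * Complex.exp (-(d * Complex.I) * t)
      = ∑ k ∈ range (Q.natDegree + 1), Q.coeff k *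
        Complex.exp ((((k : ℤ) - (d : ℤ) : ℤ) : ℂ) * Complex.I * t) := by
    intro t
    rw [Polynomial.eval_eq_sum_range, Finset.sum_mul]
    refine Finset.sum_congr rfl (fun k _ => ?_)
    rw [mul_assoc, ← Complex.exp_nat_mul, ← Complex.exp_add]
    congr 2; push_cast; ring
  simp_rw [h1]
  rw [intervalIntegral.integral_finsetSum]
  · have h2 : ∀ k ∈ range (Q.natDegree + 1),
        ∫ t in (0:ℝ)..(2 * π), Q.coeff k * Complex.exp ((((k : ℤ) - (d : ℤ) : ℤ) : ℂ) * Complex.I * t)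
        = if k = d then 2 * π * Q.coeff d else 0 := by
      intro k _
      rw [intervalIntegral.integral_const_mul]
      by_cases hk : k = d
      · subst hk
        simp; ring
      · rw [if_neg hk, integral_exp_int _ (by omega), mul_zero]
    rw [Finset.sum_congr rfl h2, Finset.sum_ite_eq' (range (Q.natDegree + 1)) d]
    by_cases hd : d ∈ range (Q.natDegree + 1)
    · rw [if_pos hd]
    · rw [if_neg hd, Polynomial.coeff_eq_zero_of_natDegree_lt (by
        rw [Finset.mem_range, not_lt] at hd; omega)]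
      simp
  · intro k _
    apply Continuous.intervalIntegrable
    fun_prop

theorem middle_coeff (Q : Polynomial ℂ) (d : ℕ) (hd : 0 < d) (hdeg : Q.natDegree = 2 * d)
    (hQ : ∀ ζ ∈ Q.roots, ‖ζ‖ = 1) (M : ℝ) (hM : ∀ z : ℂ, ‖z‖ = 1 → ‖Q.eval z‖ ≤ M) :
    ‖Q.coeff d‖ ≤ M / 2 := by
  have hpi := Real.pi_pos
  have hcard : Q.roots.card = 2 * d := by
    rw [← hdeg]; exact ((IsAlgClosed.splits Q).natDegree_eq_card_roots).symm
  obtain ⟨θ, hθ⟩ := exists_theta Q.roots (2 * d) hcard hQ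
  have hsplit := (IsAlgClosed.splits Q).eq_prod_roots
  set c := Q.leadingCoeff with hc
  have hQ0 : Q ≠ 0 := by intro h; rw [h] at hdeg; simp at hdeg; omega
  have hc0 : c ≠ 0 := Polynomial.leadingCoeff_ne_zero.2 hQ0
  -- evaluation on the circle
  set κ : ℂ := c * ∏ j, (2 * Complex.I * Complex.exp ((θ j / 2 : ℝ) * Complex.I)) with hκ
  have hev : ∀ t : ℝ, Q.eval (Complex.exp (t * Complex.I))
      = κ * (Complex.exp (d * Complex.I * t) * (q θ t : ℝ)) := by
    intro t
    have h1 : Q.eval (Complex.exp (t * Complex.I)) = c * ∏ j, (Complex.exp (t * Complex.I) -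
        Complex.exp (θ j * Complex.I)) := by
      conv_lhs => rw [hsplit]
      rw [Polynomial.eval_mul, Polynomial.eval_C, hθ, Multiset.map_map,
        Polynomial.eval_multiset_prod, Multiset.map_map]
      congr 1
      simp only [Function.comp_def, Polynomial.eval_sub, Polynomial.eval_X, Polynomial.eval_C]
      rfl
    rw [h1]
    simp_rw [exp_sub_eq]
    rw [prod_mul_distrib, prod_mul_distrib (f := fun _ => Complex.exp ((t / 2 : ℝ) * Complex.I)),
      hκ, prod_const, card_univ, Fintype.card_fin, ← Complex.exp_nat_mul]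
    have h2 : ((q θ t : ℝ) : ℂ) = ∏ j, ((sin ((t - θ j) / 2) : ℝ) : ℂ) := by
      unfold q; rw [Complex.ofReal_prod]
    rw [h2]
    have h3 : Complex.exp (((2 * d : ℕ) : ℂ) * (((t / 2 : ℝ) : ℂ) * Complex.I))
        = Complex.exp (d * Complex.I * t) := by
      congr 1; push_cast; ring
    rw [h3]; ring
  have hκ0 : κ ≠ 0 := by
    rw [hκ]
    refine mul_ne_zero hc0 (Finset.prod_ne_zero_iff.2 (fun j _ => ?_))
    exact mul_ne_zero (mul_ne_zero two_ne_zero Complex.I_ne_zero) (Complex.exp_ne_zero _)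
  clear_value κ
  have hκn : 0 < ‖κ‖ := norm_pos_iff.2 hκ0
  have hint := coeff_integral Q d
  have h4 : ∀ t : ℝ, Q.eval (Complex.exp (t * Complex.I)) * Complex.exp (-(d * Complex.I) * t)
      = κ * ((q θ t : ℝ) : ℂ) := by
    intro t
    rw [hev t]
    have : Complex.exp (d * Complex.I * t) * Complex.exp (-(d * Complex.I) * t) = 1 := by
      rw [← Complex.exp_add, ← Complex.exp_zero]; congr 1; ring
    linear_combination (κ * ((q θ t : ℝ) : ℂ)) * this
  simp_rw [h4] at hint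
  rw [intervalIntegral.integral_const_mul, intervalIntegral.integral_ofReal] at hint
  have hq : ∀ t, |q θ t| ≤ M / ‖κ‖ := by
    intro t
    have h5 := hM (Complex.exp (t * Complex.I)) (Complex.norm_exp_ofReal_mul_I t)
    rw [hev t, norm_mul, norm_mul, Complex.norm_real, Real.norm_eq_abs] at h5
    have h6 : ‖Complex.exp (d * Complex.I * t)‖ = 1 := by
      have : (d : ℂ) * Complex.I * t = ((d * t : ℝ) : ℂ) * Complex.I := by push_cast; ring
      rw [this]; exact Complex.norm_exp_ofReal_mul_I _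
    rw [h6, one_mul] at h5
    rw [le_div_iff₀ hκn]; linarith
  have h7 := abs_mean_le d rfl hd θ _ hq
  have h8 : ‖κ‖ * |∫ t in (0:ℝ)..(2 * π), q θ t| = 2 * π * ‖Q.coeff d‖ := by
    have := congrArg norm hint
    rw [norm_mul, Complex.norm_real, Real.norm_eq_abs] at this
    rw [this, norm_mul, norm_mul, Complex.norm_real, Real.norm_eq_abs, abs_of_pos hpi]
    simp
  have h9 : ‖κ‖ * |∫ t in (0:ℝ)..(2 * π), q θ t| ≤ ‖κ‖ * (π * (M / ‖κ‖)) :=
    mul_le_mul_of_nonneg_left h7 hκn.le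
  have h10 : ‖κ‖ * (π * (M / ‖κ‖)) = π * M := by field_simp
  rw [h8, h10] at h9
  have : 2 * π * ‖Q.coeff d‖ ≤ 2 * π * (M / 2) := by linarith
  exact le_of_mul_le_mul_left this (by positivity)

end Pool.Agent.Helper140.SelfInv.B
end

section
open Polynomial Finset
open scoped ComplexConjugate

namespace Pool.Agent.Helper140.SelfInv.A

lemma exists_max_circle (R : ℂ[X]) :
    ∃ z : ℂ, ‖z‖ = 1 ∧ ∀ w : ℂ, ‖w‖ = 1 → ‖R.eval w‖ ≤ ‖R.eval z‖ := by
  have hc : IsCompact (Metric.sphere (0 : ℂ) 1) := isCompact_sphere 0 1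
  have hne : (Metric.sphere (0 : ℂ) 1).Nonempty := ⟨1, by simp⟩
  obtain ⟨z, hz, hmax⟩ := hc.exists_isMaxOn hne
    (f := fun z => ‖R.eval z‖) (R.continuous.norm.continuousOn)
  refine ⟨z, by simpa using hz, ?_⟩
  intro w hw
  exact hmax (by simpa using hw)

/-- a point of the circle where the disc has radius at least `‖b_k‖`. -/
lemma exists_big (Q : ℂ[X]) (hQ : ∀ ζ ∈ Q.roots, ‖ζ‖ = 1) (k : ℕ) (hk0 : 0 < k)
    (hkn : k < Q.natDegree) (hsym : ‖Q.coeff (Q.natDegree - k)‖ = ‖Q.coeff k‖) :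
    ∃ z : ℂ, ‖z‖ = 1 ∧ ‖Q.coeff k‖ ≤ ‖(SP Q).eval z‖ := by
  have hn : 0 < Q.natDegree := by omega
  by_cases hmid : Q.natDegree = 2 * k
  · obtain ⟨z, hz, hmax⟩ := exists_max_circle Q
    refine ⟨z, hz, ?_⟩
    have h1 := Pool.Agent.Helper140.SelfInv.B.middle_coeff Q k hk0 hmid hQ _ hmax
    have h2 := inner_ineq Q hn hQ z hz.le
    have h3 : Q.eval z = (SP Q).eval z + (z * (derivative Q).eval z) / (Q.natDegree : ℂ) := by
      rw [SP_eval]; ring
    have h4 : ‖Q.eval z‖ ≤ ‖(SP Q).eval z‖ + ‖(SP Q).eval z‖ := by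
      conv_lhs => rw [h3]
      exact le_trans (norm_add_le _ _) (by linarith)
    linarith
  · obtain ⟨z, hz, hmax⟩ := exists_max_circle (SP Q)
    refine ⟨z, hz, ?_⟩
    have h1 := sum_sq_le Q hn hQ _ hmax
    have h2 : ‖Q.coeff k‖ ^ 2 + ‖Q.coeff (Q.natDegree - k)‖ ^ 2
        ≤ ∑ i ∈ range (Q.natDegree + 1), ‖Q.coeff i‖ ^ 2 := by
      have hne : k ≠ Q.natDegree - k := by omega
      have hsub : ({k, Q.natDegree - k} : Finset ℕ) ⊆ range (Q.natDegree + 1) := by
        intro i hi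
        simp only [Finset.mem_insert, Finset.mem_singleton] at hi
        rw [Finset.mem_range]; omega
      rw [← Finset.sum_pair hne (f := fun i => ‖Q.coeff i‖ ^ 2)]
      exact Finset.sum_le_sum_of_subset_of_nonneg hsub (fun i _ _ => by positivity)
    rw [hsym] at h2
    have h3 : ‖Q.coeff k‖ ^ 2 ≤ ‖(SP Q).eval z‖ ^ 2 := by linarith
    exact (pow_le_pow_iff_left₀ (norm_nonneg _) (norm_nonneg _) two_ne_zero).1 h3

lemma norm_prod_one (s : Multiset ℂ) (hs : ∀ ζ ∈ s, 1 ≤ ‖ζ‖)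
    (hprod : (s.map (fun ζ => ‖ζ‖)).prod ≤ 1) : ∀ ζ ∈ s, ‖ζ‖ = 1 := by
  induction s using Multiset.induction_on with
  | empty => intro ζ hζ; simp at hζ
  | cons a s ih =>
    have hs' : ∀ ζ ∈ s, 1 ≤ ‖ζ‖ := fun x hx => hs x (Multiset.mem_cons_of_mem hx)
    have ha := hs a (Multiset.mem_cons_self _ _)
    rw [Multiset.map_cons, Multiset.prod_cons] at hprod
    have hge : 1 ≤ (s.map (fun ζ => ‖ζ‖)).prod := by
      apply Multiset.one_le_prod
      intro x hx
      obtain ⟨y, hy, rfl⟩ := Multiset.mem_map.1 hx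
      exact hs' y hy
    have h1 : (s.map (fun ζ => ‖ζ‖)).prod ≤ 1 := by nlinarith
    have h2 : ‖a‖ = 1 := by nlinarith
    intro ζ hζ
    rcases Multiset.mem_cons.1 hζ with rfl | h
    · exact h2
    · exact ih hs' h1 ζ h

lemma coeff_zero_norm (R : ℂ[X]) :
    ‖R.coeff 0‖ = ‖R.leadingCoeff‖ * (R.roots.map (fun ζ => ‖ζ‖)).prod := by
  have hs := (IsAlgClosed.splits R).eq_prod_roots
  have h1 : R.coeff 0 = R.leadingCoeff * ((R.roots.map (fun ζ => X - C ζ)).prod).coeff 0 := by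
    conv_lhs => rw [hs]
    rw [coeff_C_mul]
  rw [h1, norm_mul]
  congr 1
  generalize R.roots = s
  induction s using Multiset.induction_on with
  | empty => simp
  | cons a s ih =>
    rw [Multiset.map_cons, Multiset.prod_cons, Multiset.map_cons, Multiset.prod_cons, mul_coeff_zero,
      norm_mul, ih]
    simp

/-- Core theorem: the dichotomy plus the exceptional case give the disc. -/
lemma core (P : ℂ[X]) (hn : 0 < P.natDegree)
    (hsym : ∀ j, j ≤ P.natDegree → ‖P.coeff (P.natDegree - j)‖ = ‖P.coeff j‖)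
    (hdich : ∀ k, 0 < k → k < P.natDegree → P.coeff k ≠ 0 → ∃ a : ℂ, ‖a‖ = ‖P.coeff 0‖ ∧
      ∀ w : ℂ, (∀ ζ ∈ (P - C w).roots, 1 ≤ ‖ζ‖) →
        P.coeff 0 - w = a ∨ ‖P.coeff k‖ ≤ ‖P.coeff 0 - w + a‖)
    (k : ℕ) (hk : k ≤ P.natDegree) (hmax : ∀ j, j ≤ P.natDegree → ‖P.coeff j‖ ≤ ‖P.coeff k‖) :
    ∃ w₀ : ℂ, ∀ w : ℂ, ‖w - w₀‖ < ‖P.coeff k‖ → ∃ z : ℂ, ‖z‖ < 1 ∧ P.eval z = w := by
  have hP0 : P ≠ 0 := by intro h; rw [h] at hn; simp at hn
  have hlead : P.coeff P.natDegree ≠ 0 := by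
    have := leadingCoeff_ne_zero.2 hP0
    exact this
  have h0n : ‖P.coeff P.natDegree‖ = ‖P.coeff 0‖ := by
    have := hsym 0 (Nat.zero_le _); simpa using this
  by_cases hk' : 0 < k ∧ k < P.natDegree
  · obtain ⟨hk0, hkn⟩ := hk'
    have hak : P.coeff k ≠ 0 := by
      rw [← norm_pos_iff]
      exact lt_of_lt_of_le (norm_pos_iff.2 hlead) (hmax _ le_rfl)
    obtain ⟨a, ha, hd⟩ := hdich k hk0 hkn hak
    set w₁ := P.coeff 0 - a with hw₁
    by_cases hin : ∃ z : ℂ, ‖z‖ < 1 ∧ P.eval z = w₁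
    · refine ⟨P.coeff 0 + a, ?_⟩
      intro w hw
      by_contra hcon
      push Not at hcon
      rcases hd w (roots_of_no_zero _ (by
        intro x hx; simp only [eval_sub, eval_C]; exact sub_ne_zero.2 (hcon x hx))) with h1 | h1
      · obtain ⟨z, hz1, hz2⟩ := hin
        refine hcon z hz1 ?_
        rw [hz2, hw₁, ← h1]; ring
      · have : ‖P.coeff 0 - w + a‖ = ‖w - (P.coeff 0 + a)‖ := by
          rw [← norm_neg]; congr 1; ring
        rw [this] at h1
        linarith
    · push Not at hin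
      set Q := P - C w₁ with hQ
      have hroots1 : ∀ ζ ∈ Q.roots, 1 ≤ ‖ζ‖ := roots_of_no_zero _ (by
        intro x hx; simp only [hQ, eval_sub, eval_C]; exact sub_ne_zero.2 (hin x hx))
      have hdegQ : Q.natDegree = P.natDegree := natDegree_sub_C' P w₁
      have hQ0 : Q.coeff 0 = a := by simp [hQ, hw₁]
      have hQn : Q.coeff P.natDegree = P.coeff P.natDegree := coeff_sub_C_pos P w₁ _ hn
      have hroots : ∀ ζ ∈ Q.roots, ‖ζ‖ = 1 := by
        apply norm_prod_one _ hroots1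
        have h1 := coeff_zero_norm Q
        have h2 : ‖Q.leadingCoeff‖ = ‖P.coeff 0‖ := by
          rw [leadingCoeff, hdegQ, hQn, h0n]
        rw [hQ0, ha, h2] at h1
        have h3 : 0 < ‖P.coeff 0‖ := by rw [← h0n]; exact norm_pos_iff.2 hlead
        have h4 : ‖P.coeff 0‖ * (Q.roots.map (fun ζ => ‖ζ‖)).prod ≤ ‖P.coeff 0‖ * 1 := by
          linarith
        exact le_of_mul_le_mul_left h4 h3
      have hQk : Q.coeff k = P.coeff k := coeff_sub_C_pos P w₁ _ hk0
      have hQnk : Q.coeff (P.natDegree - k) = P.coeff (P.natDegree - k) :=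
        coeff_sub_C_pos P w₁ _ (by omega)
      obtain ⟨z, hz, hbig⟩ := exists_big Q hroots k hk0 (by rw [hdegQ]; exact hkn)
        (by rw [hdegQ, hQk, hQnk]; exact hsym k hk)
      refine ⟨(SP Q).eval z + w₁, ?_⟩
      intro w hw
      obtain ⟨x, hx1, hx2⟩ := ball_subset Q (by rw [hdegQ]; exact hn) z hz hroots (w - w₁) (by
        rw [hQk] at hbig
        have : w - w₁ - (SP Q).eval z = w - ((SP Q).eval z + w₁) := by ring
        rw [this]
        linarith)
      refine ⟨x, hx1, ?_⟩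
      simp only [hQ, eval_sub, eval_C] at hx2
      exact sub_left_injective hx2
  · have hk2 : k = 0 ∨ k = P.natDegree := by omega
    have hkn : ‖P.coeff k‖ = ‖P.coeff P.natDegree‖ := by
      rcases hk2 with rfl | rfl
      · exact h0n.symm
      · rfl
    refine ⟨P.coeff 0, ?_⟩
    intro w hw
    by_contra hcon
    push Not at hcon
    have h1 := ineq_zero (P - C w) (roots_of_no_zero _ (by
        intro x hx; simp only [eval_sub, eval_C]; exact sub_ne_zero.2 (hcon x hx)))
    rw [natDegree_sub_C', coeff_sub_C_pos P w _ hn] at h1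
    have h2 : (P - C w).coeff 0 = P.coeff 0 - w := by simp
    rw [h2, norm_sub_rev] at h1
    rw [hkn] at hw
    linarith

end Pool.Agent.Helper140.SelfInv.A
end

section
open Polynomial Finset
open scoped ComplexConjugate

namespace Pool.Agent.Helper140.SelfInv.A

def SelfInversive (P : ℂ[X]) : Prop :=
  ∀ ζ : ℂ, P.eval ζ = 0 → ζ ≠ 0 ∧ P.rootMultiplicity (1 / ζ) = P.rootMultiplicity ζ

def SelfInversiveConj (P : ℂ[X]) : Prop :=
  ∀ ζ : ℂ, P.eval ζ = 0 → ζ ≠ 0 ∧ P.rootMultiplicity (1 / conj ζ) = P.rootMultiplicity ζ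

lemma rootMult_zero_of_not_root (P : ℂ[X]) (a : ℂ) (h : P.eval a ≠ 0) :
    P.rootMultiplicity a = 0 := rootMultiplicity_eq_zero h

lemma reverse_prod (s : Multiset ℂ) :
    ((s.map (fun ζ => X - C ζ)).prod).reverse = (s.map (fun ζ => 1 - C ζ * X)).prod := by
  induction s using Multiset.induction_on with
  | empty =>
    have : (1 : ℂ[X]).reverse = 1 := by rw [← C_1, reverse_C]
    simpa using this
  | cons ζ s ih =>
    simp only [Multiset.map_cons, Multiset.prod_cons, reverse_mul_of_domain]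
    rw [ih, reverse_X_sub_C]

lemma prod_one_sub (s : Multiset ℂ) (hs : ∀ ζ ∈ s, ζ ≠ 0) :
    (s.map (fun ζ => 1 - C ζ * X)).prod
      = C ((s.map (fun ζ => -ζ)).prod) * ((s.map (fun ζ => ζ⁻¹)).map (fun ζ => X - C ζ)).prod := by
  induction s using Multiset.induction_on with
  | empty => simp
  | cons ζ s ih =>
    have hζ := hs ζ (Multiset.mem_cons_self _ _)
    simp only [Multiset.map_cons, Multiset.prod_cons]
    rw [ih (fun x hx => hs x (Multiset.mem_cons_of_mem hx)), C_mul]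
    have h1 : (1 - C ζ * X : ℂ[X]) = C (-ζ) * (X - C ζ⁻¹) := by
      rw [mul_sub, ← C_mul]
      have : -ζ * ζ⁻¹ = -1 := by field_simp
      rw [this, C_neg, C_neg, C_1]; ring
    rw [h1]; ring

lemma symm_inv (P : ℂ[X]) (hn : 0 < P.natDegree) (h : SelfInversive P) :
    ∃ ε : ℂ, conj ε * ε = 1 ∧
      ∀ j, j ≤ P.natDegree → P.coeff (P.natDegree - j) = ε * P.coeff j := by
  have hP0 : P ≠ 0 := by intro h; rw [h] at hn; simp at hn
  have hmult : ∀ a : ℂ, P.rootMultiplicity a⁻¹ = P.rootMultiplicity a := by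
    intro a
    by_cases h1 : P.eval a = 0
    · have := (h a h1).2; rwa [one_div] at this
    · by_cases h2 : P.eval a⁻¹ = 0
      · have := (h a⁻¹ h2).2
        rw [one_div, inv_inv] at this
        exact this.symm
      · rw [rootMult_zero_of_not_root P a h1, rootMult_zero_of_not_root P _ h2]
  have hroots0 : ∀ ζ ∈ P.roots, ζ ≠ 0 := fun ζ hζ => (h ζ ((mem_roots hP0).1 hζ)).1
  have hmap : P.roots.map (fun ζ => ζ⁻¹) = P.roots := by
    ext a
    have h1 : Multiset.count a (P.roots.map (fun ζ => ζ⁻¹)) = Multiset.count a⁻¹ P.roots := by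
      have := Multiset.count_map_eq_count' (fun ζ : ℂ => ζ⁻¹) P.roots inv_injective a⁻¹
      simpa using this
    rw [h1, count_roots, count_roots, hmult]
  have hs := (IsAlgClosed.splits P).eq_prod_roots
  set ε := (P.roots.map (fun ζ => -ζ)).prod with hε
  have hrev : P.reverse = C ε * P := by
    conv_lhs => rw [hs]
    rw [reverse_mul_of_domain, reverse_C, reverse_prod, prod_one_sub _ hroots0, hmap, ← hε]
    conv_rhs => rw [hs]
    ring
  have hc : ∀ j, j ≤ P.natDegree → P.coeff (P.natDegree - j) = ε * P.coeff j := by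
    intro j hj
    have := congrArg (fun p => p.coeff j) hrev
    simp only [coeff_C_mul] at this
    rw [coeff_reverse, revAt_le hj] at this
    exact this
  have hlead : P.coeff P.natDegree ≠ 0 := leadingCoeff_ne_zero.2 hP0
  have h1 := hc 0 (Nat.zero_le _)
  have h2 := hc P.natDegree le_rfl
  rw [Nat.sub_zero] at h1
  rw [Nat.sub_self] at h2
  have h3 : ε * ε = 1 := by
    rw [h2, ← mul_assoc] at h1
    have h4 : (ε * ε) * P.coeff P.natDegree = 1 * P.coeff P.natDegree := by rw [one_mul]; exact h1.symm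
    exact mul_right_cancel₀ hlead h4
  refine ⟨ε, ?_, hc⟩
  rcases mul_self_eq_one_iff.1 h3 with h5 | h5 <;> rw [h5] <;> simp

lemma symm_conj (P : ℂ[X]) (hn : 0 < P.natDegree) (h : SelfInversiveConj P) :
    ∃ ε : ℂ, conj ε * ε = 1 ∧
      ∀ j, j ≤ P.natDegree → P.coeff (P.natDegree - j) = ε * conj (P.coeff j) := by
  have hP0 : P ≠ 0 := by intro h; rw [h] at hn; simp at hn
  have hmult : ∀ a : ℂ, P.rootMultiplicity (conj a)⁻¹ = P.rootMultiplicity a := by
    intro a
    by_cases h1 : P.eval a = 0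
    · have := (h a h1).2; rwa [one_div] at this
    · by_cases h2 : P.eval (conj a)⁻¹ = 0
      · have := (h (conj a)⁻¹ h2).2
        rw [one_div, map_inv₀, inv_inv, Complex.conj_conj] at this
        exact this.symm
      · rw [rootMult_zero_of_not_root P a h1, rootMult_zero_of_not_root P _ h2]
  have hroots0 : ∀ ζ ∈ P.roots, ζ ≠ 0 := fun ζ hζ => (h ζ ((mem_roots hP0).1 hζ)).1
  have hmap : (P.roots.map (fun ζ => conj ζ)).map (fun ζ => ζ⁻¹) = P.roots := by
    rw [Multiset.map_map]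
    ext a
    have hinj : Function.Injective (fun ζ : ℂ => (conj ζ)⁻¹) := by
      intro x y hxy
      have h1 : conj x = conj y := inv_injective hxy
      have := congrArg conj h1
      simpa using this
    have h1 : Multiset.count a (P.roots.map (fun ζ => (conj ζ)⁻¹))
        = Multiset.count (conj a)⁻¹ P.roots := by
      have := Multiset.count_map_eq_count' (fun ζ : ℂ => (conj ζ)⁻¹) P.roots hinj (conj a)⁻¹
      simpa using this
    change Multiset.count a (P.roots.map (fun ζ => (conj ζ)⁻¹)) = _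
    rw [h1, count_roots, count_roots, hmult]
  have hs := (IsAlgClosed.splits P).eq_prod_roots
  set δ := ((P.roots.map (fun ζ => conj ζ)).map (fun ζ => -ζ)).prod with hδ
  set c := P.leadingCoeff with hc'
  have hc0 : c ≠ 0 := leadingCoeff_ne_zero.2 hP0
  have hstar : star P = C (conj c * δ / c) * P := by
    have h1 : star P = C (conj c) * star ((P.roots.map (fun ζ => X - C ζ)).prod) := by
      conv_lhs => rw [hs]
      unfold star
      rw [Polynomial.map_mul, reverse_mul_of_domain]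
      simp
    have h2 : (P.roots.map (fun ζ => 1 - C (conj ζ) * X)).prod
        = C δ * ((P.roots.map (fun ζ => X - C ζ)).prod) := by
      have := prod_one_sub (P.roots.map (fun ζ => conj ζ)) (by
        intro ζ hζ
        obtain ⟨x, hx, rfl⟩ := Multiset.mem_map.1 hζ
        intro h0
        exact hroots0 x hx (by simpa using h0))
      rw [hmap, ← hδ, Multiset.map_map] at this
      exact this
    rw [h1, star_prod, h2]
    conv_rhs => rw [hs]
    rw [← mul_assoc, ← mul_assoc, ← C_mul, ← C_mul]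
    congr 2
    field_simp
  set ε' := conj c * δ / c with hε'
  have hcs : ∀ j, j ≤ P.natDegree → P.coeff (P.natDegree - j) = conj ε' * conj (P.coeff j) := by
    intro j hj
    have h1 := star_coeff P j hj
    rw [hstar, coeff_C_mul] at h1
    have h2 := congrArg conj h1
    rw [Complex.conj_conj, map_mul] at h2
    exact h2.symm
  have hlead : P.coeff P.natDegree ≠ 0 := leadingCoeff_ne_zero.2 hP0
  have h1 := hcs 0 (Nat.zero_le _)
  have h2 := hcs P.natDegree le_rfl
  rw [Nat.sub_zero] at h1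
  rw [Nat.sub_self] at h2
  have h3 : ‖ε'‖ * ‖ε'‖ = 1 := by
    have e1 := congrArg norm h1
    have e2 := congrArg norm h2
    rw [norm_mul, RCLike.norm_conj, RCLike.norm_conj] at e1 e2
    rw [e2] at e1
    have h4 : (‖ε'‖ * ‖ε'‖) * ‖P.coeff P.natDegree‖ = 1 * ‖P.coeff P.natDegree‖ := by
      rw [one_mul, mul_assoc]; exact e1.symm
    exact mul_right_cancel₀ (norm_ne_zero_iff.2 hlead) h4
  refine ⟨conj ε', ?_, hcs⟩
  rw [Complex.conj_conj, Complex.mul_conj']
  rw [← pow_two] at h3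
  exact_mod_cast h3

theorem main_inv (P : ℂ[X]) (hn : 1 ≤ P.natDegree) (h : SelfInversive P) :
    ∃ w₀ : ℂ, Metric.ball w₀ ((range (P.natDegree + 1)).sup' nonempty_range_add_one
      (fun k => ‖P.coeff k‖)) ⊆ (fun z => P.eval z) '' Metric.ball (0 : ℂ) 1 := by
  obtain ⟨k, hk, hsup⟩ := Finset.exists_mem_eq_sup' (nonempty_range_add_one (n := P.natDegree))
    (fun k => ‖P.coeff k‖)
  obtain ⟨ε, hε, hsym⟩ := symm_inv P hn h
  have hε1 : ‖ε‖ = 1 := by
    have : ‖conj ε * ε‖ = 1 := by rw [hε]; simp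
    rw [norm_mul, RCLike.norm_conj] at this
    nlinarith [norm_nonneg ε]
  have hmax : ∀ j, j ≤ P.natDegree → ‖P.coeff j‖ ≤ ‖P.coeff k‖ := by
    intro j hj
    rw [← hsup]
    exact Finset.le_sup' (fun k => ‖P.coeff k‖) (Finset.mem_range.2 (by omega))
  obtain ⟨w₀, hw₀⟩ := core P hn (by
      intro j hj; rw [hsym j hj, norm_mul, hε1, one_mul]) (by
      intro k hk0 hkn hak
      refine ⟨P.coeff k / conj (P.coeff k) * conj (P.coeff 0), ?_, ?_⟩
      · rw [norm_mul, norm_div, RCLike.norm_conj, RCLike.norm_conj,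
          div_self (norm_ne_zero_iff.2 hak), one_mul]
      · intro w hw
        exact dich_inv P ε hε hsym k hk0 hkn hak w hw)
    k (by have := Finset.mem_range.1 hk; omega) hmax
  refine ⟨w₀, ?_⟩
  intro w hw
  rw [hsup, Metric.mem_ball, dist_eq_norm] at hw
  obtain ⟨z, hz1, hz2⟩ := hw₀ w hw
  exact ⟨z, by simpa using hz1, hz2⟩

theorem main_conj (P : ℂ[X]) (hn : 1 ≤ P.natDegree) (h : SelfInversiveConj P) :
    ∃ w₀ : ℂ, Metric.ball w₀ ((range (P.natDegree + 1)).sup' nonempty_range_add_one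
      (fun k => ‖P.coeff k‖)) ⊆ (fun z => P.eval z) '' Metric.ball (0 : ℂ) 1 := by
  obtain ⟨k, hk, hsup⟩ := Finset.exists_mem_eq_sup' (nonempty_range_add_one (n := P.natDegree))
    (fun k => ‖P.coeff k‖)
  obtain ⟨ε, hε, hsym⟩ := symm_conj P hn h
  have hε1 : ‖ε‖ = 1 := by
    have : ‖conj ε * ε‖ = 1 := by rw [hε]; simp
    rw [norm_mul, RCLike.norm_conj] at this
    nlinarith [norm_nonneg ε]
  have hmax : ∀ j, j ≤ P.natDegree → ‖P.coeff j‖ ≤ ‖P.coeff k‖ := by
    intro j hj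
    rw [← hsup]
    exact Finset.le_sup' (fun k => ‖P.coeff k‖) (Finset.mem_range.2 (by omega))
  obtain ⟨w₀, hw₀⟩ := core P hn (by
      intro j hj; rw [hsym j hj, norm_mul, hε1, one_mul, RCLike.norm_conj]) (by
      intro k hk0 hkn hak
      refine ⟨P.coeff 0, rfl, ?_⟩
      intro w hw
      exact dich_conj P ε hε hsym k hk0 hkn w hw)
    k (by have := Finset.mem_range.1 hk; omega) hmax
  refine ⟨w₀, ?_⟩
  intro w hw
  rw [hsup, Metric.mem_ball, dist_eq_norm] at hw
  obtain ⟨z, hz1, hz2⟩ := hw₀ w hw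
  exact ⟨z, by simpa using hz1, hz2⟩

end Pool.Agent.Helper140.SelfInv.A
end
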