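import Mathlib

set_option autoImplicit false

open Set Filter Topology MeasureTheory

namespace Pool.Agent.Helper140.TT

variable {n : ℕ}

/-- The sets D_sigma(Omega, b): real part in Omega and sigma_j Im z_j > b_j for all j. -/
def D (Ω : Set (Fin n → ℝ)) (b : Fin n → ℝ) (σ : Fin n → ℤˣ) : Set (Fin n → ℂ) :=
  {z | (fun j => (z j).re) ∈ Ω ∧ ∀ j, b j < ((σ j : ℤ) : ℝ) * (z j).im}

/-- The sets D^k_sigma(Omega, b): the same with the condition for j = k removed. -/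
def Dk (Ω : Set (Fin n → ℝ)) (b : Fin n → ℝ) (k : Fin n) (σ : Fin n → ℤˣ) : Set (Fin n → ℂ) :=
  {z | (fun j => (z j).re) ∈ Ω ∧ ∀ j, j ≠ k → b j < ((σ j : ℤ) : ℝ) * (z j).im}

/-- f is admissible for c, and F gives the continuous extensions of the restrictions f_sigma. -/
structure Admissible (Ω : Set (Fin n → ℝ)) (c : Fin n → ℝ) (f : (Fin n → ℂ) → ℂ)
    (F : (Fin n → ℤˣ) → (Fin n → ℂ) → ℂ) : Prop where
  hol : DifferentiableOn ℂ f (⋃ σ, D Ω 0 σ)
  cont : ∀ σ, ContinuousOn (F σ) (closure (D Ω 0 σ))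
  ext : ∀ σ, Set.EqOn (F σ) f (D Ω 0 σ)
  split : ∃ h : Fin n → (Fin n → ℂ) → ℂ, (∀ k, DifferentiableOn ℂ (h k) (⋃ σ, Dk Ω c k σ)) ∧
    ∀ z ∈ ⋃ σ, D Ω c σ, f z = ∑ k, h k z

/-- The function g(x) = sum over sigma of sign(sigma) f_sigma(x). -/
noncomputable def gfun (F : (Fin n → ℤˣ) → (Fin n → ℂ) → ℂ) (x : Fin n → ℝ) : ℂ :=
  ∑ σ : Fin n → ℤˣ, ((∏ j, (σ j : ℤ) : ℤ) : ℂ) * F σ (fun j => (x j : ℂ))

/-- U(Omega, c): the union of all open W in Omega on which g vanishes for every admissible f. -/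
def U (Ω : Set (Fin n → ℝ)) (c : Fin n → ℝ) : Set (Fin n → ℝ) :=
  ⋃₀ {W | IsOpen W ∧ W ⊆ Ω ∧ ∀ f F, Admissible Ω c f F → ∀ x ∈ W, gfun F x = 0}

/-- The compact set obtained from a set A of real points by adding i times the box with
half sides c_j. -/
def tubeBox (A : Set (Fin n → ℝ)) (c : Fin n → ℝ) : Set (Fin n → ℂ) :=
  {z | (fun j => (z j).re) ∈ A ∧ ∀ j, |(z j).im| ≤ c j}

/-- The polynomially convex hull of a set in complex n-space. -/
def polyHull (L : Set (Fin n → ℂ)) : Set (Fin n → ℂ) :=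
  {z | ∀ (p : MvPolynomial (Fin n) ℂ) (M : ℝ), (∀ t ∈ L, ‖MvPolynomial.eval t p‖ ≤ M) →
    ‖MvPolynomial.eval z p‖ ≤ M}

/-- The points x of Omega that some function phi, holomorphic near closure W + i box for a
relatively compact open W containing x, separates from bd W + i box. -/
def SepHol (Ω : Set (Fin n → ℝ)) (c : Fin n → ℝ) : Set (Fin n → ℝ) :=
  {x | ∃ W : Set (Fin n → ℝ), IsOpen W ∧ Bornology.IsBounded W ∧ closure W ⊆ Ω ∧ x ∈ W ∧
    ∃ (N : Set (Fin n → ℂ)) (φ : (Fin n → ℂ) → ℂ), IsOpen N ∧ tubeBox (closure W) c ⊆ N ∧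
      DifferentiableOn ℂ φ N ∧
      ∀ t ∈ tubeBox (frontier W) c, ‖φ t‖ < ‖φ (fun j => (x j : ℂ))‖}

/-- The same with polynomials. -/
def SepPoly (Ω : Set (Fin n → ℝ)) (c : Fin n → ℝ) : Set (Fin n → ℝ) :=
  {x | ∃ W : Set (Fin n → ℝ), IsOpen W ∧ Bornology.IsBounded W ∧ closure W ⊆ Ω ∧ x ∈ W ∧
    (fun j => (x j : ℂ)) ∉ polyHull (tubeBox (frontier W) c)}

/-! basic facts -/

lemma continuous_reV : Continuous (fun z : Fin n → ℂ => (fun j => (z j).re)) := by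
  fun_prop

lemma continuous_ofV : Continuous (fun x : Fin n → ℝ => (fun j => (x j : ℂ))) := by
  fun_prop

lemma isOpen_D {Ω : Set (Fin n → ℝ)} (hΩ : IsOpen Ω) (b : Fin n → ℝ) (σ : Fin n → ℤˣ) :
    IsOpen (D Ω b σ) := by
  have h1 : D Ω b σ = ((fun z : Fin n → ℂ => (fun j => (z j).re)) ⁻¹' Ω) ∩
      ⋂ j, {z : Fin n → ℂ | b j < ((σ j : ℤ) : ℝ) * (z j).im} := by
    ext z; simp [D]
  rw [h1]
  refine (hΩ.preimage continuous_reV).inter (isOpen_iInter_of_finite fun j => ?_)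
  exact isOpen_lt continuous_const (by fun_prop)

lemma isOpen_Dk {Ω : Set (Fin n → ℝ)} (hΩ : IsOpen Ω) (b : Fin n → ℝ) (k : Fin n)
    (σ : Fin n → ℤˣ) : IsOpen (Dk Ω b k σ) := by
  have h1 : Dk Ω b k σ = ((fun z : Fin n → ℂ => (fun j => (z j).re)) ⁻¹' Ω) ∩
      ⋂ j, {z : Fin n → ℂ | j ≠ k → b j < ((σ j : ℤ) : ℝ) * (z j).im} := by
    ext z; simp [Dk]
  rw [h1]
  refine (hΩ.preimage continuous_reV).inter (isOpen_iInter_of_finite fun j => ?_)
  by_cases hj : j = k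
  · simp [hj]
  · have : {z : Fin n → ℂ | j ≠ k → b j < ((σ j : ℤ) : ℝ) * (z j).im} =
        {z : Fin n → ℂ | b j < ((σ j : ℤ) : ℝ) * (z j).im} := by
      ext z; simp [hj]
    rw [this]
    exact isOpen_lt continuous_const (by fun_prop)

lemma isCompact_tubeBox {A : Set (Fin n → ℝ)} (hA : IsCompact A) (c : Fin n → ℝ) :
    IsCompact (tubeBox A c) := by
  have h1 : tubeBox A c = (fun q : (Fin n → ℝ) × (Fin n → ℝ) =>
      (fun j => (q.1 j : ℂ) + (q.2 j : ℂ) * Complex.I : Fin n → ℂ)) ''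
      (A ×ˢ Set.Icc (fun j => - c j) c) := by
    ext z
    constructor
    · rintro ⟨h1, h2⟩
      refine ⟨(fun j => (z j).re, fun j => (z j).im), ⟨h1, ?_, ?_⟩, ?_⟩
      · intro j; exact (abs_le.1 (h2 j)).1
      · intro j; exact (abs_le.1 (h2 j)).2
      · funext j; exact Complex.re_add_im (z j)
    · rintro ⟨⟨x, y⟩, ⟨hx, hy⟩, rfl⟩
      refine ⟨by simpa using hx, fun j => ?_⟩
      have h3 := hy.1 j
      have h4 := hy.2 j
      simp only at h3 h4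
      simpa using abs_le.2 ⟨h3, h4⟩
  rw [h1]
  refine (hA.prod isCompact_Icc).image ?_
  fun_prop

lemma gfun_continuousOn {Ω : Set (Fin n → ℝ)} {c : Fin n → ℝ} {f : (Fin n → ℂ) → ℂ}
    {F : (Fin n → ℤˣ) → (Fin n → ℂ) → ℂ} (hF : Admissible Ω c f F) :
    ContinuousOn (gfun F) Ω := by
  unfold gfun
  refine continuousOn_finsetSum _ fun σ _ => continuousOn_const.mul ?_
  refine (hF.cont σ).comp continuous_ofV.continuousOn ?_
  intro x hx
  -- x is a limit of x + i s sigma, s -> 0+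
  rw [mem_closure_iff_seq_limit]
  refine ⟨fun m => fun j => (x j : ℂ) + ((1 / ((m : ℝ) + 1) * ((σ j : ℤ) : ℝ) : ℝ) : ℂ) * Complex.I,
    fun m => ⟨by simpa using hx, fun j => ?_⟩, ?_⟩
  · have h1 : (((σ j : ℤ) : ℝ)) * (((σ j : ℤ) : ℝ)) = 1 := by
      rcases Int.units_eq_one_or (σ j) with h | h <;> simp [h]
    have h3 : (0 : ℝ) < 1 / ((m : ℝ) + 1) := by positivity
    simp only [Pi.zero_apply, Complex.add_im, Complex.ofReal_im, Complex.mul_im, Complex.ofReal_re,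
      Complex.I_im, mul_one, Complex.I_re, mul_zero, add_zero, zero_add]
    nlinarith
  · rw [tendsto_pi_nhds]
    intro j
    have h1 : Tendsto (fun m : ℕ => 1 / ((m : ℝ) + 1)) atTop (𝓝 0) :=
      tendsto_one_div_add_atTop_nhds_zero_nat
    have h2 : Tendsto (fun m : ℕ => ((1 / ((m : ℝ) + 1) * ((σ j : ℤ) : ℝ) : ℝ) : ℂ)) atTop
        (𝓝 ((0 * ((σ j : ℤ) : ℝ) : ℝ) : ℂ)) :=
      (Complex.continuous_ofReal.tendsto _).comp (h1.mul_const _)
    have h3 := (tendsto_const_nhds (x := (x j : ℂ))).add (h2.mul_const Complex.I)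
    simpa using h3

lemma unit_sq (e : ℤˣ) : (((e : ℤ) : ℝ)) * (((e : ℤ) : ℝ)) = 1 := by
  rcases Int.units_eq_one_or e with h | h <;> simp [h]

end Pool.Agent.Helper140.TT
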