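import Mathlib
import Pool.Agent.Helper140.TT1

set_option autoImplicit false

open Set Filter Topology MeasureTheory

namespace Pool.Agent.Helper140.TT

variable {n : ℕ}

/-- the point x + i y -/
noncomputable def pt (x y : Fin n → ℝ) : Fin n → ℂ := fun j => (x j : ℂ) + (y j : ℂ) * Complex.I

lemma continuous_pt : Continuous (fun q : (Fin n → ℝ) × (Fin n → ℝ) => pt q.1 q.2) := by
  unfold pt; fun_prop

lemma fderiv_bound {V : Set (Fin n → ℂ)} (hV : IsOpen V) {G : (Fin n → ℂ) → ℂ}
    (hG : DifferentiableOn ℂ G V) {P : Set (Fin n → ℂ)} (hP : IsCompact P) (hPV : P ⊆ V)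
    (w : Fin n → ℂ) : ∃ B : ℝ, 0 ≤ B ∧ ∀ z ∈ P, ‖fderiv ℂ G z w‖ ≤ B := by
  obtain ⟨r, hr, hrV⟩ := hP.exists_cthickening_subset_open hV hPV
  have hcomp : IsCompact (Metric.cthickening r P) := hP.cthickening
  obtain ⟨B, hB⟩ := hcomp.exists_bound_of_continuousOn (hG.continuousOn.mono hrV)
  have hR : 0 < r / (‖w‖ + 1) := by positivity
  refine ⟨|B| / (r / (‖w‖ + 1)), by positivity, fun z hz => ?_⟩
  have hin : ∀ ζ : ℂ, ‖ζ‖ ≤ r / (‖w‖ + 1) → z + ζ • w ∈ Metric.cthickening r P := by
    intro ζ hζ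
    refine Metric.mem_cthickening_of_dist_le _ z _ _ hz ?_
    rw [dist_eq_norm]
    simp only [add_sub_cancel_left, norm_smul]
    calc ‖ζ‖ * ‖w‖ ≤ (r / (‖w‖ + 1)) * (‖w‖ + 1) := by
          gcongr; linarith
      _ = r := by field_simp
  have hd : ∀ ζ : ℂ, ‖ζ‖ ≤ r / (‖w‖ + 1) →
      DifferentiableAt ℂ (fun ζ : ℂ => G (z + ζ • w)) ζ := by
    intro ζ hζ
    have h1 : DifferentiableAt ℂ G (z + ζ • w) :=
      (hG _ (hrV (hin ζ hζ))).differentiableAt (hV.mem_nhds (hrV (hin ζ hζ)))
    exact DifferentiableAt.comp ζ h1 (by fun_prop)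
  have h2 : ‖deriv (fun ζ : ℂ => G (z + ζ • w)) 0‖ ≤ |B| / (r / (‖w‖ + 1)) := by
    refine Complex.norm_deriv_le_of_forall_mem_sphere_norm_le hR ?_ ?_
    · refine DifferentiableOn.diffContOnCl ?_
      rw [closure_ball _ hR.ne']
      intro ζ hζ
      refine (hd ζ ?_).differentiableWithinAt
      simpa using hζ
    · intro ζ hζ
      refine (hB _ (hin ζ ?_)).trans (le_abs_self _)
      have : ‖ζ‖ = r / (‖w‖ + 1) := by simpa using hζ
      exact this.le
  have h3 : deriv (fun ζ : ℂ => G (z + ζ • w)) 0 = fderiv ℂ G z w := by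
    have h1 : DifferentiableAt ℂ G z := (hG _ (hPV hz)).differentiableAt (hV.mem_nhds (hPV hz))
    have h4 : HasDerivAt (fun ζ : ℂ => z + ζ • w) w 0 := by
      simpa using ((hasDerivAt_id (0:ℂ)).smul_const w).const_add z
    have h5 : HasFDerivAt G (fderiv ℂ G z) (z + (0:ℂ) • w) := by simpa using h1.hasFDerivAt
    exact (h5.comp_hasDerivAt (0:ℂ) h4).deriv
  rw [← h3]; exact h2

lemma integrable_of_bdd {K : Set (Fin n → ℝ)} (hK : IsCompact K) {h : (Fin n → ℝ) → ℂ}
    (h0 : ∀ x, x ∉ K → h x = 0) (hm : AEStronglyMeasurable h (volume.restrict K)) {B : ℝ}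
    (hB : ∀ x ∈ K, ‖h x‖ ≤ B) : Integrable h := by
  have hfin : IsFiniteMeasure ((volume : Measure (Fin n → ℝ)).restrict K) :=
    ⟨by rw [Measure.restrict_apply_univ]; exact hK.measure_lt_top⟩
  have h1 : IntegrableOn h K := by
    refine Integrable.mono' (g := fun _ => B) (integrable_const B) hm ?_
    exact (ae_restrict_iff' hK.measurableSet).2 (Eventually.of_forall fun x hx => hB x hx)
  refine (integrableOn_iff_integrable_of_support_subset ?_).1 h1
  intro x hx
  by_contra hxK
  exact hx (h0 x hxK)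

lemma deform {χ : (Fin n → ℝ) → ℝ} (hχ : ContDiff ℝ 1 χ) (hc : HasCompactSupport χ)
    {V : Set (Fin n → ℂ)} (hV : IsOpen V) {G : (Fin n → ℂ) → ℂ} (hG : DifferentiableOn ℂ G V)
    (y0 v : Fin n → ℝ)
    (hin : ∀ x ∈ tsupport χ, ∀ s ∈ Ioc (0:ℝ) 1, pt x (y0 + s • v) ∈ V)
    (hcont : ContinuousOn (fun q : (Fin n → ℝ) × ℝ => G (pt q.1 (y0 + q.2 • v)))
      (tsupport χ ×ˢ Icc 0 1))
    {M : ℝ}
    (hM : ∀ x ∈ tsupport χ, fderiv ℝ χ x ≠ 0 → ∀ s ∈ Ioc (0:ℝ) 1, ‖G (pt x (y0 + s • v))‖ ≤ M) :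
    ‖(∫ x, (χ x : ℂ) * G (pt x (y0 + v))) - ∫ x, (χ x : ℂ) * G (pt x y0)‖
      ≤ M * ∫ x, ‖fderiv ℝ χ x v‖ := by
  set K := tsupport χ with hKdef
  have hK : IsCompact K := hc
  have hfin : IsFiniteMeasure ((volume : Measure (Fin n → ℝ)).restrict K) :=
    ⟨by rw [Measure.restrict_apply_univ]; exact hK.measure_lt_top⟩
  set I : ℝ → ℂ := fun s => ∫ x, (χ x : ℂ) * G (pt x (y0 + s • v)) with hI
  have hχ0 : ∀ x, x ∉ K → χ x = 0 := fun x hx => image_eq_zero_of_notMem_tsupport hx
  have hdχ0 : ∀ x, x ∉ K → fderiv ℝ χ x = 0 := fun x hx => by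
    have : x ∉ Function.support (fderiv ℝ χ) := fun h => hx (support_fderiv_subset ℝ h)
    simpa using this
  have hdχc : Continuous (fun x => fderiv ℝ χ x v) :=
    (hχ.continuous_fderiv (by simp)).clm_apply continuous_const
  -- compactness bound for G
  have hKI : IsCompact (K ×ˢ Icc (0:ℝ) 1) := hK.prod isCompact_Icc
  obtain ⟨B, hB⟩ := hKI.exists_bound_of_continuousOn hcont
  obtain ⟨Bχ, hBχ⟩ := hK.exists_bound_of_continuousOn hχ.continuous.continuousOn
  obtain ⟨Bd, hBd⟩ := hK.exists_bound_of_continuousOn hdχc.continuousOn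
  have hslice : ∀ s ∈ Icc (0:ℝ) 1, ContinuousOn (fun x => G (pt x (y0 + s • v))) K := by
    intro s hs
    exact hcont.comp (f := fun x : Fin n → ℝ => (x, s))
      (Continuous.continuousOn (by fun_prop)) (fun x hx => ⟨hx, hs⟩)
  have hmeas : ∀ s ∈ Icc (0:ℝ) 1, AEStronglyMeasurable
      (fun x => (χ x : ℂ) * G (pt x (y0 + s • v))) (volume.restrict K) := by
    intro s hs
    refine ContinuousOn.aestronglyMeasurable ?_ hK.measurableSet
    exact (Complex.continuous_ofReal.comp hχ.continuous).continuousOn.mul (hslice s hs)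
  have hrestr : ∀ s, I s = ∫ x in K, (χ x : ℂ) * G (pt x (y0 + s • v)) := by
    intro s
    rw [hI]
    refine (setIntegral_eq_integral_of_forall_compl_eq_zero fun x hx => ?_).symm
    simp [hχ0 x hx]
  have hbd : ∀ s ∈ Icc (0:ℝ) 1, ∀ x ∈ K, ‖(χ x : ℂ) * G (pt x (y0 + s • v))‖ ≤ |Bχ| * |B| := by
    intro s hs x hx
    rw [norm_mul]
    refine mul_le_mul ?_ ?_ (norm_nonneg _) (abs_nonneg _)
    · rw [Complex.norm_real]; exact (hBχ x hx).trans (le_abs_self _)
    · exact (hB (x, s) ⟨hx, hs⟩).trans (le_abs_self _)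
  have hIcont : ContinuousOn I (Icc 0 1) := by
    have h1 : ContinuousOn (fun s : ℝ => ∫ x in K, (χ x : ℂ) * G (pt x (y0 + s • v)))
        (Icc (0:ℝ) 1) := by
      refine MeasureTheory.continuousOn_of_dominated (μ := volume.restrict K)
        (F := fun (s : ℝ) (x : Fin n → ℝ) => (χ x : ℂ) * G (pt x (y0 + s • v)))
        (s := Icc (0:ℝ) 1)
        (bound := fun _ => |Bχ| * |B|) hmeas ?_ (integrable_const _) ?_
      · intro s hs
        exact (ae_restrict_iff' hK.measurableSet).2 (Eventually.of_forall fun x hx => hbd s hs x hx)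
      · refine (ae_restrict_iff' hK.measurableSet).2 (Eventually.of_forall fun x hx => ?_)
        refine continuousOn_const.mul ?_
        exact hcont.comp (f := fun s : ℝ => (x, s)) (Continuous.continuousOn (by fun_prop))
          (fun s hs => ⟨hx, hs⟩)
    refine h1.congr fun s _ => hrestr s
  -- derivative
  set w : Fin n → ℂ := fun j => (v j : ℂ) with hw
  have hder : ∀ s ∈ Ioo (0:ℝ) 1, HasDerivAt I
      (- (Complex.I * ∫ x, ((fderiv ℝ χ x v : ℝ) : ℂ) * G (pt x (y0 + s • v)))) s := by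
    intro s hs
    -- local interval
    obtain ⟨δ, hδ, hδs⟩ : ∃ δ > 0, Icc (s - δ) (s + δ) ⊆ Ioo (0:ℝ) 1 := by
      refine ⟨min s (1 - s) / 2, by
        have := hs.1; have := hs.2
        have : 0 < min s (1 - s) := lt_min hs.1 (by linarith)
        positivity, fun t ht => ?_⟩
      have h1 : min s (1 - s) ≤ s := min_le_left _ _
      have h2 : min s (1 - s) ≤ 1 - s := min_le_right _ _
      have h3 : 0 < min s (1 - s) := lt_min hs.1 (by linarith [hs.2])
      constructor
      · have := ht.1; linarith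
      · have := ht.2; linarith
    set P : Set (Fin n → ℂ) := (fun q : (Fin n → ℝ) × ℝ => pt q.1 (y0 + q.2 • v)) ''
      (K ×ˢ Icc (s - δ) (s + δ)) with hPdef
    have hPc : IsCompact P := by
      refine (hK.prod isCompact_Icc).image ?_
      have h1 : Continuous (fun q : (Fin n → ℝ) × ℝ => (q.1, y0 + q.2 • v)) :=
        continuous_fst.prodMk (continuous_const.add (continuous_snd.smul continuous_const))
      exact continuous_pt.comp h1
    have hPV : P ⊆ V := by
      rintro _ ⟨⟨x, t⟩, ⟨hx, ht⟩, rfl⟩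
      exact hin x hx t ⟨(hδs ht).1, (hδs ht).2.le⟩
    obtain ⟨B1, hB10, hB1⟩ := fderiv_bound hV hG hPc hPV w
    have hIw : ∀ z, fderiv ℂ G z (Complex.I • w) = Complex.I * fderiv ℂ G z w := by
      intro z; rw [map_smul]; rfl
    have hpath : ∀ (x : Fin n → ℝ) (t : ℝ),
        HasDerivAt (fun t : ℝ => pt x (y0 + t • v)) (Complex.I • w) t := by
      intro x t
      rw [hasDerivAt_pi]
      intro j
      have h1 : HasDerivAt (fun t : ℝ => (((y0 + t • v) j : ℝ) : ℂ)) (v j : ℂ) t := by
        have h2 : HasDerivAt (fun t : ℝ => (y0 + t • v) j) (v j) t := by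
          simpa using ((hasDerivAt_id t).mul_const (v j)).const_add (y0 j)
        exact h2.ofReal_comp
      have h3 := (h1.mul_const Complex.I).const_add (x j : ℂ)
      simpa [pt, hw, mul_comm] using h3
    have hFder : ∀ x ∈ K, ∀ t ∈ Ioo (s - δ) (s + δ),
        HasDerivAt (fun t : ℝ => (χ x : ℂ) * G (pt x (y0 + t • v)))
          ((χ x : ℂ) * (Complex.I * fderiv ℂ G (pt x (y0 + t • v)) w)) t := by
      intro x hx t ht
      have hmem : pt x (y0 + t • v) ∈ V := hPV ⟨(x, t), ⟨hx, ⟨ht.1.le, ht.2.le⟩⟩, rfl⟩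
      have h1 : HasFDerivAt G (fderiv ℂ G (pt x (y0 + t • v))) (pt x (y0 + t • v)) :=
        ((hG _ hmem).differentiableAt (hV.mem_nhds hmem)).hasFDerivAt
      have h2 := (h1.restrictScalars ℝ).comp_hasDerivAt t (hpath x t)
      have h3 := h2.const_mul (χ x : ℂ)
      simp only [ContinuousLinearMap.coe_restrictScalars', hIw] at h3
      exact h3
    have hmeasG : ∀ t : ℝ, Measurable (fun x => fderiv ℂ G (pt x (y0 + t • v)) w) := by
      intro t
      have h1 : Measurable (fun z => fderiv ℂ G z w) := measurable_fderiv_apply_const ℂ G w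
      have h2 : Continuous (fun x : Fin n → ℝ => pt x (y0 + t • v)) :=
        continuous_pt.comp (continuous_id.prodMk continuous_const)
      exact h1.comp h2.measurable
    have hmeas' : AEStronglyMeasurable
        (fun x => (χ x : ℂ) * (Complex.I * fderiv ℂ G (pt x (y0 + s • v)) w))
        (volume.restrict K) := by
      have h3 : Measurable (fun x => (χ x : ℂ)) :=
        (Complex.continuous_ofReal.comp hχ.continuous).measurable
      exact (h3.mul (measurable_const.mul (hmeasG s))).aestronglyMeasurable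
    have hB1' : ∀ x ∈ K, ∀ t ∈ Ioo (s - δ) (s + δ),
        ‖(χ x : ℂ) * (Complex.I * fderiv ℂ G (pt x (y0 + t • v)) w)‖ ≤ |Bχ| * B1 := by
      intro x hx t ht
      rw [norm_mul, norm_mul, Complex.norm_I, one_mul, Complex.norm_real]
      refine mul_le_mul ((hBχ x hx).trans (le_abs_self _)) (hB1 _ ?_) (norm_nonneg _) (abs_nonneg _)
      exact ⟨(x, t), ⟨hx, ⟨ht.1.le, ht.2.le⟩⟩, rfl⟩
    have hsI : s ∈ Icc (0:ℝ) 1 := ⟨hs.1.le, hs.2.le⟩
    have hmain := hasDerivAt_integral_of_dominated_loc_of_deriv_le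
      (μ := volume.restrict K) (𝕜 := ℝ)
      (F := fun (t : ℝ) (x : Fin n → ℝ) => (χ x : ℂ) * G (pt x (y0 + t • v)))
      (F' := fun (t : ℝ) (x : Fin n → ℝ) =>
        (χ x : ℂ) * (Complex.I * fderiv ℂ G (pt x (y0 + t • v)) w))
      (x₀ := s) (s := Ioo (s - δ) (s + δ)) (bound := fun _ => |Bχ| * B1)
      (Ioo_mem_nhds (by linarith) (by linarith)) ?_ ?_ hmeas' ?_ (integrable_const _) ?_
    · have h4 := hmain.2
      have h5 : HasDerivAt I (∫ x in K, (χ x : ℂ) * (Complex.I *
          fderiv ℂ G (pt x (y0 + s • v)) w)) s := by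
        refine h4.congr_of_eventuallyEq (Eventually.of_forall fun t => hrestr t)
      convert h5 using 1
      -- integration by parts
      set g : (Fin n → ℝ) → ℂ := fun x => G (pt x (y0 + s • v)) with hg
      set χc : (Fin n → ℝ) → ℂ := fun x => (χ x : ℂ) with hχc
      have hxdiff : ∀ x, HasFDerivAt χc (Complex.ofRealCLM.comp (fderiv ℝ χ x)) x := by
        intro x
        have := (hχ.differentiable (by simp) x).hasFDerivAt
        exact Complex.ofRealCLM.hasFDerivAt.comp x this
      set Lc : (Fin n → ℝ) →L[ℝ] (Fin n → ℂ) := ContinuousLinearMap.pi fun j =>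
        Complex.ofRealCLM.comp (ContinuousLinearMap.proj (R := ℝ) (φ := fun _ : Fin n => ℝ) j)
        with hLc
      have hLx : ∀ x, HasFDerivAt (fun x : Fin n → ℝ => pt x (y0 + s • v)) Lc x := by
        intro x
        have h1 : HasFDerivAt (fun x : Fin n → ℝ => Lc x) Lc x := Lc.hasFDerivAt
        have h2 := h1.add_const (fun j => (((y0 + s • v) j : ℝ) : ℂ) * Complex.I)
        exact h2
      have hLv : Lc v = w := by
        funext j; simp [hLc, hw]
      have hgx : ∀ x ∈ K, HasFDerivAt g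
          (((fderiv ℂ G (pt x (y0 + s • v))).restrictScalars ℝ).comp Lc) x := by
        intro x hx
        have hmem : pt x (y0 + s • v) ∈ V := hin x hx s ⟨hs.1, hs.2.le⟩
        have h1 : HasFDerivAt G (fderiv ℂ G (pt x (y0 + s • v))) (pt x (y0 + s • v)) :=
          ((hG _ hmem).differentiableAt (hV.mem_nhds hmem)).hasFDerivAt
        exact (h1.restrictScalars ℝ).comp x (hLx x)
      have htsc : tsupport χc ⊆ K := by
        refine closure_mono ?_
        intro x hx
        simpa [hχc] using hx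
      have hIi : ∀ x, χc x * fderiv ℝ g x v =
          χc x * fderiv ℂ G (pt x (y0 + s • v)) w := by
        intro x
        by_cases hx : x ∈ K
        · rw [(hgx x hx).fderiv]
          simp [hLv]
        · simp [hχc, hχ0 x hx]
      have hint1 : Integrable (fun x => fderiv ℝ χc x v * g x) := by
        have h1 : ∀ x, fderiv ℝ χc x v = ((fderiv ℝ χ x v : ℝ) : ℂ) := by
          intro x; rw [(hxdiff x).fderiv]; rfl
        refine integrable_of_bdd hK (B := |Bd| * |B|) ?_ ?_ ?_
        · intro x hx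
          rw [h1, hdχ0 x hx]; simp
        · refine ContinuousOn.aestronglyMeasurable ?_ hK.measurableSet
          refine ContinuousOn.mul ?_ (hslice s hsI)
          simp_rw [h1]
          exact (Complex.continuous_ofReal.comp hdχc).continuousOn
        · intro x hx
          rw [norm_mul, h1, Complex.norm_real]
          refine mul_le_mul ((hBd x hx).trans (le_abs_self _)) ?_ (norm_nonneg _) (abs_nonneg _)
          exact (hB (x, s) ⟨hx, hsI⟩).trans (le_abs_self _)
      have hint2 : Integrable (fun x => χc x * fderiv ℝ g x v) := by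
        simp_rw [hIi]
        refine integrable_of_bdd hK (B := |Bχ| * B1) ?_ ?_ ?_
        · intro x hx; simp [hχc, hχ0 x hx]
        · have h3 : Measurable (fun x => (χ x : ℂ)) :=
            (Complex.continuous_ofReal.comp hχ.continuous).measurable
          exact (h3.mul (hmeasG s)).aestronglyMeasurable
        · intro x hx
          have := hB1' x hx s ⟨by linarith, by linarith⟩
          rwa [norm_mul, norm_mul, Complex.norm_I, one_mul, ← norm_mul] at this
      have hint3 : Integrable (fun x => χc x * g x) := by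
        refine integrable_of_bdd hK (B := |Bχ| * |B|) ?_ (hmeas s hsI) (hbd s hsI)
        intro x hx; simp [hχc, hχ0 x hx]
      have hibp := integral_mul_fderiv_eq_neg_fderiv_mul_of_integrable (𝕜 := ℂ)
        (μ := (volume : Measure (Fin n → ℝ))) (f := χc) (g := g) (v := v)
        hint1 hint2 hint3 (fun x _ => (hxdiff x).differentiableAt)
        (fun x hx => (hgx x (htsc hx)).differentiableAt)
      have hK0 : ∫ x in K, (χ x : ℂ) * (Complex.I * fderiv ℂ G (pt x (y0 + s • v)) w) =
          ∫ x, (χ x : ℂ) * (Complex.I * fderiv ℂ G (pt x (y0 + s • v)) w) := by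
        refine setIntegral_eq_integral_of_forall_compl_eq_zero fun x hx => ?_
        simp [hχ0 x hx]
      rw [hK0]
      have h6 : ∀ x, (χ x : ℂ) * (Complex.I * fderiv ℂ G (pt x (y0 + s • v)) w) =
          Complex.I * (χc x * fderiv ℝ g x v) := by
        intro x; rw [hIi]; simp only [hχc]; ring
      simp_rw [h6]
      rw [integral_const_mul, hibp, mul_neg]
      congr 2
      refine integral_congr_ae (Eventually.of_forall fun x => ?_)
      simp only
      rw [(hxdiff x).fderiv]; rfl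
    · filter_upwards [Ioo_mem_nhds hs.1 hs.2] with t ht
      exact hmeas t ⟨ht.1.le, ht.2.le⟩
    · exact Integrable.mono' (g := fun _ => |Bχ| * |B|) (integrable_const _) (hmeas s hsI)
        ((ae_restrict_iff' hK.measurableSet).2 (Eventually.of_forall fun x hx => hbd s hsI x hx))
    · exact (ae_restrict_iff' hK.measurableSet).2
        (Eventually.of_forall fun x hx t ht => hB1' x hx t ht)
    · exact (ae_restrict_iff' hK.measurableSet).2
        (Eventually.of_forall fun x hx t ht => hFder x hx t ht)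
  -- mean value theorem
  have hintχ : Integrable (fun x => ‖fderiv ℝ χ x v‖) := by
    refine Continuous.integrable_of_hasCompactSupport hdχc.norm ?_
    refine HasCompactSupport.intro hK fun x hx => ?_
    rw [hdχ0 x hx]; simp
  have hderbd : ∀ s ∈ Ioo (0:ℝ) 1,
      ‖- (Complex.I * ∫ x, ((fderiv ℝ χ x v : ℝ) : ℂ) * G (pt x (y0 + s • v)))‖ ≤
        M * ∫ x, ‖fderiv ℝ χ x v‖ := by
    intro s hs
    rw [norm_neg, norm_mul, Complex.norm_I, one_mul, ← integral_const_mul]
    refine norm_integral_le_of_norm_le (hintχ.const_mul M) (Eventually.of_forall fun x => ?_)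
    rw [norm_mul, Complex.norm_real]
    by_cases hx : x ∈ K
    · by_cases hd : fderiv ℝ χ x = 0
      · simp [hd]
      · have := hM x hx hd s ⟨hs.1, hs.2.le⟩
        rw [mul_comm]
        exact mul_le_mul_of_nonneg_right this (norm_nonneg _)
    · rw [hdχ0 x hx]; simp
  have h0 : I 0 = ∫ x, (χ x : ℂ) * G (pt x y0) := by simp [hI]
  have h1 : I 1 = ∫ x, (χ x : ℂ) * G (pt x (y0 + v)) := by simp [hI]
  rw [← h0, ← h1]
  by_cases hne : I 1 - I 0 = 0
  · rw [hne, norm_zero]
    have := hderbd (1/2) ⟨by norm_num, by norm_num⟩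
    exact (norm_nonneg _).trans this
  · set e : ℂ := (starRingEnd ℂ) (I 1 - I 0) with he
    have hc1 : ContinuousOn (fun s => (e * I s).re) (Icc (0:ℝ) 1) :=
      Complex.continuous_re.comp_continuousOn (continuousOn_const.mul hIcont)
    obtain ⟨s, hs, hsl⟩ := exists_hasDerivAt_eq_slope (fun s => (e * I s).re)
      (fun s => (e * (- (Complex.I * ∫ x, ((fderiv ℝ χ x v : ℝ) : ℂ) *
        G (pt x (y0 + s • v))))).re) (a := (0:ℝ)) (b := 1) (by norm_num) hc1 (by
        intro s hs
        have h2 := (hder s hs).const_mul e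
        exact Complex.reCLM.hasFDerivAt.comp_hasDerivAt s h2)
    rw [sub_zero, div_one] at hsl
    have h3 : (e * I 1).re - (e * I 0).re = ‖I 1 - I 0‖ ^ 2 := by
      rw [← Complex.sub_re, ← mul_sub, he, mul_comm, Complex.mul_conj, Complex.ofReal_re,
        Complex.normSq_eq_norm_sq]
    rw [h3] at hsl
    have h4 := Complex.re_le_norm (e * (- (Complex.I * ∫ x, ((fderiv ℝ χ x v : ℝ) : ℂ) *
        G (pt x (y0 + s • v)))))
    have h5 := hderbd s hs
    rw [norm_mul] at h4
    have h6 : ‖e‖ = ‖I 1 - I 0‖ := by rw [he]; exact RCLike.norm_conj _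
    rw [h6, hsl] at h4
    have h7 : 0 < ‖I 1 - I 0‖ := norm_pos_iff.2 hne
    have h8 : ‖I 1 - I 0‖ ^ 2 ≤ ‖I 1 - I 0‖ * (M * ∫ x, ‖fderiv ℝ χ x v‖) :=
      h4.trans (mul_le_mul_of_nonneg_left h5 h7.le)
    rw [sq] at h8
    exact le_of_mul_le_mul_left h8 h7

end Pool.Agent.Helper140.TT
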