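import Mathlib
import Pool.Agent.Helper140.TT1
import Pool.Agent.Helper140.TT2

set_option autoImplicit false

open Set Filter Topology MeasureTheory

namespace Pool.Agent.Helper140.TT

variable {n : ℕ}

lemma exists_cutoff {K W : Set (Fin n → ℝ)} (hK : IsCompact K) (hW : IsOpen W) (hKW : K ⊆ W) :
    ∃ χ : (Fin n → ℝ) → ℝ, ContDiff ℝ 1 χ ∧ HasCompactSupport χ ∧ tsupport χ ⊆ W ∧
      (∀ x, 0 ≤ χ x) ∧ (∀ x ∈ K, χ x = 1) ∧ ∀ x ∈ K, fderiv ℝ χ x = 0 := by
  obtain ⟨K2, hK2, h12, h2W⟩ := exists_compact_between hK hW hKW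
  obtain ⟨f, hf1, hf0, hf⟩ := exists_contMDiffMap_one_nhds_of_subset_interior
    (I := modelWithCornersSelf ℝ (Fin n → ℝ)) (n := 1) hK.isClosed h12
  have hts : tsupport f ⊆ K2 := by
    refine closure_minimal ?_ hK2.isClosed
    intro x hx
    by_contra h
    exact hx (hf0 x h)
  refine ⟨f, f.contMDiff.contDiff, ?_, hts.trans h2W, fun x => (hf x).1, ?_, ?_⟩
  · exact hK2.of_isClosed_subset (isClosed_tsupport _) hts
  · intro x hx
    exact (hf1.self_of_nhdsSet x hx)
  · intro x hx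
    have h1 : ∀ᶠ y in 𝓝 x, f y = 1 := (eventually_nhdsSet_iff_forall.1 hf1) x hx
    have h2 : (f : (Fin n → ℝ) → ℝ) =ᶠ[𝓝 x] fun _ => 1 := h1
    rw [h2.fderiv_eq]
    simp

lemma laplace {φ a : (Fin n → ℝ) → ℝ} {K : Set (Fin n → ℝ)} (hK : IsCompact K)
    (x0 : Fin n → ℝ) {r0 η ε C C' κ : ℝ} (hr0 : 0 < r0) (hη : 0 < η) (hε : 0 < ε)
    (hC : 0 ≤ C) (hκ : 0 < κ)
    (hφ0 : ∀ x, x ∉ K → φ x = 0) (hφc : ContinuousOn φ K) (hac : ContinuousOn a K)
    (hφη : ∀ x ∈ Metric.ball x0 r0, η ≤ φ x)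
    (haε : ∀ x ∈ K, ε * ‖x - x0‖ ^ 2 ≤ a x)
    (haC : ∀ x ∈ Metric.ball x0 r0, a x ≤ C * ‖x - x0‖ ^ 2)
    (hle : ∀ t : ℝ, 0 < t → |∫ x, φ x * Real.exp (- t * a x)| ≤ C' * Real.exp (- t * κ)) :
    False := by
  have hfin : IsFiniteMeasure ((volume : Measure (Fin n → ℝ)).restrict K) :=
    ⟨by rw [Measure.restrict_apply_univ]; exact hK.measure_lt_top⟩
  obtain ⟨B, hB⟩ := hK.exists_bound_of_continuousOn hφc
  have hint : ∀ t : ℝ, 0 < t → Integrable (fun x => φ x * Real.exp (- t * a x)) := by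
    intro t ht
    have h1 : ContinuousOn (fun x => φ x * Real.exp (- t * a x)) K :=
      hφc.mul (Real.continuous_exp.comp_continuousOn (continuousOn_const.mul hac))
    have h2 : IntegrableOn (fun x => φ x * Real.exp (- t * a x)) K := h1.integrableOn_compact hK
    refine (integrableOn_iff_integrable_of_support_subset ?_).1 h2
    intro x hx
    by_contra hxK
    exact hx (by simp [hφ0 x hxK])
  have hintφ : Integrable φ := by
    have h2 : IntegrableOn φ K := hφc.integrableOn_compact hK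
    refine (integrableOn_iff_integrable_of_support_subset ?_).1 h2
    intro x hx
    by_contra hxK
    exact hx (by simp [hφ0 x hxK])
  set J : ℝ := ∫ x, |φ x| with hJ
  have hJ0 : 0 ≤ J := integral_nonneg fun x => abs_nonneg _
  -- the pointwise inequality
  have hkey : ∀ m : ℝ, 1 ≤ m → 1 / m < r0 →
      η * Real.exp (-C) * (2 / m) ^ n ≤ J * Real.exp (- (m ^ 2) * (ε * r0 ^ 2)) +
        C' * Real.exp (- (m ^ 2) * κ) := by
    intro m hm hmr
    have hm0 : 0 < m := by linarith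
    have hm2 : 0 < m ^ 2 := by positivity
    have hpt : ∀ x, (Metric.closedBall x0 (1 / m)).indicator (fun _ => η * Real.exp (-C)) x
        - |φ x| * Real.exp (- (m ^ 2) * (ε * r0 ^ 2)) ≤ φ x * Real.exp (- (m ^ 2) * a x) := by
      intro x
      have hpos : 0 ≤ |φ x| * Real.exp (- (m ^ 2) * (ε * r0 ^ 2)) := by positivity
      by_cases h1 : x ∈ Metric.closedBall x0 (1 / m)
      · rw [indicator_of_mem h1]
        have h2 : x ∈ Metric.ball x0 r0 := by
          rw [Metric.mem_ball]; rw [Metric.mem_closedBall] at h1; linarith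
        have h3 : ‖x - x0‖ ≤ 1 / m := by rw [← dist_eq_norm]; exact h1
        have h4 : ‖x - x0‖ ^ 2 ≤ (1 / m) ^ 2 := by gcongr
        have h5 : m ^ 2 * a x ≤ C := by
          calc m ^ 2 * a x ≤ m ^ 2 * (C * (1 / m) ^ 2) := by
                refine mul_le_mul_of_nonneg_left ?_ hm2.le
                exact (haC x h2).trans (mul_le_mul_of_nonneg_left h4 hC)
            _ = C := by field_simp
        have h6 : Real.exp (-C) ≤ Real.exp (- (m ^ 2) * a x) := by
          apply Real.exp_le_exp.2; linarith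
        have h7 : η * Real.exp (-C) ≤ φ x * Real.exp (- (m ^ 2) * a x) :=
          mul_le_mul (hφη x h2) h6 (Real.exp_pos _).le (hη.le.trans (hφη x h2))
        linarith
      · rw [indicator_of_notMem h1]
        by_cases h2 : x ∈ Metric.ball x0 r0
        · have h3 : 0 ≤ φ x * Real.exp (- (m ^ 2) * a x) :=
            mul_nonneg (hη.le.trans (hφη x h2)) (Real.exp_pos _).le
          linarith
        · by_cases h3 : x ∈ K
          · have h4 : r0 ≤ ‖x - x0‖ := by
              rw [Metric.mem_ball, not_lt, dist_eq_norm] at h2; exact h2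
            have h5 : r0 ^ 2 ≤ ‖x - x0‖ ^ 2 := by gcongr
            have h6 : Real.exp (- (m ^ 2) * a x) ≤ Real.exp (- (m ^ 2) * (ε * r0 ^ 2)) := by
              apply Real.exp_le_exp.2
              have h7 : ε * r0 ^ 2 ≤ a x :=
                (mul_le_mul_of_nonneg_left h5 hε.le).trans (haε x h3)
              nlinarith
            have h8 : -(|φ x| * Real.exp (- (m ^ 2) * a x)) ≤ φ x * Real.exp (- (m ^ 2) * a x) := by
              have := neg_abs_le (φ x)
              nlinarith [Real.exp_pos (- (m ^ 2) * a x)]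
            have h9 : |φ x| * Real.exp (- (m ^ 2) * a x) ≤
                |φ x| * Real.exp (- (m ^ 2) * (ε * r0 ^ 2)) :=
              mul_le_mul_of_nonneg_left h6 (abs_nonneg _)
            linarith
          · simp [hφ0 x h3]
    have hvol : (volume : Measure (Fin n → ℝ)) (Metric.closedBall x0 (1 / m)) =
        ENNReal.ofReal ((2 * (1 / m)) ^ n) := by
      rw [Real.volume_pi_closedBall _ (by positivity)]
      simp
    have hvfin : (volume : Measure (Fin n → ℝ)) (Metric.closedBall x0 (1 / m)) ≠ ⊤ := by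
      rw [hvol]; exact ENNReal.ofReal_ne_top
    have hi1 : Integrable ((Metric.closedBall x0 (1 / m)).indicator
        (fun _ => η * Real.exp (-C))) := by
      rw [integrable_indicator_iff Metric.isClosed_closedBall.measurableSet]
      exact integrableOn_const hvfin
    have h1 := integral_mono (hi1.sub (hintφ.abs.mul_const _)) (hint (m ^ 2) hm2) hpt
    have h2 : ∫ x, ((Metric.closedBall x0 (1 / m)).indicator (fun _ => η * Real.exp (-C)) x
        - |φ x| * Real.exp (- (m ^ 2) * (ε * r0 ^ 2))) =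
        η * Real.exp (-C) * (2 / m) ^ n - J * Real.exp (- (m ^ 2) * (ε * r0 ^ 2)) := by
      rw [integral_sub hi1 (hintφ.abs.mul_const _), integral_mul_const,
        integral_indicator Metric.isClosed_closedBall.measurableSet, setIntegral_const]
      congr 1
      rw [Measure.real, hvol, ENNReal.toReal_ofReal (by positivity), smul_eq_mul]
      ring
    have h3 := (abs_le.1 (hle (m ^ 2) hm2)).2
    simp only [Pi.sub_apply] at h1
    rw [h2] at h1
    linarith
  -- limit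
  set κ' := min (ε * r0 ^ 2) κ with hκ'
  have hκ'0 : 0 < κ' := lt_min (by positivity) hκ
  have hlim : Tendsto (fun m : ℝ => (J + |C'|) * (κ' ^ n)⁻¹ * ((κ' * m) ^ n * Real.exp (-(κ' * m))))
      atTop (𝓝 ((J + |C'|) * (κ' ^ n)⁻¹ * 0)) := by
    refine Tendsto.const_mul _ ?_
    exact (Real.tendsto_pow_mul_exp_neg_atTop_nhds_zero n).comp
      (tendsto_id.const_mul_atTop hκ'0)
  rw [mul_zero] at hlim
  have hpos : 0 < η * Real.exp (-C) * 2 ^ n := by positivity
  have hev := (hlim.eventually (gt_mem_nhds hpos)).and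
    ((eventually_ge_atTop (1 : ℝ)).and (eventually_gt_atTop (1 / r0)))
  obtain ⟨m, h1, h2, h3⟩ := hev.exists
  have hm0 : 0 < m := by linarith
  have h4 : 1 / m < r0 := by
    rw [div_lt_iff₀ hm0]
    rw [div_lt_iff₀ hr0] at h3
    linarith
  have h5 := hkey m h2 h4
  have h6 : Real.exp (- (m ^ 2) * (ε * r0 ^ 2)) ≤ Real.exp (-(κ' * m)) := by
    apply Real.exp_le_exp.2
    have h10 : κ' ≤ ε * r0 ^ 2 := min_le_left _ _
    have h11 := mul_le_mul_of_nonneg_left h10 (by positivity : 0 ≤ m ^ 2)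
    have h12 := mul_le_mul_of_nonneg_left (by nlinarith : m ≤ m ^ 2) hκ'0.le
    linarith
  have h7 : Real.exp (- (m ^ 2) * κ) ≤ Real.exp (-(κ' * m)) := by
    apply Real.exp_le_exp.2
    have h10 : κ' ≤ κ := min_le_right _ _
    have h11 := mul_le_mul_of_nonneg_left h10 (by positivity : 0 ≤ m ^ 2)
    have h12 := mul_le_mul_of_nonneg_left (by nlinarith : m ≤ m ^ 2) hκ'0.le
    linarith
  have h8 : η * Real.exp (-C) * (2 / m) ^ n ≤ (J + |C'|) * Real.exp (-(κ' * m)) := by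
    calc _ ≤ _ := h5
      _ ≤ J * Real.exp (-(κ' * m)) + |C'| * Real.exp (-(κ' * m)) := by
          refine add_le_add (mul_le_mul_of_nonneg_left h6 hJ0) ?_
          exact mul_le_mul (le_abs_self _) h7 (Real.exp_pos _).le (abs_nonneg _)
      _ = _ := by ring
  have h9 : η * Real.exp (-C) * 2 ^ n ≤
      (J + |C'|) * (κ' ^ n)⁻¹ * ((κ' * m) ^ n * Real.exp (-(κ' * m))) := by
    have e1 : η * Real.exp (-C) * 2 ^ n = (η * Real.exp (-C) * (2 / m) ^ n) * m ^ n := by
      rw [div_pow]; field_simp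
    have e2 : (J + |C'|) * (κ' ^ n)⁻¹ * ((κ' * m) ^ n * Real.exp (-(κ' * m))) =
        ((J + |C'|) * Real.exp (-(κ' * m))) * m ^ n := by
      rw [mul_pow]; field_simp
    rw [e1, e2]
    exact mul_le_mul_of_nonneg_right h8 (by positivity)
  linarith


/-- the deformation estimate with an exponential weight, uniform in the parameter -/
lemma deformE {χ : (Fin n → ℝ) → ℝ} (hχ : ContDiff ℝ 1 χ) (hc : HasCompactSupport χ)
    {V N : Set (Fin n → ℂ)} (hV : IsOpen V) (hN : IsOpen N) {h A : (Fin n → ℂ) → ℂ}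
    (hh : DifferentiableOn ℂ h V) (hA : DifferentiableOn ℂ A N)
    (y0 v : Fin n → ℝ)
    (hin : ∀ x ∈ tsupport χ, ∀ s ∈ Ioc (0:ℝ) 1, pt x (y0 + s • v) ∈ V)
    (hinN : ∀ x ∈ tsupport χ, ∀ s ∈ Icc (0:ℝ) 1, pt x (y0 + s • v) ∈ N)
    (hcont : ContinuousOn (fun q : (Fin n → ℝ) × ℝ => h (pt q.1 (y0 + q.2 • v)))
      (tsupport χ ×ˢ Icc 0 1))
    {κ : ℝ}
    (hκ : ∀ x ∈ tsupport χ, fderiv ℝ χ x ≠ 0 → ∀ s ∈ Ioc (0:ℝ) 1,
      κ ≤ (A (pt x (y0 + s • v))).re) :
    ∃ C : ℝ, ∀ t : ℝ, 0 < t →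
      ‖(∫ x, (χ x : ℂ) * (h (pt x (y0 + v)) * Complex.exp (- t * A (pt x (y0 + v)))))
        - ∫ x, (χ x : ℂ) * (h (pt x y0) * Complex.exp (- t * A (pt x y0)))‖
      ≤ C * Real.exp (- t * κ) := by
  have hK : IsCompact (tsupport χ) := hc
  obtain ⟨B, hB⟩ := (hK.prod isCompact_Icc).exists_bound_of_continuousOn hcont
  refine ⟨|B| * ∫ x, ‖fderiv ℝ χ x v‖, fun t ht => ?_⟩
  have hpc : Continuous (fun q : (Fin n → ℝ) × ℝ => pt q.1 (y0 + q.2 • v)) := by
    have h1 : Continuous (fun q : (Fin n → ℝ) × ℝ => (q.1, y0 + q.2 • v)) :=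
      continuous_fst.prodMk (continuous_const.add (continuous_snd.smul continuous_const))
    exact continuous_pt.comp h1
  have hAc : ContinuousOn (fun q : (Fin n → ℝ) × ℝ => A (pt q.1 (y0 + q.2 • v)))
      (tsupport χ ×ˢ Icc 0 1) :=
    hA.continuousOn.comp hpc.continuousOn (fun q hq => hinN q.1 hq.1 q.2 hq.2)
  have hG : DifferentiableOn ℂ (fun z => h z * Complex.exp (- t * A z)) (V ∩ N) := by
    refine (hh.mono inter_subset_left).mul ?_
    exact ((hA.mono inter_subset_right).const_mul (- (t:ℂ))).cexp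
  have := deform hχ hc (hV.inter hN) hG y0 v
    (fun x hx s hs => ⟨hin x hx s hs, hinN x hx s ⟨hs.1.le, hs.2⟩⟩)
    (hcont.mul (Complex.continuous_exp.comp_continuousOn (continuousOn_const.mul hAc)))
    (M := |B| * Real.exp (- t * κ)) ?_
  · calc _ ≤ _ := this
      _ = _ := by ring
  · intro x hx hd s hs
    rw [norm_mul]
    have h1 : ‖h (pt x (y0 + s • v))‖ ≤ |B| :=
      (hB (x, s) ⟨hx, ⟨hs.1.le, hs.2⟩⟩).trans (le_abs_self _)
    have h2 : ‖Complex.exp (- t * A (pt x (y0 + s • v)))‖ ≤ Real.exp (- t * κ) := by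
      rw [Complex.norm_exp]
      apply Real.exp_le_exp.2
      have h3 := hκ x hx hd s hs
      have h4 : (- (t:ℂ) * A (pt x (y0 + s • v))).re = - t * (A (pt x (y0 + s • v))).re := by
        rw [← Complex.ofReal_neg, Complex.re_ofReal_mul]
      rw [h4]
      nlinarith
    exact mul_le_mul h1 h2 (norm_nonneg _) (abs_nonneg _)

/-- the sign of a vector of signs -/
noncomputable def sgn (σ : Fin n → ℤˣ) : ℂ := ((∏ j, (σ j : ℤ) : ℤ) : ℂ)

/-- flip the k-th sign -/
def flip (k : Fin n) (σ : Fin n → ℤˣ) : Fin n → ℤˣ := Function.update σ k (- σ k)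

lemma flip_flip (k : Fin n) (σ : Fin n → ℤˣ) : flip k (flip k σ) = σ := by
  funext j
  by_cases h : j = k
  · subst h; simp [flip]
  · simp [flip, h]

lemma sgn_flip (k : Fin n) (σ : Fin n → ℤˣ) : sgn (flip k σ) = - sgn σ := by
  unfold sgn
  rw [← Finset.mul_prod_erase Finset.univ (fun j => ((flip k σ) j : ℤ)) (Finset.mem_univ k),
    ← Finset.mul_prod_erase Finset.univ (fun j => ((σ j : ℤˣ) : ℤ)) (Finset.mem_univ k)]
  have h1 : ∏ j ∈ Finset.univ.erase k, ((flip k σ) j : ℤ) =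
      ∏ j ∈ Finset.univ.erase k, ((σ j : ℤˣ) : ℤ) := by
    refine Finset.prod_congr rfl fun j hj => ?_
    simp [flip, Finset.ne_of_mem_erase hj]
  rw [h1]
  simp [flip]

lemma norm_sgn (σ : Fin n → ℤˣ) : ‖sgn σ‖ = 1 := by
  unfold sgn
  push_cast
  rw [norm_prod]
  refine Finset.prod_eq_one fun j _ => ?_
  rcases Int.units_eq_one_or (σ j) with h | h <;> simp [h]

lemma sum_flip_bound (k : Fin n) (T : (Fin n → ℤˣ) → ℂ) (B : (Fin n → ℤˣ) → ℝ)
    (h : ∀ σ, ‖T σ - T (flip k σ)‖ ≤ B σ) :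
    ‖∑ σ, sgn σ * T σ‖ ≤ ∑ σ, B σ := by
  have h1 : ∑ σ, sgn σ * T σ = - ∑ σ, sgn σ * T (flip k σ) := by
    have h2 : ∑ σ, sgn σ * T σ = ∑ σ, sgn (flip k σ) * T (flip k σ) := by
      exact (Equiv.sum_comp (Function.Involutive.toPerm (flip k) (flip_flip k))
        (fun σ => sgn σ * T σ)).symm
    rw [h2, ← Finset.sum_neg_distrib]
    refine Finset.sum_congr rfl fun σ _ => ?_
    rw [sgn_flip]; ring
  have h2 : 2 * ∑ σ, sgn σ * T σ = ∑ σ, sgn σ * (T σ - T (flip k σ)) := by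
    simp_rw [mul_sub]
    rw [Finset.sum_sub_distrib]
    linear_combination h1
  have h3 : ‖2 * ∑ σ, sgn σ * T σ‖ ≤ ∑ σ, B σ := by
    rw [h2]
    refine (norm_sum_le _ _).trans (Finset.sum_le_sum fun σ _ => ?_)
    rw [norm_mul, norm_sgn, one_mul]
    exact h σ
  rw [norm_mul] at h3
  have h4 : ‖(2:ℂ)‖ = 2 := by simp
  rw [h4] at h3
  linarith [norm_nonneg (∑ σ, sgn σ * T σ)]

/-- the vector sigma tau -/
def sv (σ : Fin n → ℤˣ) (τ : Fin n → ℝ) : Fin n → ℝ := fun j => ((σ j : ℤ) : ℝ) * τ j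

end Pool.Agent.Helper140.TT
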