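import Mathlib
import Pool.Agent.Helper140.TT1
import Pool.Agent.Helper140.TT2
import Pool.Agent.Helper140.TT3

set_option autoImplicit false

open Set Filter Topology MeasureTheory

namespace Pool.Agent.Helper140.TT

variable {n : ℕ}

/-- w log w -/
noncomputable def Kp (w : ℂ) : ℂ := w * Complex.log w

/-- the version continuous on the closed lower half plane -/
noncomputable def Km (w : ℂ) : ℂ := (starRingEnd ℂ) (Kp ((starRingEnd ℂ) w))

lemma Kp_continuousAt_zero : ContinuousAt Kp 0 := by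
  have h0 : Kp 0 = 0 := by simp [Kp]
  rw [ContinuousAt, h0]
  have h1 : ∀ w : ℂ, ‖Kp w‖ ≤ |‖w‖ * Real.log ‖w‖| + ‖w‖ * Real.pi := by
    intro w
    unfold Kp
    rw [norm_mul, abs_mul, abs_of_nonneg (norm_nonneg w), ← mul_add]
    refine mul_le_mul_of_nonneg_left ?_ (norm_nonneg _)
    refine (Complex.norm_le_abs_re_add_abs_im _).trans ?_
    rw [Complex.log_re, Complex.log_im]
    have := Complex.abs_arg_le_pi w
    linarith
  have h2 : Tendsto (fun w : ℂ => |‖w‖ * Real.log ‖w‖| + ‖w‖ * Real.pi) (𝓝 0) (𝓝 0) := by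
    have h3 : Continuous (fun w : ℂ => |‖w‖ * Real.log ‖w‖| + ‖w‖ * Real.pi) :=
      ((Real.continuous_mul_log.comp continuous_norm).abs).add
        (continuous_norm.mul continuous_const)
    have := h3.tendsto 0
    simpa using this
  exact squeeze_zero_norm h1 h2

lemma Kp_continuousOn : ContinuousOn Kp {w | 0 ≤ w.im} := by
  intro w hw
  by_cases h0 : w = 0
  · subst h0; exact Kp_continuousAt_zero.continuousWithinAt
  · by_cases h1 : w ∈ Complex.slitPlane
    · exact (continuousAt_id.mul (continuousAt_clog h1)).continuousWithinAt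
    · rw [Complex.mem_slitPlane_iff, not_or, not_lt, not_not] at h1
      have h2 : w.re < 0 := by
        rcases lt_or_eq_of_le h1.1 with h | h
        · exact h
        · exact absurd (Complex.ext h h1.2) h0
      exact continuousWithinAt_id.mul (Complex.continuousWithinAt_log_of_re_neg_of_im_zero h2 h1.2)

lemma Km_continuousOn : ContinuousOn Km {w | w.im ≤ 0} := by
  have h1 : ContinuousOn (fun w : ℂ => Kp ((starRingEnd ℂ) w)) {w | w.im ≤ 0} := by
    refine Kp_continuousOn.comp Complex.continuous_conj.continuousOn ?_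
    intro w hw
    simpa using hw
  exact Complex.continuous_conj.comp_continuousOn h1

lemma Km_eq_Kp {w : ℂ} (hw : w.im ≠ 0) : Km w = Kp w := by
  unfold Km Kp
  rw [map_mul, Complex.conj_conj, Complex.log_conj w ?_, Complex.conj_conj]
  intro h
  rw [Complex.arg_eq_pi_iff] at h
  exact hw h.2

/-- second difference -/
noncomputable def sd (K : ℂ → ℂ) (ε : ℝ) (ζ : ℂ) : ℂ := K (ε - ζ) - 2 * K (-ζ) + K (-ε - ζ)

/-- boundary value functions from the two sides -/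
noncomputable def Fs (ε : ℝ) (e : ℤˣ) (ζ : ℂ) : ℂ := if e = 1 then sd Km ε ζ else sd Kp ε ζ

lemma Fs_continuousOn (ε : ℝ) (e : ℤˣ) :
    ContinuousOn (Fs ε e) {ζ | 0 ≤ ((e : ℤ) : ℝ) * ζ.im} := by
  rcases Int.units_eq_one_or e with h | h
  · subst h
    have h1 : Fs ε 1 = fun ζ => Km (ε - ζ) - 2 * Km (-ζ) + Km (-ε - ζ) := by
      funext ζ; simp [Fs, sd]
    rw [h1]
    refine ((Km_continuousOn.comp (by fun_prop) ?_).sub
      ((Km_continuousOn.comp (by fun_prop) ?_).const_mul 2)).add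
      (Km_continuousOn.comp (by fun_prop) ?_) <;>
    · intro ζ hζ
      simp at hζ ⊢
      exact hζ
  · subst h
    have h0 : (-1 : ℤˣ) ≠ 1 := by decide
    have h1 : Fs ε (-1) = fun ζ => Kp (ε - ζ) - 2 * Kp (-ζ) + Kp (-ε - ζ) := by
      funext ζ; simp [Fs, sd, h0]
    rw [h1]
    refine ((Kp_continuousOn.comp (by fun_prop) ?_).sub
      ((Kp_continuousOn.comp (by fun_prop) ?_).const_mul 2)).add
      (Kp_continuousOn.comp (by fun_prop) ?_) <;>
    · intro ζ hζ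
      simp at hζ ⊢
      exact hζ

lemma Fs_eq {ε : ℝ} {e : ℤˣ} {ζ : ℂ} (hζ : ζ.im ≠ 0) : Fs ε e ζ = sd Kp ε ζ := by
  unfold Fs
  split_ifs
  · unfold sd
    rw [Km_eq_Kp, Km_eq_Kp, Km_eq_Kp] <;> simpa using hζ
  · rfl

lemma sd_Kp_differentiableOn (ε : ℝ) : DifferentiableOn ℂ (sd Kp ε) {ζ | ζ.im ≠ 0} := by
  have hK : ∀ w : ℂ, w.im ≠ 0 → DifferentiableAt ℂ Kp w := by
    intro w hw
    unfold Kp
    exact differentiableAt_id.mul
      (Complex.differentiableAt_log (Complex.mem_slitPlane_iff.2 (Or.inr hw)))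
  intro ζ hζ
  have hζ' : ζ.im ≠ 0 := hζ
  refine DifferentiableAt.differentiableWithinAt ?_
  unfold sd
  have h1 : DifferentiableAt ℂ (fun ζ : ℂ => Kp (ε - ζ)) ζ :=
    (hK _ (by simpa using hζ')).comp ζ (by fun_prop)
  have h2 : DifferentiableAt ℂ (fun ζ : ℂ => Kp (-ζ)) ζ :=
    (hK _ (by simpa using hζ')).comp ζ (by fun_prop)
  have h3 : DifferentiableAt ℂ (fun ζ : ℂ => Kp (-ε - ζ)) ζ :=
    (hK _ (by simpa using hζ')).comp ζ (by fun_prop)
  exact (h1.sub (h2.const_mul 2)).add h3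

lemma jump {ε : ℝ} (hε : 0 < ε) : Fs ε 1 0 - Fs ε (-1) 0 = 2 * Real.pi * ε * Complex.I := by
  have h0 : (-1 : ℤˣ) ≠ 1 := by decide
  simp only [Fs, if_true, h0, if_false, sd, sub_zero, neg_zero]
  have h1 : Kp 0 = 0 := by simp [Kp]
  have h2 : Km 0 = 0 := by simp [Km, h1]
  have h3 : Km (ε : ℂ) = Kp (ε : ℂ) := by
    unfold Km Kp
    rw [map_mul, Complex.conj_conj, Complex.conj_ofReal, ← Complex.ofReal_log hε.le,
      Complex.conj_ofReal]
  have h4 : Km (-(ε : ℂ)) - Kp (-(ε : ℂ)) = 2 * Real.pi * ε * Complex.I := by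
    unfold Km Kp
    have e1 : (starRingEnd ℂ) (-(ε:ℂ)) = -(ε:ℂ) := by
      rw [map_neg, Complex.conj_ofReal]
    rw [map_mul, e1]
    have e2 : Complex.log (-(ε:ℂ)) = (Real.log ε : ℂ) + Real.pi * Complex.I := by
      rw [Complex.log]
      have h5 : Complex.arg (-(ε:ℂ)) = Real.pi := by
        rw [← Complex.ofReal_neg]
        exact Complex.arg_ofReal_of_neg (by linarith)
      rw [h5, norm_neg, Complex.norm_real, Real.norm_eq_abs, abs_of_pos hε]
    rw [e1, e2]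
    simp
    ring
  rw [h1, h2, h3]
  linear_combination h4

/-- the Cauchy transform of the tent function -/
noncomputable def cau (ε : ℝ) (ζ : ℂ) : ℂ := ∫ a : ℝ, ((max 0 (ε - |a|) : ℝ) : ℂ) * ((a : ℂ) - ζ)⁻¹

lemma cau_eq {ε : ℝ} (hε : 0 < ε) {ζ : ℂ} (hζ : ζ.im ≠ 0) : cau ε ζ = sd Kp ε ζ := by
  have hsub : ∀ a : ℝ, ((a : ℂ) - ζ).im ≠ 0 := fun a => by simpa using hζ
  have hne : ∀ a : ℝ, (a : ℂ) - ζ ≠ 0 := fun a h => hsub a (by rw [h]; rfl)
  have hlog : ∀ a : ℝ, HasDerivAt (fun a : ℝ => Complex.log ((a : ℂ) - ζ)) ((a : ℂ) - ζ)⁻¹ a := by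
    intro a
    have h1 : HasDerivAt (fun a : ℝ => (a : ℂ) - ζ) 1 a :=
      (Complex.ofRealCLM.hasDerivAt (x := a)).sub_const ζ
    have h2 := h1.clog_real (Complex.mem_slitPlane_iff.2 (Or.inr (hsub a)))
    simpa using h2
  -- L(a) = (a - ζ) log (a - ζ) - (a - ζ)
  have hL : ∀ a : ℝ, HasDerivAt (fun a : ℝ => Kp ((a : ℂ) - ζ) - ((a : ℂ) - ζ))
      (Complex.log ((a : ℂ) - ζ)) a := by
    intro a
    have h1 : HasDerivAt (fun a : ℝ => (a : ℂ) - ζ) 1 a :=
      (Complex.ofRealCLM.hasDerivAt (x := a)).sub_const ζ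
    have h2 := (h1.mul (hlog a)).sub h1
    refine h2.congr_deriv ?_
    rw [mul_inv_cancel₀ (hne a)]; ring
  have hsupp : Function.support (fun a : ℝ => ((max 0 (ε - |a|) : ℝ) : ℂ) * ((a : ℂ) - ζ)⁻¹) ⊆
      Ioc (-ε) ε := by
    intro a ha
    by_contra hmem
    apply ha
    have : ε - |a| ≤ 0 := by
      rw [mem_Ioc, not_and_or, not_lt, not_le] at hmem
      rcases hmem with h | h
      · have := neg_le_abs a; linarith
      · have := le_abs_self a; linarith
    simp [max_eq_left this]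
  have hcont : ∀ a b : ℝ, IntervalIntegrable
      (fun a : ℝ => ((max 0 (ε - |a|) : ℝ) : ℂ) * ((a : ℂ) - ζ)⁻¹) volume a b := by
    intro a b
    refine Continuous.intervalIntegrable ?_ a b
    refine (Complex.continuous_ofReal.comp (by fun_prop)).mul ?_
    exact Continuous.inv₀ (by fun_prop) hne
  unfold cau
  rw [← intervalIntegral.integral_eq_integral_of_support_subset hsupp,
    ← intervalIntegral.integral_add_adjacent_intervals (hcont (-ε) 0) (hcont 0 ε)]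
  have h1 : ∫ a in (0:ℝ)..ε, ((max 0 (ε - |a|) : ℝ) : ℂ) * ((a : ℂ) - ζ)⁻¹ =
      (Kp ((ε : ℂ) - ζ) - ((ε : ℂ) - ζ)) -
        (ε * Complex.log (-ζ) + (Kp (-ζ) - (-ζ))) := by
    have e1 : ∫ a in (0:ℝ)..ε, ((max 0 (ε - |a|) : ℝ) : ℂ) * ((a : ℂ) - ζ)⁻¹ =
        ∫ a in (0:ℝ)..ε, ((ε : ℂ) - a) * ((a : ℂ) - ζ)⁻¹ := by
      refine intervalIntegral.integral_congr fun a ha => ?_
      rw [uIcc_of_le hε.le] at ha
      rw [abs_of_nonneg ha.1, max_eq_right (by linarith [ha.2])]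
      push_cast; ring
    rw [e1]
    have e2 := intervalIntegral.integral_eq_sub_of_hasDerivAt (a := 0) (b := ε)
      (f := fun a : ℝ => ((ε : ℂ) - a) * Complex.log ((a : ℂ) - ζ) +
        (Kp ((a : ℂ) - ζ) - ((a : ℂ) - ζ)))
      (f' := fun a : ℝ => ((ε : ℂ) - a) * ((a : ℂ) - ζ)⁻¹) (fun a _ => ?_) ?_
    · rw [e2]; simp
    · have h3 : HasDerivAt (fun a : ℝ => (ε : ℂ) - (a : ℂ)) (-1) a :=
        (Complex.ofRealCLM.hasDerivAt (x := a)).const_sub (ε : ℂ)
      have h4 := (h3.mul (hlog a)).add (hL a)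
      refine h4.congr_deriv ?_
      ring
    · refine Continuous.intervalIntegrable ?_ _ _
      exact (by fun_prop : Continuous fun a : ℝ => (ε : ℂ) - a).mul
        (Continuous.inv₀ (by fun_prop) hne)
  have h2 : ∫ a in (-ε:ℝ)..0, ((max 0 (ε - |a|) : ℝ) : ℂ) * ((a : ℂ) - ζ)⁻¹ =
      (ε * Complex.log (-ζ) - (Kp (-ζ) - (-ζ))) + (Kp (-(ε : ℂ) - ζ) - (-(ε : ℂ) - ζ)) := by
    have e1 : ∫ a in (-ε:ℝ)..0, ((max 0 (ε - |a|) : ℝ) : ℂ) * ((a : ℂ) - ζ)⁻¹ =
        ∫ a in (-ε:ℝ)..0, ((ε : ℂ) + a) * ((a : ℂ) - ζ)⁻¹ := by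
      refine intervalIntegral.integral_congr fun a ha => ?_
      rw [uIcc_of_le (by linarith)] at ha
      rw [abs_of_nonpos ha.2, max_eq_right (by linarith [ha.1])]
      push_cast; ring
    rw [e1]
    have e2 := intervalIntegral.integral_eq_sub_of_hasDerivAt (a := -ε) (b := 0)
      (f := fun a : ℝ => ((ε : ℂ) + a) * Complex.log ((a : ℂ) - ζ) -
        (Kp ((a : ℂ) - ζ) - ((a : ℂ) - ζ)))
      (f' := fun a : ℝ => ((ε : ℂ) + a) * ((a : ℂ) - ζ)⁻¹) (fun a _ => ?_) ?_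
    · rw [e2]; simp; ring
    · have h3 : HasDerivAt (fun a : ℝ => (ε : ℂ) + (a : ℂ)) 1 a :=
        (Complex.ofRealCLM.hasDerivAt (x := a)).const_add (ε : ℂ)
      have h4 := (h3.mul (hlog a)).sub (hL a)
      refine h4.congr_deriv ?_
      ring
    · refine Continuous.intervalIntegrable ?_ _ _
      exact (by fun_prop : Continuous fun a : ℝ => (ε : ℂ) + a).mul
        (Continuous.inv₀ (by fun_prop) hne)
  rw [h1, h2]
  unfold sd
  ring

end Pool.Agent.Helper140.TT
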