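import Mathlib
import Pool.Agent.Helper140.TT1
import Pool.Agent.Helper140.TT2
import Pool.Agent.Helper140.TT3
import Pool.Agent.Helper140.TT6

set_option autoImplicit false

open Set Filter Topology MeasureTheory

namespace Pool.Agent.Helper140.TT

variable {n : ℕ}

lemma diffOn_prod {E B : Type*} [NormedAddCommGroup E] [NormedSpace ℂ E] [NormedCommRing B]
    [NormedAlgebra ℂ B] {ι : Type*} (s : Finset ι) (g : ι → E → B) (V : Set E)
    (h : ∀ i ∈ s, DifferentiableOn ℂ (g i) V) : DifferentiableOn ℂ (fun z => ∏ i ∈ s, g i z) V := by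
  classical
  induction s using Finset.induction_on with
  | empty => simp
  | insert a s ha ih =>
    have h1 : (fun z => ∏ i ∈ insert a s, g i z) = fun z => g a z * ∏ i ∈ s, g i z := by
      funext z; rw [Finset.prod_insert ha]
    rw [h1]
    exact (h a (Finset.mem_insert_self _ _)).mul
      (ih fun i hi => h i (Finset.mem_insert_of_mem hi))

/-- the test function f built from tents -/
noncomputable def ft (x1 : Fin n → ℝ) (ε : ℝ) (z : Fin n → ℂ) : ℂ := ∏ j, cau ε (z j - x1 j)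

/-- its boundary value functions -/
noncomputable def Ft (x1 : Fin n → ℝ) (ε : ℝ) (σ : Fin n → ℤˣ) (z : Fin n → ℂ) : ℂ :=
  ∏ j, Fs ε (σ j) (z j - x1 j)

/-- the product Cauchy kernel -/
noncomputable def ker (z t : Fin n → ℂ) : ℂ := ∏ j, (t j - z j)⁻¹

lemma im_ne_of_mem_D {Ω : Set (Fin n → ℝ)} {b : Fin n → ℝ} (hb : ∀ j, 0 ≤ b j)
    {σ : Fin n → ℤˣ} {z : Fin n → ℂ} (hz : z ∈ D Ω b σ) (j : Fin n) : (z j).im ≠ 0 := by
  intro h
  have := hz.2 j
  rw [h, mul_zero] at this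
  exact absurd (hb j) (not_le.2 this)

lemma ft_hol (Ω : Set (Fin n → ℝ)) (x1 : Fin n → ℝ) {ε : ℝ} (hε : 0 < ε) :
    DifferentiableOn ℂ (ft x1 ε) (⋃ σ, D Ω 0 σ) := by
  have h0 : ∀ j : Fin n, DifferentiableOn ℂ (fun z : Fin n → ℂ => sd Kp ε (z j - x1 j))
      {z | ∀ j, (z j).im ≠ 0} := by
    intro j
    refine (sd_Kp_differentiableOn ε).comp (f := fun z : Fin n → ℂ => z j - x1 j)
      (Differentiable.differentiableOn (by fun_prop)) ?_
    intro z hz
    simpa using hz j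
  have h1 : DifferentiableOn ℂ (fun z : Fin n → ℂ => ∏ j, sd Kp ε (z j - x1 j))
      {z | ∀ j, (z j).im ≠ 0} :=
    diffOn_prod (E := Fin n → ℂ) (B := ℂ) Finset.univ
      (fun (j : Fin n) (z : Fin n → ℂ) => sd Kp ε (z j - x1 j)) _ (fun j _ => h0 j)
  have h2 : (⋃ σ, D Ω 0 σ) ⊆ {z : Fin n → ℂ | ∀ j, (z j).im ≠ 0} := by
    intro z hz
    obtain ⟨σ, hσ⟩ := mem_iUnion.1 hz
    exact fun j => im_ne_of_mem_D (fun _ => le_refl _) hσ j
  refine (h1.mono h2).congr fun z hz => ?_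
  unfold ft
  refine Finset.prod_congr rfl fun j _ => ?_
  exact cau_eq hε (by simpa using h2 hz j)

lemma Ft_cont (Ω : Set (Fin n → ℝ)) (x1 : Fin n → ℝ) (ε : ℝ) (σ : Fin n → ℤˣ) :
    ContinuousOn (Ft x1 ε σ) (closure (D Ω 0 σ)) := by
  have h1 : closure (D Ω 0 σ) ⊆ {z : Fin n → ℂ | ∀ j, 0 ≤ ((σ j : ℤ) : ℝ) * (z j).im} := by
    refine closure_minimal (fun z hz j => (hz.2 j).le) ?_
    rw [ofPred_forall]
    refine isClosed_iInter fun j => isClosed_le continuous_const (by fun_prop)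
  refine ContinuousOn.mono ?_ h1
  unfold Ft
  refine continuousOn_finsetProd _ fun j _ => ?_
  refine (Fs_continuousOn ε (σ j)).comp (f := fun z : Fin n → ℂ => z j - x1 j)
    (Continuous.continuousOn (by fun_prop)) ?_
  intro z hz
  simpa using hz j

lemma Ft_ext (Ω : Set (Fin n → ℝ)) (x1 : Fin n → ℝ) {ε : ℝ} (hε : 0 < ε) (σ : Fin n → ℤˣ) :
    Set.EqOn (Ft x1 ε σ) (ft x1 ε) (D Ω 0 σ) := by
  intro z hz
  unfold Ft ft
  refine Finset.prod_congr rfl fun j _ => ?_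
  have h1 : (z j - (x1 j : ℂ)).im ≠ 0 := by
    simpa using im_ne_of_mem_D (fun _ => le_refl _) hz j
  rw [Fs_eq h1, cau_eq hε h1]

lemma gfun_Ft (x1 : Fin n → ℝ) {ε : ℝ} (hε : 0 < ε) : gfun (Ft x1 ε) x1 ≠ 0 := by
  have h1 : gfun (Ft x1 ε) x1 = ∏ j : Fin n, ∑ e : ℤˣ, ((e : ℤ) : ℂ) * Fs ε e 0 := by
    rw [Finset.prod_univ_sum, Fintype.piFinset_univ]
    unfold gfun Ft
    refine Finset.sum_congr rfl fun σ _ => ?_
    rw [Finset.prod_mul_distrib]
    push_cast
    congr 1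
    refine Finset.prod_congr rfl fun j _ => ?_
    simp
  rw [h1, Finset.prod_ne_zero_iff]
  intro j _
  have h2 : ∑ e : ℤˣ, ((e : ℤ) : ℂ) * Fs ε e 0 = Fs ε 1 0 - Fs ε (-1) 0 := by
    rw [UnitsInt.univ, Finset.sum_pair (by decide)]
    simp [sub_eq_add_neg]
  rw [h2, jump hε]
  have := Real.pi_ne_zero
  simp [hε.ne']

/-- the tent weight -/
noncomputable def tw (x1 : Fin n → ℝ) (ε : ℝ) (a : Fin n → ℝ) : ℝ :=
  ∏ j, max 0 (ε - |a j - x1 j|)

lemma tw_nonneg (x1 : Fin n → ℝ) (ε : ℝ) (a : Fin n → ℝ) : 0 ≤ tw x1 ε a :=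
  Finset.prod_nonneg fun _ _ => le_max_left _ _

lemma tw_zero {x1 : Fin n → ℝ} {ε : ℝ} (hε : 0 < ε) {a : Fin n → ℝ}
    (ha : a ∉ Metric.closedBall x1 ε) : tw x1 ε a = 0 := by
  rw [Metric.mem_closedBall, dist_pi_le_iff hε.le, not_forall] at ha
  obtain ⟨j, hj⟩ := ha
  refine Finset.prod_eq_zero (Finset.mem_univ j) ?_
  rw [Real.dist_eq, not_le] at hj
  exact max_eq_left (by linarith)

lemma tw_continuous (x1 : Fin n → ℝ) (ε : ℝ) : Continuous (tw x1 ε) := by
  unfold tw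
  fun_prop

lemma tw_integrable {x1 : Fin n → ℝ} {ε : ℝ} (hε : 0 < ε) : Integrable (tw x1 ε) := by
  refine (tw_continuous x1 ε).integrable_of_hasCompactSupport ?_
  exact HasCompactSupport.intro (isCompact_closedBall x1 ε) (fun a ha => tw_zero hε ha)

lemma ker_continuous {z : Fin n → ℂ} (hz : ∀ j, (z j).im ≠ 0) :
    Continuous (fun a : Fin n → ℝ => ker z (fun j => (a j : ℂ))) := by
  unfold ker
  refine continuous_finsetProd _ fun j _ => ?_
  refine Continuous.inv₀ (by fun_prop) fun a h => ?_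
  have : ((a j : ℂ) - z j).im = 0 := by rw [h]; rfl
  exact hz j (by simpa using this)

lemma ft_eq_integral (x1 : Fin n → ℝ) (ε : ℝ) (z : Fin n → ℂ) :
    ft x1 ε z = ∫ a : Fin n → ℝ, (tw x1 ε a : ℂ) * ker z (fun j => (a j : ℂ)) := by
  have h1 : ∀ j, cau ε (z j - x1 j) =
      ∫ a : ℝ, ((max 0 (ε - |a - x1 j|) : ℝ) : ℂ) * ((a : ℂ) - z j)⁻¹ := by
    intro j
    unfold cau
    rw [← integral_sub_right_eq_self
      (fun a : ℝ => ((max 0 (ε - |a|) : ℝ) : ℂ) * ((a : ℂ) - (z j - x1 j))⁻¹) (x1 j)]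
    refine integral_congr_ae (Eventually.of_forall fun a => ?_)
    simp only
    congr 2
    push_cast; ring
  unfold ft
  simp_rw [h1]
  rw [← integral_fintype_prod_volume_eq_prod
    (f := fun (j : Fin n) (a : ℝ) => ((max 0 (ε - |a - x1 j|) : ℝ) : ℂ) * ((a : ℂ) - z j)⁻¹)]
  refine integral_congr_ae (Eventually.of_forall fun a => ?_)
  simp only [tw, ker]
  rw [Finset.prod_mul_distrib]
  push_cast
  rfl

lemma ft_comb_bound {x1 : Fin n → ℝ} {ε : ℝ} (hε : 0 < ε) {ι : Type*} (α : ι →₀ ℂ)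
    (zz : ι → Fin n → ℂ) (hz : ∀ i j, (zz i j).im ≠ 0) {M : ℝ}
    (hM : ∀ a ∈ Metric.closedBall x1 ε,
      ‖α.sum fun i s => s * ker (zz i) (fun j => (a j : ℂ))‖ ≤ M) :
    ‖α.sum fun i s => s * ft x1 ε (zz i)‖ ≤ (∫ a, tw x1 ε a) * M := by
  have hint : ∀ i, Integrable (fun a : Fin n → ℝ =>
      (tw x1 ε a : ℂ) * ker (zz i) (fun j => (a j : ℂ))) := by
    intro i
    refine Continuous.integrable_of_hasCompactSupport ?_ ?_
    · exact (Complex.continuous_ofReal.comp (tw_continuous x1 ε)).mul (ker_continuous (hz i))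
    · refine HasCompactSupport.intro (isCompact_closedBall x1 ε) fun a ha => ?_
      rw [tw_zero hε ha]; simp
  have h1 : (α.sum fun i s => s * ft x1 ε (zz i)) =
      ∫ a : Fin n → ℝ, (tw x1 ε a : ℂ) *
        (α.sum fun i s => s * ker (zz i) (fun j => (a j : ℂ))) := by
    unfold Finsupp.sum
    simp_rw [ft_eq_integral, Finset.mul_sum]
    rw [integral_finsetSum]
    · refine Finset.sum_congr rfl fun i _ => ?_
      rw [← integral_const_mul]
      refine integral_congr_ae (Eventually.of_forall fun a => ?_)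
      simp only
      ring
    · intro i _
      refine ((hint i).const_mul (α i)).congr (Eventually.of_forall fun a => ?_)
      simp only
      ring
  rw [h1, ← integral_mul_const]
  refine norm_integral_le_of_norm_le ((tw_integrable hε).mul_const M)
    (Eventually.of_forall fun a => ?_)
  rw [norm_mul, Complex.norm_real, Real.norm_eq_abs, abs_of_nonneg (tw_nonneg _ _ _)]
  by_cases ha : a ∈ Metric.closedBall x1 ε
  · exact mul_le_mul_of_nonneg_left (hM a ha) (tw_nonneg _ _ _)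
  · rw [tw_zero hε ha]; simp

end Pool.Agent.Helper140.TT
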