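import Mathlib
import Pool.Agent.Helper140.TT1
import Pool.Agent.Helper140.TT2
import Pool.Agent.Helper140.TT3
import Pool.Agent.Helper140.TT6
import Pool.Agent.Helper140.TT7

set_option autoImplicit false

open Set Filter Topology MeasureTheory

namespace Pool.Agent.Helper140.TT

variable {n : ℕ}

/-- bounded and uniformly approximable by polynomials on Q -/
def Approx (Q : Set (Fin n → ℂ)) (G : (Fin n → ℂ) → ℂ) : Prop :=
  (∃ B : ℝ, 0 ≤ B ∧ ∀ t ∈ Q, ‖G t‖ ≤ B) ∧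
  ∀ η : ℝ, 0 < η → ∃ p : MvPolynomial (Fin n) ℂ, ∀ t ∈ Q, ‖G t - MvPolynomial.eval t p‖ ≤ η

lemma approx_const (Q : Set (Fin n → ℂ)) (a : ℂ) : Approx Q (fun _ => a) := by
  refine ⟨⟨‖a‖, norm_nonneg _, fun _ _ => le_refl _⟩, fun η hη => ⟨MvPolynomial.C a, fun t _ => ?_⟩⟩
  simp [hη.le]

lemma Approx.add {Q : Set (Fin n → ℂ)} {G1 G2 : (Fin n → ℂ) → ℂ} (h1 : Approx Q G1)
    (h2 : Approx Q G2) : Approx Q (fun t => G1 t + G2 t) := by
  obtain ⟨⟨B1, hB1, hb1⟩, ha1⟩ := h1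
  obtain ⟨⟨B2, hB2, hb2⟩, ha2⟩ := h2
  refine ⟨⟨B1 + B2, by positivity, fun t ht => (norm_add_le _ _).trans
    (add_le_add (hb1 t ht) (hb2 t ht))⟩, fun η hη => ?_⟩
  obtain ⟨p1, hp1⟩ := ha1 (η / 2) (by positivity)
  obtain ⟨p2, hp2⟩ := ha2 (η / 2) (by positivity)
  refine ⟨p1 + p2, fun t ht => ?_⟩
  have e : G1 t + G2 t - MvPolynomial.eval t (p1 + p2) =
      (G1 t - MvPolynomial.eval t p1) + (G2 t - MvPolynomial.eval t p2) := by
    rw [map_add]; ring
  rw [e]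
  refine (norm_add_le _ _).trans ?_
  linarith [hp1 t ht, hp2 t ht]

lemma Approx.mul {Q : Set (Fin n → ℂ)} {G1 G2 : (Fin n → ℂ) → ℂ} (h1 : Approx Q G1)
    (h2 : Approx Q G2) : Approx Q (fun t => G1 t * G2 t) := by
  obtain ⟨⟨B1, hB1, hb1⟩, ha1⟩ := h1
  obtain ⟨⟨B2, hB2, hb2⟩, ha2⟩ := h2
  refine ⟨⟨B1 * B2, by positivity, fun t ht => by
    rw [norm_mul]; exact mul_le_mul (hb1 t ht) (hb2 t ht) (norm_nonneg _) hB1⟩, fun η hη => ?_⟩
  obtain ⟨p1, hp1⟩ := ha1 (η / (2 * (B2 + 1))) (by positivity)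
  obtain ⟨p2, hp2⟩ := ha2 (min 1 (η / (2 * (B1 + 1)))) (by positivity)
  refine ⟨p1 * p2, fun t ht => ?_⟩
  have e : G1 t * G2 t - MvPolynomial.eval t (p1 * p2) =
      G1 t * (G2 t - MvPolynomial.eval t p2) +
        (G1 t - MvPolynomial.eval t p1) * MvPolynomial.eval t p2 := by
    rw [map_mul]; ring
  rw [e]
  have h3 : ‖MvPolynomial.eval t p2‖ ≤ B2 + 1 := by
    have e2 : MvPolynomial.eval t p2 = G2 t - (G2 t - MvPolynomial.eval t p2) := by ring
    rw [e2]
    refine (norm_sub_le _ _).trans (add_le_add (hb2 t ht) ((hp2 t ht).trans (min_le_left _ _)))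
  refine (norm_add_le _ _).trans ?_
  rw [norm_mul, norm_mul]
  have h4 : ‖G1 t‖ * ‖G2 t - MvPolynomial.eval t p2‖ ≤ (B1 + 1) * (η / (2 * (B1 + 1))) :=
    mul_le_mul ((hb1 t ht).trans (by linarith)) ((hp2 t ht).trans (min_le_right _ _))
      (norm_nonneg _) (by positivity)
  have h5 : ‖G1 t - MvPolynomial.eval t p1‖ * ‖MvPolynomial.eval t p2‖ ≤
      (η / (2 * (B2 + 1))) * (B2 + 1) :=
    mul_le_mul (hp1 t ht) h3 (norm_nonneg _) (by positivity)
  have h6 : (B1 + 1) * (η / (2 * (B1 + 1))) = η / 2 := by field_simp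
  have h7 : (η / (2 * (B2 + 1))) * (B2 + 1) = η / 2 := by field_simp
  linarith

lemma approx_prod {Q : Set (Fin n → ℂ)} {ι : Type*} (s : Finset ι) (G : ι → (Fin n → ℂ) → ℂ)
    (h : ∀ i ∈ s, Approx Q (G i)) : Approx Q (fun t => ∏ i ∈ s, G i t) := by
  classical
  induction s using Finset.induction_on with
  | empty => simpa using approx_const Q 1
  | insert a s ha ih =>
    have h1 : (fun t => ∏ i ∈ insert a s, G i t) = fun t => G a t * ∏ i ∈ s, G i t := by
      funext z; rw [Finset.prod_insert ha]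
    rw [h1]
    exact (h a (Finset.mem_insert_self _ _)).mul
      (ih fun i hi => h i (Finset.mem_insert_of_mem hi))

lemma approx_sum {Q : Set (Fin n → ℂ)} {ι : Type*} (s : Finset ι) (G : ι → (Fin n → ℂ) → ℂ)
    (h : ∀ i ∈ s, Approx Q (G i)) : Approx Q (fun t => ∑ i ∈ s, G i t) := by
  classical
  induction s using Finset.induction_on with
  | empty => simpa using approx_const Q 0
  | insert a s ha ih =>
    have h1 : (fun t => ∑ i ∈ insert a s, G i t) = fun t => G a t + ∑ i ∈ s, G i t := by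
      funext z; rw [Finset.sum_insert ha]
    rw [h1]
    exact (h a (Finset.mem_insert_self _ _)).add
      (ih fun i hi => h i (Finset.mem_insert_of_mem hi))

/-- approximate Cauchy kernels by polynomials on boxes -/
lemma approx_inv {Q : Set (Fin n → ℂ)} (j : Fin n) {M c : ℝ} (hc : 0 ≤ c)
    (hQ : ∀ t ∈ Q, |(t j).re| ≤ M ∧ |(t j).im| ≤ c) {ζ : ℂ} (hζ : c < |ζ.im|) :
    Approx Q (fun t => (t j - ζ)⁻¹) := by
  set δ := |ζ.im| - c with hδ
  have hδ0 : 0 < δ := by linarith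
  have hdist : ∀ t ∈ Q, δ ≤ ‖t j - ζ‖ := by
    intro t ht
    have h1 : |(t j - ζ).im| ≤ ‖t j - ζ‖ := Complex.abs_im_le_norm _
    have h2 := (hQ t ht).2
    have h3 : |ζ.im| ≤ |(t j).im| + |(t j - ζ).im| := by
      rw [Complex.sub_im]
      have := abs_sub_abs_le_abs_sub (ζ.im) ((t j).im)
      rw [abs_sub_comm] at this
      linarith
    linarith
  obtain ⟨s, hs1, hsζ⟩ : ∃ s : ℝ, s ^ 2 = 1 ∧ s * ζ.im = |ζ.im| := by
    rcases le_total 0 ζ.im with h | h
    · exact ⟨1, by norm_num, by rw [abs_of_nonneg h, one_mul]⟩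
    · exact ⟨-1, by norm_num, by rw [abs_of_nonpos h]; ring⟩
  set ρ := M ^ 2 / δ with hρ
  have hρ0 : 0 ≤ ρ := by positivity
  have hρδ : ρ * δ = M ^ 2 := by rw [hρ]; field_simp
  set b : ℂ := ⟨0, -(s * ρ)⟩ with hb
  have hden : (c + δ + ρ) ≤ ‖ζ - b‖ := by
    have h1 : |(ζ - b).im| ≤ ‖ζ - b‖ := Complex.abs_im_le_norm _
    have h2 : s * (ζ - b).im = c + δ + ρ := by
      simp only [hb, Complex.sub_im]
      have : s * (ζ.im - -(s * ρ)) = s * ζ.im + s ^ 2 * ρ := by ring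
      rw [this, hs1, hsζ, hδ]; ring
    have h3 : |s| = 1 := by
      have := sq_abs s
      rw [hs1] at this
      nlinarith [abs_nonneg s]
    have h4 : s * (ζ - b).im ≤ |(ζ - b).im| := by
      refine (le_abs_self _).trans ?_
      rw [abs_mul, h3, one_mul]
    linarith
  have hden0 : 0 < c + δ + ρ := by positivity
  have hzb : ζ - b ≠ 0 := norm_pos_iff.1 (hden0.trans_le hden)
  set q := Real.sqrt (M ^ 2 + (c + ρ) ^ 2) / (c + δ + ρ) with hq
  have hq0 : 0 ≤ q := by positivity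
  have hq1 : q < 1 := by
    rw [hq, div_lt_one hden0, Real.sqrt_lt' hden0]
    nlinarith [sq_nonneg M]
  have hw : ∀ t ∈ Q, ‖(t j - b) / (ζ - b)‖ ≤ q := by
    intro t ht
    rw [norm_div, hq]
    refine div_le_div₀ (Real.sqrt_nonneg _) ?_ hden0 hden
    refine Real.le_sqrt_of_sq_le ?_
    rw [← Complex.normSq_eq_norm_sq, Complex.normSq_apply]
    have h1 := (hQ t ht).1
    have h2 := (hQ t ht).2
    have h3 : (t j - b).re = (t j).re := by simp [hb]
    have h4 : (t j - b).im = (t j).im + s * ρ := by simp [hb]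
    rw [h3, h4]
    have h5 : (t j).re * (t j).re ≤ M ^ 2 := by
      rw [← sq, ← sq_abs (t j).re]
      exact pow_le_pow_left₀ (abs_nonneg _) h1 2
    have h6 : ((t j).im + s * ρ) * ((t j).im + s * ρ) ≤ (c + ρ) ^ 2 := by
      have h7 : |(t j).im + s * ρ| ≤ c + ρ := by
        have h3 : |s| = 1 := by
          have := sq_abs s
          rw [hs1] at this
          nlinarith [abs_nonneg s]
        refine (abs_add_le _ _).trans ?_
        rw [abs_mul, h3, one_mul, abs_of_nonneg hρ0]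
        linarith
      rw [← sq, ← sq_abs ((t j).im + s * ρ)]
      exact pow_le_pow_left₀ (abs_nonneg _) h7 2
    linarith
  refine ⟨⟨δ⁻¹, by positivity, fun t ht => ?_⟩, fun η hη => ?_⟩
  · rw [norm_inv]
    exact inv_anti₀ hδ0 (hdist t ht)
  · obtain ⟨K, hK⟩ := exists_pow_lt_of_lt_one (show 0 < η * δ by positivity) hq1
    refine ⟨- (MvPolynomial.C ((ζ - b)⁻¹) * ∑ k ∈ Finset.range K,
      (MvPolynomial.C ((ζ - b)⁻¹) * (MvPolynomial.X j - MvPolynomial.C b)) ^ k), fun t ht => ?_⟩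
    have htz : t j - ζ ≠ 0 := norm_pos_iff.1 (hδ0.trans_le (hdist t ht))
    set w := (t j - b) / (ζ - b) with hwdef
    have e1 : MvPolynomial.eval t (- (MvPolynomial.C ((ζ - b)⁻¹) * ∑ k ∈ Finset.range K,
        (MvPolynomial.C ((ζ - b)⁻¹) * (MvPolynomial.X j - MvPolynomial.C b)) ^ k)) =
        - ((ζ - b)⁻¹ * ∑ k ∈ Finset.range K, w ^ k) := by
      simp only [map_neg, map_mul, map_sum, map_pow, map_sub, MvPolynomial.eval_C,
        MvPolynomial.eval_X]
      rw [hwdef, div_eq_mul_inv, mul_comm (t j - b)]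
    have e2 : t j - ζ = - ((ζ - b) * (1 - w)) := by
      rw [hwdef]; field_simp; ring
    have e3 : (1 - w) * ∑ k ∈ Finset.range K, w ^ k = 1 - w ^ K := mul_neg_geom_sum w K
    have hw1 : 1 - w ≠ 0 := by
      intro h
      rw [e2, h] at htz
      simp at htz
    have e4 : (t j - ζ)⁻¹ - MvPolynomial.eval t (- (MvPolynomial.C ((ζ - b)⁻¹) *
        ∑ k ∈ Finset.range K,
        (MvPolynomial.C ((ζ - b)⁻¹) * (MvPolynomial.X j - MvPolynomial.C b)) ^ k)) =
        w ^ K * (t j - ζ)⁻¹ := by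
      rw [e1, e2]
      have e5 : ∑ k ∈ Finset.range K, w ^ k = (1 - w ^ K) / (1 - w) := by
        rw [eq_div_iff hw1, mul_comm]; exact e3
      rw [e5]
      field_simp
      ring
    rw [e4, norm_mul, norm_pow, norm_inv]
    have h1 : ‖w‖ ^ K ≤ q ^ K := pow_le_pow_left₀ (norm_nonneg _) (hw t ht) K
    have h2 : ‖t j - ζ‖⁻¹ ≤ δ⁻¹ := inv_anti₀ hδ0 (hdist t ht)
    calc ‖w‖ ^ K * ‖t j - ζ‖⁻¹ ≤ (η * δ) * δ⁻¹ :=
          mul_le_mul (h1.trans hK.le) h2 (by positivity) (by positivity)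
      _ = η := by field_simp

/-- the hull inequality for combinations of Cauchy kernels -/
lemma ker_hull {L : Set (Fin n → ℂ)} {M : ℝ} {c : Fin n → ℝ} (hc : ∀ j, 0 ≤ c j)
    (hL : ∀ t ∈ L, ∀ j, |(t j).re| ≤ M ∧ |(t j).im| ≤ c j) {a : Fin n → ℂ}
    (ha : a ∈ polyHull L) (haQ : ∀ j, |(a j).re| ≤ M ∧ |(a j).im| ≤ c j)
    {ι : Type*} (α : ι →₀ ℂ) (zz : ι → Fin n → ℂ) (hz : ∀ i j, c j < |(zz i j).im|) {B : ℝ}
    (hB : ∀ t ∈ L, ‖α.sum fun i s => s * ker (zz i) t‖ ≤ B) :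
    ‖α.sum fun i s => s * ker (zz i) a‖ ≤ B := by
  set Q : Set (Fin n → ℂ) := {t | ∀ j, |(t j).re| ≤ M ∧ |(t j).im| ≤ c j} with hQ
  have happ : Approx Q (fun t => α.sum fun i s => s * ker (zz i) t) := by
    unfold Finsupp.sum
    refine approx_sum α.support (fun i t => α i * ker (zz i) t) fun i _ => ?_
    refine (approx_const Q (α i)).mul ?_
    unfold ker
    refine approx_prod Finset.univ (fun j t => (t j - zz i j)⁻¹) fun j _ => ?_
    exact approx_inv (Q := Q) j (hc j) (fun t ht => ht j) (hz i j)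
  refine le_of_forall_pos_le_add fun η hη => ?_
  obtain ⟨p, hp⟩ := happ.2 (η / 2) (by positivity)
  have h1 : ‖MvPolynomial.eval a p‖ ≤ B + η / 2 := by
    refine ha p _ fun t ht => ?_
    have e : MvPolynomial.eval t p = (α.sum fun i s => s * ker (zz i) t) -
        ((α.sum fun i s => s * ker (zz i) t) - MvPolynomial.eval t p) := by ring
    rw [e]
    exact (norm_sub_le _ _).trans (add_le_add (hB t ht) (hp t (hL t ht)))
  have e : (α.sum fun i s => s * ker (zz i) a) =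
      ((α.sum fun i s => s * ker (zz i) a) - MvPolynomial.eval a p) + MvPolynomial.eval a p := by
    ring
  rw [e]
  refine (norm_add_le _ _).trans ?_
  linarith [hp a haQ]

end Pool.Agent.Helper140.TT
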