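import Mathlib
import Pool.Agent.Helper140.TT1
import Pool.Agent.Helper140.TT2
import Pool.Agent.Helper140.TT3
import Pool.Agent.Helper140.TT6
import Pool.Agent.Helper140.TT7
import Pool.Agent.Helper140.TT8

set_option autoImplicit false

open Set Filter Topology MeasureTheory

namespace Pool.Agent.Helper140.TT

variable {n : ℕ}

lemma exists_functional {B E : Type*} [NormedAddCommGroup B] [NormedSpace ℂ B] [AddCommGroup E]
    [Module ℂ E] (A : E →ₗ[ℂ] B) (M : E →ₗ[ℂ] ℂ) (C : ℝ) (h : ∀ e, ‖M e‖ ≤ C * ‖A e‖) :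
    ∃ Λ : B →L[ℂ] ℂ, ∀ e, Λ (A e) = M e := by
  have hker : LinearMap.ker A ≤ LinearMap.ker M := by
    intro e he
    have h1 := h e
    rw [LinearMap.mem_ker] at he ⊢
    rw [he, norm_zero, mul_zero] at h1
    exact norm_le_zero_iff.1 h1
  set M1 : LinearMap.range A →ₗ[ℂ] ℂ :=
    ((LinearMap.ker A).liftQ M hker).comp (A.quotKerEquivRange.symm : _ →ₗ[ℂ] _) with hM1
  have hM1e : ∀ e, M1 ⟨A e, LinearMap.mem_range_self A e⟩ = M e := by
    intro e
    have : A.quotKerEquivRange.symm ⟨A e, LinearMap.mem_range_self A e⟩ =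
        (LinearMap.ker A).mkQ e := by
      rw [LinearEquiv.symm_apply_eq]
      exact Subtype.ext (by simp)
    simp only [hM1, LinearMap.comp_apply, LinearEquiv.coe_coe, this]
    simp
  set M2 : LinearMap.range A →L[ℂ] ℂ := M1.mkContinuous C (by
    rintro ⟨_, ⟨e, rfl⟩⟩
    rw [hM1e]
    exact h e) with hM2
  obtain ⟨Λ, hΛ, -⟩ := exists_extension_norm_eq (LinearMap.range A) M2
  refine ⟨Λ, fun e => ?_⟩
  have := hΛ ⟨A e, LinearMap.mem_range_self A e⟩
  rw [this]
  exact hM1e e

/-- bounded functions on a discrete type -/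
noncomputable def mkB {ι : Type*} [TopologicalSpace ι] [DiscreteTopology ι] (g : ι → ℂ) (C : ℝ)
    (h : ∀ i, ‖g i‖ ≤ C) : BoundedContinuousFunction ι ℂ :=
  BoundedContinuousFunction.ofNormedAddCommGroupDiscrete g C h

lemma mkB_apply {ι : Type*} [TopologicalSpace ι] [DiscreteTopology ι] (g : ι → ℂ) (C : ℝ)
    (h : ∀ i, ‖g i‖ ≤ C) (i : ι) : mkB g C h i = g i := rfl

open Classical in
lemma inv_family {ι : Type*} [TopologicalSpace ι] [DiscreteTopology ι] (S : Set ι) (b : ι → ℂ)
    (lam : ι → Fin n → ℂ) (hlam : ∀ i, i ∈ S → ∑ j, ‖lam i j‖ ≤ 1) {V : Set (Fin n → ℂ)}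
    (hV : IsOpen V) {δ : ℝ} (hδ : 0 < δ)
    (hb : ∀ z ∈ V, ∀ i ∈ S, δ ≤ ‖b i - ∑ j, lam i j * z j‖) :
    ∃ u : (Fin n → ℂ) → BoundedContinuousFunction ι ℂ, DifferentiableOn ℂ u V ∧
      ∀ z ∈ V, ∀ i, u z i = if i ∈ S then (b i - ∑ j, lam i j * z j)⁻¹ else 0 := by
  set g : (Fin n → ℂ) → ι → ℂ := fun z i =>
    if i ∈ S ∧ δ ≤ ‖b i - ∑ j, lam i j * z j‖ then (b i - ∑ j, lam i j * z j)⁻¹ else 0 with hg
  have hgb : ∀ z i, ‖g z i‖ ≤ δ⁻¹ := by
    intro z i
    simp only [hg]
    split_ifs with h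
    · rw [norm_inv]; exact inv_anti₀ hδ h.2
    · rw [norm_zero]; positivity
  have hlin : ∀ (i : ι) (w : Fin n → ℂ), i ∈ S → ‖∑ j, lam i j * w j‖ ≤ ‖w‖ := by
    intro i w hi
    refine (norm_sum_le _ _).trans ?_
    calc ∑ j, ‖lam i j * w j‖ ≤ ∑ j, ‖lam i j‖ * ‖w‖ := by
          refine Finset.sum_le_sum fun j _ => ?_
          rw [norm_mul]
          exact mul_le_mul_of_nonneg_left (norm_le_pi_norm w j) (norm_nonneg _)
      _ = (∑ j, ‖lam i j‖) * ‖w‖ := by rw [Finset.sum_mul]
      _ ≤ 1 * ‖w‖ := mul_le_mul_of_nonneg_right (hlam i hi) (norm_nonneg _)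
      _ = ‖w‖ := one_mul _
  set u : (Fin n → ℂ) → BoundedContinuousFunction ι ℂ := fun z => mkB (g z) δ⁻¹ (hgb z) with hu
  have huv : ∀ z ∈ V, ∀ i, u z i = if i ∈ S then (b i - ∑ j, lam i j * z j)⁻¹ else 0 := by
    intro z hz i
    simp only [hu, mkB_apply, hg]
    by_cases hi : i ∈ S
    · simp [hi, hb z hz i hi]
    · simp [hi]
  refine ⟨u, ?_, huv⟩
  intro z0 hz0
  refine DifferentiableAt.differentiableWithinAt ?_
  -- the linear map v
  have hvb : ∀ w : Fin n → ℂ, ∀ i, ‖if i ∈ S then g z0 i * ∑ j, lam i j * w j else 0‖ ≤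
      δ⁻¹ * ‖w‖ := by
    intro w i
    split_ifs with h
    · rw [norm_mul]
      exact mul_le_mul (hgb z0 i) (hlin i w h) (norm_nonneg _) (by positivity)
    · rw [norm_zero]; positivity
  set v0 : (Fin n → ℂ) →ₗ[ℂ] BoundedContinuousFunction ι ℂ :=
    { toFun := fun w => mkB (fun i => if i ∈ S then g z0 i * ∑ j, lam i j * w j else 0)
        (δ⁻¹ * ‖w‖) (hvb w)
      map_add' := by
        intro w w'
        ext i
        simp only [mkB_apply, BoundedContinuousFunction.coe_add, Pi.add_apply]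
        split_ifs
        · rw [← mul_add, ← Finset.sum_add_distrib]
          congr 1
          refine Finset.sum_congr rfl fun j _ => ?_
          ring
        · simp
      map_smul' := by
        intro a w
        ext i
        simp only [mkB_apply, BoundedContinuousFunction.coe_smul, Pi.smul_apply, smul_eq_mul,
          RingHom.id_apply]
        split_ifs
        · rw [Finset.mul_sum, Finset.mul_sum, Finset.mul_sum]
          refine Finset.sum_congr rfl fun j _ => ?_
          ring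
        · simp } with hv0
  have hv0a : ∀ w i, v0 w i = if i ∈ S then g z0 i * ∑ j, lam i j * w j else 0 := fun w i => rfl
  set v : (Fin n → ℂ) →L[ℂ] BoundedContinuousFunction ι ℂ := v0.mkContinuous δ⁻¹ (by
    intro w
    rw [BoundedContinuousFunction.norm_le (by positivity)]
    intro i
    exact hvb w i) with hv
  have hva : ∀ w i, v w i = if i ∈ S then g z0 i * ∑ j, lam i j * w j else 0 := fun w i => rfl
  have hdiff : DifferentiableAt ℂ (fun z => u z0 * Ring.inverse (1 - v (z - z0))) z0 := by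
    refine DifferentiableAt.const_mul ?_ _
    have h1 : DifferentiableAt ℂ (fun z => (1 : BoundedContinuousFunction ι ℂ) - v (z - z0)) z0 :=
      (differentiableAt_const _).sub
        (v.differentiableAt.comp z0 (differentiableAt_id.sub_const z0))
    have h2 : DifferentiableAt ℂ (@Ring.inverse (BoundedContinuousFunction ι ℂ) _)
        ((fun z => (1 : BoundedContinuousFunction ι ℂ) - v (z - z0)) z0) := by
      refine differentiableAt_inverse ?_
      simp
    exact h2.comp z0 h1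
  refine hdiff.congr_of_eventuallyEq ?_
  have hev1 : ∀ᶠ z in 𝓝 z0, ‖v (z - z0)‖ < 1 := by
    have h1 : ContinuousAt (fun z => ‖v (z - z0)‖) z0 := by fun_prop
    refine h1.eventually (gt_mem_nhds ?_)
    simp
  filter_upwards [hev1, hV.mem_nhds hz0] with z hz1 hz2
  have hunit : IsUnit (1 - v (z - z0)) := isUnit_one_sub_of_norm_lt_one hz1
  have hmul : u z * (1 - v (z - z0)) = u z0 := by
    ext i
    rw [BoundedContinuousFunction.mul_apply, BoundedContinuousFunction.sub_apply,
      BoundedContinuousFunction.coe_one, Pi.one_apply, hva, huv z hz2, huv z0 hz0]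
    by_cases hi : i ∈ S
    · simp only [hi, if_true]
      have hg0 : g z0 i = (b i - ∑ j, lam i j * z0 j)⁻¹ := by
        simp [hg, hi, hb z0 hz0 i hi]
      have hne1 : b i - ∑ j, lam i j * z j ≠ 0 :=
        norm_pos_iff.1 (hδ.trans_le (hb z hz2 i hi))
      have hne0 : b i - ∑ j, lam i j * z0 j ≠ 0 :=
        norm_pos_iff.1 (hδ.trans_le (hb z0 hz0 i hi))
      have hs : ∑ j, lam i j * (z - z0) j = ∑ j, lam i j * z j - ∑ j, lam i j * z0 j := by
        rw [← Finset.sum_sub_distrib]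
        refine Finset.sum_congr rfl fun j _ => ?_
        rw [Pi.sub_apply]; ring
      rw [hg0, hs]
      field_simp
      ring
    · simp [hi]
  calc u z = u z * ((1 - v (z - z0)) * Ring.inverse (1 - v (z - z0))) := by
        rw [Ring.mul_inverse_cancel _ hunit, mul_one]
    _ = u z0 * Ring.inverse (1 - v (z - z0)) := by rw [← mul_assoc, hmul]

/-- normalised supporting functional -/
lemma exists_supp {W : Set (Fin n → ℝ)} (hW : Convex ℝ W) (hWo : IsOpen W) (hne : W.Nonempty)
    {x : Fin n → ℝ} (hx : x ∉ W) :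
    ∃ ξ : Fin n → ℝ, ∑ j, |ξ j| = 1 ∧ ∀ a ∈ W, ∑ j, ξ j * a j < ∑ j, ξ j * x j := by
  obtain ⟨f, hf⟩ := geometric_hahn_banach_open_point hW hWo hx
  have hfe : ∀ a : Fin n → ℝ, f a = ∑ j, f (Pi.single j 1) * a j := by
    intro a
    have h1 : a = ∑ j, a j • (Pi.single j (1:ℝ) : Fin n → ℝ) := by
      funext i
      simp [Finset.sum_apply, Pi.single_apply]
    conv_lhs => rw [h1]
    rw [map_sum]
    refine Finset.sum_congr rfl fun j _ => ?_
    rw [map_smul, smul_eq_mul, mul_comm]
  set S := ∑ j, |f (Pi.single j (1:ℝ))| with hS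
  have hS0 : 0 ≤ S := Finset.sum_nonneg fun j _ => abs_nonneg _
  have hSpos : 0 < S := by
    refine lt_of_le_of_ne hS0 fun h => ?_
    obtain ⟨a, ha⟩ := hne
    have h1 := hf a ha
    have h2 : ∀ j, f (Pi.single j (1:ℝ)) = 0 := by
      intro j
      have := (Finset.sum_eq_zero_iff_of_nonneg (fun j _ => abs_nonneg _)).1 h.symm j
        (Finset.mem_univ j)
      exact abs_eq_zero.1 this
    rw [hfe a, hfe x] at h1
    simp [h2] at h1
  refine ⟨fun j => f (Pi.single j 1) / S, ?_, fun a ha => ?_⟩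
  · simp_rw [abs_div, abs_of_pos hSpos]
    rw [← Finset.sum_div, ← hS, div_self hSpos.ne']
  · have h1 := hf a ha
    rw [hfe a, hfe x] at h1
    have h2 : ∀ y : Fin n → ℝ, ∑ j, f (Pi.single j 1) / S * y j =
        (∑ j, f (Pi.single j 1) * y j) / S := by
      intro y
      rw [Finset.sum_div]
      refine Finset.sum_congr rfl fun j _ => ?_
      ring
    rw [h2, h2]
    exact div_lt_div_of_pos_right h1 hSpos

end Pool.Agent.Helper140.TT
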