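import Mathlib
import Pool.Agent.Helper140.TT1
import Pool.Agent.Helper140.TT2
import Pool.Agent.Helper140.TT3
import Pool.Agent.Helper140.TT6
import Pool.Agent.Helper140.TT7
import Pool.Agent.Helper140.TT8
import Pool.Agent.Helper140.TT9

set_option autoImplicit false

open Set Filter Topology MeasureTheory

namespace Pool.Agent.Helper140.TT

variable {n : ℕ}

/-- discrete index type -/
structure Idx (n : ℕ) where
  /-- the stage -/
  fst : ℕ
  /-- the point -/
  snd : Fin n → ℂ

instance : TopologicalSpace (Idx n) := ⊥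

instance : DiscreteTopology (Idx n) := ⟨rfl⟩

lemma abs_im_of_mem_D {Ω : Set (Fin n → ℝ)} {b : Fin n → ℝ} {z : Fin n → ℂ}
    (hz : z ∈ ⋃ σ, D Ω b σ) (j : Fin n) : b j < |(z j).im| := by
  obtain ⟨σ, hσ⟩ := mem_iUnion.1 hz
  refine (hσ.2 j).trans_le ((le_abs_self _).trans ?_)
  rw [abs_mul]
  rcases Int.units_eq_one_or (σ j) with h | h <;> simp [h]

lemma abs_im_of_mem_Dk {Ω : Set (Fin n → ℝ)} {b : Fin n → ℝ} {z : Fin n → ℂ} {k : Fin n}
    (hz : z ∈ ⋃ σ, Dk Ω b k σ) (j : Fin n) (hj : j ≠ k) : b j < |(z j).im| := by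
  obtain ⟨σ, hσ⟩ := mem_iUnion.1 hz
  refine (hσ.2 j hj).trans_le ((le_abs_self _).trans ?_)
  rw [abs_mul]
  rcases Int.units_eq_one_or (σ j) with h | h <;> simp [h]

lemma norm_sub_ge {t z : ℂ} {c : ℝ} (ht : |t.im| ≤ c) : |z.im| - c ≤ ‖t - z‖ := by
  have h1 : |(t - z).im| ≤ ‖t - z‖ := Complex.abs_im_le_norm _
  have h3 : |z.im| ≤ |t.im| + |(t - z).im| := by
    rw [Complex.sub_im]
    have := abs_sub_abs_le_abs_sub (z.im) (t.im)
    rw [abs_sub_comm] at this
    linarith
  linarith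

open Classical in
theorem construction {Ω : Set (Fin n → ℝ)} {c : Fin n → ℝ} (hc : ∀ j, 0 < c j)
    (W : ℕ → Set (Fin n → ℝ)) (L : ℕ → Set (Fin n → ℂ)) (hWc : ∀ m, Convex ℝ (W m))
    (hWo : ∀ m, IsOpen (W m)) (hWne : ∀ m, (W m).Nonempty)
    (hex : ∀ x ∈ Ω, ∃ δ > 0, ∃ m0, ∀ m ≥ m0, Metric.closedBall x δ ⊆ W m)
    (hL1 : ∀ m, ∀ t ∈ L m, (fun j => (t j).re) ∉ W m)
    (hL2 : ∀ m, ∀ t ∈ L m, ∀ j, |(t j).im| ≤ c j)
    (hL3 : ∀ m, ∃ M, ∀ t ∈ L m, ∀ j, |(t j).re| ≤ M)
    (x1 : Fin n → ℝ) {ε : ℝ} (hε : 0 < ε)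
    (hhull : ∀ a ∈ Metric.closedBall x1 ε, ∀ m, (fun j => (a j : ℂ)) ∈ polyHull (L m)) :
    ∃ f F, Admissible Ω c f F ∧ gfun F x1 ≠ 0 := by
  have hc0 : ∀ j, 0 ≤ c j := fun j => (hc j).le
  -- supporting functionals
  have hsupp : ∀ i : Idx n, ∃ ξ : Fin n → ℝ, i.2 ∈ L i.1 →
      ∑ j, |ξ j| = 1 ∧ ∀ a ∈ W i.1, ∑ j, ξ j * a j < ∑ j, ξ j * (i.2 j).re := by
    intro i
    by_cases hi : i.2 ∈ L i.1
    · obtain ⟨ξ, h1, h2⟩ := exists_supp (hWc i.1) (hWo i.1) (hWne i.1) (hL1 i.1 i.2 hi)
      exact ⟨ξ, fun _ => ⟨h1, h2⟩⟩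
    · exact ⟨0, fun h => absurd h hi⟩
  choose ξ hξ using hsupp
  -- the functional
  set Dc := {z : Fin n → ℂ // z ∈ ⋃ σ, D Ω c σ} with hDc
  have hDcim : ∀ (z : Dc) (j : Fin n), c j < |(z.1 j).im| := fun z j => abs_im_of_mem_D z.2 j
  have hRb : ∀ (z : Dc) (i : Idx n), ‖if i.2 ∈ L i.1 then ker z.1 i.2 else 0‖ ≤
      ∏ j, (|(z.1 j).im| - c j)⁻¹ := by
    intro z i
    have hpos : ∀ j, 0 < |(z.1 j).im| - c j := fun j => by linarith [hDcim z j]
    split_ifs with h
    · unfold ker
      rw [norm_prod]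
      refine Finset.prod_le_prod (fun j _ => norm_nonneg _) fun j _ => ?_
      rw [norm_inv]
      exact inv_anti₀ (hpos j) (norm_sub_ge (hL2 _ _ h j))
    · rw [norm_zero]
      exact Finset.prod_nonneg fun j _ => inv_nonneg.2 (hpos j).le
  set R : Dc → BoundedContinuousFunction (Idx n) ℂ := fun z =>
    mkB (fun i => if i.2 ∈ L i.1 then ker z.1 i.2 else 0) _ (hRb z) with hR
  have hRa : ∀ z i, R z i = if i.2 ∈ L i.1 then ker z.1 i.2 else 0 := fun z i => rfl
  set Z0 : Submodule ℂ (BoundedContinuousFunction (Idx n) ℂ) :=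
    { carrier := {G | ∃ m0 : ℕ, ∀ i : Idx n, m0 ≤ i.1 → G i = 0}
      add_mem' := by
        rintro G G' ⟨m, hm⟩ ⟨m', hm'⟩
        refine ⟨max m m', fun i hi => ?_⟩
        rw [BoundedContinuousFunction.add_apply, hm i ((le_max_left _ _).trans hi),
          hm' i ((le_max_right _ _).trans hi), add_zero]
      zero_mem' := ⟨0, fun i _ => rfl⟩
      smul_mem' := by
        rintro a G ⟨m, hm⟩
        refine ⟨m, fun i hi => ?_⟩
        have h1 : (a • G) i = a • G i := rfl
        rw [h1, hm i hi, smul_zero] } with hZ0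
  set A : (Dc →₀ ℂ) × Z0 →ₗ[ℂ] BoundedContinuousFunction (Idx n) ℂ :=
    (Finsupp.linearCombination ℂ R).coprod Z0.subtype with hA
  set M : (Dc →₀ ℂ) × Z0 →ₗ[ℂ] ℂ :=
    (Finsupp.linearCombination ℂ (fun z : Dc => ft x1 ε z.1)).comp (LinearMap.fst ℂ _ _) with hM
  have hbound : ∀ e, ‖M e‖ ≤ (∫ a, tw x1 ε a) * ‖A e‖ := by
    rintro ⟨α, G⟩
    have hMe : M (α, G) = α.sum fun z s => s * ft x1 ε z.1 := by
      simp only [hM, LinearMap.comp_apply, LinearMap.fst_apply, Finsupp.linearCombination_apply,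
        smul_eq_mul]
    have hAe : A (α, G) = (α.sum fun z s => s • R z) + (G : BoundedContinuousFunction (Idx n) ℂ) := by
      simp only [hA, LinearMap.coprod_apply, Finsupp.linearCombination_apply,
        Submodule.subtype_apply]
    rw [hMe]
    obtain ⟨m0, hm0⟩ := G.2
    refine ft_comb_bound hε α (fun z : Dc => z.1) (fun z j => ?_) fun a ha => ?_
    · have := hDcim z j
      intro h
      rw [h, abs_zero] at this
      linarith [hc j]
    · obtain ⟨M0, hM0⟩ := hL3 m0
      refine ker_hull (L := L m0) (M := max M0 ‖a‖) hc0 (fun t ht j => ⟨(hM0 t ht j).trans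
        (le_max_left _ _), hL2 m0 t ht j⟩) (hhull a ha m0) (fun j => ⟨?_, ?_⟩) α
        (fun z : Dc => z.1) hDcim ?_
      · rw [Complex.ofReal_re]
        exact (norm_le_pi_norm a j).trans (le_max_right _ _)
      · rw [Complex.ofReal_im, abs_zero]; exact hc0 j
      · intro t ht
        have h1 : α.sum (fun z s => s * ker z.1 t) = (A (α, G)) (⟨m0, t⟩ : Idx n) := by
          rw [hAe, BoundedContinuousFunction.add_apply, hm0 ⟨m0, t⟩ (le_refl _), add_zero]
          unfold Finsupp.sum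
          rw [BoundedContinuousFunction.sum_apply]
          refine Finset.sum_congr rfl fun z _ => ?_
          have h2 : (α z • R z) (⟨m0, t⟩ : Idx n) = α z * (R z) ⟨m0, t⟩ := rfl
          rw [h2, hRa]
          simp [ht]
        rw [h1]
        exact BoundedContinuousFunction.norm_coe_le_norm _ _
  obtain ⟨Λ, hΛ⟩ := exists_functional A M _ hbound
  have hΛR : ∀ z : Dc, Λ (R z) = ft x1 ε z.1 := by
    intro z
    have h1 := hΛ (Finsupp.single z 1, 0)
    simpa [hA, hM] using h1
  have hΛZ : ∀ G ∈ Z0, Λ G = 0 := by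
    intro G hG
    have h1 := hΛ (0, ⟨G, hG⟩)
    simpa [hA, hM] using h1
  -- the kernels
  set κ : Fin n → (Fin n → ℂ) → Idx n → ℂ := fun k z i => if i.2 ∈ L i.1 then
    (ξ i k : ℂ) * (∑ j, (ξ i j : ℂ) * i.2 j - ∑ j, (ξ i j : ℂ) * z j)⁻¹ *
      ∏ j ∈ Finset.univ.erase k, (i.2 j - z j)⁻¹ else 0 with hκ
  set Good : Fin n → (Fin n → ℂ) → BoundedContinuousFunction (Idx n) ℂ → Prop :=
    fun k z G => ∃ m0 : ℕ, ∀ i : Idx n, m0 ≤ i.1 → G i = κ k z i with hGood
  have hlocal : ∀ (k : Fin n), ∀ z0 ∈ ⋃ σ, Dk Ω c k σ, ∃ V : Set (Fin n → ℂ), IsOpen V ∧ z0 ∈ V ∧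
      ∃ u : (Fin n → ℂ) → BoundedContinuousFunction (Idx n) ℂ, DifferentiableOn ℂ u V ∧
        ∀ z ∈ V, Good k z (u z) := by
    intro k z0 hz0
    have hz0Ω : (fun j => (z0 j).re) ∈ Ω := by
      obtain ⟨σ, hσ⟩ := mem_iUnion.1 hz0
      exact hσ.1
    obtain ⟨δ, hδ, m0, hm0⟩ := hex _ hz0Ω
    set dd : Fin n → ℝ := fun j => (|(z0 j).im| - c j) / 2 with hdd
    have hdd0 : ∀ j, j ≠ k → 0 < dd j := fun j hj => by
      have := abs_im_of_mem_Dk hz0 j hj
      simp only [hdd]; linarith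
    set V : Set (Fin n → ℂ) := {z | dist (fun j => (z j).re) (fun j => (z0 j).re) < δ / 2} ∩
      ⋂ j, {z | j ≠ k → c j + dd j < |(z j).im|} with hV
    have hVo : IsOpen V := by
      refine IsOpen.inter (isOpen_lt (by fun_prop) continuous_const)
        (isOpen_iInter_of_finite fun j => ?_)
      by_cases hj : j = k
      · simp [hj]
      · have : {z : Fin n → ℂ | j ≠ k → c j + dd j < |(z j).im|} =
            {z : Fin n → ℂ | c j + dd j < |(z j).im|} := by
          ext z; simp [hj]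
        rw [this]
        exact isOpen_lt continuous_const (by fun_prop)
    have hz0V : z0 ∈ V := by
      refine ⟨by simp [hδ], mem_iInter.2 fun j hj => ?_⟩
      have := hdd0 j hj
      simp only [hdd] at this ⊢
      linarith
    set S : Set (Idx n) := {i | m0 ≤ i.1 ∧ i.2 ∈ L i.1} with hS
    -- u_j
    have huj : ∀ j : Fin n, ∃ u : (Fin n → ℂ) → BoundedContinuousFunction (Idx n) ℂ, j ≠ k →
        DifferentiableOn ℂ u V ∧
        ∀ z ∈ V, ∀ i, u z i = if i ∈ S then (i.2 j - z j)⁻¹ else 0 := by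
      intro j
      by_cases hj : j = k
      · exact ⟨0, fun h => absurd hj h⟩
      · obtain ⟨u, hu1, hu2⟩ := inv_family S (fun i : Idx n => i.2 j)
          (fun _ => Pi.single j (1:ℂ)) (fun i _ => by
            have h1 : ∀ l : Fin n, ‖(Pi.single j (1:ℂ) : Fin n → ℂ) l‖ = if l = j then 1 else 0 := by
              intro l
              rw [Pi.single_apply]
              split_ifs <;> simp
            simp_rw [h1]
            simp) hVo (hdd0 j hj) (fun z hz i hi => by
            have h1 : ∑ l, (Pi.single j (1:ℂ) : Fin n → ℂ) l * z l = z j := by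
              simp [Pi.single_apply]
            rw [h1]
            have h2 := norm_sub_ge (z := z j) (hL2 _ _ hi.2 j)
            have h3 := mem_iInter.1 hz.2 j hj
            linarith)
        refine ⟨u, fun _ => ⟨hu1, fun z hz i => ?_⟩⟩
        rw [hu2 z hz i]
        have h1 : ∑ l, (Pi.single j (1:ℂ) : Fin n → ℂ) l * z l = z j := by
          simp [Pi.single_apply]
        rw [h1]
        congr
    choose uu huu using huj
    obtain ⟨uP, huP1, huP2⟩ := inv_family S (fun i : Idx n => ∑ j, (ξ i j : ℂ) * i.2 j)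
      (fun i j => (ξ i j : ℂ)) (fun i hi => by
        have := (hξ i hi.2).1
        simp only [Complex.norm_real, Real.norm_eq_abs]
        exact this.le) hVo (δ := δ / 2) (by positivity) (fun z hz i hi => by
        refine le_trans ?_ (Complex.re_le_norm _)
        have h1 : (∑ j, (ξ i j : ℂ) * i.2 j - ∑ j, (ξ i j : ℂ) * z j).re =
            ∑ j, ξ i j * (i.2 j).re - ∑ j, ξ i j * (z j).re := by
          rw [Complex.sub_re, Complex.re_sum, Complex.re_sum]
          simp only [Complex.re_ofReal_mul]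
        rw [h1]
        -- test point
        set y : Fin n → ℝ := fun j => (z j).re + δ / 2 * SignType.sign (ξ i j) with hy
        have hyW : y ∈ W i.1 := by
          refine hm0 i.1 hi.1 ?_
          rw [Metric.mem_closedBall, dist_pi_le_iff hδ.le]
          intro j
          have h2 : dist (z j).re (z0 j).re < δ / 2 :=
            (dist_le_pi_dist (fun j => (z j).re) (fun j => (z0 j).re) j).trans_lt hz.1
          rw [Real.dist_eq] at h2 ⊢
          simp only [hy]
          have h3 : |δ / 2 * (SignType.sign (ξ i j) : ℝ)| ≤ δ / 2 := by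
            rw [abs_mul, abs_of_pos (by positivity : 0 < δ / 2)]
            have : |(SignType.sign (ξ i j) : ℝ)| ≤ 1 := by
              rcases lt_trichotomy (ξ i j) 0 with h | h | h
              · simp [sign_neg h]
              · simp [h]
              · simp [sign_pos h]
            nlinarith
          have h4 : (z j).re + δ / 2 * (SignType.sign (ξ i j) : ℝ) - (z0 j).re =
              ((z j).re - (z0 j).re) + δ / 2 * (SignType.sign (ξ i j) : ℝ) := by ring
          rw [h4]
          refine (abs_add_le _ _).trans ?_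
          linarith
        have h5 := (hξ i hi.2).2 y hyW
        have h6 : ∑ j, ξ i j * y j = ∑ j, ξ i j * (z j).re + δ / 2 := by
          have h7 : ∀ j, ξ i j * y j = ξ i j * (z j).re + δ / 2 * |ξ i j| := by
            intro j
            have h8 : ξ i j * (SignType.sign (ξ i j) : ℝ) = |ξ i j| := by
              rw [mul_comm]; exact sign_mul_self _
            simp only [hy]
            rw [← h8]; ring
          simp_rw [h7]
          rw [Finset.sum_add_distrib, ← Finset.mul_sum, (hξ i hi.2).1, mul_one]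
        rw [h6] at h5
        linarith)
    -- Xi
    have hΞb : ∀ i : Idx n, ‖if i ∈ S then (ξ i k : ℂ) else 0‖ ≤ 1 := by
      intro i
      split_ifs with hi
      · rw [Complex.norm_real, Real.norm_eq_abs, ← (hξ i hi.2).1]
        exact Finset.single_le_sum (f := fun j => |ξ i j|) (fun j _ => abs_nonneg _)
          (Finset.mem_univ k)
      · rw [norm_zero]; norm_num
    refine ⟨V, hVo, hz0V, fun z => mkB _ 1 hΞb * uP z * ∏ j ∈ Finset.univ.erase k, uu j z, ?_, ?_⟩
    · refine DifferentiableOn.mul (huP1.const_mul _) ?_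
      exact diffOn_prod (Finset.univ.erase k) uu V
        (fun j hj => (huu j (Finset.ne_of_mem_erase hj)).1)
    · intro z hz
      refine ⟨m0, fun i hi => ?_⟩
      rw [BoundedContinuousFunction.mul_apply, BoundedContinuousFunction.mul_apply,
        BoundedContinuousFunction.coe_prod, Finset.prod_apply, mkB_apply, huP2 z hz i]
      have h1 : ∏ j ∈ Finset.univ.erase k, uu j z i =
          ∏ j ∈ Finset.univ.erase k, (if i ∈ S then (i.2 j - z j)⁻¹ else 0) :=
        Finset.prod_congr rfl fun j hj => (huu j (Finset.ne_of_mem_erase hj)).2 z hz i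
      rw [h1]
      simp only [hκ]
      by_cases hiL : i.2 ∈ L i.1
      · have hiS : i ∈ S := ⟨hi, hiL⟩
        simp [hiS, hiL]
      · have hiS : i ∉ S := fun h => hiL h.2
        simp [hiS, hiL]
  -- definition of h
  set h : Fin n → (Fin n → ℂ) → ℂ := fun k z =>
    if hG : ∃ G, Good k z G then Λ hG.choose else 0 with hh
  have hheq : ∀ k z G, Good k z G → h k z = Λ G := by
    intro k z G hG
    have hex2 : ∃ G, Good k z G := ⟨G, hG⟩
    simp only [hh]
    rw [dif_pos hex2]
    obtain ⟨m1, hm1⟩ := hex2.choose_spec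
    obtain ⟨m2, hm2⟩ := hG
    have h1 : hex2.choose - G ∈ Z0 := by
      refine ⟨max m1 m2, fun i hi => ?_⟩
      rw [BoundedContinuousFunction.sub_apply, hm1 i ((le_max_left _ _).trans hi),
        hm2 i ((le_max_right _ _).trans hi), sub_self]
    have h2 := hΛZ _ h1
    rw [map_sub, sub_eq_zero] at h2
    exact h2
  refine ⟨ft x1 ε, Ft x1 ε, ⟨ft_hol Ω x1 hε, Ft_cont Ω x1 ε, Ft_ext Ω x1 hε, h, ?_, ?_⟩,
    gfun_Ft x1 hε⟩
  · intro k z0 hz0
    obtain ⟨V, hVo, hz0V, u, hu, hgood⟩ := hlocal k z0 hz0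
    have h1 : DifferentiableAt ℂ (fun z => Λ (u z)) z0 :=
      Λ.differentiableAt.comp z0 ((hu z0 hz0V).differentiableAt (hVo.mem_nhds hz0V))
    refine (h1.congr_of_eventuallyEq ?_).differentiableWithinAt
    filter_upwards [hVo.mem_nhds hz0V] with z hz
    exact hheq k z (u z) (hgood z hz)
  · intro z hz
    have hzk : ∀ k, z ∈ ⋃ σ, Dk Ω c k σ := by
      intro k
      obtain ⟨σ, hσ⟩ := mem_iUnion.1 hz
      exact mem_iUnion.2 ⟨σ, hσ.1, fun j _ => hσ.2 j⟩
    have hG : ∀ k, ∃ G, Good k z G := by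
      intro k
      obtain ⟨V, hVo, hz0V, u, hu, hgood⟩ := hlocal k z (hzk k)
      exact ⟨u z, hgood z hz0V⟩
    choose G hG using hG
    have hzΩ : (fun j => (z j).re) ∈ Ω := by
      obtain ⟨σ, hσ⟩ := mem_iUnion.1 hz
      exact hσ.1
    obtain ⟨δ, hδ, m0, hm0⟩ := hex _ hzΩ
    choose m1 hm1 using hG
    have h1 : (∑ k, G k) - R ⟨z, hz⟩ ∈ Z0 := by
      refine ⟨max m0 (∑ k, m1 k), fun i hi => ?_⟩
      have hi0 : m0 ≤ i.1 := (le_max_left _ _).trans hi
      have hi1 : ∀ k, m1 k ≤ i.1 := fun k =>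
        (Finset.single_le_sum (fun k _ => Nat.zero_le (m1 k)) (Finset.mem_univ k)).trans
          ((le_max_right _ _).trans hi)
      rw [BoundedContinuousFunction.sub_apply, BoundedContinuousFunction.sum_apply, hRa]
      have h2 : ∑ k, G k i = ∑ k, κ k z i :=
        Finset.sum_congr rfl fun k _ => hm1 k i (hi1 k)
      rw [h2]
      simp only [hκ]
      by_cases hiL : i.2 ∈ L i.1
      · simp only [hiL, if_true]
        have hne : ∀ j, i.2 j - z j ≠ 0 := by
          intro j
          have h3 := norm_sub_ge (z := z j) (hL2 _ _ hiL j)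
          have h4 := hDcim ⟨z, hz⟩ j
          simp only at h4
          exact norm_pos_iff.1 (by linarith)
        have hzW : (fun j => (z j).re) ∈ W i.1 :=
          hm0 i.1 hi0 (Metric.mem_closedBall_self hδ.le)
        have h5 := (hξ i hiL).2 _ hzW
        have hPne : ∑ j, (ξ i j : ℂ) * i.2 j - ∑ j, (ξ i j : ℂ) * z j ≠ 0 := by
          intro h6
          have h7 : (∑ j, (ξ i j : ℂ) * i.2 j - ∑ j, (ξ i j : ℂ) * z j).re =
              ∑ j, ξ i j * (i.2 j).re - ∑ j, ξ i j * (z j).re := by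
            rw [Complex.sub_re, Complex.re_sum, Complex.re_sum]
            simp only [Complex.re_ofReal_mul]
          rw [h6, Complex.zero_re] at h7
          linarith
        have h8 : ∀ k, (ξ i k : ℂ) * (∑ j, (ξ i j : ℂ) * i.2 j - ∑ j, (ξ i j : ℂ) * z j)⁻¹ *
            ∏ j ∈ Finset.univ.erase k, (i.2 j - z j)⁻¹ =
            (∑ j, (ξ i j : ℂ) * i.2 j - ∑ j, (ξ i j : ℂ) * z j)⁻¹ * ker z i.2 *
              ((ξ i k : ℂ) * i.2 k - (ξ i k : ℂ) * z k) := by
          intro k
          have h9 : ker z i.2 = (i.2 k - z k)⁻¹ * ∏ j ∈ Finset.univ.erase k, (i.2 j - z j)⁻¹ := by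
            unfold ker
            rw [Finset.mul_prod_erase Finset.univ (fun j => (i.2 j - z j)⁻¹) (Finset.mem_univ k)]
          rw [h9]
          have := hne k
          field_simp
        simp_rw [h8]
        rw [← Finset.mul_sum, Finset.sum_sub_distrib]
        field_simp
        ring
      · simp [hiL]
    have h2 := hΛZ _ h1
    rw [map_sub, sub_eq_zero, map_sum, hΛR] at h2
    rw [← h2]
    exact Finset.sum_congr rfl fun k _ => (hheq k z (G k) ⟨m1 k, hm1 k⟩).symm

end Pool.Agent.Helper140.TT
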