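import Mathlib
import Pool.Agent.Helper140.TT1
import Pool.Agent.Helper140.TT2
import Pool.Agent.Helper140.TT3

set_option autoImplicit false

open Set Filter Topology MeasureTheory

namespace Pool.Agent.Helper140.TT

variable {n : ℕ}

lemma pt_zero (x : Fin n → ℝ) : pt x 0 = fun j => (x j : ℂ) := by
  funext j; simp [pt]

lemma pt_re (x y : Fin n → ℝ) : (fun j => (pt x y j).re) = x := by
  funext j; simp [pt]

lemma pt_im (x y : Fin n → ℝ) (j : Fin n) : (pt x y j).im = y j := by
  simp [pt]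

lemma dist_pt_le {x y x' y' : Fin n → ℝ} {a b : ℝ} (ha : ∀ j, |x j - x' j| ≤ a)
    (hb : ∀ j, |y j - y' j| ≤ b) (h0 : 0 ≤ a + b) : dist (pt x y) (pt x' y') ≤ a + b := by
  rw [dist_pi_le_iff h0]
  intro j
  rw [Complex.dist_eq]
  have h1 : pt x y j - pt x' y' j = ((x j - x' j : ℝ) : ℂ) + ((y j - y' j : ℝ) : ℂ) * Complex.I := by
    simp only [pt]; push_cast; ring
  rw [h1]
  refine (norm_add_le _ _).trans ?_
  rw [norm_mul, Complex.norm_I, mul_one, Complex.norm_real, Complex.norm_real]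
  exact add_le_add (ha j) (hb j)

lemma pt_re_im (z : Fin n → ℂ) : pt (fun j => (z j).re) (fun j => (z j).im) = z := by
  funext j; exact Complex.re_add_im (z j)

lemma exists_clip {c : Fin n → ℝ} (hc : ∀ j, 0 ≤ c j) {δ : ℝ} (hδ : 0 ≤ δ) {y : Fin n → ℝ}
    (hy : ∀ j, |y j| ≤ c j + δ) : ∃ y' : Fin n → ℝ, (∀ j, |y' j| ≤ c j) ∧
      ∀ j, |y j - y' j| ≤ δ := by
  refine ⟨fun j => max (- c j) (min (c j) (y j)), fun j => ?_, fun j => ?_⟩
  · rw [abs_le]
    refine ⟨le_max_left _ _, max_le (by linarith [hc j]) (min_le_left _ _)⟩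
  · have h1 := abs_le.1 (hy j)
    have h2 := hc j
    simp only
    rw [abs_le]
    rcases le_total (c j) (y j) with h | h
    · rw [min_eq_left h, max_eq_right (by linarith)]
      constructor <;> linarith
    · rw [min_eq_right h]
      rcases le_total (- c j) (y j) with h' | h'
      · rw [max_eq_right h']; constructor <;> linarith
      · rw [max_eq_left h']; constructor <;> linarith

lemma mem_closure_D {Ω : Set (Fin n → ℝ)} {σ : Fin n → ℤˣ} {τ : Fin n → ℝ} (hτ : ∀ j, 0 < τ j)
    {x : Fin n → ℝ} (hx : x ∈ Ω) {s : ℝ} (hs : 0 ≤ s) :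
    pt x (0 + s • sv σ τ) ∈ closure (D Ω 0 σ) := by
  have h1 : ∀ s : ℝ, 0 < s → pt x (0 + s • sv σ τ) ∈ D Ω 0 σ := by
    intro s hs
    refine ⟨by rw [pt_re]; exact hx, fun j => ?_⟩
    rw [pt_im]
    simp only [Pi.zero_apply, Pi.add_apply, Pi.smul_apply, smul_eq_mul, zero_add, sv]
    have h2 := unit_sq (σ j)
    have h3 : ((σ j : ℤ) : ℝ) * (s * (((σ j : ℤ) : ℝ) * τ j)) = s * τ j := by
      linear_combination (s * τ j) * h2
    rw [h3]
    exact mul_pos hs (hτ j)
  rw [mem_closure_iff_seq_limit]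
  refine ⟨fun m => pt x (0 + (s + 1 / ((m : ℝ) + 1)) • sv σ τ), fun m => h1 _ (by positivity), ?_⟩
  have h2 : Tendsto (fun m : ℕ => s + 1 / ((m : ℝ) + 1)) atTop (𝓝 (s + 0)) :=
    tendsto_const_nhds.add tendsto_one_div_add_atTop_nhds_zero_nat
  rw [add_zero] at h2
  have h3 : Continuous (fun s : ℝ => pt x (0 + s • sv σ τ)) := by
    have h1 : Continuous (fun s : ℝ => (x, (0 : Fin n → ℝ) + s • sv σ τ)) :=
      continuous_const.prodMk (continuous_const.add (continuous_id.smul continuous_const))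
    exact continuous_pt.comp h1
  exact (h3.tendsto s).comp h2

lemma vanish {Ω : Set (Fin n → ℝ)} (hΩ : IsOpen Ω) {c : Fin n → ℝ} (hc : ∀ j, 0 < c j)
    {f : (Fin n → ℂ) → ℂ} {F : (Fin n → ℤˣ) → (Fin n → ℂ) → ℂ} (hF : Admissible Ω c f F)
    {W : Set (Fin n → ℝ)} (hW : IsOpen W) (hWb : Bornology.IsBounded W) (hWΩ : closure W ⊆ Ω)
    {x0 : Fin n → ℝ} (hx0 : x0 ∈ W) {N : Set (Fin n → ℂ)} (hN : IsOpen N)
    (hWN : tubeBox (closure W) c ⊆ N) {A : (Fin n → ℂ) → ℂ} (hA : DifferentiableOn ℂ A N)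
    {κ : ℝ} (hκ : 0 < κ) (hκA : ∀ t ∈ tubeBox (frontier W) c, κ < (A t).re)
    {a : (Fin n → ℝ) → ℝ} (haA : ∀ x ∈ closure W, A (pt x 0) = (a x : ℂ))
    {ε : ℝ} (hε : 0 < ε) (haε : ∀ x ∈ closure W, ε * ‖x - x0‖ ^ 2 ≤ a x)
    {C : ℝ} (hC : 0 ≤ C) (haC : ∀ᶠ x in 𝓝 x0, a x ≤ C * ‖x - x0‖ ^ 2) :
    gfun F x0 = 0 := by
  classical
  have hc0 : ∀ j, 0 ≤ c j := fun j => (hc j).le
  have hclW : IsCompact (closure W) := hWb.isCompact_closure
  have hfrW : IsCompact (frontier W) := hclW.of_isClosed_subset isClosed_frontier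
    frontier_subset_closure
  have hT : IsCompact (tubeBox (frontier W) c) := isCompact_tubeBox hfrW c
  have hS : IsCompact (tubeBox (closure W) c) := isCompact_tubeBox hclW c
  have hTS : tubeBox (frontier W) c ⊆ tubeBox (closure W) c :=
    fun z hz => ⟨frontier_subset_closure hz.1, hz.2⟩
  -- delta
  have hO1 : IsOpen (N ∩ A ⁻¹' {z | κ < z.re}) :=
    hA.continuousOn.isOpen_inter_preimage hN (isOpen_lt continuous_const Complex.continuous_re)
  obtain ⟨r1, hr1, hr1'⟩ := hT.exists_cthickening_subset_open hO1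
    (fun z hz => ⟨hWN (hTS hz), hκA z hz⟩)
  obtain ⟨r2, hr2, hr2'⟩ := hS.exists_cthickening_subset_open hN hWN
  obtain ⟨r3, hr3, hr3'⟩ := Metric.isOpen_iff.1 hW x0 hx0
  set δ := min (r1 / 2) (min r2 (r3 / 2)) with hδ
  have hδ0 : 0 < δ := lt_min (by positivity) (lt_min hr2 (by positivity))
  have hδ1 : δ ≤ r1 / 2 := min_le_left _ _
  have hδ2 : δ ≤ r2 := (min_le_right _ _).trans (min_le_left _ _)
  have hδ3 : δ ≤ r3 / 2 := (min_le_right _ _).trans (min_le_right _ _)
  have hNmem : ∀ x ∈ closure W, ∀ y : Fin n → ℝ, (∀ j, |y j| ≤ c j + δ) → pt x y ∈ N := by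
    intro x hx y hy
    obtain ⟨y', hy', hyy⟩ := exists_clip hc0 hδ0.le hy
    have hz' : pt x y' ∈ tubeBox (closure W) c :=
      ⟨by rw [pt_re]; exact hx, fun j => by rw [pt_im]; exact hy' j⟩
    refine hr2' (Metric.mem_cthickening_of_dist_le _ _ _ _ hz' ?_)
    refine (dist_pt_le (a := 0) (fun j => by simp) hyy (by linarith)).trans (by linarith)
  have hAmem : ∀ x ∈ Metric.thickening δ (frontier W), ∀ y : Fin n → ℝ,
      (∀ j, |y j| ≤ c j + δ) → κ ≤ (A (pt x y)).re := by
    intro x hx y hy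
    obtain ⟨x', hx', hxx⟩ := Metric.mem_thickening_iff.1 hx
    obtain ⟨y', hy', hyy⟩ := exists_clip hc0 hδ0.le hy
    have hz' : pt x' y' ∈ tubeBox (frontier W) c :=
      ⟨by rw [pt_re]; exact hx', fun j => by rw [pt_im]; exact hy' j⟩
    have h1 : pt x y ∈ Metric.cthickening r1 (tubeBox (frontier W) c) := by
      refine Metric.mem_cthickening_of_dist_le _ _ _ _ hz' ?_
      refine (dist_pt_le (a := δ) (fun j => ?_) hyy (by linarith)).trans (by linarith)
      exact (Real.dist_eq _ _ ▸ dist_le_pi_dist x x' j).trans hxx.le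
    exact (hr1' h1).2.le
  -- cutoff
  set K1 := closure W \ Metric.thickening δ (frontier W) with hK1
  have hK1c : IsCompact K1 := hclW.diff Metric.isOpen_thickening
  have hK1W : K1 ⊆ W := by
    rintro x ⟨hx1, hx2⟩
    have h1 : x ∉ frontier W := fun h => hx2 (Metric.self_subset_thickening hδ0 _ h)
    by_contra h2
    exact h1 ⟨hx1, by rwa [hW.interior_eq]⟩
  obtain ⟨χ, hχ, hχc, hχW, hχ0, hχ1, hχd⟩ := exists_cutoff hK1c hW hK1W
  have hK : IsCompact (tsupport χ) := hχc
  have hKcl : tsupport χ ⊆ closure W := hχW.trans subset_closure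
  have hKΩ : tsupport χ ⊆ Ω := hKcl.trans hWΩ
  have hthick : ∀ x ∈ tsupport χ, fderiv ℝ χ x ≠ 0 → x ∈ Metric.thickening δ (frontier W) := by
    intro x hx hd
    by_contra h
    exact hd (hχd x ⟨hKcl hx, h⟩)
  have hball : Metric.ball x0 (r3 / 2) ⊆ K1 := by
    intro x hx
    refine ⟨subset_closure (hr3' (Metric.ball_subset_ball (by linarith) hx)), fun h => ?_⟩
    obtain ⟨x', hx', hxx⟩ := Metric.mem_thickening_iff.1 h
    have h1 : x' ∈ W := by
      apply hr3'
      rw [Metric.mem_ball] at hx ⊢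
      calc dist x' x0 ≤ dist x' x + dist x x0 := dist_triangle _ _ _
        _ < δ + r3 / 2 := by rw [dist_comm x' x]; linarith
        _ ≤ r3 := by linarith
    have h2 : frontier W = closure W \ W := by rw [frontier, hW.interior_eq]
    rw [h2] at hx'
    exact hx'.2 h1
  set τ : Fin n → ℝ := fun j => c j + δ with hτ
  have hτ0 : ∀ j, 0 < τ j := fun j => by have := hc j; simp only [hτ]; linarith
  have hsvabs : ∀ (σ : Fin n → ℤˣ) (j : Fin n), |sv σ τ j| = τ j := by
    intro σ j
    simp only [sv]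
    rw [abs_mul, abs_of_pos (hτ0 j)]
    rcases Int.units_eq_one_or (σ j) with h | h <;> simp [h]
  obtain ⟨h, hhol, hsplit⟩ := hF.split
  -- estimate 1
  have hE1 : ∀ σ : Fin n → ℤˣ, ∃ C : ℝ, ∀ t : ℝ, 0 < t →
      ‖(∫ x, (χ x : ℂ) * (F σ (pt x (0 + sv σ τ)) * Complex.exp (- t * A (pt x (0 + sv σ τ)))))
        - ∫ x, (χ x : ℂ) * (F σ (pt x 0) * Complex.exp (- t * A (pt x 0)))‖
      ≤ C * Real.exp (- t * κ) := by
    intro σ
    have hd : DifferentiableOn ℂ (F σ) (D Ω 0 σ) :=
      (hF.hol.mono (subset_iUnion (fun σ => D Ω 0 σ) σ)).congr (hF.ext σ)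
    have hyb : ∀ s ∈ Icc (0:ℝ) 1, ∀ j, |((0 : Fin n → ℝ) + s • sv σ τ) j| ≤ c j + δ := by
      intro s hs j
      simp only [zero_add, Pi.smul_apply, smul_eq_mul]
      rw [abs_mul, abs_of_nonneg hs.1, hsvabs]
      have := hτ0 j
      have h3 := mul_le_mul_of_nonneg_right hs.2 this.le
      rw [one_mul] at h3
      exact h3
    refine deformE hχ hχc (isOpen_D hΩ 0 σ) hN hd hA 0 (sv σ τ) ?_ ?_ ?_ ?_
    · intro x hx s hs
      refine ⟨by rw [pt_re]; exact hKΩ hx, fun j => ?_⟩
      rw [pt_im]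
      simp only [Pi.zero_apply, Pi.smul_apply, smul_eq_mul, zero_add, sv]
      have h2 := unit_sq (σ j)
      have h3 : ((σ j : ℤ) : ℝ) * (s * (((σ j : ℤ) : ℝ) * τ j)) = s * τ j := by
        linear_combination (s * τ j) * h2
      rw [h3]
      exact mul_pos hs.1 (hτ0 j)
    · intro x hx s hs
      exact hNmem x (hKcl hx) _ (hyb s hs)
    · refine (hF.cont σ).comp ?_ ?_
      · have h1 : Continuous (fun q : (Fin n → ℝ) × ℝ => (q.1, (0 : Fin n → ℝ) + q.2 • sv σ τ)) :=
          continuous_fst.prodMk (continuous_const.add (continuous_snd.smul continuous_const))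
        exact (continuous_pt.comp h1).continuousOn
      · rintro ⟨x, s⟩ ⟨hx, hs⟩
        exact mem_closure_D hτ0 (hKΩ hx) hs.1
    · intro x hx hd s hs
      exact hAmem x (hthick x hx hd) _ (hyb s ⟨hs.1.le, hs.2⟩)
  -- estimate 2
  have hE2 : ∀ (k : Fin n) (σ : Fin n → ℤˣ), ∃ C : ℝ, ∀ t : ℝ, 0 < t →
      ‖(∫ x, (χ x : ℂ) * (h k (pt x (sv σ τ)) * Complex.exp (- t * A (pt x (sv σ τ)))))
        - ∫ x, (χ x : ℂ) * (h k (pt x (sv (flip k σ) τ)) *
            Complex.exp (- t * A (pt x (sv (flip k σ) τ))))‖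
      ≤ C * Real.exp (- t * κ) := by
    intro k σ
    have hd : DifferentiableOn ℂ (h k) (Dk Ω c k σ) :=
      (hhol k).mono (subset_iUnion (fun σ => Dk Ω c k σ) σ)
    have hpath : ∀ (s : ℝ) (j : Fin n), j ≠ k →
        (sv (flip k σ) τ + s • (sv σ τ - sv (flip k σ) τ)) j = sv σ τ j := by
      intro s j hj
      simp [sv, flip, hj]
    have hpathk : ∀ (s : ℝ),
        (sv (flip k σ) τ + s • (sv σ τ - sv (flip k σ) τ)) k = (2 * s - 1) * sv σ τ k := by
      intro s
      simp only [sv, flip, Pi.add_apply, Pi.smul_apply, Pi.sub_apply, smul_eq_mul,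
        Function.update_self, Units.val_neg, Int.cast_neg]
      ring
    have hyb : ∀ s ∈ Icc (0:ℝ) 1, ∀ j,
        |(sv (flip k σ) τ + s • (sv σ τ - sv (flip k σ) τ)) j| ≤ c j + δ := by
      intro s hs j
      by_cases hj : j = k
      · subst hj
        rw [hpathk, abs_mul, hsvabs]
        have h1 : |2 * s - 1| ≤ 1 := abs_le.2 ⟨by linarith [hs.1], by linarith [hs.2]⟩
        have h2 := mul_le_mul_of_nonneg_right h1 (hτ0 j).le
        rw [one_mul] at h2
        exact h2
      · rw [hpath s j hj, hsvabs]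
    have hmemV : ∀ x ∈ tsupport χ, ∀ s : ℝ,
        pt x (sv (flip k σ) τ + s • (sv σ τ - sv (flip k σ) τ)) ∈ Dk Ω c k σ := by
      intro x hx s
      refine ⟨by rw [pt_re]; exact hKΩ hx, fun j hj => ?_⟩
      rw [pt_im, hpath s j hj]
      simp only [sv]
      have h2 := unit_sq (σ j)
      have h3 : ((σ j : ℤ) : ℝ) * (((σ j : ℤ) : ℝ) * τ j) = τ j := by
        linear_combination (τ j) * h2
      rw [h3]
      simp only [hτ]; linarith
    have hmain := deformE hχ hχc (isOpen_Dk hΩ c k σ) hN hd hA (sv (flip k σ) τ)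
      (sv σ τ - sv (flip k σ) τ) (κ := κ) (fun x hx s _ => hmemV x hx s)
      (fun x hx s hs => hNmem x (hKcl hx) _ (hyb s hs)) ?_ ?_
    · rw [add_sub_cancel] at hmain
      exact hmain
    · refine hd.continuousOn.comp ?_ ?_
      · have h1 : Continuous (fun q : (Fin n → ℝ) × ℝ =>
            (q.1, sv (flip k σ) τ + q.2 • (sv σ τ - sv (flip k σ) τ))) :=
          continuous_fst.prodMk (continuous_const.add (continuous_snd.smul continuous_const))
        exact (continuous_pt.comp h1).continuousOn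
      · rintro ⟨x, s⟩ ⟨hx, hs⟩
        exact hmemV x hx s
    · intro x hx hd s hs
      exact hAmem x (hthick x hx hd) _ (hyb s ⟨hs.1.le, hs.2⟩)
  choose C1 hC1 using hE1
  choose C2 hC2 using hE2
  -- integrability of slices
  have hslint : ∀ (t : ℝ) (y : Fin n → ℝ) (H : (Fin n → ℂ) → ℂ), (∀ j, |y j| ≤ c j + δ) →
      ContinuousOn (fun x => H (pt x y)) (tsupport χ) →
      Integrable (fun x => (χ x : ℂ) * (H (pt x y) * Complex.exp (- t * A (pt x y)))) := by
    intro t y H hy hH
    have h1 : ContinuousOn (fun x => A (pt x y)) (tsupport χ) := by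
      refine hA.continuousOn.comp ?_ (fun x hx => hNmem x (hKcl hx) y hy)
      have h1 : Continuous (fun x : Fin n → ℝ => (x, y)) := continuous_id.prodMk continuous_const
      exact (continuous_pt.comp h1).continuousOn
    have h2 : ContinuousOn (fun x => (χ x : ℂ) * (H (pt x y) * Complex.exp (- t * A (pt x y))))
        (tsupport χ) := by
      refine (Complex.continuous_ofReal.comp hχ.continuous).continuousOn.mul (hH.mul ?_)
      exact Complex.continuous_exp.comp_continuousOn (continuousOn_const.mul h1)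
    refine (integrableOn_iff_integrable_of_support_subset ?_).1 (h2.integrableOn_compact hK)
    intro x hx
    by_contra hxK
    exact hx (by simp [image_eq_zero_of_notMem_tsupport hxK])
  -- sum
  set Cs : ℝ := ∑ σ, C1 σ + ∑ k, ∑ σ, C2 k σ with hCs
  have hsum : ∀ t : ℝ, 0 < t →
      ‖∫ x, (χ x : ℂ) * (gfun F x * Complex.exp (- t * A (pt x 0)))‖ ≤ Cs * Real.exp (- t * κ) := by
    intro t ht
    have e1 : ∫ x, (χ x : ℂ) * (gfun F x * Complex.exp (- t * A (pt x 0))) =
        ∑ σ, sgn σ * ∫ x, (χ x : ℂ) * (F σ (pt x 0) * Complex.exp (- t * A (pt x 0))) := by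
      have e2 : ∀ x, (χ x : ℂ) * (gfun F x * Complex.exp (- t * A (pt x 0))) =
          ∑ σ, sgn σ * ((χ x : ℂ) * (F σ (pt x 0) * Complex.exp (- t * A (pt x 0)))) := by
        intro x
        simp only [gfun, sgn, pt_zero]
        rw [Finset.sum_mul, Finset.mul_sum]
        refine Finset.sum_congr rfl fun σ _ => ?_
        ring
      simp_rw [e2]
      rw [integral_finsetSum]
      · simp_rw [integral_const_mul]
      · intro σ _
        refine Integrable.const_mul (hslint t 0 (F σ) (fun j => by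
          simp only [Pi.zero_apply, abs_zero]; linarith [hc j]) ?_) _
        refine (hF.cont σ).comp ?_ ?_
        · have h1 : Continuous (fun x : Fin n → ℝ => (x, (0 : Fin n → ℝ))) :=
            continuous_id.prodMk continuous_const
          exact (continuous_pt.comp h1).continuousOn
        · intro x hx
          have := mem_closure_D (σ := σ) hτ0 (hKΩ hx) (le_refl (0:ℝ))
          simpa using this
    have e3 : ∀ σ : Fin n → ℤˣ,
        ∫ x, (χ x : ℂ) * (F σ (pt x (0 + sv σ τ)) * Complex.exp (- t * A (pt x (0 + sv σ τ)))) =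
        ∑ k, ∫ x, (χ x : ℂ) * (h k (pt x (sv σ τ)) * Complex.exp (- t * A (pt x (sv σ τ)))) := by
      intro σ
      rw [← integral_finsetSum]
      · refine integral_congr_ae (Eventually.of_forall fun x => ?_)
        simp only
        by_cases hx : x ∈ tsupport χ
        · have hmem : pt x (sv σ τ) ∈ D Ω c σ := by
            refine ⟨by rw [pt_re]; exact hKΩ hx, fun j => ?_⟩
            rw [pt_im]
            simp only [sv]
            have h2 := unit_sq (σ j)
            have h3 : ((σ j : ℤ) : ℝ) * (((σ j : ℤ) : ℝ) * τ j) = τ j := by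
              linear_combination (τ j) * h2
            rw [h3]
            simp only [hτ]; linarith
          have hmem0 : pt x (sv σ τ) ∈ D Ω 0 σ :=
            ⟨hmem.1, fun j => lt_trans (hc j) (hmem.2 j)⟩
          rw [zero_add, hF.ext σ hmem0, hsplit _ (mem_iUnion.2 ⟨σ, hmem⟩), Finset.sum_mul,
            Finset.mul_sum]
        · simp [image_eq_zero_of_notMem_tsupport hx]
      · intro k _
        refine hslint t _ (h k) (fun j => by rw [hsvabs]) ?_
        refine (hhol k).continuousOn.comp ?_ ?_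
        · have h1 : Continuous (fun x : Fin n → ℝ => (x, sv σ τ)) :=
            continuous_id.prodMk continuous_const
          exact (continuous_pt.comp h1).continuousOn
        · intro x hx
          refine mem_iUnion.2 ⟨σ, by rw [pt_re]; exact hKΩ hx, fun j _ => ?_⟩
          rw [pt_im]
          simp only [sv]
          have h2 := unit_sq (σ j)
          have h3 : ((σ j : ℤ) : ℝ) * (((σ j : ℤ) : ℝ) * τ j) = τ j := by
            linear_combination (τ j) * h2
          rw [h3]
          simp only [hτ]; linarith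
    set P : (Fin n → ℤˣ) → ℂ := fun σ =>
      ∫ x, (χ x : ℂ) * (F σ (pt x 0) * Complex.exp (- t * A (pt x 0))) with hP
    set Q : (Fin n → ℤˣ) → ℂ := fun σ =>
      ∫ x, (χ x : ℂ) * (F σ (pt x (0 + sv σ τ)) * Complex.exp (- t * A (pt x (0 + sv σ τ)))) with hQ
    set T : Fin n → (Fin n → ℤˣ) → ℂ := fun k σ =>
      ∫ x, (χ x : ℂ) * (h k (pt x (sv σ τ)) * Complex.exp (- t * A (pt x (sv σ τ)))) with hT'
    have e4 : ∑ σ, sgn σ * P σ = ∑ σ, sgn σ * (P σ - Q σ) + ∑ k, ∑ σ, sgn σ * T k σ := by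
      rw [Finset.sum_comm, ← Finset.sum_add_distrib]
      refine Finset.sum_congr rfl fun σ _ => ?_
      rw [← Finset.mul_sum]
      have : Q σ = ∑ k, T k σ := e3 σ
      rw [← this]; ring
    rw [e1]
    change ‖∑ σ, sgn σ * P σ‖ ≤ _
    rw [e4]
    refine (norm_add_le _ _).trans ?_
    rw [hCs, add_mul]
    refine add_le_add ?_ ?_
    · refine (norm_sum_le _ _).trans ?_
      rw [Finset.sum_mul]
      refine Finset.sum_le_sum fun σ _ => ?_
      rw [norm_mul, norm_sgn, one_mul, norm_sub_rev]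
      exact hC1 σ t ht
    · refine (norm_sum_le _ _).trans ?_
      rw [Finset.sum_mul]
      refine Finset.sum_le_sum fun k _ => ?_
      rw [Finset.sum_mul]
      exact sum_flip_bound k (T k) _ (fun σ => hC2 k σ t ht)
  -- the final contradiction
  by_contra hg
  have hx0Ω : x0 ∈ Ω := hWΩ (subset_closure hx0)
  set g0 := gfun F x0 with hg0
  have hgpos : 0 < ‖g0‖ := norm_pos_iff.2 hg
  have hgc : ContinuousOn (gfun F) Ω := gfun_continuousOn hF
  have hgat : ContinuousAt (fun x => ((starRingEnd ℂ g0) * gfun F x).re) x0 :=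
    Complex.continuous_re.continuousAt.comp
      (continuousAt_const.mul (hgc.continuousAt (hΩ.mem_nhds hx0Ω)))
  have hgv : ((starRingEnd ℂ g0) * gfun F x0).re = ‖g0‖ ^ 2 := by
    rw [← hg0, mul_comm, Complex.mul_conj, Complex.ofReal_re, Complex.normSq_eq_norm_sq]
  have hev : ∀ᶠ x in 𝓝 x0, ‖g0‖ ^ 2 / 2 < ((starRingEnd ℂ g0) * gfun F x).re := by
    refine hgat.eventually (lt_mem_nhds ?_)
    simp only
    rw [hgv]
    have : 0 < ‖g0‖ ^ 2 := by positivity
    linarith
  obtain ⟨r4, hr4, hr4'⟩ := Metric.eventually_nhds_iff_ball.1 (hev.and haC)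
  set r0 := min r4 (r3 / 2) with hr0
  have hr00 : 0 < r0 := lt_min hr4 (by positivity)
  refine laplace hK x0 (φ := fun x => χ x * ((starRingEnd ℂ g0) * gfun F x).re) (a := a)
    (r0 := r0) (η := ‖g0‖ ^ 2 / 2) (ε := ε) (C := C) (C' := ‖g0‖ * Cs) (κ := κ)
    hr00 (by positivity) hε hC hκ ?_ ?_ ?_ ?_ ?_ ?_ ?_
  · intro x hx
    simp [image_eq_zero_of_notMem_tsupport hx]
  · refine hχ.continuous.continuousOn.mul ?_
    exact Complex.continuous_re.comp_continuousOn (continuousOn_const.mul (hgc.mono hKΩ))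
  · have h1 : ContinuousOn (fun x => (A (pt x 0)).re) (tsupport χ) := by
      refine Complex.continuous_re.comp_continuousOn (hA.continuousOn.comp ?_ (fun x hx =>
        hNmem x (hKcl hx) 0 (fun j => by simp only [Pi.zero_apply, abs_zero]; linarith [hc j])))
      have h1 : Continuous (fun x : Fin n → ℝ => (x, (0 : Fin n → ℝ))) :=
        continuous_id.prodMk continuous_const
      exact (continuous_pt.comp h1).continuousOn
    refine h1.congr fun x hx => ?_
    simp only
    rw [haA x (hKcl hx), Complex.ofReal_re]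
  · intro x hx
    have h1 : x ∈ K1 := hball (Metric.ball_subset_ball (min_le_right _ _) hx)
    rw [hχ1 x h1, one_mul]
    exact (hr4' x (Metric.ball_subset_ball (min_le_left _ _) hx)).1.le
  · intro x hx
    exact haε x (hKcl hx)
  · intro x hx
    exact (hr4' x (Metric.ball_subset_ball (min_le_left _ _) hx)).2
  · intro t ht
    have e1 : ∀ x, χ x * ((starRingEnd ℂ g0) * gfun F x).re * Real.exp (- t * a x) =
        ((starRingEnd ℂ g0) * ((χ x : ℂ) * (gfun F x * Complex.exp (- t * A (pt x 0))))).re := by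
      intro x
      by_cases hx : x ∈ tsupport χ
      · rw [haA x (hKcl hx)]
        have e2 : Complex.exp (- t * (a x : ℂ)) = ((Real.exp (- t * a x) : ℝ) : ℂ) := by
          push_cast; rfl
        rw [e2]
        have e3 : (starRingEnd ℂ) g0 * ((χ x : ℂ) * (gfun F x * ((Real.exp (- t * a x) : ℝ) : ℂ))) =
            ((χ x * Real.exp (- t * a x) : ℝ) : ℂ) * ((starRingEnd ℂ) g0 * gfun F x) := by
          push_cast; ring
        rw [e3, Complex.re_ofReal_mul]; ring
      · simp [image_eq_zero_of_notMem_tsupport hx]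
    simp_rw [e1]
    have hint : Integrable (fun x => (starRingEnd ℂ g0) *
        ((χ x : ℂ) * (gfun F x * Complex.exp (- t * A (pt x 0))))) := by
      refine Integrable.const_mul ?_ _
      have := hslint t 0 (fun z => gfun F (fun j => (z j).re)) (fun j => by
        simp only [Pi.zero_apply, abs_zero]; linarith [hc j]) (by
          have : (fun x : Fin n → ℝ => gfun F (fun j => (pt x 0 j).re)) = fun x => gfun F x := by
            funext x; rw [pt_re]
          rw [this]; exact hgc.mono hKΩ)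
      refine this.congr (Eventually.of_forall fun x => ?_)
      simp only
      rw [pt_re]
    have e4 : ∫ x, ((starRingEnd ℂ g0) *
        ((χ x : ℂ) * (gfun F x * Complex.exp (- t * A (pt x 0))))).re =
        (∫ x, (starRingEnd ℂ g0) *
        ((χ x : ℂ) * (gfun F x * Complex.exp (- t * A (pt x 0))))).re :=
      integral_re hint
    rw [e4, integral_const_mul]
    refine (Complex.abs_re_le_norm _).trans ?_
    rw [norm_mul, RCLike.norm_conj, mul_assoc]
    exact mul_le_mul_of_nonneg_left (hsum t ht) (norm_nonneg _)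

end Pool.Agent.Helper140.TT
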