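import Mathlib
import Pool.Agent.Helper140.TT1
import Pool.Agent.Helper140.TT2
import Pool.Agent.Helper140.TT3
import Pool.Agent.Helper140.TT4

set_option autoImplicit false

open Set Filter Topology MeasureTheory

namespace Pool.Agent.Helper140.TT

variable {n : ℕ}

lemma star_pt (x y : Fin n → ℝ) : star (pt x y) = pt x (-y) := by
  funext j
  simp [pt]

lemma re_sq_bound {w : ℂ} (hw : ‖w‖ ≤ 1 / 2) : 1 / 4 ≤ ((w - 1) ^ 2).re := by
  have h1 : w.re ^ 2 + w.im ^ 2 ≤ 1 / 4 := by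
    have h2 : w.re ^ 2 + w.im ^ 2 = ‖w‖ ^ 2 := by
      rw [← Complex.normSq_eq_norm_sq, Complex.normSq_apply]; ring
    rw [h2]
    nlinarith [norm_nonneg w]
  have h3 : ((w - 1) ^ 2).re = (w.re - 1) ^ 2 - w.im ^ 2 := by
    simp [sq]
  rw [h3]
  have h4 : w.re ≤ 1 / 2 := (Complex.re_le_norm w).trans hw
  nlinarith [sq_nonneg (w.re - 1/2)]

theorem sepHol_vanish {Ω : Set (Fin n → ℝ)} (hΩ : IsOpen Ω) {c : Fin n → ℝ} (hc : ∀ j, 0 < c j)
    {f : (Fin n → ℂ) → ℂ} {F : (Fin n → ℤˣ) → (Fin n → ℂ) → ℂ} (hF : Admissible Ω c f F)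
    {x0 : Fin n → ℝ} (hx0 : x0 ∈ SepHol Ω c) : gfun F x0 = 0 := by
  obtain ⟨W, hW, hWb, hWΩ, hxW, N0, φ0, hN0, hWN0, hφ0, hlt0⟩ := hx0
  -- make phi nonzero at x0
  obtain ⟨N, φ, hN, hWN, hφ, hlt, hφx⟩ : ∃ (N : Set (Fin n → ℂ)) (φ : (Fin n → ℂ) → ℂ),
      IsOpen N ∧ tubeBox (closure W) c ⊆ N ∧ DifferentiableOn ℂ φ N ∧
      (∀ t ∈ tubeBox (frontier W) c, ‖φ t‖ < ‖φ (pt x0 0)‖) ∧ φ (pt x0 0) ≠ 0 := by
    by_cases hne : (tubeBox (frontier W) c).Nonempty
    · obtain ⟨t, ht⟩ := hne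
      refine ⟨N0, φ0, hN0, hWN0, hφ0, fun t ht => by rw [pt_zero]; exact hlt0 t ht, ?_⟩
      have := hlt0 t ht
      rw [← pt_zero] at this
      exact norm_pos_iff.1 ((norm_nonneg _).trans_lt this)
    · rw [not_nonempty_iff_eq_empty] at hne
      refine ⟨univ, fun _ => 1, isOpen_univ, subset_univ _, differentiableOn_const _, ?_, by simp⟩
      intro t ht
      rw [hne] at ht
      exact ht.elim
  set N' : Set (Fin n → ℂ) := N ∩ star ⁻¹' N with hN'
  have hN'o : IsOpen N' := hN.inter (hN.preimage continuous_star)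
  have hclW : IsCompact (closure W) := hWb.isCompact_closure
  have hT : IsCompact (tubeBox (frontier W) c) :=
    isCompact_tubeBox (hclW.of_isClosed_subset isClosed_frontier frontier_subset_closure) c
  have hstar : ∀ (B : Set (Fin n → ℝ)) (z : Fin n → ℂ), z ∈ tubeBox B c → star z ∈ tubeBox B c := by
    intro B z hz
    refine ⟨by simpa using hz.1, fun j => by simpa using hz.2 j⟩
  have hWN' : tubeBox (closure W) c ⊆ N' := fun z hz => ⟨hWN hz, hWN (hstar _ z hz)⟩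
  have hTcl : tubeBox (frontier W) c ⊆ tubeBox (closure W) c :=
    fun z hz => ⟨frontier_subset_closure hz.1, hz.2⟩
  set φ1 : (Fin n → ℂ) → ℂ := fun z => φ z / φ (pt x0 0) with hφ1
  have hφ1d : DifferentiableOn ℂ φ1 N := by
    simp only [hφ1, div_eq_mul_inv]
    exact hφ.mul_const _
  have hφ1x : φ1 (pt x0 0) = 1 := by simp only [hφ1]; exact div_self hφx
  set φ2 : (Fin n → ℂ) → ℂ := fun z => (1 / 2) * (φ1 z + star (φ1 (star z))) with hφ2
  have hφ2d : DifferentiableOn ℂ φ2 N' := by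
    have h1 : DifferentiableOn ℂ (star ∘ φ1 ∘ star) N' := by
      intro z hz
      have h2 : DifferentiableAt ℂ φ1 (star z) := (hφ1d _ hz.2).differentiableAt (hN.mem_nhds hz.2)
      have h3 := h2.star_star
      rw [star_star] at h3
      exact h3.differentiableWithinAt
    exact ((hφ1d.mono inter_subset_left).add h1).const_mul (1 / 2)
  -- q < 1
  obtain ⟨q, hq0, hq1, hq⟩ : ∃ q : ℝ, 0 ≤ q ∧ q < 1 ∧ ∀ t ∈ tubeBox (frontier W) c, ‖φ1 t‖ ≤ q := by
    by_cases hne : (tubeBox (frontier W) c).Nonempty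
    · have hcont : ContinuousOn (fun z => ‖φ1 z‖) (tubeBox (frontier W) c) :=
        (hφ1d.continuousOn.mono (hTcl.trans hWN)).norm
      obtain ⟨t0, ht0, hmax⟩ := hT.exists_isMaxOn hne hcont
      refine ⟨‖φ1 t0‖, norm_nonneg _, ?_, fun t ht => hmax ht⟩
      simp only [hφ1, norm_div]
      rw [div_lt_one (norm_pos_iff.2 hφx)]
      exact hlt t0 ht0
    · rw [not_nonempty_iff_eq_empty] at hne
      refine ⟨0, le_refl _, by norm_num, fun t ht => ?_⟩
      rw [hne] at ht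
      exact ht.elim
  have hq2 : ∀ t ∈ tubeBox (frontier W) c, ‖φ2 t‖ ≤ q := by
    intro t ht
    simp only [hφ2, norm_mul]
    have h1 : ‖φ1 t + star (φ1 (star t))‖ ≤ q + q := by
      refine (norm_add_le _ _).trans (add_le_add (hq t ht) ?_)
      rw [norm_star]; exact hq _ (hstar _ t ht)
    have h2 : ‖(1 / 2 : ℂ)‖ = 1 / 2 := by simp
    rw [h2]; linarith
  obtain ⟨m, hm⟩ := exists_pow_lt_of_lt_one (show (0:ℝ) < 1 / 2 by norm_num) hq1
  set S : ℝ := ∑ j, c j ^ 2 with hS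
  have hS0 : 0 ≤ S := Finset.sum_nonneg fun j _ => sq_nonneg _
  set ε : ℝ := 1 / (16 * (S + 1)) with hε
  have hε0 : 0 < ε := by positivity
  have hεS : ε * S ≤ 1 / 16 := by
    rw [hε, div_mul_eq_mul_div, one_mul, div_le_iff₀ (by positivity)]
    linarith
  set A : (Fin n → ℂ) → ℂ := fun z => (φ2 z ^ m - 1) ^ 2 + ε * ∑ j, (z j - x0 j) ^ 2 with hA
  have hAd : DifferentiableOn ℂ A N' := by
    refine (((hφ2d.pow m).sub_const 1).pow 2).add ?_
    exact Differentiable.differentiableOn (by fun_prop)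
  -- values on reals
  have hreal : ∀ x : Fin n → ℝ, φ2 (pt x 0) = (((φ1 (pt x 0)).re : ℝ) : ℂ) := by
    intro x
    simp only [hφ2]
    rw [star_pt, neg_zero]
    have : star (φ1 (pt x 0)) = (starRingEnd ℂ) (φ1 (pt x 0)) := rfl
    rw [this, Complex.add_conj]
    push_cast; ring
  set a : (Fin n → ℝ) → ℝ := fun x => ((φ1 (pt x 0)).re ^ m - 1) ^ 2 + ε * ∑ j, (x j - x0 j) ^ 2
    with ha
  have hsumge : ∀ x : Fin n → ℝ, ‖x - x0‖ ^ 2 ≤ ∑ j, (x j - x0 j) ^ 2 := by
    intro x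
    have h0 : 0 ≤ ∑ j, (x j - x0 j) ^ 2 := Finset.sum_nonneg fun j _ => sq_nonneg _
    have h1 : ‖x - x0‖ ≤ Real.sqrt (∑ j, (x j - x0 j) ^ 2) := by
      rw [pi_norm_le_iff_of_nonneg (Real.sqrt_nonneg _)]
      intro j
      rw [Real.norm_eq_abs, Pi.sub_apply]
      refine Real.abs_le_sqrt ?_
      exact Finset.single_le_sum (f := fun j => (x j - x0 j) ^ 2) (fun i _ => sq_nonneg _)
        (Finset.mem_univ j)
    calc ‖x - x0‖ ^ 2 ≤ (Real.sqrt (∑ j, (x j - x0 j) ^ 2)) ^ 2 := by gcongr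
      _ = _ := Real.sq_sqrt h0
  have hsumle : ∀ x : Fin n → ℝ, ∑ j, (x j - x0 j) ^ 2 ≤ n * ‖x - x0‖ ^ 2 := by
    intro x
    have h1 : ∀ j ∈ (Finset.univ : Finset (Fin n)), (x j - x0 j) ^ 2 ≤ ‖x - x0‖ ^ 2 := by
      intro j _
      have h2 : |x j - x0 j| ≤ ‖x - x0‖ := by
        have := norm_le_pi_norm (x - x0) j
        rwa [Real.norm_eq_abs] at this
      rw [← sq_abs]
      gcongr
    have h2 := Finset.sum_le_sum h1
    simpa using h2
  obtain ⟨r, hr⟩ : ∃ r : ℝ, ∀ᶠ x in 𝓝 x0, |(φ1 (pt x 0)).re ^ m - 1| ≤ r * ‖x - x0‖ := by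
    have hmem : pt x0 0 ∈ N := by
      refine hWN ⟨by rw [pt_re]; exact subset_closure hxW, fun j => ?_⟩
      rw [pt_im]; simpa using (hc j).le
    have h1 : DifferentiableAt ℂ φ1 (pt x0 0) := (hφ1d _ hmem).differentiableAt (hN.mem_nhds hmem)
    have h2 : DifferentiableAt ℝ (fun x : Fin n → ℝ => φ1 (pt x 0)) x0 := by
      have h3 : DifferentiableAt ℝ (fun x : Fin n → ℝ => pt x 0) x0 := by
        have h4 : (fun x : Fin n → ℝ => pt x 0) = fun x => (ContinuousLinearMap.pi fun j =>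
            Complex.ofRealCLM.comp
            (ContinuousLinearMap.proj (R := ℝ) (φ := fun _ : Fin n => ℝ) j)) x := by
          funext x j; simp [pt]
        rw [h4]
        exact ContinuousLinearMap.differentiableAt _
      exact (h1.restrictScalars ℝ).comp x0 h3
    have h3 : DifferentiableAt ℝ (fun x : Fin n → ℝ => (φ1 (pt x 0)).re ^ m) x0 := by
      have h4 : DifferentiableAt ℝ (fun x : Fin n → ℝ => (φ1 (pt x 0)).re) x0 :=
        Complex.reCLM.differentiableAt.comp x0 h2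
      exact h4.pow m
    obtain ⟨r, hr⟩ := h3.isBigO_sub.bound
    refine ⟨r, hr.mono fun x hx => ?_⟩
    rw [hφ1x] at hx
    simpa using hx
  refine vanish hΩ hc hF hW hWb hWΩ hxW hN'o hWN' hAd (κ := 1 / 8) (by norm_num) ?_ (a := a)
    (fun x _ => ?_) hε0 (fun x _ => ?_) (C := r ^ 2 + ε * n) (by positivity) ?_
  · intro t ht
    have h1 : 1 / 4 ≤ ((φ2 t ^ m - 1) ^ 2).re := by
      refine re_sq_bound ?_
      rw [norm_pow]
      exact (pow_le_pow_left₀ (norm_nonneg _) (hq2 t ht) m).trans hm.le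
    have h2 : -S ≤ (∑ j, (t j - x0 j) ^ 2).re := by
      rw [Complex.re_sum, hS, ← Finset.sum_neg_distrib]
      refine Finset.sum_le_sum fun j _ => ?_
      have h3 : ((t j - x0 j) ^ 2).re = ((t j).re - x0 j) ^ 2 - (t j).im ^ 2 := by
        simp [sq]
      rw [h3]
      have h4 : (t j).im ^ 2 ≤ c j ^ 2 := by
        rw [← sq_abs]
        have := ht.2 j
        gcongr
      nlinarith [sq_nonneg ((t j).re - x0 j)]
    simp only [hA]
    rw [Complex.add_re, Complex.re_ofReal_mul]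
    have h5 := mul_le_mul_of_nonneg_left h2 hε0.le
    nlinarith
  · simp only [hA, ha]
    rw [hreal x]
    simp [pt]
  · simp only [ha]
    have h1 := mul_le_mul_of_nonneg_left (hsumge x) hε0.le
    nlinarith [sq_nonneg ((φ1 (pt x 0)).re ^ m - 1)]
  · filter_upwards [hr] with x hx
    simp only [ha]
    have h1 := mul_le_mul_of_nonneg_left (hsumle x) hε0.le
    have h2 : ((φ1 (pt x 0)).re ^ m - 1) ^ 2 ≤ r ^ 2 * ‖x - x0‖ ^ 2 := by
      rw [← mul_pow, ← sq_abs]
      gcongr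
    calc _ ≤ r ^ 2 * ‖x - x0‖ ^ 2 + ε * (n * ‖x - x0‖ ^ 2) := add_le_add h2 h1
      _ = _ := by ring

/-- Theorem (A): for every open Omega the set Omega meets the interior of the closure of
SepHol only in points of U. -/
theorem subset_U_of_sepHol {Ω : Set (Fin n → ℝ)} (hΩ : IsOpen Ω) {c : Fin n → ℝ}
    (hc : ∀ j, 0 < c j) : Ω ∩ interior (closure (SepHol Ω c)) ⊆ U Ω c := by
  intro x hx
  refine mem_sUnion.2 ⟨Ω ∩ interior (closure (SepHol Ω c)),
    ⟨hΩ.inter isOpen_interior, inter_subset_left, ?_⟩, hx⟩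
  intro f F hF y hy
  have hg : ContinuousOn (gfun F) Ω := gfun_continuousOn hF
  have hgy : ContinuousAt (gfun F) y := hg.continuousAt (hΩ.mem_nhds hy.1)
  by_contra hne
  have hev : ∀ᶠ x in 𝓝 y, gfun F x ≠ 0 := hgy.eventually_ne hne
  have h1 : y ∈ closure (SepHol Ω c) := interior_subset hy.2
  obtain ⟨z, hz1, hz2⟩ := mem_closure_iff_nhds.1 h1 _ hev
  exact hz1 (sepHol_vanish hΩ hc hF hz2)

lemma differentiable_eval (p : MvPolynomial (Fin n) ℂ) :
    Differentiable ℂ (fun z : Fin n → ℂ => MvPolynomial.eval z p) := by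
  induction p using MvPolynomial.induction_on with
  | C a => simp
  | add p q hp hq =>
    simp only [map_add]
    exact hp.add hq
  | mul_X p i hp =>
    simp only [map_mul, MvPolynomial.eval_X]
    exact hp.mul (differentiable_apply i)

/-- polynomial separation gives holomorphic separation -/
lemma sepPoly_subset_sepHol (Ω : Set (Fin n → ℝ)) (c : Fin n → ℝ) :
    SepPoly Ω c ⊆ SepHol Ω c := by
  rintro x ⟨W, hW, hWb, hWΩ, hxW, hsep⟩
  have hsep2 : ∃ (p : MvPolynomial (Fin n) ℂ) (M : ℝ),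
      (∀ t ∈ tubeBox (frontier W) c, ‖MvPolynomial.eval t p‖ ≤ M) ∧
      M < ‖MvPolynomial.eval (fun j => (x j : ℂ)) p‖ := by
    by_contra hcon
    push Not at hcon
    exact hsep fun p M hM => hcon p M hM
  obtain ⟨p, M, hM, hlt⟩ := hsep2
  exact ⟨W, hW, hWb, hWΩ, hxW, univ, fun z => MvPolynomial.eval z p, isOpen_univ, subset_univ _,
    (differentiable_eval p).differentiableOn, fun t ht => (hM t ht).trans_lt hlt⟩

end Pool.Agent.Helper140.TT
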