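import Mathlib
import Pool.Agent.Helper140.TT1
import Pool.Agent.Helper140.TT2
import Pool.Agent.Helper140.TT3
import Pool.Agent.Helper140.TT4
import Pool.Agent.Helper140.TT5
import Pool.Agent.Helper140.TT10

set_option autoImplicit false

open Set Filter Topology MeasureTheory

namespace Pool.Agent.Helper140.TT

variable {n : ℕ}

lemma U_isOpen (Ω : Set (Fin n → ℝ)) (c : Fin n → ℝ) : IsOpen (U Ω c) :=
  isOpen_sUnion fun _ hW => hW.1

lemma U_subset (Ω : Set (Fin n → ℝ)) (c : Fin n → ℝ) : U Ω c ⊆ Ω :=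
  sUnion_subset fun _ hW => hW.2.1

lemma gfun_zero_of_mem_U {Ω : Set (Fin n → ℝ)} {c : Fin n → ℝ} {x : Fin n → ℝ} (hx : x ∈ U Ω c)
    {f : (Fin n → ℂ) → ℂ} {F : (Fin n → ℤˣ) → (Fin n → ℂ) → ℂ} (hF : Admissible Ω c f F) :
    gfun F x = 0 := by
  obtain ⟨W, hW, hxW⟩ := hx
  exact hW.2.2 f F hF x hxW

lemma erode_isOpen {Ω : Set (Fin n → ℝ)} (hΩ : IsOpen Ω) (r : ℝ) :
    IsOpen {x : Fin n → ℝ | Metric.closedBall x r ⊆ Ω} := by
  rw [Metric.isOpen_iff]
  intro x hx
  obtain ⟨δ, hδ, hδΩ⟩ := (isCompact_closedBall x r).exists_thickening_subset_open hΩ hx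
  refine ⟨δ, hδ, fun y hy z hz => hδΩ ?_⟩
  rw [Metric.mem_thickening_iff]
  refine ⟨z - y + x, ?_, ?_⟩
  · rw [Metric.mem_closedBall, dist_eq_norm] at hz ⊢
    simpa using hz
  · have : dist z (z - y + x) = dist y x := by
      rw [dist_eq_norm, dist_eq_norm]
      congr 1
      abel
    rw [this]; exact hy

lemma erode_convex {Ω : Set (Fin n → ℝ)} (hΩ : Convex ℝ Ω) (r : ℝ) :
    Convex ℝ {x : Fin n → ℝ | Metric.closedBall x r ⊆ Ω} := by
  intro x hx y hy a b ha hb hab z hz
  have h1 : z = a • (x + (z - (a • x + b • y))) + b • (y + (z - (a • x + b • y))) := by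
    have h2 : a • (x + (z - (a • x + b • y))) + b • (y + (z - (a • x + b • y))) =
        (a • x + b • y) + (a + b) • (z - (a • x + b • y)) := by
      module
    rw [h2, hab, one_smul]; abel
  rw [h1]
  have hz' : ‖z - (a • x + b • y)‖ ≤ r := by
    rw [Metric.mem_closedBall, dist_eq_norm] at hz; exact hz
  refine hΩ (hx ?_) (hy ?_) ha hb hab
  · rw [Metric.mem_closedBall, dist_eq_norm, add_sub_cancel_left]; exact hz'
  · rw [Metric.mem_closedBall, dist_eq_norm, add_sub_cancel_left]; exact hz'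

lemma erode_closure (Ω : Set (Fin n → ℝ)) {r : ℝ} (hr : 0 < r) :
    closure {x : Fin n → ℝ | Metric.closedBall x r ⊆ Ω} ⊆ Ω := by
  intro x hx
  obtain ⟨y, hy, hxy⟩ := Metric.mem_closure_iff.1 hx r hr
  exact hy hxy.le

/-- Theorem (B), the hard inclusion. -/
theorem U_subset_closure_sepPoly {Ω : Set (Fin n → ℝ)} (hΩ : IsOpen Ω) (hconv : Convex ℝ Ω)
    {c : Fin n → ℝ} (hc : ∀ j, 0 < c j) : U Ω c ⊆ closure (SepPoly Ω c) := by
  intro x1 hx1
  by_contra hcl
  have hopen : IsOpen (Ω ∩ (closure (SepPoly Ω c))ᶜ) := hΩ.inter isClosed_closure.isOpen_compl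
  obtain ⟨r, hr, hrΩ⟩ := Metric.isOpen_iff.1 hopen x1 ⟨U_subset Ω c hx1, hcl⟩
  set ε := r / 4 with hε
  have hε0 : 0 < ε := by positivity
  have hball : Metric.closedBall x1 (2 * ε) ⊆ Ω ∩ (closure (SepPoly Ω c))ᶜ :=
    (Metric.closedBall_subset_ball (by rw [hε]; linarith)).trans hrΩ
  obtain ⟨m1, hm1⟩ := exists_nat_gt (max (1 / ε) (‖x1‖ + ε))
  have hm1a : 1 / ε < m1 := (le_max_left _ _).trans_lt hm1
  have hm1b : ‖x1‖ + ε < m1 := (le_max_right _ _).trans_lt hm1
  have hm1pos : (0:ℝ) < m1 := lt_trans (by positivity) hm1a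
  set W : ℕ → Set (Fin n → ℝ) := fun m => Metric.ball 0 ((m : ℝ) + m1) ∩
    {x | Metric.closedBall x (1 / ((m : ℝ) + m1)) ⊆ Ω} with hW
  have hpos : ∀ m : ℕ, (0:ℝ) < (m : ℝ) + m1 := fun m => by positivity
  have hWo : ∀ m, IsOpen (W m) := fun m => Metric.isOpen_ball.inter (erode_isOpen hΩ _)
  have hWc : ∀ m, Convex ℝ (W m) := fun m => (convex_ball _ _).inter (erode_convex hconv _)
  have hWcl : ∀ m, closure (W m) ⊆ Ω := fun m =>
    (closure_mono inter_subset_right).trans (erode_closure Ω (by have := hpos m; positivity))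
  have hWb : ∀ m, Bornology.IsBounded (W m) := fun m =>
    Metric.isBounded_ball.subset inter_subset_left
  have hWbd : ∀ m, closure (W m) ⊆ Metric.closedBall 0 ((m : ℝ) + m1) := fun m =>
    (closure_mono inter_subset_left).trans Metric.closure_ball_subset_closedBall
  have hballW : ∀ m, Metric.closedBall x1 ε ⊆ W m := by
    intro m a ha
    rw [Metric.mem_closedBall, dist_eq_norm] at ha
    refine ⟨?_, fun b hb => (hball ?_).1⟩
    · rw [mem_ball_zero_iff]
      have h1 : ‖a‖ ≤ ‖x1‖ + ε := by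
        calc ‖a‖ = ‖x1 + (a - x1)‖ := by congr 1; abel
          _ ≤ ‖x1‖ + ‖a - x1‖ := norm_add_le _ _
          _ ≤ _ := by linarith
      have : (0:ℝ) ≤ m := Nat.cast_nonneg m
      linarith
    · rw [Metric.mem_closedBall] at hb ⊢
      have h2 : 1 / ((m : ℝ) + m1) ≤ ε := by
        rw [div_le_iff₀ (hpos m)]
        rw [div_lt_iff₀ hε0] at hm1a
        have : (0:ℝ) ≤ m := Nat.cast_nonneg m
        nlinarith
      calc dist b x1 ≤ dist b a + dist a x1 := dist_triangle _ _ _
        _ ≤ ε + ε := by rw [dist_eq_norm a x1]; linarith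
        _ = 2 * ε := by ring
  have key : ∃ f F, Admissible Ω c f F ∧ gfun F x1 ≠ 0 := by
    refine construction hc W (fun m => tubeBox (frontier (W m)) c) hWc hWo
      (fun m => ⟨x1, hballW m (Metric.mem_closedBall_self hε0.le)⟩)
      (Ω := Ω) ?_ ?_ (fun m t ht j => ht.2 j) ?_ x1 hε0 ?_
    · intro x hx
      obtain ⟨δ, hδ, hδΩ⟩ := Metric.isOpen_iff.1 hΩ x hx
      refine ⟨δ / 4, by positivity, ?_⟩
      obtain ⟨m0, hm0⟩ := exists_nat_gt (max (4 / δ) (‖x‖ + δ))
      have hm0a : 4 / δ < m0 := (le_max_left _ _).trans_lt hm0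
      have hm0b : ‖x‖ + δ < m0 := (le_max_right _ _).trans_lt hm0
      refine ⟨m0, fun m hm a ha => ?_⟩
      have hmm : (m0 : ℝ) ≤ m := Nat.cast_le.2 hm
      rw [Metric.mem_closedBall, dist_eq_norm] at ha
      refine ⟨?_, fun b hb => hδΩ ?_⟩
      · rw [mem_ball_zero_iff]
        have h1 : ‖a‖ ≤ ‖x‖ + δ / 4 := by
          calc ‖a‖ = ‖x + (a - x)‖ := by congr 1; abel
            _ ≤ ‖x‖ + ‖a - x‖ := norm_add_le _ _
            _ ≤ _ := by linarith
        linarith
      · rw [Metric.mem_closedBall] at hb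
        rw [Metric.mem_ball]
        have h2 : 1 / ((m : ℝ) + m1) ≤ δ / 4 := by
          rw [div_le_iff₀ (hpos m)]
          rw [div_lt_iff₀ hδ] at hm0a
          nlinarith
        calc dist b x ≤ dist b a + dist a x := dist_triangle _ _ _
          _ ≤ δ / 4 + δ / 4 := by rw [dist_eq_norm a x]; linarith
          _ < δ := by linarith
    · intro m t ht hmem
      have h1 : (fun j => (t j).re) ∈ W m ∩ frontier (W m) := ⟨hmem, ht.1⟩
      rw [(hWo m).inter_frontier_eq] at h1
      exact h1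
    · intro m
      refine ⟨(m : ℝ) + m1, fun t ht j => ?_⟩
      have h1 := hWbd m (frontier_subset_closure ht.1)
      rw [mem_closedBall_zero_iff] at h1
      exact (norm_le_pi_norm (fun j => (t j).re) j).trans h1
    · intro a ha m
      have h1 : a ∉ SepPoly Ω c := fun h => (hball (Metric.closedBall_subset_closedBall
        (by linarith) ha)).2 (subset_closure h)
      by_contra h2
      exact h1 ⟨W m, hWo m, hWb m, hWcl m, hballW m ha, h2⟩
  obtain ⟨f, F, hF, hg⟩ := key
  exact hg (gfun_zero_of_mem_U hx1 hF)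

/-- Theorem (B): for convex Omega. -/
theorem U_eq_convex {Ω : Set (Fin n → ℝ)} (hΩ : IsOpen Ω) (hconv : Convex ℝ Ω)
    {c : Fin n → ℝ} (hc : ∀ j, 0 < c j) : U Ω c = Ω ∩ interior (closure (SepPoly Ω c)) := by
  refine Subset.antisymm (subset_inter (U_subset Ω c) ?_) ?_
  · exact (U_isOpen Ω c).subset_interior_iff.2 (U_subset_closure_sepPoly hΩ hconv hc)
  · refine Subset.trans ?_ (subset_U_of_sepHol hΩ hc)
    exact inter_subset_inter_right _ (interior_mono (closure_mono (sepPoly_subset_sepHol Ω c)))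

lemma frontier_near {Ω : Set (Fin n → ℝ)} {y v : Fin n → ℝ} {r : ℝ} (hy : y ∈ Ω) (hv : v ∉ Ω)
    (hvy : v ∈ Metric.closedBall y r) : ∃ w ∈ frontier Ω, dist y w ≤ r := by
  have hseg : IsPreconnected (segment ℝ y v) := (convex_segment y v).isPreconnected
  have hsub : segment ℝ y v ⊆ Metric.closedBall y r := by
    have h0 : y ∈ Metric.closedBall y r :=
      Metric.mem_closedBall_self (dist_nonneg.trans hvy)
    exact (convex_closedBall y r).segment_subset h0 hvy
  by_contra hcon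
  push Not at hcon
  have hdis : ∀ w ∈ segment ℝ y v, w ∉ frontier Ω := by
    intro w hw hf
    have h1 := hcon w hf
    have h2 := hsub hw
    rw [Metric.mem_closedBall, dist_comm] at h2
    linarith
  have hcov : segment ℝ y v ⊆ interior Ω ∪ (closure Ω)ᶜ := by
    intro w hw
    by_cases h1 : w ∈ interior Ω
    · exact Or.inl h1
    · refine Or.inr fun h2 => hdis w hw ⟨h2, h1⟩
  have h1 : (segment ℝ y v ∩ interior Ω).Nonempty := by
    refine ⟨y, left_mem_segment ℝ y v, ?_⟩
    rcases hcov (left_mem_segment ℝ y v) with h | h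
    · exact h
    · exact absurd (subset_closure hy) h
  have h2 : (segment ℝ y v ∩ (closure Ω)ᶜ).Nonempty := by
    refine ⟨v, right_mem_segment ℝ y v, ?_⟩
    rcases hcov (right_mem_segment ℝ y v) with h | h
    · exact absurd (interior_subset h) hv
    · exact h
  obtain ⟨w, -, hw1, hw2⟩ := hseg _ _ isOpen_interior isClosed_closure.isOpen_compl hcov h1 h2
  exact hw2 (interior_subset_closure hw1)

/-- points of a bounded open Omega off the polynomial hull of bd Omega + i box lie in SepPoly -/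
lemma diff_hull_subset {Ω : Set (Fin n → ℝ)} (hΩ : IsOpen Ω) (hb : Bornology.IsBounded Ω)
    {c : Fin n → ℝ} :
    {x | x ∈ Ω ∧ (fun j => (x j : ℂ)) ∉ polyHull (tubeBox (frontier Ω) c)} ⊆ SepPoly Ω c := by
  rintro x ⟨hx, hsep⟩
  have hsep2 : ∃ (p : MvPolynomial (Fin n) ℂ) (M : ℝ),
      (∀ t ∈ tubeBox (frontier Ω) c, ‖MvPolynomial.eval t p‖ ≤ M) ∧
      M < ‖MvPolynomial.eval (fun j => (x j : ℂ)) p‖ := by
    by_contra hcon
    push Not at hcon
    exact hsep fun p M hM => hcon p M hM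
  obtain ⟨p, M, hM, hlt⟩ := hsep2
  obtain ⟨M', hM1, hM2⟩ := exists_between hlt
  have hcl : IsCompact (closure Ω) := hb.isCompact_closure
  have hT : IsCompact (tubeBox (frontier Ω) c) :=
    isCompact_tubeBox (hcl.of_isClosed_subset isClosed_frontier frontier_subset_closure) c
  have hO : IsOpen {z : Fin n → ℂ | ‖MvPolynomial.eval z p‖ < M'} :=
    isOpen_lt (differentiable_eval p).continuous.norm continuous_const
  obtain ⟨r0, hr0, hr0'⟩ := hT.exists_cthickening_subset_open hO
    (fun z hz => (hM z hz).trans_lt hM1)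
  obtain ⟨r1, hr1, hr1'⟩ := Metric.isOpen_iff.1 hΩ x hx
  set r := min r0 (r1 / 2) with hr
  have hrpos : 0 < r := lt_min hr0 (by positivity)
  set W := {y : Fin n → ℝ | Metric.closedBall y r ⊆ Ω} with hW
  have hWo : IsOpen W := erode_isOpen hΩ r
  have hWcl : closure W ⊆ Ω := erode_closure Ω hrpos
  have hWΩ : W ⊆ Ω := subset_closure.trans hWcl
  have hxW : x ∈ W := by
    refine Subset.trans (Metric.closedBall_subset_ball ?_) hr1'
    have := min_le_right r0 (r1 / 2)
    rw [← hr] at this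
    linarith
  refine ⟨W, hWo, hb.subset hWΩ, hWcl, hxW, fun hh => ?_⟩
  have h1 := hh p M' ?_
  · linarith
  · intro t ht
    have hyΩ : (fun j => (t j).re) ∈ Ω := hWcl (frontier_subset_closure ht.1)
    have hyW : (fun j => (t j).re) ∉ W := by
      intro h
      have h1 : (fun j => (t j).re) ∈ W ∩ frontier W := ⟨h, ht.1⟩
      rw [hWo.inter_frontier_eq] at h1
      exact h1
    have hyW2 : ¬ (Metric.closedBall (fun j => (t j).re) r ⊆ Ω) := hyW
    obtain ⟨v, hv1, hv2⟩ := not_subset.1 hyW2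
    obtain ⟨w, hw, hyw⟩ := frontier_near hyΩ hv2 hv1
    have ht' : pt w (fun j => (t j).im) ∈ tubeBox (frontier Ω) c :=
      ⟨by rw [pt_re]; exact hw, fun j => by rw [pt_im]; exact ht.2 j⟩
    refine (hr0' (Metric.mem_cthickening_of_dist_le _ _ _ _ ht' ?_)).le
    have h2 : dist (pt (fun j => (t j).re) (fun j => (t j).im)) (pt w (fun j => (t j).im)) ≤
        r + 0 := by
      refine dist_pt_le (fun j => ?_) (fun j => by simp) (by linarith)
      exact (Real.dist_eq _ _ ▸ dist_le_pi_dist (fun j => (t j).re) w j).trans hyw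
    rw [pt_re_im, add_zero] at h2
    exact h2.trans (min_le_left _ _)

/-- Theorem (C): for bounded convex Omega. -/
theorem U_eq_convex_bounded {Ω : Set (Fin n → ℝ)} (hΩ : IsOpen Ω) (hconv : Convex ℝ Ω)
    (hb : Bornology.IsBounded Ω) {c : Fin n → ℝ} (hc : ∀ j, 0 < c j) :
    U Ω c = Ω ∩ interior (closure
      {x | x ∈ Ω ∧ (fun j => (x j : ℂ)) ∉ polyHull (tubeBox (frontier Ω) c)}) := by
  refine Subset.antisymm (subset_inter (U_subset Ω c) ?_) ?_
  · refine (U_isOpen Ω c).subset_interior_iff.2 fun x1 hx1 => ?_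
    by_contra hcl
    set T := {x | x ∈ Ω ∧ (fun j => (x j : ℂ)) ∉ polyHull (tubeBox (frontier Ω) c)} with hT
    have hopen : IsOpen (Ω ∩ (closure T)ᶜ) := hΩ.inter isClosed_closure.isOpen_compl
    obtain ⟨r, hr, hrΩ⟩ := Metric.isOpen_iff.1 hopen x1 ⟨U_subset Ω c hx1, hcl⟩
    have hball : Metric.closedBall x1 (r / 2) ⊆ Ω ∩ (closure T)ᶜ :=
      (Metric.closedBall_subset_ball (by linarith)).trans hrΩ
    have key : ∃ f F, Admissible Ω c f F ∧ gfun F x1 ≠ 0 := by
      refine construction hc (fun _ => Ω) (fun _ => tubeBox (frontier Ω) c)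
        (fun _ => hconv) (fun _ => hΩ) (fun _ => ⟨x1, U_subset Ω c hx1⟩)
        (Ω := Ω) ?_ ?_ (fun m t ht j => ht.2 j) ?_ x1 (show 0 < r / 2 by positivity) ?_
      · intro x hx
        obtain ⟨δ, hδ, hδΩ⟩ := Metric.isOpen_iff.1 hΩ x hx
        exact ⟨δ / 2, by positivity, 0, fun m _ =>
          (Metric.closedBall_subset_ball (by linarith)).trans hδΩ⟩
      · intro m t ht hmem
        have h1 : (fun j => (t j).re) ∈ Ω ∩ frontier Ω := ⟨hmem, ht.1⟩
        rw [hΩ.inter_frontier_eq] at h1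
        exact h1
      · intro m
        obtain ⟨B, hB⟩ := hb.isCompact_closure.isBounded.exists_norm_le
        refine ⟨B, fun t ht j => ?_⟩
        exact (norm_le_pi_norm (fun j => (t j).re) j).trans (hB _ (frontier_subset_closure ht.1))
      · intro a ha m
        by_contra h2
        have h3 : a ∈ T := ⟨(hball ha).1, h2⟩
        exact (hball ha).2 (subset_closure h3)
    obtain ⟨f, F, hF, hg⟩ := key
    exact hg (gfun_zero_of_mem_U hx1 hF)
  · rw [U_eq_convex hΩ hconv hc]
    exact inter_subset_inter_right _ (interior_mono (closure_mono (diff_hull_subset hΩ hb)))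

end Pool.Agent.Helper140.TT
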